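import Mathlib

set_option autoImplicit false

namespace Pool.Agent.H21.CFG

variable {T : Type*}

/-- big-step semantics of a context-free grammar: the sentential form generates the word -/
inductive GenL (g : ContextFreeGrammar T) : List (Symbol T g.NT) → List T → Prop
  | nil : GenL g [] []
  | term (t : T) (s : List (Symbol T g.NT)) (w : List T) (h : GenL g s w) :
      GenL g (Symbol.terminal t :: s) (t :: w)
  | nt (r : ContextFreeRule T g.NT) (hr : r ∈ g.rules) (s : List (Symbol T g.NT)) (u w : List T)
      (h1 : GenL g r.output u) (h2 : GenL g s w) :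
      GenL g (Symbol.nonterminal r.input :: s) (u ++ w)

theorem GenL.append {g : ContextFreeGrammar T} {s1 s2 : List (Symbol T g.NT)} {w1 w2 : List T}
    (h1 : GenL g s1 w1) (h2 : GenL g s2 w2) : GenL g (s1 ++ s2) (w1 ++ w2) := by
  induction h1 with
  | nil => exact h2
  | term t s w h ih => exact GenL.term t _ _ ih
  | nt r hr s u w h1 h3 ih1 ih3 =>
    rw [List.append_assoc]
    exact GenL.nt r hr _ _ _ h1 ih3

theorem GenL.split {g : ContextFreeGrammar T} {s2 : List (Symbol T g.NT)} :
    ∀ {s1 : List (Symbol T g.NT)} {w : List T}, GenL g (s1 ++ s2) w →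
    ∃ w1 w2, w = w1 ++ w2 ∧ GenL g s1 w1 ∧ GenL g s2 w2 := by
  intro s1
  induction s1 with
  | nil => intro w h; exact ⟨[], w, rfl, GenL.nil, h⟩
  | cons x s ih =>
    intro w h
    rw [List.cons_append] at h
    cases h with
    | term t s' w' h' =>
      obtain ⟨w1, w2, e, h1, h2⟩ := ih h'
      exact ⟨t :: w1, w2, by rw [e]; rfl, GenL.term t _ _ h1, h2⟩
    | nt r hr s' u w' h1' h2' =>
      obtain ⟨w1, w2, e, h1, h2⟩ := ih h2'
      exact ⟨u ++ w1, w2, by rw [e, List.append_assoc], GenL.nt r hr _ _ _ h1' h1, h2⟩

theorem GenL.rule {g : ContextFreeGrammar T} (r : ContextFreeRule T g.NT) (hr : r ∈ g.rules)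
    {u : List T} (h : GenL g r.output u) : GenL g [Symbol.nonterminal r.input] u := by
  have := GenL.nt r hr [] u [] h GenL.nil
  rwa [List.append_nil] at this

theorem genL_of_map (g : ContextFreeGrammar T) (w : List T) :
    GenL g (w.map Symbol.terminal) w := by
  induction w with
  | nil => exact GenL.nil
  | cons t w ih => exact GenL.term t _ _ ih

theorem derives_of_genL {g : ContextFreeGrammar T} {s : List (Symbol T g.NT)} {w : List T}
    (h : GenL g s w) : g.Derives s (w.map Symbol.terminal) := by
  induction h with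
  | nil => exact Relation.ReflTransGen.refl
  | term t s w h ih =>
    have := ih.append_left [Symbol.terminal t]
    simpa using this
  | nt r hr s u w h1 h2 ih1 ih2 =>
    have h3 : g.Produces (Symbol.nonterminal r.input :: s) (r.output ++ s) :=
      ⟨r, hr, ContextFreeRule.Rewrites.head s⟩
    have h4 := ih1.append_right s
    have h5 := ih2.append_left (u.map Symbol.terminal)
    rw [List.map_append]
    exact (Relation.ReflTransGen.head h3 (h4.trans h5))

theorem genL_of_derives {g : ContextFreeGrammar T} {s : List (Symbol T g.NT)} {w : List T}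
    (h : g.Derives s (w.map Symbol.terminal)) : GenL g s w := by
  induction h using Relation.ReflTransGen.head_induction_on with
  | refl => exact genL_of_map g w
  | head h1 _ ih =>
    obtain ⟨r, hr, hrw⟩ := h1
    obtain ⟨p, q, rfl, rfl⟩ := hrw.exists_parts
    obtain ⟨w1, w2, rfl, g1, g2⟩ := GenL.split ih
    obtain ⟨w3, w4, rfl, g3, g4⟩ := GenL.split g1
    exact (g3.append (GenL.rule r hr g4)).append g2

theorem mem_language_iff (g : ContextFreeGrammar T) (w : List T) :
    w ∈ g.language ↔ GenL g [Symbol.nonterminal g.initial] w :=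
  ⟨fun h => genL_of_derives h, fun h => derives_of_genL h⟩

/-- semantics of sentential forms given semantics of nonterminals -/
def semL {N : Type*} (sem : N → List T → Prop) : List (Symbol T N) → List T → Prop
  | [], w => w = []
  | Symbol.terminal t :: s, w => ∃ w', w = t :: w' ∧ semL sem s w'
  | Symbol.nonterminal X :: s, w => ∃ u v, w = u ++ v ∧ sem X u ∧ semL sem s v

theorem sound {g : ContextFreeGrammar T} (sem : g.NT → List T → Prop)
    (hs : ∀ r ∈ g.rules, ∀ u, semL sem r.output u → sem r.input u)
    {s : List (Symbol T g.NT)} {w : List T} (h : GenL g s w) : semL sem s w := by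
  induction h with
  | nil => rfl
  | term t s w h ih => exact ⟨w, rfl, ih⟩
  | nt r hr s u w h1 h2 ih1 ih2 => exact ⟨u, w, rfl, hs r hr u ih1, ih2⟩

end Pool.Agent.H21.CFG
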