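import Mathlib

set_option autoImplicit false

/-! Exceptional set: points whose first coordinate is infinitely often extremely close to
dyadic points.  Its Hausdorff dimension is at most one. -/

namespace Pool.Agent.H21.Dim

open MeasureTheory Filter Topology Set
open scoped ENNReal NNReal

/-- thresholds -/
noncomputable def a (j : ℕ) : ℝ := (1 / 2 : ℝ) ^ (j * j)

lemma a_pos (j : ℕ) : 0 < a j := by unfold a; positivity

/-- radius -/
noncomputable def w (j : ℕ) : ℝ := (1 / 2 : ℝ) ^ (j * j + j)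

lemma w_pos (j : ℕ) : 0 < w j := by unfold w; positivity

lemma w_eq (j : ℕ) : w j = a j / 2 ^ j := by
  unfold w a; rw [pow_add, eq_div_iff (by positivity), mul_assoc, ← mul_pow]; norm_num

def Off (j : ℕ) (x : ℝ) : Prop := a j ≤ |Real.sin (Real.pi * (2 ^ j * x))|

lemma sin_lower (u : ℝ) (hu : |u| ≤ 1 / 2) : 2 * |u| ≤ |Real.sin (Real.pi * u)| := by
  have hpi := Real.pi_pos
  have h1 : |Real.pi * u| ≤ Real.pi := by
    rw [abs_mul, abs_of_pos hpi]; nlinarith [abs_nonneg u]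
  rw [Real.abs_sin_eq_sin_abs_of_abs_le_pi h1, abs_mul, abs_of_pos hpi]
  have h2 := Real.mul_le_sin (x := Real.pi * |u|) (by positivity) (by nlinarith [abs_nonneg u])
  calc 2 * |u| = 2 / Real.pi * (Real.pi * |u|) := by field_simp
    _ ≤ _ := h2

lemma near_int {j : ℕ} {x : ℝ} (h : ¬ Off j x) : ∃ m : ℤ, |x - m / 2 ^ j| ≤ w j / 2 := by
  unfold Off at h
  push Not at h
  refine ⟨round (2 ^ j * x), ?_⟩
  set m := round (2 ^ j * x) with hm
  have h1 : |2 ^ j * x - m| ≤ 1 / 2 := abs_sub_round _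
  have h2 := sin_lower _ h1
  have h3 : |Real.sin (Real.pi * (2 ^ j * x - m))| = |Real.sin (Real.pi * (2 ^ j * x))| := by
    rw [mul_sub, show Real.pi * (m : ℝ) = (m : ℝ) * Real.pi by ring, Real.sin_sub_int_mul_pi,
      abs_mul]
    rcases Int.even_or_odd m with he | ho
    · rw [he.neg_one_zpow]; simp
    · rw [ho.neg_one_zpow]; simp
  rw [h3] at h2
  have h4 : |2 ^ j * x - m| ≤ a j / 2 := by linarith
  have hp : (0 : ℝ) < 2 ^ j := by positivity
  have h5 : x - m / 2 ^ j = (2 ^ j * x - m) / 2 ^ j := by field_simp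
  rw [h5, abs_div, abs_of_pos hp, w_eq]
  rw [div_le_iff₀ hp]
  calc |2 ^ j * x - m| ≤ a j / 2 := h4
    _ = a j / 2 ^ j / 2 * 2 ^ j := by field_simp

/-- exceptional points in a box -/
def ZB (M : ℕ) : Set (ℝ × ℝ) := {p | (∃ᶠ j in atTop, ¬ Off j p.1) ∧ |p.1| ≤ M ∧ |p.2| ≤ M}

def nA (M j : ℕ) : ℤ := (M * 2 ^ j + 1 : ℕ)
def nB (M j : ℕ) : ℤ := (M * 2 ^ (j * j + j) + 1 : ℕ)

noncomputable def idx (M j : ℕ) : Finset (ℤ × ℤ) := Finset.Icc (-nA M j) (nA M j) ×ˢ Finset.Icc (-nB M j) (nB M j)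

lemma idx_card (M j : ℕ) : ((idx M j).card : ℝ≥0∞) ≤
    ((2 * M + 3) ^ 2 : ℕ) * 2 ^ (j * j + 2 * j) := by
  unfold idx
  rw [Finset.card_product, Int.card_Icc, Int.card_Icc]
  have h1 : (nA M j + 1 - -nA M j).toNat = 2 * (M * 2 ^ j + 1) + 1 := by
    unfold nA; omega
  have h2 : (nB M j + 1 - -nB M j).toNat = 2 * (M * 2 ^ (j * j + j) + 1) + 1 := by
    unfold nB; omega
  rw [h1, h2]
  have h3 : 2 * (M * 2 ^ j + 1) + 1 ≤ (2 * M + 3) * 2 ^ j := by
    have : 1 ≤ 2 ^ j := Nat.one_le_two_pow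
    nlinarith
  have h4 : 2 * (M * 2 ^ (j * j + j) + 1) + 1 ≤ (2 * M + 3) * 2 ^ (j * j + j) := by
    have : 1 ≤ 2 ^ (j * j + j) := Nat.one_le_two_pow
    nlinarith
  have h5 := Nat.mul_le_mul h3 h4
  have h6 : (2 * M + 3) * 2 ^ j * ((2 * M + 3) * 2 ^ (j * j + j)) =
      (2 * M + 3) ^ 2 * 2 ^ (j * j + 2 * j) := by
    rw [show j * j + 2 * j = j + (j * j + j) by ring, pow_add]; ring
  rw [h6] at h5
  exact_mod_cast h5

noncomputable def sq (j : ℕ) (q : ℤ × ℤ) : Set (ℝ × ℝ) :=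
  Metric.closedBall ((q.1 / 2 ^ j : ℝ), (q.2 * w j : ℝ)) (w j / 2)

lemma ediam_sq (j : ℕ) (q : ℤ × ℤ) : Metric.ediam (sq j q) ≤ ENNReal.ofReal (w j) := by
  refine Metric.ediam_le_of_forall_dist_le fun x hx y hy => ?_
  have h1 := Metric.mem_closedBall.mp hx
  have h2 := Metric.mem_closedBall.mp hy
  calc dist x y ≤ dist x _ + dist y _ := dist_triangle_right _ _ _
    _ ≤ w j / 2 + w j / 2 := add_le_add h1 h2
    _ = w j := by ring

lemma cover (M : ℕ) {p : ℝ × ℝ} {j : ℕ} (h : ¬ Off j p.1) (h1 : |p.1| ≤ M) (h2 : |p.2| ≤ M) :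
    ∃ q ∈ idx M j, p ∈ sq j q := by
  obtain ⟨m, hm⟩ := near_int h
  have hw := w_pos j
  have hp : (0 : ℝ) < 2 ^ j := by positivity
  set l := round (p.2 / w j) with hl
  have h3 : |p.2 / w j - l| ≤ 1 / 2 := abs_sub_round _
  have h4 : |p.2 - l * w j| ≤ w j / 2 := by
    have : p.2 - l * w j = (p.2 / w j - l) * w j := by field_simp
    rw [this, abs_mul, abs_of_pos hw]
    nlinarith
  refine ⟨(m, l), ?_, ?_⟩
  · have hw1 : w j ≤ 1 := by unfold w; exact pow_le_one₀ (by norm_num) (by norm_num)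
    have hwj : w j / 2 * 2 ^ j ≤ 1 / 2 := by
      rw [w_eq]
      have : a j ≤ 1 := by unfold a; exact pow_le_one₀ (by norm_num) (by norm_num)
      have e : a j / 2 ^ j / 2 * 2 ^ j = a j / 2 := by field_simp
      rw [e]; linarith
    have e1 : |(m : ℝ)| ≤ (nA M j : ℝ) := by
      have e2 : |(m : ℝ) / 2 ^ j| ≤ M + w j / 2 := by
        calc |(m : ℝ) / 2 ^ j| = |p.1 - (p.1 - m / 2 ^ j)| := by congr 1; ring
          _ ≤ |p.1| + |p.1 - m / 2 ^ j| := abs_sub _ _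
          _ ≤ M + w j / 2 := add_le_add h1 hm
      rw [abs_div, abs_of_pos hp, div_le_iff₀ hp] at e2
      have : (nA M j : ℝ) = M * 2 ^ j + 1 := by unfold nA; push_cast; ring
      rw [this]
      nlinarith
    have e3 : |(l : ℝ)| ≤ (nB M j : ℝ) := by
      have hinv : (w j)⁻¹ = 2 ^ (j * j + j) := by
        unfold w; rw [← inv_pow]; norm_num
      have e4 : |p.2 / w j| ≤ M * 2 ^ (j * j + j) := by
        rw [div_eq_mul_inv, abs_mul, hinv, abs_of_pos (by positivity : (0:ℝ) < 2 ^ (j * j + j))]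
        gcongr
      have : (nB M j : ℝ) = M * 2 ^ (j * j + j) + 1 := by unfold nB; push_cast; ring
      rw [this]
      calc |(l : ℝ)| = |p.2 / w j - (p.2 / w j - l)| := by congr 1; ring
        _ ≤ |p.2 / w j| + |p.2 / w j - l| := abs_sub _ _
        _ ≤ M * 2 ^ (j * j + j) + 1 := by linarith
    unfold idx
    rw [Finset.mem_product, Finset.mem_Icc, Finset.mem_Icc]
    rw [abs_le] at e1 e3
    obtain ⟨a1, a2⟩ := e1
    obtain ⟨a3, a4⟩ := e3
    refine ⟨⟨?_, ?_⟩, ?_, ?_⟩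
    · exact_mod_cast a1
    · exact_mod_cast a2
    · exact_mod_cast a3
    · exact_mod_cast a4
  · unfold sq
    rw [Metric.mem_closedBall, Prod.dist_eq, max_le_iff, Real.dist_eq, Real.dist_eq]
    exact ⟨hm, h4⟩

end Pool.Agent.H21.Dim
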