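import Pool.Agent.H21.Dim1

set_option autoImplicit false

namespace Pool.Agent.H21.Dim

open MeasureTheory Filter Topology Set
open scoped ENNReal NNReal

/-- total weight of the squares of level `j` -/
lemma level_sum (M : ℕ) (d : ℝ) (hd : 1 < d) (j : ℕ) (hj : 2 / (d - 1) ≤ j) :
    ((idx M j).card : ℝ≥0∞) * ENNReal.ofReal (w j) ^ d ≤
      ((2 * M + 3) ^ 2 : ℕ) * (2⁻¹ : ℝ≥0∞) ^ j := by
  have hd0 : 0 < d - 1 := by linarith
  have h1 := idx_card M j
  have hjj : (2 : ℝ) ≤ (d - 1) * j := by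
    rw [div_le_iff₀ hd0] at hj; linarith
  have hw : ENNReal.ofReal (w j) ^ d = ENNReal.ofReal ((2 : ℝ) ^ (-(d * (j * j + j)))) := by
    rw [ENNReal.ofReal_rpow_of_pos (w_pos j)]
    congr 1
    unfold w
    rw [← Real.rpow_natCast, ← Real.rpow_mul (by norm_num), one_div, Real.inv_rpow (by norm_num),
      ← Real.rpow_neg (by norm_num)]
    congr 1
    push_cast
    ring
  have h2 : (2 : ℝ≥0∞) ^ (j * j + 2 * j) * ENNReal.ofReal (w j) ^ d ≤ (2⁻¹ : ℝ≥0∞) ^ j := by
    rw [hw]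
    have e1 : (2 : ℝ≥0∞) ^ (j * j + 2 * j) = ENNReal.ofReal ((2 : ℝ) ^ ((j : ℝ) * j + 2 * j)) := by
      have : (2 : ℝ) ^ ((j : ℝ) * j + 2 * j) = (2 : ℝ) ^ (j * j + 2 * j) := by
        rw [← Real.rpow_natCast]; congr 1; push_cast; ring
      rw [this, ENNReal.ofReal_pow (by norm_num)]
      norm_num
    have e2 : (2⁻¹ : ℝ≥0∞) ^ j = ENNReal.ofReal ((2 : ℝ) ^ (-(j : ℝ))) := by
      rw [Real.rpow_neg (by norm_num), Real.rpow_natCast, ENNReal.ofReal_inv_of_pos (by positivity),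
        ENNReal.ofReal_pow (by norm_num), ENNReal.inv_pow]
      norm_num
    rw [e1, e2, ← ENNReal.ofReal_mul (by positivity), ← Real.rpow_add (by norm_num)]
    apply ENNReal.ofReal_le_ofReal
    apply Real.rpow_le_rpow_of_exponent_le (by norm_num)
    have hj0 : (0 : ℝ) ≤ j := by positivity
    nlinarith [mul_le_mul_of_nonneg_right hjj hj0]
  calc ((idx M j).card : ℝ≥0∞) * ENNReal.ofReal (w j) ^ d
      ≤ (((2 * M + 3) ^ 2 : ℕ) * 2 ^ (j * j + 2 * j)) * ENNReal.ofReal (w j) ^ d := by gcongr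
    _ = ((2 * M + 3) ^ 2 : ℕ) * (2 ^ (j * j + 2 * j) * ENNReal.ofReal (w j) ^ d) := by ring
    _ ≤ _ := by gcongr

lemma hausdorff_ZB (M : ℕ) (d : ℝ) (hd : 1 < d) : μH[d] (ZB M) = 0 := by
  have hd0 : 0 < d - 1 := by linarith
  obtain ⟨j0, hj0⟩ := exists_nat_ge (2 / (d - 1))
  let ι : ℕ → Type := fun J => Σ i : ℕ, (idx M (J + i) : Finset (ℤ × ℤ))
  let t : ∀ J : ℕ, ι J → Set (ℝ × ℝ) := fun J x => sq (J + x.1) x.2.1
  have hmono : Antitone w := by
    intro i j hij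
    unfold w
    apply pow_le_pow_of_le_one (by norm_num) (by norm_num)
    nlinarith
  have h := Measure.hausdorffMeasure_le_liminf_tsum (ι := ι) d (ZB M) (l := atTop)
    (fun J => ENNReal.ofReal (w J)) ?_ t ?_ ?_
  · refine le_antisymm (h.trans ?_) zero_le
    have hb : ∀ᶠ J in atTop, ∑' x : ι J, Metric.ediam (t J x) ^ d ≤
        ((2 * M + 3) ^ 2 : ℕ) * (2 * (2⁻¹ : ℝ≥0∞) ^ J) := by
      filter_upwards [eventually_ge_atTop j0] with J hJ
      calc ∑' x : ι J, Metric.ediam (t J x) ^ d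
          = ∑' i : ℕ, ∑' q : (idx M (J + i) : Finset (ℤ × ℤ)), Metric.ediam (sq (J + i) q.1) ^ d :=
            ENNReal.tsum_sigma' _
        _ ≤ ∑' i : ℕ, ((2 * M + 3) ^ 2 : ℕ) * (2⁻¹ : ℝ≥0∞) ^ (J + i) := by
            refine ENNReal.tsum_le_tsum fun i => ?_
            calc ∑' q : (idx M (J + i) : Finset (ℤ × ℤ)), Metric.ediam (sq (J + i) q.1) ^ d
                ≤ ∑' q : (idx M (J + i) : Finset (ℤ × ℤ)), ENNReal.ofReal (w (J + i)) ^ d := by
                  refine ENNReal.tsum_le_tsum fun q => ?_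
                  exact ENNReal.rpow_le_rpow (ediam_sq _ _) (by linarith)
              _ = ((idx M (J + i)).card : ℝ≥0∞) * ENNReal.ofReal (w (J + i)) ^ d := by
                  rw [tsum_fintype, Finset.sum_const, nsmul_eq_mul, Finset.card_univ,
                    Fintype.card_coe]
              _ ≤ _ := by
                  apply level_sum M d hd
                  refine hj0.trans ?_
                  exact_mod_cast (by omega : j0 ≤ J + i)
        _ = ((2 * M + 3) ^ 2 : ℕ) * (2 * (2⁻¹ : ℝ≥0∞) ^ J) := by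
            rw [ENNReal.tsum_mul_left]
            congr 1
            simp_rw [pow_add]
            rw [ENNReal.tsum_mul_left, ENNReal.tsum_geometric, ENNReal.one_sub_inv_two, inv_inv,
              mul_comm]
    have ht : Tendsto (fun J : ℕ => (((2 * M + 3) ^ 2 : ℕ) : ℝ≥0∞) * (2 * (2⁻¹ : ℝ≥0∞) ^ J))
        atTop (𝓝 0) := by
      have h1 : Tendsto (fun J : ℕ => (2⁻¹ : ℝ≥0∞) ^ J) atTop (𝓝 0) :=
        ENNReal.tendsto_pow_atTop_nhds_zero_of_lt_one (by norm_num)
      have h2 := ENNReal.Tendsto.const_mul (a := (2 : ℝ≥0∞)) h1 (Or.inr (by norm_num))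
      have h3 := ENNReal.Tendsto.const_mul (a := (((2 * M + 3) ^ 2 : ℕ) : ℝ≥0∞)) h2
        (Or.inr (by finiteness))
      simpa using h3
    calc liminf (fun J => ∑' x : ι J, Metric.ediam (t J x) ^ d) atTop
        ≤ liminf (fun J : ℕ => (((2 * M + 3) ^ 2 : ℕ) : ℝ≥0∞) * (2 * (2⁻¹ : ℝ≥0∞) ^ J)) atTop :=
          liminf_le_liminf hb
      _ = 0 := ht.liminf_eq
  · -- radii tend to zero
    have h1 : Tendsto w atTop (𝓝 0) := by
      have h2 : Tendsto (fun j : ℕ => (1 / 2 : ℝ) ^ j) atTop (𝓝 0) :=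
        tendsto_pow_atTop_nhds_zero_of_lt_one (by norm_num) (by norm_num)
      refine squeeze_zero (fun j => (w_pos j).le) (fun j => ?_) h2
      unfold w
      apply pow_le_pow_of_le_one (by norm_num) (by norm_num)
      omega
    have := ENNReal.tendsto_ofReal h1
    simpa using this
  · refine Eventually.of_forall fun J x => ?_
    refine (ediam_sq _ _).trans (ENNReal.ofReal_le_ofReal (hmono (by omega)))
  · refine Eventually.of_forall fun J p hp => ?_
    obtain ⟨h1, h2, h3⟩ := hp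
    obtain ⟨j, hj, hoff⟩ := (frequently_atTop.mp h1) J
    obtain ⟨q, hq, hpq⟩ := cover M hoff h2 h3
    obtain ⟨i, rfl⟩ := Nat.exists_eq_add_of_le hj
    exact Set.mem_iUnion.mpr ⟨⟨i, ⟨q, hq⟩⟩, hpq⟩

/-- all exceptional points (first coordinate) -/
def Zx : Set (ℝ × ℝ) := {p | ∃ᶠ j in atTop, ¬ Off j p.1}

lemma dimH_Zx : dimH Zx ≤ 1 := by
  have h1 : Zx ⊆ ⋃ M : ℕ, ZB M := by
    intro p hp
    obtain ⟨M, hM⟩ := exists_nat_ge (max |p.1| |p.2|)
    exact Set.mem_iUnion.mpr ⟨M, hp, (le_max_left _ _).trans hM, (le_max_right _ _).trans hM⟩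
  refine (dimH_mono h1).trans ?_
  rw [dimH_iUnion]
  refine iSup_le fun M => ?_
  refine dimH_le fun d' hd' => ?_
  by_contra hcon
  push Not at hcon
  have h2 : (1 : ℝ) < d' := by exact_mod_cast hcon
  rw [hausdorff_ZB M d' h2] at hd'
  exact absurd hd' (by simp)

def Zy : Set (ℝ × ℝ) := {p | ∃ᶠ j in atTop, ¬ Off j p.2}

lemma dimH_Zy : dimH Zy ≤ 1 := by
  have h1 : Zy = Prod.swap '' Zx := by
    ext p
    constructor
    · intro hp
      exact ⟨p.swap, hp, Prod.swap_swap p⟩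
    · rintro ⟨q, hq, rfl⟩
      exact hq
  rw [h1]
  have h2 : LipschitzWith 1 (Prod.swap : ℝ × ℝ → ℝ × ℝ) := by
    refine LipschitzWith.mk_one fun x y => ?_
    rw [Prod.dist_eq, Prod.dist_eq]
    simp [max_comm]
  exact (h2.dimH_image_le Zx).trans dimH_Zx

end Pool.Agent.H21.Dim
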