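import Pool.Agent.H21.Dim2

set_option autoImplicit false

namespace Pool.Agent.H21.Dim

open MeasureTheory Filter Topology Set
open scoped ENNReal NNReal

/-- continuous version of the `j`-th binary digit -/
noncomputable def dig (j : ℕ) (x : ℝ) : ℝ :=
  max 0 (min 1 (1 / 2 - Real.sin (Real.pi * (2 ^ j * x)) / (2 * a j)))

lemma dig_cont (j : ℕ) : Continuous (dig j) := by
  unfold dig; fun_prop

lemma dig_nonneg (j : ℕ) (x : ℝ) : 0 ≤ dig j x := le_max_left _ _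

lemma dig_le (j : ℕ) (x : ℝ) : dig j x ≤ 1 := max_le (by norm_num) (min_le_left _ _)

lemma dig_eq {j : ℕ} {x : ℝ} (h : Off j x) : dig j x = ((⌊(2 : ℝ) ^ j * x⌋ % 2 : ℤ) : ℝ) := by
  have ha := a_pos j
  unfold Off at h
  unfold dig
  set y := (2 : ℝ) ^ j * x with hy
  set n := ⌊y⌋ with hn
  have h1 : Real.sin (Real.pi * y) = (-1) ^ n * Real.sin (Real.pi * (y - n)) := by
    have : Real.pi * y = Real.pi * (y - n) + n * Real.pi := by ring
    rw [this, Real.sin_add_int_mul_pi]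
  have h0 : 0 ≤ y - n := by have := Int.floor_le y; linarith
  have h0' : y - n ≤ 1 := by have := (Int.lt_floor_add_one y).le; linarith
  have h2 : 0 ≤ Real.sin (Real.pi * (y - n)) :=
    Real.sin_nonneg_of_nonneg_of_le_pi (by have := Real.pi_pos; positivity)
      (by nlinarith [Real.pi_pos])
  rcases Int.even_or_odd n with he | ho
  · rw [he.neg_one_zpow, one_mul] at h1
    rw [Int.even_iff.mp he]
    rw [h1, abs_of_nonneg h2] at h
    rw [h1]
    have h3 : 1 / 2 - Real.sin (Real.pi * (y - n)) / (2 * a j) ≤ 0 := by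
      have : 1 / 2 ≤ Real.sin (Real.pi * (y - n)) / (2 * a j) := by
        rw [le_div_iff₀ (by positivity)]; linarith
      linarith
    rw [min_eq_right (by linarith), max_eq_left h3]
    simp
  · rw [ho.neg_one_zpow] at h1
    rw [Int.odd_iff.mp ho]
    rw [h1, abs_mul, abs_of_nonneg h2] at h
    rw [h1]
    simp only [abs_neg, abs_one, one_mul] at h
    have h3 : 1 ≤ 1 / 2 - -1 * Real.sin (Real.pi * (y - n)) / (2 * a j) := by
      have : 1 / 2 ≤ Real.sin (Real.pi * (y - n)) / (2 * a j) := by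
        rw [le_div_iff₀ (by positivity)]; linarith
      have e : -1 * Real.sin (Real.pi * (y - n)) / (2 * a j) =
        -(Real.sin (Real.pi * (y - n)) / (2 * a j)) := by ring
      rw [e]; linarith
    rw [min_eq_left h3]
    simp

lemma floor_step (y : ℝ) : ⌊2 * y⌋ = 2 * ⌊y⌋ + ⌊2 * y⌋ % 2 := by
  have h1 : 2 * ⌊y⌋ ≤ ⌊2 * y⌋ := by
    rw [Int.le_floor]; push_cast; have := Int.floor_le y; linarith
  have h2 : ⌊2 * y⌋ < 2 * ⌊y⌋ + 2 := by
    rw [Int.floor_lt]; push_cast; have := Int.lt_floor_add_one y; linarith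
  omega

section
variable (β : ℝ) (k : ℕ)

/-- the coding function -/
noncomputable def F (p : ℝ × ℝ) : ℝ :=
  ∑' i : ℕ, β ^ i * (2 * dig (k + 1 + i) p.1 + dig (k + 1 + i) p.2)

variable {β} {k}

lemma term_bound (hβ : 0 < β) (i : ℕ) (p : ℝ × ℝ) :
    ‖β ^ i * (2 * dig (k + 1 + i) p.1 + dig (k + 1 + i) p.2)‖ ≤ 3 * β ^ i := by
  have h1 := dig_nonneg (k + 1 + i) p.1
  have h2 := dig_nonneg (k + 1 + i) p.2
  have h3 := dig_le (k + 1 + i) p.1
  have h4 := dig_le (k + 1 + i) p.2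
  have h5 : 0 < β ^ i := by positivity
  rw [Real.norm_of_nonneg (by positivity)]
  nlinarith

lemma F_cont (hβ : 0 < β) (hβ1 : β < 1) : Continuous (F β k) := by
  unfold F
  refine continuous_tsum (u := fun i => 3 * β ^ i) (fun i => ?_) ?_ (fun i p => term_bound hβ i p)
  · have h1 : Continuous (fun p : ℝ × ℝ => dig (k + 1 + i) p.1) :=
      (dig_cont (k + 1 + i)).comp continuous_fst
    have h2 : Continuous (fun p : ℝ × ℝ => dig (k + 1 + i) p.2) :=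
      (dig_cont (k + 1 + i)).comp continuous_snd
    exact continuous_const.mul ((continuous_const.mul h1).add h2)
  · exact (summable_geometric_of_lt_one hβ.le hβ1).mul_left 3

lemma F_summable (hβ : 0 < β) (hβ1 : β < 1) (p : ℝ × ℝ) :
    Summable (fun i : ℕ => β ^ i * (2 * dig (k + 1 + i) p.1 + dig (k + 1 + i) p.2)) :=
  Summable.of_norm_bounded ((summable_geometric_of_lt_one hβ.le hβ1).mul_left 3)
    (fun i => term_bound hβ i p)

/-- good points -/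
def A (k : ℕ) (u v : ℤ) : Set (ℝ × ℝ) :=
  {p | (∀ j, k ≤ j → Off j p.1 ∧ Off j p.2) ∧ ⌊(2 : ℝ) ^ k * p.1⌋ = u ∧ ⌊(2 : ℝ) ^ k * p.2⌋ = v}

noncomputable def e (k : ℕ) (p p' : ℝ × ℝ) (i : ℕ) : ℤ :=
  2 * (⌊(2 : ℝ) ^ (k + 1 + i) * p.1⌋ % 2 - ⌊(2 : ℝ) ^ (k + 1 + i) * p'.1⌋ % 2) +
    (⌊(2 : ℝ) ^ (k + 1 + i) * p.2⌋ % 2 - ⌊(2 : ℝ) ^ (k + 1 + i) * p'.2⌋ % 2)

lemma e_zero {p p' : ℝ × ℝ} {i : ℕ} (h : e k p p' i = 0) :
    ⌊(2 : ℝ) ^ (k + 1 + i) * p.1⌋ % 2 = ⌊(2 : ℝ) ^ (k + 1 + i) * p'.1⌋ % 2 ∧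
    ⌊(2 : ℝ) ^ (k + 1 + i) * p.2⌋ % 2 = ⌊(2 : ℝ) ^ (k + 1 + i) * p'.2⌋ % 2 := by
  unfold e at h
  omega

lemma e_bound (p p' : ℝ × ℝ) (i : ℕ) : |(e k p p' i : ℝ)| ≤ 3 := by
  have h1 : |e k p p' i| ≤ 3 := by
    unfold e; rw [abs_le]; omega
  exact_mod_cast h1

lemma F_sub (hβ : 0 < β) (hβ1 : β < 1) {u v : ℤ} {p p' : ℝ × ℝ} (hp : p ∈ A k u v)
    (hp' : p' ∈ A k u v) : F β k p - F β k p' = ∑' i : ℕ, β ^ i * (e k p p' i : ℝ) := by
  unfold F
  rw [← (F_summable hβ hβ1 p).tsum_sub (F_summable hβ hβ1 p')]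
  congr 1
  ext i
  obtain ⟨h1, h2⟩ := hp.1 (k + 1 + i) (by omega)
  obtain ⟨h3, h4⟩ := hp'.1 (k + 1 + i) (by omega)
  rw [dig_eq h1, dig_eq h2, dig_eq h3, dig_eq h4]
  unfold e
  push_cast
  ring

lemma floors_agree {u v : ℤ} {p p' : ℝ × ℝ} (hp : p ∈ A k u v) (hp' : p' ∈ A k u v) :
    ∀ m : ℕ, (∀ i < m, e k p p' i = 0) →
      ⌊(2 : ℝ) ^ (k + m) * p.1⌋ = ⌊(2 : ℝ) ^ (k + m) * p'.1⌋ ∧
      ⌊(2 : ℝ) ^ (k + m) * p.2⌋ = ⌊(2 : ℝ) ^ (k + m) * p'.2⌋ := by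
  intro m
  induction m with
  | zero =>
    intro _
    simp only [add_zero]
    exact ⟨hp.2.1.trans hp'.2.1.symm, hp.2.2.trans hp'.2.2.symm⟩
  | succ m ih =>
    intro h
    obtain ⟨h1, h2⟩ := ih (fun i hi => h i (by omega))
    obtain ⟨h3, h4⟩ := e_zero (h m (by omega))
    rw [show k + 1 + m = k + (m + 1) by ring] at h3 h4
    have e1 : ∀ x : ℝ, (2 : ℝ) ^ (k + (m + 1)) * x = 2 * ((2 : ℝ) ^ (k + m) * x) := by
      intro x; rw [← add_assoc, pow_succ]; ring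
    rw [e1, e1] at h3 h4 ⊢
    rw [e1, e1]
    constructor
    · rw [floor_step (2 ^ (k + m) * p.1), floor_step (2 ^ (k + m) * p'.1), h1, h3]
    · rw [floor_step (2 ^ (k + m) * p.2), floor_step (2 ^ (k + m) * p'.2), h2, h4]

lemma dist_of_agree {u v : ℤ} {p p' : ℝ × ℝ} (hp : p ∈ A k u v) (hp' : p' ∈ A k u v) (m : ℕ)
    (h : ∀ i < m, e k p p' i = 0) : dist p p' ≤ (1 / 2 : ℝ) ^ m := by
  obtain ⟨h1, h2⟩ := floors_agree hp hp' m h
  have key : ∀ x x' : ℝ, ⌊(2 : ℝ) ^ (k + m) * x⌋ = ⌊(2 : ℝ) ^ (k + m) * x'⌋ →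
      |x - x'| ≤ (1 / 2 : ℝ) ^ m := by
    intro x x' hx
    have h3 : |(2 : ℝ) ^ (k + m) * x - (2 : ℝ) ^ (k + m) * x'| < 1 := Int.abs_sub_lt_one_of_floor_eq_floor hx
    rw [← mul_sub, abs_mul, abs_of_pos (by positivity)] at h3
    have h4 : (2 : ℝ) ^ m ≤ 2 ^ (k + m) := pow_le_pow_right₀ (by norm_num) (by omega)
    have h5 : (2 : ℝ) ^ m * |x - x'| ≤ 1 :=
      (mul_le_mul_of_nonneg_right h4 (abs_nonneg _)).trans h3.le
    rw [one_div, inv_pow, ← one_div, le_div_iff₀ (by positivity), mul_comm]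
    exact h5
  rw [Prod.dist_eq, Real.dist_eq, Real.dist_eq]
  exact max_le (key _ _ h1) (key _ _ h2)

lemma separation (hβ : 0 < β) (hβ1 : β < 1 / 4) {u v : ℤ} {p p' : ℝ × ℝ} (hp : p ∈ A k u v)
    (hp' : p' ∈ A k u v) (hne : p ≠ p') :
    ∃ m : ℕ, dist p p' ≤ (1 / 2 : ℝ) ^ m ∧
      β ^ m * ((1 - 4 * β) / (1 - β)) ≤ |F β k p - F β k p'| := by
  have hβ' : β < 1 := by linarith
  have hex : ∃ m, e k p p' m ≠ 0 := by
    by_contra hcon
    push Not at hcon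
    apply hne
    have h1 : ∀ m : ℕ, dist p p' ≤ (1 / 2 : ℝ) ^ m := fun m =>
      dist_of_agree hp hp' m (fun i _ => hcon i)
    have h2 : Tendsto (fun m : ℕ => (1 / 2 : ℝ) ^ m) atTop (𝓝 0) :=
      tendsto_pow_atTop_nhds_zero_of_lt_one (by norm_num) (by norm_num)
    have h3 : dist p p' ≤ 0 := ge_of_tendsto' h2 h1
    exact dist_le_zero.mp h3
  classical
  set m := Nat.find hex with hm
  have hm1 : e k p p' m ≠ 0 := Nat.find_spec hex
  have hm2 : ∀ i < m, e k p p' i = 0 := fun i hi => by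
    have := Nat.find_min hex hi
    push Not at this
    exact this
  refine ⟨m, dist_of_agree hp hp' m hm2, ?_⟩
  rw [F_sub hβ hβ' hp hp']
  have hsum : Summable (fun i : ℕ => β ^ i * (e k p p' i : ℝ)) := by
    refine Summable.of_norm_bounded ((summable_geometric_of_lt_one hβ.le hβ').mul_left 3)
      (fun i => ?_)
    rw [norm_mul, Real.norm_of_nonneg (by positivity), Real.norm_eq_abs, mul_comm]
    exact mul_le_mul_of_nonneg_right (e_bound p p' i) (by positivity)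
  rw [← hsum.sum_add_tsum_nat_add (m + 1), Finset.sum_range_succ]
  have h0 : ∑ i ∈ Finset.range m, β ^ i * (e k p p' i : ℝ) = 0 := by
    refine Finset.sum_eq_zero fun i hi => ?_
    rw [hm2 i (Finset.mem_range.mp hi)]; simp
  rw [h0, zero_add]
  have htail : |∑' i : ℕ, β ^ (i + (m + 1)) * (e k p p' (i + (m + 1)) : ℝ)| ≤
      3 * β ^ (m + 1) / (1 - β) := by
    have hg : HasSum (fun i : ℕ => 3 * β ^ (m + 1) * β ^ i) (3 * β ^ (m + 1) * (1 - β)⁻¹) :=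
      (hasSum_geometric_of_lt_one hβ.le hβ').mul_left _
    have := tsum_of_norm_bounded hg (f := fun i : ℕ =>
      β ^ (i + (m + 1)) * (e k p p' (i + (m + 1)) : ℝ)) (fun i => by
        rw [norm_mul, Real.norm_of_nonneg (by positivity), Real.norm_eq_abs]
        have h1 := e_bound (k := k) p p' (i + (m + 1))
        have h2 : β ^ (i + (m + 1)) = β ^ (m + 1) * β ^ i := by rw [← pow_add]; ring_nf
        rw [h2]
        have h3 : 0 ≤ β ^ (m + 1) * β ^ i := by positivity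
        nlinarith)
    rw [Real.norm_eq_abs] at this
    rw [div_eq_mul_inv]; exact this
  have hem : (1 : ℝ) ≤ |(e k p p' m : ℝ)| := by
    have : 1 ≤ |e k p p' m| := Int.one_le_abs hm1
    exact_mod_cast this
  have h1 : β ^ m ≤ |β ^ m * (e k p p' m : ℝ)| := by
    rw [abs_mul, abs_of_pos (by positivity : 0 < β ^ m)]
    have : 0 < β ^ m := by positivity
    nlinarith
  have h2 : |β ^ m * (e k p p' m : ℝ)| - |∑' i : ℕ, β ^ (i + (m + 1)) * (e k p p' (i + (m + 1)) : ℝ)|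
      ≤ |β ^ m * (e k p p' m : ℝ) + ∑' i : ℕ, β ^ (i + (m + 1)) * (e k p p' (i + (m + 1)) : ℝ)| := by
    have := abs_sub_abs_le_abs_sub (β ^ m * (e k p p' m : ℝ))
      (-∑' i : ℕ, β ^ (i + (m + 1)) * (e k p p' (i + (m + 1)) : ℝ))
    rw [abs_neg, sub_neg_eq_add] at this
    exact this
  have h3 : β ^ m * ((1 - 4 * β) / (1 - β)) = β ^ m - 3 * β ^ (m + 1) / (1 - β) := by
    have : (1 - β) ≠ 0 := by linarith
    field_simp
    ring
  rw [h3]
  linarith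

end

end Pool.Agent.H21.Dim
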