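import Pool.Agent.H21.HomogDefs

namespace Pool.Agent.H21.Homog

universe u

section
variable {K : Type u} [Field K] {A : Type u} [NonUnitalRing A] [Module K A]

/-- product of a nonempty list -/
def pr (a : A) : List A → A
  | [] => a
  | b :: l => a * pr b l

theorem pr_append (a : A) (l : List A) (b : A) (l' : List A) :
    pr a l * pr b l' = pr a (l ++ b :: l') := by
  induction l generalizing a with
  | nil => rfl
  | cons c l ih =>
    show a * pr c l * pr b l' = a * pr c (l ++ b :: l')
    rw [mul_assoc, ih]

variable (K A) in
/-- span of the products of `k+1` elements -/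
def PW (k : ℕ) : Submodule K A := Submodule.span K {z | ∃ a l, l.length = k ∧ z = pr a l}

theorem pr_mem (a : A) (l : List A) : pr a l ∈ PW K A l.length :=
  Submodule.subset_span ⟨a, l, rfl, rfl⟩

theorem PW_zero : PW K A 0 = ⊤ := by
  rw [eq_top_iff]
  intro a _
  exact Submodule.subset_span ⟨a, [], rfl, rfl⟩

variable [IsScalarTower K A A] [SMulCommClass K A A]

theorem mul_mem_PW {i j : ℕ} {x y : A} (hx : x ∈ PW K A i) (hy : y ∈ PW K A j) :
    x * y ∈ PW K A (i + j + 1) := by
  unfold PW at hx
  induction hx using Submodule.span_induction with
  | mem x hx =>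
    obtain ⟨a, l, hl, rfl⟩ := hx
    unfold PW at hy
    induction hy using Submodule.span_induction with
    | mem y hy =>
      obtain ⟨b, l', hl', rfl⟩ := hy
      rw [pr_append]
      refine Submodule.subset_span ⟨a, _, ?_, rfl⟩
      simp; omega
    | zero => rw [mul_zero]; exact zero_mem _
    | add y z _ _ hy hz => rw [mul_add]; exact add_mem hy hz
    | smul c y _ hy => rw [mul_smul_comm]; exact Submodule.smul_mem _ _ hy
  | zero => rw [zero_mul]; exact zero_mem _
  | add y z _ _ hy hz => rw [add_mul]; exact add_mem hy hz
  | smul c y _ hy => rw [smul_mul_assoc]; exact Submodule.smul_mem _ _ hy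

theorem algPow_eq : ∀ k, algPow K A (k + 1) = PW K A k := by
  intro k
  induction k using Nat.strong_induction_on with
  | _ k ih =>
    rcases k with _ | k
    · rw [PW_zero]; simp [algPow]
    · apply le_antisymm
      · rw [algPow]
        refine iSup_le fun i => ?_
        have hi := i.isLt
        rw [ih i.val (by omega)]
        have e : k + 1 - i.val = (k - i.val) + 1 := by omega
        rw [e, ih (k - i.val) (by omega)]
        unfold mulSub
        rw [Submodule.span_le]
        rintro z ⟨x, hx, y, hy, rfl⟩
        have := mul_mem_PW hx hy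
        have e2 : i.val + (k - i.val) + 1 = k + 1 := by omega
        rw [e2] at this
        exact this
      · conv_lhs => unfold PW
        rw [Submodule.span_le]
        rintro z ⟨a, l, hl, rfl⟩
        rcases l with _ | ⟨b, l⟩
        · simp at hl
        · rw [algPow]
          refine (le_iSup (fun i : Fin (k + 1) => mulSub K (algPow K A (i.val + 1))
            (algPow K A (k + 1 - i.val))) ⟨0, by omega⟩) ?_
          simp only
          unfold mulSub
          refine Submodule.subset_span ⟨a, ?_, pr b l, ?_, rfl⟩
          · simp [algPow]
          · show pr b l ∈ algPow K A (k + 1 - 0)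
            rw [Nat.sub_zero, ih k (by omega)]
            have : l.length = k := by simpa using hl
            rw [← this]
            exact pr_mem b l

theorem derSer_eq : ∀ k, derSer K A k = PW K A (2 ^ k - 1) := by
  intro k
  induction k with
  | zero => simp [derSer, PW_zero]
  | succ k ih =>
    rw [derSer, ih]
    have h2 : 1 ≤ 2 ^ k := Nat.one_le_two_pow
    have e : 2 ^ (k + 1) - 1 = (2 ^ k - 1) + (2 ^ k - 1) + 1 := by
      rw [pow_succ]; omega
    rw [e]
    apply le_antisymm
    · unfold mulSub
      rw [Submodule.span_le]
      rintro z ⟨x, hx, y, hy, rfl⟩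
      exact mul_mem_PW hx hy
    · conv_lhs => unfold PW
      rw [Submodule.span_le]
      rintro z ⟨a, l, hl, rfl⟩
      set s := 2 ^ k - 1
      have hsplit : l = l.take s ++ (l.drop s) := (List.take_append_drop s l).symm
      have hd : (l.drop s).length = s + 1 := by simp; omega
      rcases hdd : l.drop s with _ | ⟨b, l2⟩
      · rw [hdd] at hd; simp at hd
      · rw [hdd] at hsplit hd
        rw [hsplit, ← pr_append]
        refine Submodule.subset_span ⟨_, ?_, _, ?_, rfl⟩
        · have h3 : (l.take s).length = s := by simp; omega
          have := pr_mem (K := K) a (l.take s)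
          rwa [h3] at this
        · have h3 : l2.length = s := by simpa using hd
          have := pr_mem (K := K) b l2
          rwa [h3] at this

theorem derSer_algPow (n : ℕ) : derSer K A n = algPow K A (2 ^ n) := by
  have h2 : 1 ≤ 2 ^ n := Nat.one_le_two_pow
  have e : 2 ^ n = (2 ^ n - 1) + 1 := by omega
  rw [e, algPow_eq, derSer_eq]

end

section matrices
variable (K : Type u) [Field K] (s : ℕ)

/-- strictly upper triangular matrices -/
def UT : NonUnitalSubalgebra K (Matrix (Fin s) (Fin s) K) where
  carrier := {M | ∀ i j, M i j ≠ 0 → i.val + 1 ≤ j.val}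
  add_mem' := by
    intro M N hM hN i j h
    by_contra hc
    apply h
    have h1 : M i j = 0 := by by_contra h1; exact hc (hM i j h1)
    have h2 : N i j = 0 := by by_contra h1; exact hc (hN i j h1)
    rw [Matrix.add_apply, h1, h2, add_zero]
  zero_mem' := by intro i j h; exact absurd rfl h
  mul_mem' := by
    intro M N hM hN i j h
    rw [Matrix.mul_apply] at h
    obtain ⟨l, _, hl⟩ := Finset.exists_ne_zero_of_sum_ne_zero h
    have h1 := hM i l (left_ne_zero_of_mul hl)
    have h2 := hN l j (right_ne_zero_of_mul hl)
    omega
  smul_mem' := by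
    intro c M hM i j h
    apply hM i j
    intro h0
    apply h
    rw [Matrix.smul_apply, h0, smul_zero]

theorem pr_coe {A : Type u} [NonUnitalRing A] [Module K A] (S : NonUnitalSubalgebra K A) (a : S)
    (l : List S) : ((pr a l : S) : A) = pr a.1 (l.map Subtype.val) := by
  induction l generalizing a with
  | nil => rfl
  | cons b l ih =>
    show a.1 * (pr b l : S).1 = a.1 * pr b.1 _
    rw [ih]

theorem pr_UT (a : UT K s) (l : List (UT K s)) (i j : Fin s)
    (h : (pr a l : UT K s).1 i j ≠ 0) : i.val + l.length + 1 ≤ j.val := by
  induction l generalizing a i j with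
  | nil => exact a.2 i j h
  | cons b l ih =>
    have h' : (a.1 * (pr b l : UT K s).1) i j ≠ 0 := h
    rw [Matrix.mul_apply] at h'
    obtain ⟨t, _, ht⟩ := Finset.exists_ne_zero_of_sum_ne_zero h'
    have h1 := a.2 i t (left_ne_zero_of_mul ht)
    have h2 := ih b t j (right_ne_zero_of_mul ht)
    simp only [List.length_cons]
    omega

theorem UT_nilp (n : ℕ) : algPow K (UT K (n + 1)) (n + 1) = ⊥ := by
  rw [algPow_eq, eq_bot_iff]
  unfold PW
  rw [Submodule.span_le]
  rintro z ⟨a, l, hl, rfl⟩
  show pr a l = 0
  apply Subtype.ext
  ext i j
  by_contra h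
  have := pr_UT K (n+1) a l i j h
  have := j.isLt
  omega

/-- the superdiagonal matrix with entries `v` -/
def SD (v : ℕ → K) : UT K s :=
  ⟨fun i j => if j.val = i.val + 1 then v i.val else 0, by
    intro i j h
    by_contra hc
    apply h
    show (if j.val = i.val + 1 then v i.val else 0) = 0
    rw [if_neg]
    omega⟩

theorem SD_apply (v : ℕ → K) (i j : Fin s) :
    (SD K s v).1 i j = if j.val = i.val + 1 then v i.val else 0 := rfl

/-- product of the entries along a path -/
def evl : List (ℕ → K) → ℕ → K
  | [], _ => 1
  | w :: l, i => w i * evl l (i + 1)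

/-- entries of a product of superdiagonal matrices -/
theorem pr_SD (v : ℕ → K) (l : List (ℕ → K)) (i j : Fin s) :
    (pr (SD K s v) (l.map (SD K s)) : UT K s).1 i j =
      if j.val = i.val + l.length + 1 then evl K (v :: l) i.val else 0 := by
  induction l generalizing v i j with
  | nil =>
    simp only [List.map_nil, pr, SD_apply, List.length_nil, Nat.add_zero, evl, mul_one]
  | cons w l ih =>
    have e : (pr (SD K s v) ((w :: l).map (SD K s)) : UT K s).1 i j =
        ((SD K s v).1 * (pr (SD K s w) (l.map (SD K s)) : UT K s).1) i j := rfl
    rw [e, Matrix.mul_apply]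
    simp_rw [ih, SD_apply]
    by_cases hi : i.val + 1 < s
    · rw [Finset.sum_eq_single (⟨i.val + 1, hi⟩ : Fin s)]
      · simp only [if_true, List.length_cons]
        by_cases hj : j.val = i.val + 1 + l.length + 1
        · rw [if_pos hj, if_pos (by omega)]
          rfl
        · rw [if_neg hj, if_neg (by omega), mul_zero]
      · intro b _ hb
        rw [if_neg, zero_mul]
        intro h
        exact hb (Fin.ext h)
      · intro h
        exact absurd (Finset.mem_univ _) h
    · rw [Finset.sum_eq_zero, if_neg]
      · have := j.isLt
        simp only [List.length_cons]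
        omega
      · intro x _
        rw [if_neg, zero_mul]
        have := x.isLt
        omega

/-- indicator functions of the letters of a word -/
def ind {r : ℕ} (w : ℕ → Fin r) (k : Fin r) : ℕ → K := fun t => if w t = k then 1 else 0

theorem evl_ind {r : ℕ} (w : ℕ → Fin r) (l : List (Fin r)) (L : List (Fin r)) (i : ℕ)
    (hlen : l.length = L.length) (hw : ∀ t (ht : t < L.length), w (i + t) = L.get ⟨t, ht⟩) :
    evl K (l.map (ind K w)) i = if l = L then 1 else 0 := by
  induction l generalizing L i with
  | nil =>
    rcases L with _ | ⟨b, L⟩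
    · simp [evl]
    · simp at hlen
  | cons a l ih =>
    rcases L with _ | ⟨b, L⟩
    · simp at hlen
    · have h0 : w i = b := by
        have := hw 0 (by simp)
        simpa using this
      have h1 := ih L (i + 1) (by simpa using hlen) (by
        intro t ht
        have := hw (t + 1) (by simp; omega)
        rw [show i + 1 + t = i + (t + 1) by omega, this]
        rfl)
      show ind K w a i * evl K (l.map (ind K w)) (i + 1) = _
      rw [h1]
      unfold ind
      rw [h0]
      by_cases hab : b = a
      · subst hab
        simp
      · have : ¬ (a :: l = b :: L) := by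
          intro h
          exact hab (List.cons.inj h).1.symm
        rw [if_neg hab, if_neg this, zero_mul]

end matrices

end Pool.Agent.H21.Homog
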