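import Mathlib

/-!
Associative (not necessarily unital) algebras: powers, nilpotent and solvable algebras, free
algebras of these varieties, first-order types and logical homogeneity. Definitions only.
-/

namespace Pool.Agent.H21.Homog

universe u

/-- The `K`-span of all products `x * y` with `x ∈ P`, `y ∈ Q`. -/
def mulSub (K : Type u) [Field K] {A : Type u} [NonUnitalRing A] [Module K A]
    (P Q : Submodule K A) : Submodule K A :=
  Submodule.span K {z | ∃ x ∈ P, ∃ y ∈ Q, z = x * y}

/-- The powers of an algebra: `A^1 = A` and `A^{k+1} = ∑_{i+j=k+1, i,j ≥ 1} A^i A^j`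
(in the last clause the exponent is `k + 2 = (i+1) + (k+1-i)` with `i ≤ k`);
`A^0` is a dummy value. -/
def algPow (K : Type u) [Field K] (A : Type u) [NonUnitalRing A] [Module K A] :
    ℕ → Submodule K A
  | 0 => ⊤
  | 1 => ⊤
  | k + 2 => ⨆ i : Fin (k + 1), mulSub K (algPow K A (i.val + 1)) (algPow K A (k + 1 - i.val))
termination_by n => n
decreasing_by
  · have := i.isLt; omega
  · have := i.isLt; omega

/-- The derived series `A^(0) = A`, `A^(k+1) = A^(k) A^(k)`. -/
def derSer (K : Type u) [Field K] (A : Type u) [NonUnitalRing A] [Module K A] :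
    ℕ → Submodule K A
  | 0 => ⊤
  | k + 1 => mulSub K (derSer K A k) (derSer K A k)

/-- `(H, g)` is the free algebra of rank `r`, with free generators `g 0, …, g (r-1)`, in the
variety of associative `K`-algebras with `A^n = 0`. -/
structure IsFreeNilpotent (K : Type u) [Field K] (n r : ℕ) (H : Type u) [NonUnitalRing H]
    [Module K H] (g : Fin r → H) : Prop where
  nilp : algPow K H n = ⊥
  lift : ∀ (B : Type u) [NonUnitalRing B] [Module K B] [IsScalarTower K B B]
    [SMulCommClass K B B], algPow K B n = ⊥ → ∀ b : Fin r → B,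
      ∃! φ : H →ₙₐ[K] B, ∀ i, φ (g i) = b i

/-- `(H, g)` is the free algebra of rank `r`, with free generators `g 0, …, g (r-1)`, in the
variety of associative `K`-algebras with `A^(n) = 0`. -/
structure IsFreeSolvable (K : Type u) [Field K] (n r : ℕ) (H : Type u) [NonUnitalRing H]
    [Module K H] (g : Fin r → H) : Prop where
  solv : derSer K H n = ⊥
  lift : ∀ (B : Type u) [NonUnitalRing B] [Module K B] [IsScalarTower K B B]
    [SMulCommClass K B B], derSer K B n = ⊥ → ∀ b : Fin r → B,
      ∃! φ : H →ₙₐ[K] B, ∀ i, φ (g i) = b i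

/-- Function symbols of the language of `K`-algebras. -/
inductive AlgFunc (K : Type u) : ℕ → Type u
  | zero : AlgFunc K 0
  | neg : AlgFunc K 1
  | smul (c : K) : AlgFunc K 1
  | add : AlgFunc K 2
  | sub : AlgFunc K 2
  | mul : AlgFunc K 2

/-- The first-order language of `K`-algebras. -/
def algLang (K : Type u) : FirstOrder.Language.{u, 0} := ⟨AlgFunc K, fun _ => Empty⟩

/-- A `K`-algebra as a first-order structure. -/
instance algStr (K : Type u) [Field K] (A : Type u) [NonUnitalRing A] [Module K A] :
    (algLang K).Structure A where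
  funMap := fun {n} (f : AlgFunc K n) => match n, f with
    | _, .zero => fun _ => 0
    | _, .neg => fun x => - x 0
    | _, .smul c => fun x => c • x 0
    | _, .add => fun x => x 0 + x 1
    | _, .sub => fun x => x 0 - x 1
    | _, .mul => fun x => x 0 * x 1
  RelMap := fun {_} (r : Empty) => nomatch r

/-- Two tuples have the same complete first-order type. -/
def SameType (K : Type u) [Field K] {A : Type u} [NonUnitalRing A] [Module K A] {m : ℕ}
    (μ ν : Fin m → A) : Prop :=
  ∀ φ : (algLang K).Formula (Fin m), φ.Realize μ ↔ φ.Realize ν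

/-- Logical homogeneity: tuples of the same type are conjugate under `K`-algebra automorphisms. -/
def LogicallyHomogeneous (K : Type u) [Field K] (A : Type u) [NonUnitalRing A] [Module K A] :
    Prop :=
  ∀ (m : ℕ) (μ ν : Fin m → A), SameType K μ ν →
    ∃ σ : A →ₙₐ[K] A, Function.Bijective σ ∧ ∀ i, σ (μ i) = ν i

end Pool.Agent.H21.Homog
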