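import Pool.Agent.H21.HomogAlg

namespace Pool.Agent.H21.Homog

universe u

variable {K : Type u} [Field K] {H : Type u} [NonUnitalRing H] [Module K H]
  [IsScalarTower K H H] [SMulCommClass K H H]

theorem map_pr {A B : Type u} [NonUnitalRing A] [Module K A] [NonUnitalRing B] [Module K B]
    (φ : A →ₙₐ[K] B) (a : A) (l : List A) : φ (pr a l) = pr (φ a) (l.map φ) := by
  induction l generalizing a with
  | nil => rfl
  | cons b l ih =>
    show φ (a * pr b l) = φ a * pr (φ b) (l.map φ)
    rw [map_mul, ih]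

theorem exists_coef {N r : ℕ} {g : Fin r → H} (hf : IsFreeNilpotent K (N + 3) r H g)
    (L : List (Fin r)) (hL : L.length = N + 2) :
    ∃ F : H →ₗ[K] K, ∀ a (l : List (Fin r)), l.length = N + 1 →
      F (pr (g a) (l.map g)) = if a :: l = L then 1 else 0 := by
  set w : ℕ → Fin r := fun t => if h : t < L.length then L.get ⟨t, h⟩ else L.get ⟨0, by omega⟩
    with hw
  obtain ⟨φ, hφ, _⟩ := hf.lift (UT K (N + 3)) (UT_nilp K (N + 2)) (fun k => SD K (N + 3) (ind K w k))
  refine ⟨{ toFun := fun h => (φ h).1 ⟨0, by omega⟩ ⟨N + 2, by omega⟩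
            map_add' := fun x y => by rw [map_add]; rfl
            map_smul' := fun c x => by rw [map_smul]; rfl }, ?_⟩
  intro a l hl
  show (φ (pr (g a) (l.map g))).1 _ _ = _
  have e1 : φ (pr (g a) (l.map g)) =
      pr (SD K (N + 3) (ind K w a)) ((l.map (ind K w)).map (SD K (N + 3))) := by
    rw [map_pr, hφ, List.map_map, List.map_map]
    congr 1
    apply List.map_congr_left
    intro b _
    exact hφ b
  rw [e1, pr_SD]
  simp only [List.length_map, hl]
  rw [if_pos (by omega)]
  have := evl_ind K w (a :: l) L 0 (by simp [hl, hL]) (by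
    intro t ht
    simp only [hw, Nat.zero_add]
    rw [dif_pos ht])
  exact this

theorem nil_of {k : ℕ} (h : algPow K H (k + 1) = ⊥) : PW K H k = ⊥ := by
  rw [← algPow_eq, h]

theorem gen_top {k r : ℕ} {g : Fin r → H} (hf : IsFreeNilpotent K (k + 1) r H g) (h : H) :
    h ∈ NonUnitalAlgebra.adjoin K (Set.range g) := by
  set S := NonUnitalAlgebra.adjoin K (Set.range g) with hS
  have hPW := nil_of hf.nilp
  have hnil : algPow K S (k + 1) = ⊥ := by
    rw [algPow_eq, eq_bot_iff]
    unfold PW
    rw [Submodule.span_le]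
    rintro z ⟨a, l, hl, rfl⟩
    show pr a l = 0
    apply Subtype.ext
    rw [pr_coe]
    have h1 := pr_mem (K := K) a.1 (l.map Subtype.val)
    rw [List.length_map, hl, hPW] at h1
    simpa using h1
  have hmem : ∀ i, g i ∈ S := fun i => NonUnitalAlgebra.subset_adjoin K ⟨i, rfl⟩
  obtain ⟨φ, hφ, _⟩ := hf.lift S hnil (fun i => ⟨g i, hmem i⟩)
  obtain ⟨ψ, hψ, huniq⟩ := hf.lift H hf.nilp g
  have e1 := huniq (NonUnitalAlgHom.id K H) (fun i => rfl)
  have e2 := huniq ((NonUnitalSubalgebraClass.subtype S).comp φ) (fun i => by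
    show ((φ (g i) : S) : H) = g i
    rw [hφ])
  have e3 : ((NonUnitalSubalgebraClass.subtype S).comp φ) h = (NonUnitalAlgHom.id K H) h := by
    rw [e1, e2]
  have e4 : ((φ h : S) : H) = h := e3
  rw [← e4]
  exact (φ h).2

theorem span_of_gen {r : ℕ} {X : Fin r → H}
    (hg : ∀ h : H, h ∈ NonUnitalAlgebra.adjoin K (Set.range X)) (h : H) :
    h ∈ Submodule.span K (Set.range X) ⊔ PW K H 1 := by
  refine NonUnitalAlgebra.adjoin_induction (p := fun x _ => x ∈ Submodule.span K (Set.range X) ⊔ PW K H 1)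
    ?_ ?_ ?_ ?_ ?_ (hg h)
  · intro x hx
    exact Submodule.mem_sup_left (Submodule.subset_span hx)
  · intro x y _ _ hx hy
    exact add_mem hx hy
  · exact zero_mem _
  · intro x y _ _ hx hy
    apply Submodule.mem_sup_right
    exact mul_mem_PW (i := 0) (j := 0) (by rw [PW_zero]; trivial) (by rw [PW_zero]; trivial)
  · intro c x _ hx
    exact Submodule.smul_mem _ _ hx

theorem gen_of_span {k r : ℕ} {X : Fin r → H} (hn : PW K H k = ⊥)
    (hs : ∀ h : H, h ∈ Submodule.span K (Set.range X) ⊔ PW K H 1) (h : H) :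
    h ∈ NonUnitalAlgebra.adjoin K (Set.range X) := by
  set S := NonUnitalAlgebra.adjoin K (Set.range X) with hS
  have hspan : ∀ x ∈ Submodule.span K (Set.range X), x ∈ S := by
    intro x hx
    induction hx using Submodule.span_induction with
    | mem x hx => exact NonUnitalAlgebra.subset_adjoin K hx
    | zero => exact zero_mem _
    | add x y _ _ hx hy => exact add_mem hx hy
    | smul c x _ hx => exact SMulMemClass.smul_mem c hx
  have c1 : ∀ (l : List H) (a : H), ∃ s ∈ S, pr a l - s ∈ PW K H (l.length + 1) := by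
    intro l
    induction l with
    | nil =>
      intro a
      obtain ⟨s, hs1, z, hz, e⟩ := Submodule.mem_sup.1 (hs a)
      refine ⟨s, hspan s hs1, ?_⟩
      show a - s ∈ PW K H 1
      rw [← e]
      simpa using hz
    | cons b l ih =>
      intro a
      obtain ⟨s', hs', hp'⟩ := ih b
      obtain ⟨s, hs1, z, hz, e⟩ := Submodule.mem_sup.1 (hs a)
      refine ⟨s * s', mul_mem (hspan s hs1) hs', ?_⟩
      have e1 : pr a (b :: l) - s * s' = z * pr b l + s * (pr b l - s') := by
        show a * pr b l - s * s' = _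
        rw [← e, add_mul, mul_sub]
        abel
      rw [e1]
      apply add_mem
      · have := mul_mem_PW hz (pr_mem (K := K) b l)
        rw [show 1 + l.length + 1 = (b :: l).length + 1 by simp; omega] at this
        exact this
      · have := mul_mem_PW (i := 0) (x := s) (by rw [PW_zero]; trivial) hp'
        rw [show 0 + (l.length + 1) + 1 = (b :: l).length + 1 by simp] at this
        exact this
  have c2 : ∀ (j : ℕ) (x : H), ∃ s ∈ S, x - s ∈ PW K H j := by
    intro j
    induction j with
    | zero => intro x; exact ⟨0, zero_mem _, by rw [PW_zero]; trivial⟩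
    | succ j ih =>
      intro x
      obtain ⟨s, hs1, hp⟩ := ih x
      have c3 : ∀ p ∈ PW K H j, ∃ s' ∈ S, p - s' ∈ PW K H (j + 1) := by
        intro p hp
        unfold PW at hp
        induction hp using Submodule.span_induction with
        | mem p hp =>
          obtain ⟨a, l, hl, rfl⟩ := hp
          obtain ⟨s', h1, h2⟩ := c1 l a
          rw [hl] at h2
          exact ⟨s', h1, h2⟩
        | zero => exact ⟨0, zero_mem _, by simp⟩
        | add x y _ _ hx hy =>
          obtain ⟨s1, h1, h2⟩ := hx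
          obtain ⟨s2, h3, h4⟩ := hy
          refine ⟨s1 + s2, add_mem h1 h3, ?_⟩
          have : x + y - (s1 + s2) = (x - s1) + (y - s2) := by abel
          rw [this]
          exact add_mem h2 h4
        | smul c x _ hx =>
          obtain ⟨s1, h1, h2⟩ := hx
          refine ⟨c • s1, SMulMemClass.smul_mem c h1, ?_⟩
          rw [← smul_sub]
          exact Submodule.smul_mem _ _ h2
      obtain ⟨s', h1, h2⟩ := c3 _ hp
      refine ⟨s + s', add_mem hs1 h1, ?_⟩
      rw [← sub_sub]
      exact h2
  obtain ⟨s, hs1, hp⟩ := c2 k h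
  rw [hn, Submodule.mem_bot, sub_eq_zero] at hp
  rw [hp]
  exact hs1

/-- independent modulo products implies generating -/
theorem gen_of_indep {k r : ℕ} {g : Fin r → H} (hf : IsFreeNilpotent K (k + 1) r H g)
    {X : Fin r → H} (hX : ∀ c : Fin r → K, ∑ i, c i • X i ∈ PW K H 1 → ∀ i, c i = 0) (h : H) :
    h ∈ NonUnitalAlgebra.adjoin K (Set.range X) := by
  refine gen_of_span (nil_of hf.nilp) ?_ h
  intro h
  have hgs : ∀ h : H, h ∈ Submodule.span K (Set.range g) ⊔ PW K H 1 := span_of_gen (gen_top hf)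
  set W := PW K H 1 with hW
  let π := W.mkQ
  have hspan : Submodule.span K (Set.range fun i => π (g i)) = ⊤ := by
    rw [eq_top_iff]
    intro v _
    obtain ⟨x, rfl⟩ := W.mkQ_surjective v
    obtain ⟨s, hs, z, hz, e⟩ := Submodule.mem_sup.1 (hgs x)
    have e2 : π x = π s := by
      rw [← e, map_add]
      have : π z = 0 := by
        show W.mkQ z = 0
        rwa [Submodule.mkQ_apply, Submodule.Quotient.mk_eq_zero]
      rw [this, add_zero]
    show π x ∈ _
    rw [e2]
    have h3 : π s ∈ Submodule.map π (Submodule.span K (Set.range g)) := ⟨s, hs, rfl⟩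
    rw [Submodule.map_span, ← Set.range_comp] at h3
    exact h3
  have hfin : Module.Finite K (H ⧸ W) := ⟨⟨(Set.range fun i => π (g i)).toFinite.toFinset, by
    rw [Set.Finite.coe_toFinset]; exact hspan⟩⟩
  have hrank : Module.finrank K (H ⧸ W) ≤ r := by
    have h1 := finrank_range_le_card (R := K) (fun i => π (g i))
    rw [Set.finrank, hspan, finrank_top, Fintype.card_fin] at h1
    exact h1
  have hli : LinearIndependent K (fun i => π (X i)) := by
    rw [Fintype.linearIndependent_iff]
    intro c hc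
    apply hX c
    have : π (∑ i, c i • X i) = 0 := by
      rw [map_sum]
      simpa using hc
    have h2 : W.mkQ (∑ i, c i • X i) = 0 := this
    rwa [Submodule.mkQ_apply, Submodule.Quotient.mk_eq_zero] at h2
  have hcard := hli.fintype_card_le_finrank
  rw [Fintype.card_fin] at hcard
  have htop : Submodule.span K (Set.range fun i => π (X i)) = ⊤ :=
    hli.span_eq_top_of_card_eq_finrank' (by rw [Fintype.card_fin]; omega)
  have hh : π h ∈ Submodule.span K (Set.range fun i => π (X i)) := by rw [htop]; trivial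
  have h3 : (Set.range fun i => π (X i)) = π '' (Set.range X) := by
    rw [← Set.range_comp]; rfl
  rw [h3, ← Submodule.map_span] at hh
  obtain ⟨s, hs, e⟩ := hh
  rw [Submodule.mem_sup]
  refine ⟨s, hs, h - s, ?_, by abel⟩
  have h4 : W.mkQ (h - s) = 0 := by
    rw [map_sub]
    have : W.mkQ s = W.mkQ h := e
    rw [this, sub_self]
  rwa [Submodule.mkQ_apply, Submodule.Quotient.mk_eq_zero] at h4

theorem surj_of_gen {r : ℕ} {g X : Fin r → H} (φ : H →ₙₐ[K] H) (hφ : ∀ i, φ (g i) = X i)
    (hX : ∀ h : H, h ∈ NonUnitalAlgebra.adjoin K (Set.range X)) : Function.Surjective φ := by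
  intro y
  have hle : NonUnitalAlgebra.adjoin K (Set.range X) ≤ NonUnitalAlgHom.range φ := by
    rw [NonUnitalAlgebra.adjoin_le_iff]
    rintro _ ⟨i, rfl⟩
    exact ⟨g i, hφ i⟩
  exact hle (hX y)

theorem map_PW (φ : H →ₙₐ[K] H) {k : ℕ} {z : H} (hz : z ∈ PW K H k) : φ z ∈ PW K H k := by
  unfold PW at hz
  induction hz using Submodule.span_induction with
  | mem x hx =>
    obtain ⟨a, l, hl, rfl⟩ := hx
    rw [map_pr]
    refine Submodule.subset_span ⟨_, _, ?_, rfl⟩
    rw [List.length_map, hl]
  | zero => rw [map_zero]; exact zero_mem _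
  | add x y _ _ hx hy => rw [map_add]; exact add_mem hx hy
  | smul c x _ hx => rw [map_smul]; exact Submodule.smul_mem _ _ hx

/-- a system independent modulo products is the image of `g` under an automorphism -/
theorem auto_of_indep {k r : ℕ} {g : Fin r → H} (hf : IsFreeNilpotent K (k + 1) r H g)
    (hg : ∀ c : Fin r → K, ∑ i, c i • g i ∈ PW K H 1 → ∀ i, c i = 0)
    {X : Fin r → H} (hX : ∀ c : Fin r → K, ∑ i, c i • X i ∈ PW K H 1 → ∀ i, c i = 0) :
    ∃ σ : H →ₙₐ[K] H, Function.Bijective σ ∧ ∀ i, σ (g i) = X i := by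
  obtain ⟨φ, hφ, _⟩ := hf.lift H hf.nilp X
  have hsurj := surj_of_gen φ hφ (gen_of_indep hf hX)
  choose h hh using fun i => hsurj (g i)
  obtain ⟨ψ, hψ, _⟩ := hf.lift H hf.nilp h
  have hid : ∀ x, φ (ψ x) = x := by
    obtain ⟨ρ, hρ, huniq⟩ := hf.lift H hf.nilp g
    have e1 := huniq (NonUnitalAlgHom.id K H) (fun i => rfl)
    have e2 := huniq (φ.comp ψ) (fun i => by
      show φ (ψ (g i)) = g i
      rw [hψ, hh])
    intro x
    have : (φ.comp ψ) x = (NonUnitalAlgHom.id K H) x := by rw [e1, e2]
    exact this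
  have hindep : ∀ c : Fin r → K, ∑ i, c i • h i ∈ PW K H 1 → ∀ i, c i = 0 := by
    intro c hc
    apply hg c
    have := map_PW φ hc
    rw [map_sum] at this
    simpa [map_smul, hh] using this
  have hψs := surj_of_gen ψ hψ (gen_of_indep hf hindep)
  refine ⟨φ, ⟨?_, hsurj⟩, hφ⟩
  intro a b hab
  obtain ⟨a', rfl⟩ := hψs a
  obtain ⟨b', rfl⟩ := hψs b
  rw [hid, hid] at hab
  rw [hab]

end Pool.Agent.H21.Homog
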