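import Pool.Agent.H21.HomogTh

set_option linter.unusedSectionVars false

namespace Pool.Agent.H21.Homog

universe u

open FirstOrder FirstOrder.Language

section
variable {K : Type u} [Field K] {H : Type u} [NonUnitalRing H] [Module K H]
  [IsScalarTower K H H] [SMulCommClass K H H]

theorem exists_term {r : ℕ} {g : Fin r → H}
    {h : H} (hg : h ∈ NonUnitalAlgebra.adjoin K (Set.range g)) :
    ∃ t : (algLang K).Term (Fin r), t.realize g = h := by
  induction hg using NonUnitalAlgebra.adjoin_induction with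
  | mem x hx => obtain ⟨i, rfl⟩ := hx; exact ⟨Term.var i, rfl⟩
  | add x y _ _ hx hy =>
    obtain ⟨s, rfl⟩ := hx
    obtain ⟨t, rfl⟩ := hy
    exact ⟨tA s t, rfl⟩
  | zero => exact ⟨tZ, rfl⟩
  | mul x y _ _ hx hy =>
    obtain ⟨s, rfl⟩ := hx
    obtain ⟨t, rfl⟩ := hy
    exact ⟨tM s t, rfl⟩
  | smul c x _ hx =>
    obtain ⟨s, rfl⟩ := hx
    exact ⟨tS c s, rfl⟩

theorem hom_funMap (φ : H →ₙₐ[K] H) {n : ℕ} (f : (algLang K).Functions n) (x : Fin n → H) :
    φ (Structure.funMap f x) = Structure.funMap f (fun i => φ (x i)) := by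
  cases f with
  | zero => exact map_zero φ
  | neg => exact map_neg φ _
  | smul c => exact map_smul φ c _
  | add => exact map_add φ _ _
  | sub => exact map_sub φ _ _
  | mul => exact map_mul φ _ _

theorem hom_term (φ : H →ₙₐ[K] H) {β : Type} (t : (algLang K).Term β) (v : β → H) :
    φ (t.realize v) = t.realize (fun i => φ (v i)) := by
  induction t with
  | var i => rfl
  | func f ts ih =>
    show φ (Structure.funMap f fun i => (ts i).realize v) =
      Structure.funMap f fun i => (ts i).realize (fun i => φ (v i))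
    rw [hom_funMap]
    congr 1
    funext i
    exact ih i

theorem homog_big {N r : ℕ} {g : Fin (r + 1) → H}
    (hf : IsFreeNilpotent K (N + 3) (r + 1) H g) : LogicallyHomogeneous K H := by
  intro m μ ν hμν
  choose t ht using fun i => exists_term (gen_top hf (μ i))
  let ψ : (algLang K).Formula (Fin m) :=
    Formula.iExs (Fin (r + 1))
      ((Formula.iInf fun j : Fin m =>
        Term.equal (Term.var (Sum.inl j)) ((t j).relabel Sum.inr)) ⊓ thF K m N r)
  have hψ : ∀ w : Fin m → H, ψ.Realize w ↔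
      ∃ X : Fin (r + 1) → H, (∀ j, w j = (t j).realize X) ∧ Th N X := by
    intro w
    simp only [ψ, Formula.realize_iExs, Formula.realize_inf, Formula.realize_iInf,
      Formula.realize_equal, Term.realize_relabel, Term.realize_var, real_thF,
      Sum.elim_comp_inr, Sum.elim_inl]
  obtain ⟨X, h1, h2⟩ := (hψ ν).1 ((hμν ψ).1 ((hψ μ).2 ⟨g, fun j => (ht j).symm, th_g hf⟩))
  have hn : PW K H (N + 2) = ⊥ := nil_of hf.nilp
  obtain ⟨σ, hσ, hσg⟩ := auto_of_indep hf (g_indep hf) (th_indep hn h2)
  refine ⟨σ, hσ, fun j => ?_⟩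
  rw [← ht j, hom_term, h1 j]
  congr 1
  funext i
  exact hσg i

theorem homog_one {r : ℕ} {g : Fin r → H}
    (hf : IsFreeNilpotent K 1 r H g) : LogicallyHomogeneous K H := by
  intro m μ ν _
  have hn : PW K H 0 = ⊥ := nil_of hf.nilp
  have hs : ∀ x : H, x = 0 := by
    intro x
    have : x ∈ PW K H 0 := by rw [PW_zero]; trivial
    rwa [hn, Submodule.mem_bot] at this
  refine ⟨NonUnitalAlgHom.id K H, Function.bijective_id, fun i => ?_⟩
  rw [hs (ν i), hs (μ i)]
  rfl

/-- extension of a linear isomorphism between subspaces, in the form needed here -/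
theorem lin_ext {V : Type u} [AddCommGroup V] [Module K V] [Module.Finite K V] {m : ℕ}
    (μ ν : Fin m → V) (h : ∀ c : Fin m → K, ∑ i, c i • μ i = 0 ↔ ∑ i, c i • ν i = 0) :
    ∃ σ : V ≃ₗ[K] V, ∀ i, σ (μ i) = ν i := by
  let p : (Fin m → K) →ₗ[K] V := Fintype.linearCombination K μ
  let q : (Fin m → K) →ₗ[K] V := Fintype.linearCombination K ν
  have hk : LinearMap.ker p = LinearMap.ker q := by
    ext c
    rw [LinearMap.mem_ker, LinearMap.mem_ker]
    exact h c
  let e : LinearMap.range p ≃ₗ[K] LinearMap.range q :=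
    (p.quotKerEquivRange.symm.trans (Submodule.quotEquivOfEq _ _ hk)).trans q.quotKerEquivRange
  have he : ∀ c, ((e ⟨p c, ⟨c, rfl⟩⟩ : LinearMap.range q) : V) = q c := by
    intro c
    show ((q.quotKerEquivRange ((Submodule.quotEquivOfEq _ _ hk)
      (p.quotKerEquivRange.symm ⟨p c, _⟩)) : LinearMap.range q) : V) = q c
    have : p.quotKerEquivRange.symm ⟨p c, ⟨c, rfl⟩⟩ = Submodule.Quotient.mk c := by
      rw [LinearEquiv.symm_apply_eq]
      rfl
    rw [this]
    rfl
  obtain ⟨P', hP⟩ := Submodule.exists_isCompl (LinearMap.range p)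
  obtain ⟨Q', hQ⟩ := Submodule.exists_isCompl (LinearMap.range q)
  have hfr : Module.finrank K P' = Module.finrank K Q' := by
    have h1 := Submodule.finrank_add_eq_of_isCompl hP
    have h2 := Submodule.finrank_add_eq_of_isCompl hQ
    have h3 := e.finrank_eq
    omega
  let f : P' ≃ₗ[K] Q' := LinearEquiv.ofFinrankEq _ _ hfr
  let σ : V ≃ₗ[K] V := ((Submodule.prodEquivOfIsCompl _ _ hP).symm.trans
    (LinearEquiv.prodCongr e f)).trans (Submodule.prodEquivOfIsCompl _ _ hQ)
  refine ⟨σ, fun i => ?_⟩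
  have hpi : p (Pi.single i 1) = μ i := by
    show Fintype.linearCombination K μ (Pi.single i 1) = μ i
    simp [Fintype.linearCombination_apply_single]
  have hqi : q (Pi.single i 1) = ν i := by
    show Fintype.linearCombination K ν (Pi.single i 1) = ν i
    simp [Fintype.linearCombination_apply_single]
  have h1 : (Submodule.prodEquivOfIsCompl _ _ hP).symm (μ i) =
      (⟨p (Pi.single i 1), ⟨_, rfl⟩⟩, 0) := by
    rw [LinearEquiv.symm_apply_eq]
    simp [hpi]
  show (Submodule.prodEquivOfIsCompl _ _ hQ) ((LinearEquiv.prodCongr e f)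
    ((Submodule.prodEquivOfIsCompl _ _ hP).symm (μ i))) = ν i
  rw [h1]
  simp [he, hqi]

theorem homog_two {r : ℕ} {g : Fin r → H}
    (hf : IsFreeNilpotent K 2 r H g) : LogicallyHomogeneous K H := by
  intro m μ ν hμν
  have hn : PW K H 1 = ⊥ := nil_of hf.nilp
  have hmul : ∀ x y : H, x * y = 0 := by
    intro x y
    have : x * y ∈ PW K H 1 := by
      have := mul_mem_PW (K := K) (i := 0) (j := 0) (x := x) (y := y)
        (by rw [PW_zero]; trivial) (by rw [PW_zero]; trivial)
      exact this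
    rwa [hn, Submodule.mem_bot] at this
  have hfin : Module.Finite K H := by
    refine ⟨⟨(Set.range g).toFinite.toFinset, ?_⟩⟩
    rw [Set.Finite.coe_toFinset, eq_top_iff]
    intro h _
    have := span_of_gen (gen_top hf) h
    rwa [hn, sup_bot_eq] at this
  have hrel : ∀ c : Fin m → K, ∑ i, c i • μ i = 0 ↔ ∑ i, c i • ν i = 0 := by
    intro c
    have hreal : ∀ w : Fin m → H,
        (Term.equal (tsum (List.ofFn fun i : Fin m => tS (c i) (Term.var i))) tZ :
          (algLang K).Formula (Fin m)).Realize w ↔ ∑ i, c i • w i = 0 := by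
      intro w
      simp only [Formula.realize_equal, real_tsum, real_tZ, List.map_ofFn, List.sum_ofFn,
        Function.comp_def, real_tS, Term.realize_var]
    rw [← hreal, ← hreal]
    exact hμν _
  obtain ⟨σ, hσ⟩ := lin_ext μ ν hrel
  refine ⟨{ σ.toLinearMap with
    map_mul' := fun x y => by
      show σ (x * y) = σ x * σ y
      rw [hmul, hmul, map_zero]
    map_zero' := map_zero σ
    }, σ.bijective, hσ⟩

theorem homog_nilp {n r : ℕ} (hr : 1 ≤ r) (hn : 1 ≤ n) {g : Fin r → H}
    (hf : IsFreeNilpotent K n r H g) : LogicallyHomogeneous K H := by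
  obtain ⟨r, rfl⟩ : ∃ r', r = r' + 1 := ⟨r - 1, by omega⟩
  rcases Nat.lt_or_ge n 3 with h | h
  · interval_cases n
    · exact homog_one hf
    · exact homog_two hf
  · obtain ⟨N, rfl⟩ : ∃ N, n = N + 3 := ⟨n - 3, by omega⟩
    exact homog_big hf

theorem solv_nilp {n r : ℕ} {g : Fin r → H} (hf : IsFreeSolvable K n r H g) :
    IsFreeNilpotent K (2 ^ n) r H g := by
  refine ⟨?_, ?_⟩
  · rw [← derSer_algPow]; exact hf.solv
  · intro B _ _ _ _ hB b
    exact hf.lift B (by rw [derSer_algPow]; exact hB) b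

theorem homog_solv {n r : ℕ} (hr : 1 ≤ r) {g : Fin r → H}
    (hf : IsFreeSolvable K n r H g) : LogicallyHomogeneous K H :=
  homog_nilp hr Nat.one_le_two_pow (solv_nilp hf)

end

end Pool.Agent.H21.Homog
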