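import Pool.Agent.H21.HomogFree

set_option linter.unusedSectionVars false

namespace Pool.Agent.H21.Homog

universe u

open FirstOrder FirstOrder.Language

section
variable {K : Type u} [Field K] {H : Type u} [NonUnitalRing H] [Module K H]
  [IsScalarTower K H H] [SMulCommClass K H H]

/-- `x^{N+1}` -/
def qp (N : ℕ) (x : H) : H := pr x (List.replicate N x)

theorem qp_comm (N : ℕ) (x : H) : qp N x * x = x * qp N x := by
  have h1 : qp N x * x = pr x (List.replicate N x ++ [x]) := pr_append x _ x []
  have h2 : x * qp N x = pr x (x :: List.replicate N x) := rfl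
  rw [h1, h2, ← List.replicate_succ', List.replicate_succ]

theorem qp_mem (N : ℕ) (x : H) : qp N x ∈ PW K H N := by
  have := pr_mem (K := K) x (List.replicate N x)
  rwa [List.length_replicate] at this

/-- the defining condition of free generating systems -/
def Th (N : ℕ) {r : ℕ} (X : Fin (r + 1) → H) : Prop :=
  (∀ Y : Fin (r + 1) → H, (∀ i, qp N (X i) * Y i = Y i * qp N (X i)) →
    (∑ i, Y i) * qp N (X 0) = 0 → ∀ i, Y i * qp N (X 0) = 0) ∧
  ∀ i, X i * qp N (X 0) ≠ 0

theorem th_indep {N r : ℕ} (hn : PW K H (N + 2) = ⊥) {X : Fin (r + 1) → H} (hX : Th N X)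
    (c : Fin (r + 1) → K) (hc : ∑ i, c i • X i ∈ PW K H 1) : ∀ i, c i = 0 := by
  intro i
  have h1 := hX.1 (fun i => c i • X i) (fun i => by
    rw [mul_smul_comm, smul_mul_assoc, qp_comm]) (by
    have := mul_mem_PW hc (qp_mem (K := K) N (X 0))
    rw [show 1 + N + 1 = N + 2 by omega, hn, Submodule.mem_bot] at this
    exact this) i
  simp only [smul_mul_assoc] at h1
  rcases smul_eq_zero.1 h1 with h | h
  · exact h
  · exact absurd h (hX.2 i)

theorem g_coords {k r : ℕ} {g : Fin r → H} (hf : IsFreeNilpotent K (k + 1) r H g) (h : H) :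
    ∃ c : Fin r → K, ∃ z ∈ PW K H 1, h = ∑ i, c i • g i + z := by
  obtain ⟨s, hs, z, hz, e⟩ := Submodule.mem_sup.1 (span_of_gen (gen_top hf) h)
  rw [Submodule.mem_span_range_iff_exists_fun] at hs
  obtain ⟨c, hc⟩ := hs
  exact ⟨c, z, hz, by rw [hc, e]⟩

theorem F_right {N r : ℕ} {g : Fin (r + 1) → H} (hf : IsFreeNilpotent K (N + 3) (r + 1) H g)
    (j : Fin (r + 1)) : ∃ F : H →ₗ[K] K, ∀ i, F (g i * qp N (g 0)) = if i = j then 1 else 0 := by
  obtain ⟨F, hF⟩ := exists_coef hf (j :: 0 :: List.replicate N 0) (by simp)
  refine ⟨F, fun i => ?_⟩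
  have := hF i (0 :: List.replicate N 0) (by simp)
  rw [List.map_cons, List.map_replicate] at this
  have e : pr (g i) (g 0 :: List.replicate N (g 0)) = g i * qp N (g 0) := rfl
  rw [e] at this
  rw [this]
  by_cases hij : i = j
  · rw [if_pos hij, if_pos (by rw [hij])]
  · rw [if_neg hij, if_neg]
    intro h
    exact hij (List.cons.inj h).1

theorem F_comm {N r : ℕ} {g : Fin (r + 1) → H} (hf : IsFreeNilpotent K (N + 3) (r + 1) H g)
    (i k : Fin (r + 1)) (hik : k ≠ i) : ∃ F : H →ₗ[K] K,
      (∀ k', F (qp N (g i) * g k') = if k' = k then 1 else 0) ∧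
      ∀ k', F (g k' * qp N (g i)) = 0 := by
  obtain ⟨F, hF⟩ := exists_coef hf (i :: (List.replicate N i ++ [k])) (by simp)
  refine ⟨F, fun k' => ?_, fun k' => ?_⟩
  · have := hF i (List.replicate N i ++ [k']) (by simp)
    rw [List.map_append, List.map_replicate] at this
    have e : pr (g i) (List.replicate N (g i) ++ List.map g [k']) = qp N (g i) * g k' :=
      (pr_append (g i) (List.replicate N (g i)) (g k') []).symm
    rw [e] at this
    rw [this]
    by_cases hk : k' = k
    · rw [if_pos hk, if_pos (by rw [hk])]
    · rw [if_neg hk, if_neg]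
      intro h
      have := (List.cons.inj h).2
      have := List.append_cancel_left this
      exact hk (List.cons.inj this).1
  · have := hF k' (i :: List.replicate N i) (by simp)
    rw [List.map_cons, List.map_replicate] at this
    have e : pr (g k') (g i :: List.replicate N (g i)) = g k' * qp N (g i) := rfl
    rw [e] at this
    rw [this, if_neg]
    intro h
    have h2 := (List.cons.inj h).2
    rw [← List.replicate_succ, List.replicate_succ'] at h2
    have := List.append_cancel_left h2
    exact hik (List.cons.inj this).1.symm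

theorem g_indep {N r : ℕ} {g : Fin (r + 1) → H} (hf : IsFreeNilpotent K (N + 3) (r + 1) H g)
    (c : Fin (r + 1) → K) (hc : ∑ i, c i • g i ∈ PW K H 1) : ∀ i, c i = 0 := by
  have hn : PW K H (N + 2) = ⊥ := nil_of hf.nilp
  intro j
  obtain ⟨F, hF⟩ := F_right hf j
  have h1 : (∑ i, c i • g i) * qp N (g 0) = 0 := by
    have := mul_mem_PW hc (qp_mem (K := K) N (g 0))
    rw [show 1 + N + 1 = N + 2 by omega, hn, Submodule.mem_bot] at this
    exact this
  have h2 := congrArg F h1
  rw [Finset.sum_mul, map_sum, map_zero] at h2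
  simp only [smul_mul_assoc, map_smul, hF, smul_eq_mul, mul_ite, mul_one, mul_zero,
    Finset.sum_ite_eq', Finset.mem_univ, if_true] at h2
  exact h2

theorem th_g {N r : ℕ} {g : Fin (r + 1) → H} (hf : IsFreeNilpotent K (N + 3) (r + 1) H g) :
    Th N g := by
  have hn : PW K H (N + 2) = ⊥ := nil_of hf.nilp
  constructor
  · intro Y hY hsum
    choose c z hz hc using fun i => g_coords hf (Y i)
    have hzr : ∀ i j, z i * qp N (g j) = 0 := by
      intro i j
      have := mul_mem_PW (hz i) (qp_mem (K := K) N (g j))
      rw [show 1 + N + 1 = N + 2 by omega, hn, Submodule.mem_bot] at this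
      exact this
    have hzl : ∀ i j, qp N (g j) * z i = 0 := by
      intro i j
      have := mul_mem_PW (qp_mem (K := K) N (g j)) (hz i)
      rw [show N + 1 + 1 = N + 2 by omega, hn, Submodule.mem_bot] at this
      exact this
    have hoff : ∀ i k, k ≠ i → c i k = 0 := by
      intro i k hik
      obtain ⟨F, h1, h2⟩ := F_comm hf i k hik
      have h3 := congrArg F (hY i)
      rw [hc i, mul_add, add_mul, hzr, hzl, add_zero, add_zero, Finset.mul_sum, Finset.sum_mul,
        map_sum, map_sum] at h3
      simp only [smul_mul_assoc, mul_smul_comm, map_smul, h1, h2, smul_eq_mul, mul_ite, mul_one,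
        mul_zero, Finset.sum_ite_eq', Finset.mem_univ, if_true, Finset.sum_const_zero] at h3
      exact h3
    have hY2 : ∀ i, Y i = c i i • g i + z i := by
      intro i
      conv_lhs => rw [hc i]
      rw [Finset.sum_eq_single i]
      · intro b _ hb
        rw [hoff i b hb, zero_smul]
      · intro h; exact absurd (Finset.mem_univ _) h
    have hdiag : ∀ j, c j j = 0 := by
      intro j
      obtain ⟨F, hF⟩ := F_right hf j
      have h1 := congrArg F hsum
      rw [Finset.sum_mul, map_sum, map_zero] at h1
      have h2 : ∀ i, F (Y i * qp N (g 0)) = if i = j then c i i else 0 := by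
        intro i
        rw [hY2 i, add_mul, hzr, add_zero, smul_mul_assoc, map_smul, hF, smul_eq_mul, mul_ite,
          mul_one, mul_zero]
      rw [Finset.sum_congr rfl (fun i _ => h2 i)] at h1
      simpa using h1
    intro i
    rw [hY2 i, hdiag i, zero_smul, zero_add, hzr]
  · intro i h
    obtain ⟨F, hF⟩ := F_right hf i
    have := hF i
    rw [h, map_zero, if_pos rfl] at this
    exact zero_ne_one this

end

section syntax_part
variable {K : Type u} [Field K] {β : Type}

def tM (a b : (algLang K).Term β) : (algLang K).Term β :=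
  Term.func (L := algLang K) (l := 2) (AlgFunc.mul : AlgFunc K 2) ![a, b]
def tA (a b : (algLang K).Term β) : (algLang K).Term β :=
  Term.func (L := algLang K) (l := 2) (AlgFunc.add : AlgFunc K 2) ![a, b]
def tZ : (algLang K).Term β :=
  Term.func (L := algLang K) (l := 0) (AlgFunc.zero : AlgFunc K 0) ![]
def tS (c : K) (a : (algLang K).Term β) : (algLang K).Term β :=
  Term.func (L := algLang K) (l := 1) (AlgFunc.smul c : AlgFunc K 1) ![a]

variable {H : Type u} [NonUnitalRing H] [Module K H]

theorem real_tM (a b : (algLang K).Term β) (v : β → H) :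
    (tM a b).realize v = a.realize v * b.realize v := rfl
theorem real_tA (a b : (algLang K).Term β) (v : β → H) :
    (tA a b).realize v = a.realize v + b.realize v := rfl
theorem real_tZ (v : β → H) : (tZ : (algLang K).Term β).realize v = 0 := rfl
theorem real_tS (c : K) (a : (algLang K).Term β) (v : β → H) :
    (tS c a).realize v = c • a.realize v := rfl

def tpr (a : (algLang K).Term β) : List ((algLang K).Term β) → (algLang K).Term β
  | [] => a
  | b :: l => tM a (tpr b l)

theorem real_tpr (a : (algLang K).Term β) (l : List ((algLang K).Term β)) (v : β → H) :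
    (tpr a l).realize v = pr (a.realize v) (l.map (fun t => t.realize v)) := by
  induction l generalizing a with
  | nil => rfl
  | cons b l ih =>
    show (tM a (tpr b l)).realize v = a.realize v * pr (b.realize v) _
    rw [real_tM, ih]

def tq (N : ℕ) (a : (algLang K).Term β) : (algLang K).Term β := tpr a (List.replicate N a)

theorem real_tq (N : ℕ) (a : (algLang K).Term β) (v : β → H) :
    (tq N a).realize v = qp N (a.realize v) := by
  unfold tq qp
  rw [real_tpr, List.map_replicate]

def tsum : List ((algLang K).Term β) → (algLang K).Term β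
  | [] => tZ
  | t :: l => tA t (tsum l)

theorem real_tsum (l : List ((algLang K).Term β)) (v : β → H) :
    (tsum l).realize v = (l.map (fun t => t.realize v)).sum := by
  induction l with
  | nil => rfl
  | cons t l ih =>
    show (tA t (tsum l)).realize v = _
    rw [real_tA, ih, List.map_cons, List.sum_cons]

/-- the formula expressing `Th` in the variables `inr` -/
noncomputable def thF (K : Type u) [Field K] (m N r : ℕ) :
    (algLang K).Formula (Fin m ⊕ Fin (r + 1)) :=
  (Formula.iAlls (Fin (r + 1))
    ((Formula.iInf fun i : Fin (r + 1) =>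
        Term.equal (tM (tq N (Term.var (Sum.inl (Sum.inr i)))) (Term.var (Sum.inr i)))
          (tM (Term.var (Sum.inr i)) (tq N (Term.var (Sum.inl (Sum.inr i)))))).imp
      ((Term.equal (tM (tsum (List.ofFn fun i : Fin (r + 1) => Term.var (Sum.inr i)))
          (tq N (Term.var (Sum.inl (Sum.inr 0))))) tZ).imp
        (Formula.iInf fun i : Fin (r + 1) =>
          Term.equal (tM (Term.var (Sum.inr i)) (tq N (Term.var (Sum.inl (Sum.inr 0))))) tZ)))) ⊓
  (Formula.iInf fun i : Fin (r + 1) =>
    (Term.equal (tM (Term.var (Sum.inr i)) (tq N (Term.var (Sum.inr 0)))) tZ).not)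

theorem real_thF (m N r : ℕ) (v : Fin m → H) (X : Fin (r + 1) → H) :
    (thF K m N r).Realize (Sum.elim v X) ↔ Th N X := by
  unfold thF Th
  simp only [Formula.realize_inf, Formula.realize_iAlls, Formula.realize_imp,
    Formula.realize_iInf, Formula.realize_equal, Formula.realize_not, real_tM, real_tq, real_tsum,
    real_tZ, Term.realize_var, Sum.elim_inl, Sum.elim_inr, List.map_ofFn, List.sum_ofFn,
    Function.comp_def]

end syntax_part

end Pool.Agent.H21.Homog
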