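import Mathlib

/-! Counting lemmas for the search-to-profile problem. -/

namespace Pool.Agent.H21.Prof

open Finset

/-- the collision lower bound -/
theorem collision_lower {ι Y A B ζ : Type} [DecidableEq ι] [DecidableEq Y] [DecidableEq A]
    [DecidableEq B] [DecidableEq ζ]
    (Kg : Finset ι) (y : ι → Y) (a : ι → A) (b : ι → B) (z : ι → ζ) (j : ι → ℕ) (J : ℕ)
    (hj : ∀ k ∈ Kg, j k < J)
    (hinj : ∀ k ∈ Kg, ∀ k' ∈ Kg, y k = y k' → a k = a k' → b k = b k' → j k = j k' → k = k')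
    (M : ℕ)
    (h1 : (Kg.image fun k => (y k, z k, a k)).card ≤ M)
    (h2 : (Kg.image fun k => (y k, z k, b k)).card ≤ M)
    (T : ℕ) (hT : ((Kg ×ˢ Kg).filter fun p => y p.1 = y p.2 ∧ z p.1 = z p.2).card ≤ T) :
    (Kg.card : ℝ) ^ 3 ≤ 8 * J * M ^ 2 * T := by
  classical
  rcases Kg.eq_empty_or_nonempty with hne | hne
  · subst hne; simp; positivity
  set w : ι → Y × ζ := fun k => (y k, z k) with hw
  set W := Kg.image w with hW
  set f : Y × ζ → ℕ := fun v => (Kg.filter fun k => w k = v).card with hf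
  set S1 := Kg.image fun k => (y k, z k, a k) with hS1
  set S2 := Kg.image fun k => (y k, z k, b k) with hS2
  set α : Y × ζ → ℕ := fun v => (S1.filter fun s => (s.1, s.2.1) = v).card with hα
  set β : Y × ζ → ℕ := fun v => (S2.filter fun s => (s.1, s.2.1) = v).card with hβ
  have hsum : ∑ v ∈ W, f v = Kg.card := by
    rw [hf]
    exact (card_eq_sum_card_fiberwise (fun k hk => mem_image_of_mem w hk)).symm
  have hsα : ∑ v ∈ W, α v ≤ M := by
    refine le_trans (le_of_eq ?_) h1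
    refine (card_eq_sum_card_fiberwise (f := fun s : Y × ζ × A => (s.1, s.2.1)) ?_).symm
    intro s hs
    simp only [hS1, coe_image, Set.mem_image] at hs
    obtain ⟨k, hk, rfl⟩ := hs
    exact mem_image_of_mem w hk
  have hsβ : ∑ v ∈ W, β v ≤ M := by
    refine le_trans (le_of_eq ?_) h2
    refine (card_eq_sum_card_fiberwise (f := fun s : Y × ζ × B => (s.1, s.2.1)) ?_).symm
    intro s hs
    simp only [hS2, coe_image, Set.mem_image] at hs
    obtain ⟨k, hk, rfl⟩ := hs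
    exact mem_image_of_mem w hk
  have hfle : ∀ v, f v ≤ J * α v * β v := by
    intro v
    have : f v ≤ ((range J) ×ˢ ((S1.filter fun s => (s.1, s.2.1) = v) ×ˢ
        (S2.filter fun s => (s.1, s.2.1) = v))).card := by
      refine card_le_card_of_injOn (fun k => (j k, (y k, z k, a k), (y k, z k, b k))) ?_ ?_
      · intro k hk
        simp only [coe_filter, Set.mem_ofPred_eq] at hk
        simp only [coe_product, Set.mem_prod, mem_coe, mem_range, mem_filter, hS1, hS2,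
          mem_image]
        exact ⟨hj k hk.1, ⟨⟨k, hk.1, rfl⟩, hk.2⟩, ⟨⟨k, hk.1, rfl⟩, hk.2⟩⟩
      · intro k hk k' hk' he
        simp only [coe_filter, Set.mem_ofPred_eq] at hk hk'
        simp only [Prod.mk.injEq] at he
        exact hinj k hk.1 k' hk'.1 he.2.1.1 he.2.1.2.2 he.2.2.2.2 he.1
    rw [card_product, card_product, card_range, ← mul_assoc] at this
    exact this
  have hTf : ∑ v ∈ W, f v ^ 2 ≤ T := by
    refine le_trans (le_of_eq ?_) hT
    have h3 := card_eq_sum_card_fiberwise (s := (Kg ×ˢ Kg).filter fun p => y p.1 = y p.2 ∧ z p.1 = z p.2)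
      (t := W) (f := fun p => w p.1) (by
        intro p hp
        simp only [coe_filter, Set.mem_ofPred_eq, mem_product] at hp
        exact mem_image_of_mem w hp.1.1)
    rw [h3]
    refine sum_congr rfl fun v _ => ?_
    rw [sq, hf, ← card_product]
    congr 1
    ext p
    simp only [mem_product, mem_filter, hw]
    constructor
    · rintro ⟨⟨h1, h2⟩, h3, h4⟩
      subst h2
      simp only [Prod.mk.injEq] at h4
      exact ⟨⟨⟨h1, h3⟩, h4.1.symm, h4.2.symm⟩, rfl⟩
    · rintro ⟨⟨⟨h1, h3⟩, h4, h5⟩, h2⟩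
      subst h2
      exact ⟨⟨h1, rfl⟩, h3, by rw [h4, h5]⟩
  obtain ⟨k0, hk0⟩ := hne
  have hJ : (0 : ℝ) < J := by
    have := hj k0 hk0
    exact_mod_cast (by omega : 0 < J)
  have hM : (0 : ℝ) < M := by
    have : 0 < S1.card := card_pos.2 ⟨_, mem_image_of_mem _ hk0⟩
    exact_mod_cast lt_of_lt_of_le this h1
  have hF : (0 : ℝ) < Kg.card := by exact_mod_cast card_pos.2 ⟨k0, hk0⟩
  set F : ℝ := (Kg.card : ℝ) with hFd
  set t : ℝ := F / (2 * J * M) with ht
  have htpos : 0 < t := by rw [ht]; exact div_pos hF (mul_pos (mul_pos two_pos hJ) hM)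
  have hsplit : ∑ v ∈ W, (f v : ℝ) = ∑ v ∈ W.filter (fun v => (α v : ℝ) < t), (f v : ℝ) +
      ∑ v ∈ W.filter (fun v => ¬ (α v : ℝ) < t), (f v : ℝ) :=
    (sum_filter_add_sum_filter_not W _ _).symm
  have hsumR : ∑ v ∈ W, (f v : ℝ) = F := by
    rw [hFd, ← hsum]; push_cast; rfl
  have hlow : ∑ v ∈ W.filter (fun v => (α v : ℝ) < t), (f v : ℝ) ≤ F / 2 := by
    have h3 : ∑ v ∈ W.filter (fun v => (α v : ℝ) < t), (f v : ℝ) ≤
        ∑ v ∈ W, J * t * (β v : ℝ) := by
      refine le_trans (sum_le_sum (g := fun v => J * t * (β v : ℝ)) ?_) ?_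
      · intro v hv
        have h4 := (mem_filter.1 hv).2
        have h5 : (f v : ℝ) ≤ J * α v * β v := by exact_mod_cast hfle v
        refine h5.trans ?_
        exact mul_le_mul_of_nonneg_right (mul_le_mul_of_nonneg_left h4.le hJ.le) (Nat.cast_nonneg _)
      · refine sum_le_sum_of_subset_of_nonneg (filter_subset _ _) ?_
        intro v _ _; exact mul_nonneg (mul_nonneg hJ.le htpos.le) (Nat.cast_nonneg _)
    rw [← mul_sum] at h3
    have h4 : ∑ v ∈ W, (β v : ℝ) ≤ M := by exact_mod_cast hsβ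
    calc _ ≤ J * t * ∑ v ∈ W, (β v : ℝ) := h3
      _ ≤ J * t * M := mul_le_mul_of_nonneg_left h4 (mul_nonneg hJ.le htpos.le)
      _ = F / 2 := by rw [ht]; field_simp
  set V := W.filter (fun v => ¬ (α v : ℝ) < t) with hV
  have hVc : (V.card : ℝ) * t ≤ M := by
    have h4 : ∑ v ∈ W, (α v : ℝ) ≤ M := by exact_mod_cast hsα
    calc (V.card : ℝ) * t = ∑ v ∈ V, t := by rw [sum_const, nsmul_eq_mul]
      _ ≤ ∑ v ∈ V, (α v : ℝ) := sum_le_sum fun v hv => not_lt.1 (mem_filter.1 hv).2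
      _ ≤ ∑ v ∈ W, (α v : ℝ) :=
        sum_le_sum_of_subset_of_nonneg (filter_subset _ _) (fun v _ _ => Nat.cast_nonneg _)
      _ ≤ M := h4
  have hhigh : (∑ v ∈ V, (f v : ℝ)) ^ 2 ≤ V.card * T := by
    have h3 := inner_mul_le_norm_mul_norm' V (f := fun v => (f v : ℝ))
    exact h3 T (by
      have : ∑ v ∈ V, (f v : ℝ) ^ 2 ≤ ∑ v ∈ W, (f v : ℝ) ^ 2 :=
        sum_le_sum_of_subset_of_nonneg (filter_subset _ _) (fun v _ _ => sq_nonneg _)
      exact this.trans (by exact_mod_cast hTf))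
  have hhalf : F / 2 ≤ ∑ v ∈ V, (f v : ℝ) := by linarith
  have h6 : (F / 2) ^ 2 ≤ V.card * T :=
    le_trans (pow_le_pow_left₀ (by linarith) hhalf 2) hhigh
  have hT0 : (0 : ℝ) ≤ T := Nat.cast_nonneg _
  have h7 : (F / 2) ^ 2 * t ≤ M * T := by
    calc (F / 2) ^ 2 * t ≤ (V.card * T) * t := mul_le_mul_of_nonneg_right h6 htpos.le
      _ = (V.card * t) * T := by ring
      _ ≤ M * T := mul_le_mul_of_nonneg_right hVc hT0
  rw [ht] at h7
  have h8 : (F / 2) ^ 2 * (F / (2 * J * M)) = F ^ 3 / (8 * J * M) := by field_simp; ring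
  rw [h8, div_le_iff₀ (mul_pos (mul_pos (by norm_num) hJ) hM)] at h7
  calc F ^ 3 ≤ M * T * (8 * J * M) := h7
    _ = 8 * J * M ^ 2 * T := by ring
where
  inner_mul_le_norm_mul_norm' {V' : Type} (V : Finset V') {f : V' → ℝ} (T : ℝ)
      (h : ∑ v ∈ V, (f v) ^ 2 ≤ T) : (∑ v ∈ V, f v) ^ 2 ≤ V.card * T := by
    have := Finset.sum_mul_sq_le_sq_mul_sq V (fun _ => (1 : ℝ)) f
    simp only [one_mul, one_pow, sum_const, nsmul_eq_mul, mul_one] at this
    exact this.trans (by gcongr)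

end Pool.Agent.H21.Prof
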