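import Mathlib

/-! Averaging: there are parameters with few collisions. -/

namespace Pool.Agent.H21.Prof

open Finset

/-- digits of an index -/
def ky (p k : ℕ) : ℕ := k % p
def ka (p k : ℕ) : ℕ := k / p % p
def kb (p k : ℕ) : ℕ := k / p / p % p
def kj (p k : ℕ) : ℕ := k / p / p / p

/-- labels of an index for given parameters -/
def lb (p : ℕ) (lab : ℕ → ℕ → ℕ → ℕ → ℕ → ℕ) (s1 s2 u k : ℕ) : ℕ :=
  lab (ka p k) ((ky p k + ka p k * s1) % p) (kb p k) ((ky p k + u + kb p k * s2) % p) (kj p k)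

def TT (p J : ℕ) (lab : ℕ → ℕ → ℕ → ℕ → ℕ → ℕ) (s1 s2 u : ℕ) (Z : List ℕ) : ℕ :=
  ((range (p * p * p * J) ×ˢ range (p * p * p * J)).filter fun kk =>
    ky p kk.1 = ky p kk.2 ∧ lb p lab s1 s2 u kk.1 = lb p lab s1 s2 u kk.2 ∧
      lb p lab s1 s2 u kk.1 ∉ Z).card

theorem k_inj {p k k' : ℕ} (h1 : ky p k = ky p k') (h2 : ka p k = ka p k') (h3 : kb p k = kb p k')
    (h4 : kj p k = kj p k') : k = k' := by
  unfold ky ka kb kj at *
  rw [← Nat.div_add_mod k p, ← Nat.div_add_mod (k / p) p, ← Nat.div_add_mod (k / p / p) p,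
    h1, h2, h3, h4, Nat.div_add_mod, Nat.div_add_mod, Nat.div_add_mod]

theorem kj_lt {p J k : ℕ} (hk : k < p * p * p * J) : kj p k < J := by
  unfold kj
  rw [Nat.div_div_eq_div_mul, Nat.div_div_eq_div_mul]
  exact Nat.div_lt_of_lt_mul (by rw [show p * (p * p) * J = p * p * p * J by ring]; exact hk)

theorem lin_lemma {p : ℕ} [Fact p.Prime] {y a s a' y' s' : ℕ} (hy : y < p) (hy' : y' < p)
    (hs : s < p) (hs' : s' < p) (ha : a < p) (ha' : a' < p) (hne : a ≠ a')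
    (h1 : (y + a * s) % p = (y' + a * s') % p) (h2 : (y + a' * s) % p = (y' + a' * s') % p) :
    s = s' ∧ y = y' := by
  have e1 : ((y + a * s : ℕ) : ZMod p) = ((y' + a * s' : ℕ) : ZMod p) :=
    (ZMod.natCast_eq_natCast_iff _ _ _).2 h1
  have e2 : ((y + a' * s : ℕ) : ZMod p) = ((y' + a' * s' : ℕ) : ZMod p) :=
    (ZMod.natCast_eq_natCast_iff _ _ _).2 h2
  push_cast at e1 e2
  have hcast : ∀ m n : ℕ, m < p → n < p → (m : ZMod p) = n → m = n := by
    intro m n hm hn h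
    have := (ZMod.natCast_eq_natCast_iff _ _ _).1 h
    exact Nat.ModEq.eq_of_lt_of_lt this hm hn
  have hne' : (a : ZMod p) - a' ≠ 0 := by
    intro h
    exact hne (hcast a a' ha ha' (sub_eq_zero.1 h))
  have h3 : ((a : ZMod p) - a') * (s - s') = 0 := by linear_combination e1 - e2
  have h4 : (s : ZMod p) = s' := by
    rcases mul_eq_zero.1 h3 with h | h
    · exact absurd h hne'
    · exact sub_eq_zero.1 h
  have h5 : (y : ZMod p) = y' := by rw [h4] at e1; exact add_right_cancel e1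
  exact ⟨hcast _ _ hs hs' h4, hcast _ _ hy hy' h5⟩

theorem exists_params (p J D : ℕ) (hp : p.Prime) (hJ : 0 < J) (hD : 2 * D ≤ p)
    (lab : ℕ → ℕ → ℕ → ℕ → ℕ → ℕ) :
    ∃ s1 s2 u : ℕ, ∃ Z : List ℕ, s1 < p ∧ s2 < p ∧ u < p ∧ Z.length ≤ D ∧
      TT p J lab s1 s2 u Z * D ≤ 2 * p ^ 5 * J ^ 2 := by
  classical
  have : Fact p.Prime := ⟨hp⟩
  have hp0 : 0 < p := hp.pos
  set Ω := range p ×ˢ (range p ×ˢ (range p ×ˢ (range p ×ˢ range J))) with hΩ
  set L : ℕ × ℕ × ℕ × ℕ × ℕ → ℕ := fun o => lab o.1 o.2.1 o.2.2.1 o.2.2.2.1 o.2.2.2.2 with hL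
  have hΩc : Ω.card = p ^ 4 * J := by
    simp only [hΩ, card_product, card_range]; ring
  set w : ℕ → ℕ := fun z => (Ω.filter fun o => L o = z).card with hw
  set I := Ω.image L with hI
  have hwsum : ∑ z ∈ I, w z = p ^ 4 * J := by
    rw [← hΩc]
    exact (card_eq_sum_card_fiberwise (fun k hk => mem_image_of_mem L hk)).symm
  set Zs := I.filter fun z => p ^ 4 * J ≤ D * w z with hZs
  have hZc : Zs.card ≤ D := by
    have h1 : Zs.card * (p ^ 4 * J) ≤ D * (p ^ 4 * J) := by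
      calc Zs.card * (p ^ 4 * J) = ∑ z ∈ Zs, p ^ 4 * J := by rw [sum_const, smul_eq_mul]
        _ ≤ ∑ z ∈ Zs, D * w z := sum_le_sum fun z hz => (mem_filter.1 hz).2
        _ ≤ ∑ z ∈ I, D * w z :=
          sum_le_sum_of_subset_of_nonneg (filter_subset _ _) (fun _ _ _ => Nat.zero_le _)
        _ = D * (p ^ 4 * J) := by rw [← mul_sum, hwsum]
    exact Nat.le_of_mul_le_mul_right h1 (by positivity)
  set Z := Zs.toList with hZ
  have hmemZ : ∀ z, z ∈ Z ↔ z ∈ Zs := fun z => mem_toList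
  -- pairs of equal light labels
  set P := ((Ω ×ˢ Ω).filter fun oo => L oo.1 = L oo.2 ∧ L oo.1 ∉ Z) with hP
  have hPc : P.card * D ≤ (p ^ 4 * J) ^ 2 := by
    have h1 : P.card = ∑ z ∈ I.filter (fun z => z ∉ Z), w z ^ 2 := by
      rw [card_eq_sum_card_fiberwise (s := P) (t := I.filter (fun z => z ∉ Z))
        (f := fun oo => L oo.1) (by
          intro oo hoo
          simp only [hP, coe_filter, Set.mem_ofPred_eq, mem_product] at hoo
          simp only [coe_filter, Set.mem_ofPred_eq]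
          exact ⟨mem_image_of_mem L hoo.1.1, hoo.2.2⟩)]
      refine sum_congr rfl fun z hz => ?_
      rw [sq, hw, ← card_product]
      congr 1
      ext oo
      simp only [hP, mem_product, mem_filter]
      constructor
      · rintro ⟨⟨⟨h1, h2⟩, h3, h4⟩, h5⟩
        exact ⟨⟨h1, h5⟩, h2, by rw [← h3, h5]⟩
      · rintro ⟨⟨h1, h2⟩, h3, h4⟩
        exact ⟨⟨⟨h1, h3⟩, by rw [h2, h4], by rw [h2]; exact (mem_filter.1 hz).2⟩, h2⟩
    rw [h1, sum_mul]
    calc ∑ z ∈ I.filter (fun z => z ∉ Z), w z ^ 2 * D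
        ≤ ∑ z ∈ I.filter (fun z => z ∉ Z), w z * (p ^ 4 * J) := by
          refine sum_le_sum fun z hz => ?_
          have hz2 := (mem_filter.1 hz)
          have h3 : ¬ (p ^ 4 * J ≤ D * w z) := by
            intro h
            exact hz2.2 ((hmemZ z).2 (mem_filter.2 ⟨hz2.1, h⟩))
          have h4 : D * w z ≤ p ^ 4 * J := (not_le.1 h3).le
          calc w z ^ 2 * D = w z * (D * w z) := by ring
            _ ≤ w z * (p ^ 4 * J) := Nat.mul_le_mul_left _ h4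
      _ ≤ ∑ z ∈ I, w z * (p ^ 4 * J) :=
          sum_le_sum_of_subset_of_nonneg (filter_subset _ _) (fun _ _ _ => Nat.zero_le _)
      _ = (p ^ 4 * J) ^ 2 := by rw [← sum_mul, hwsum, sq]
  -- the sum over parameters
  set K0 := p * p * p * J with hK0
  set Θ := range p ×ˢ (range p ×ˢ range p) with hΘ
  have hΘc : Θ.card = p ^ 3 := by simp only [hΘ, card_product, card_range]; ring
  set Cd : ℕ × ℕ × ℕ → Finset (ℕ × ℕ) := fun θ =>
    ((range K0 ×ˢ range K0).filter fun kk =>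
      ky p kk.1 = ky p kk.2 ∧ lb p lab θ.1 θ.2.1 θ.2.2 kk.1 = lb p lab θ.1 θ.2.1 θ.2.2 kk.2 ∧
      lb p lab θ.1 θ.2.1 θ.2.2 kk.1 ∉ Z) with hCd
  have hlt : ∀ k, ky p k < p ∧ ka p k < p ∧ kb p k < p := fun k =>
    ⟨Nat.mod_lt _ hp0, Nat.mod_lt _ hp0, Nat.mod_lt _ hp0⟩
  -- nondegenerate part
  have hnd : (Θ.sigma fun θ => (Cd θ).filter fun kk =>
      ka p kk.1 ≠ ka p kk.2 ∧ kb p kk.1 ≠ kb p kk.2).card ≤ P.card := by
    let X : ℕ × ℕ × ℕ → ℕ → ℕ × ℕ × ℕ × ℕ × ℕ := fun θ k =>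
      (ka p k, (ky p k + ka p k * θ.1) % p, kb p k, (ky p k + θ.2.2 + kb p k * θ.2.1) % p, kj p k)
    have hXΩ : ∀ θ k, k < K0 → X θ k ∈ Ω := by
      intro θ k hk
      simp only [hΩ, X, mem_product, mem_range]
      exact ⟨(hlt k).2.1, Nat.mod_lt _ hp0, (hlt k).2.2, Nat.mod_lt _ hp0, kj_lt hk⟩
    refine card_le_card_of_injOn (fun q : (_ : ℕ × ℕ × ℕ) × (ℕ × ℕ) => (X q.1 q.2.1, X q.1 q.2.2)) ?_ ?_
    · intro q hq
      simp only [coe_sigma, Set.mem_sigma_iff, mem_coe, mem_filter, hCd, mem_product,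
        mem_range] at hq
      obtain ⟨hθ, ⟨⟨hk, hk'⟩, hy, hl, hz⟩, hne⟩ := hq
      simp only [hP, coe_filter, Set.mem_ofPred_eq, mem_product]
      exact ⟨⟨hXΩ _ _ hk, hXΩ _ _ hk'⟩, hl, hz⟩
    · rintro ⟨θ, k, k'⟩ hq ⟨θ', l, l'⟩ hq' he
      simp only [coe_sigma, Set.mem_sigma_iff, mem_coe, mem_filter, hCd, mem_product,
        mem_range, hΘ] at hq hq'
      obtain ⟨⟨ht1, ht2, ht3⟩, ⟨⟨hk, hk'⟩, hy, hl, hz⟩, hne1, hne2⟩ := hq
      obtain ⟨⟨ht1', ht2', ht3'⟩, ⟨⟨hk2, hk2'⟩, hy2, hl2, hz2⟩, hne12, hne22⟩ := hq'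
      simp only [X, Prod.mk.injEq] at he
      obtain ⟨⟨a1, a2, a3, a4, a5⟩, b1, b2, b3, b4, b5⟩ := he
      rw [← a1] at a2
      rw [← a3] at a4
      rw [← b1, ← hy, ← hy2] at b2
      rw [← b3, ← hy, ← hy2] at b4
      have r1 := lin_lemma (hlt k).1 (hlt l).1 ht1 ht1' (hlt k).2.1 (hlt k').2.1 hne1 a2 b2
      obtain ⟨r1, r2⟩ := r1
      have r3 : ∀ c, ((ky p k + θ.2.2) % p + c * θ.2.1) % p = (ky p k + θ.2.2 + c * θ.2.1) % p := by
        intro c; simp [Nat.add_mod]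
      have r4 : ∀ c, ((ky p l + θ'.2.2) % p + c * θ'.2.1) % p =
          (ky p l + θ'.2.2 + c * θ'.2.1) % p := by
        intro c; simp [Nat.add_mod]
      rw [← r3, ← r4] at a4 b4
      obtain ⟨r5, r6⟩ := lin_lemma (Nat.mod_lt _ hp0) (Nat.mod_lt _ hp0) ht2 ht2' (hlt k).2.2
        (hlt k').2.2 hne2 a4 b4
      have r7 : θ.2.2 = θ'.2.2 := by
        rw [← r2] at r6
        have : ky p k + θ.2.2 ≡ ky p k + θ'.2.2 [MOD p] := r6
        exact Nat.ModEq.eq_of_lt_of_lt (Nat.ModEq.add_left_cancel' _ this) ht3 ht3'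
      have hθe : θ = θ' := Prod.ext r1 (Prod.ext r5 r7)
      have hke : k = l := k_inj r2 a1 a3 a5
      have hke' : k' = l' := k_inj (by rw [← hy, ← hy2, r2]) b1 b3 b5
      subst hθe hke hke'
      rfl
  -- degenerate parts
  have hdeg : ∀ θ, ((Cd θ).filter fun kk => ¬ (ka p kk.1 ≠ ka p kk.2 ∧ kb p kk.1 ≠ kb p kk.2)).card
      ≤ 2 * p ^ 4 * J ^ 2 := by
    intro θ
    have h1 : ((Cd θ).filter fun kk => ka p kk.1 = ka p kk.2).card ≤ p ^ 4 * J ^ 2 := by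
      have : ((Cd θ).filter fun kk => ka p kk.1 = ka p kk.2).card ≤
          (range K0 ×ˢ (range p ×ˢ range J)).card := by
        refine card_le_card_of_injOn (fun kk => (kk.1, kb p kk.2, kj p kk.2)) ?_ ?_
        · intro kk hkk
          simp only [hCd, coe_filter, Set.mem_ofPred_eq, mem_filter, mem_product, mem_range] at hkk
          simp only [coe_product, Set.mem_prod, mem_coe, mem_range]
          exact ⟨hkk.1.1.1, (hlt _).2.2, kj_lt hkk.1.1.2⟩
        · intro kk hkk ll hll he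
          simp only [hCd, coe_filter, Set.mem_ofPred_eq, mem_filter, mem_product, mem_range] at hkk hll
          simp only [Prod.mk.injEq] at he
          refine Prod.ext he.1 (k_inj ?_ ?_ he.2.1 he.2.2)
          · rw [← hkk.1.2.1, ← hll.1.2.1, he.1]
          · rw [← hkk.2, ← hll.2, he.1]
      refine this.trans (le_of_eq ?_)
      simp only [card_product, card_range, hK0]; ring
    have h2 : ((Cd θ).filter fun kk => kb p kk.1 = kb p kk.2).card ≤ p ^ 4 * J ^ 2 := by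
      have : ((Cd θ).filter fun kk => kb p kk.1 = kb p kk.2).card ≤
          (range K0 ×ˢ (range p ×ˢ range J)).card := by
        refine card_le_card_of_injOn (fun kk => (kk.1, ka p kk.2, kj p kk.2)) ?_ ?_
        · intro kk hkk
          simp only [hCd, coe_filter, Set.mem_ofPred_eq, mem_filter, mem_product, mem_range] at hkk
          simp only [coe_product, Set.mem_prod, mem_coe, mem_range]
          exact ⟨hkk.1.1.1, (hlt _).2.1, kj_lt hkk.1.1.2⟩
        · intro kk hkk ll hll he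
          simp only [hCd, coe_filter, Set.mem_ofPred_eq, mem_filter, mem_product, mem_range] at hkk hll
          simp only [Prod.mk.injEq] at he
          refine Prod.ext he.1 (k_inj ?_ he.2.1 ?_ he.2.2)
          · rw [← hkk.1.2.1, ← hll.1.2.1, he.1]
          · rw [← hkk.2, ← hll.2, he.1]
      refine this.trans (le_of_eq ?_)
      simp only [card_product, card_range, hK0]; ring
    have h3 : ((Cd θ).filter fun kk => ¬ (ka p kk.1 ≠ ka p kk.2 ∧ kb p kk.1 ≠ kb p kk.2)) ⊆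
        ((Cd θ).filter fun kk => ka p kk.1 = ka p kk.2) ∪
        ((Cd θ).filter fun kk => kb p kk.1 = kb p kk.2) := by
      intro kk hkk
      simp only [mem_union, mem_filter] at hkk ⊢
      by_cases h : ka p kk.1 = ka p kk.2
      · exact Or.inl ⟨hkk.1, h⟩
      · right
        refine ⟨hkk.1, ?_⟩
        by_contra h'
        exact hkk.2 ⟨h, h'⟩
    calc _ ≤ _ := card_le_card h3
      _ ≤ _ := card_union_le _ _
      _ ≤ p ^ 4 * J ^ 2 + p ^ 4 * J ^ 2 := add_le_add h1 h2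
      _ = 2 * p ^ 4 * J ^ 2 := by ring
  have hsumle : ∑ θ ∈ Θ, (Cd θ).card ≤ P.card + p ^ 3 * (2 * p ^ 4 * J ^ 2) := by
    have h1 : ∀ θ, (Cd θ).card = ((Cd θ).filter fun kk =>
        ka p kk.1 ≠ ka p kk.2 ∧ kb p kk.1 ≠ kb p kk.2).card +
        ((Cd θ).filter fun kk => ¬ (ka p kk.1 ≠ ka p kk.2 ∧ kb p kk.1 ≠ kb p kk.2)).card :=
      fun θ => (card_filter_add_card_filter_not _).symm
    rw [sum_congr rfl fun θ _ => h1 θ, sum_add_distrib]
    refine add_le_add ?_ ?_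
    · rw [← card_sigma]; exact hnd
    · calc _ ≤ ∑ θ ∈ Θ, 2 * p ^ 4 * J ^ 2 := sum_le_sum fun θ _ => hdeg θ
        _ = p ^ 3 * (2 * p ^ 4 * J ^ 2) := by rw [sum_const, hΘc, smul_eq_mul]
  by_contra hcon
  push Not at hcon
  have hall : ∀ θ ∈ Θ, 2 * p ^ 5 * J ^ 2 < (Cd θ).card * D := by
    intro θ hθ
    simp only [hΘ, mem_product, mem_range] at hθ
    exact hcon θ.1 θ.2.1 θ.2.2 Z hθ.1 hθ.2.1 hθ.2.2 (by rw [hZ, length_toList]; exact hZc)
  have hΘne : Θ.Nonempty := by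
    rw [← card_pos, hΘc]; positivity
  have h1 : p ^ 3 * (2 * p ^ 5 * J ^ 2) < ∑ θ ∈ Θ, (Cd θ).card * D := by
    rw [← hΘc, ← smul_eq_mul, ← sum_const]
    exact sum_lt_sum_of_nonempty hΘne hall
  rw [← sum_mul] at h1
  have h2 : (∑ θ ∈ Θ, (Cd θ).card) * D ≤ (p ^ 4 * J) ^ 2 + p ^ 3 * (2 * p ^ 4 * J ^ 2) * D := by
    calc _ ≤ (P.card + p ^ 3 * (2 * p ^ 4 * J ^ 2)) * D := Nat.mul_le_mul_right _ hsumle
      _ = P.card * D + p ^ 3 * (2 * p ^ 4 * J ^ 2) * D := by ring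
      _ ≤ _ := Nat.add_le_add_right hPc _
  have h3 : p ^ 3 * (2 * p ^ 4 * J ^ 2) * D ≤ p ^ 8 * J ^ 2 := by
    calc p ^ 3 * (2 * p ^ 4 * J ^ 2) * D = p ^ 7 * J ^ 2 * (2 * D) := by ring
      _ ≤ p ^ 7 * J ^ 2 * p := Nat.mul_le_mul_left _ hD
      _ = p ^ 8 * J ^ 2 := by ring
  have h4 : p ^ 3 * (2 * p ^ 5 * J ^ 2) = p ^ 8 * J ^ 2 + p ^ 8 * J ^ 2 := by ring
  have h5 : (p ^ 4 * J) ^ 2 = p ^ 8 * J ^ 2 := by ring
  omega

end Pool.Agent.H21.Prof
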