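import Mathlib

set_option autoImplicit false

/-! A small toolbox: monotone Σ₁ normal form of r.e. predicates. -/

namespace Pool.Agent.H21.RE1

open Nat.Partrec (Code)
open Encodable

variable {α β γ : Type} [Primcodable α] [Primcodable β] [Primcodable γ]

/-- monotone Σ₁ normal form -/
def Sig (p : α → Prop) : Prop :=
  ∃ R : α → ℕ → Bool, Primrec₂ R ∧ (∀ a s t, s ≤ t → R a s = true → R a t = true) ∧
    ∀ a, p a ↔ ∃ t, R a t = true

theorem Sig.of_iff {p q : α → Prop} (h : Sig p) (e : ∀ a, q a ↔ p a) : Sig q := by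
  obtain ⟨R, h1, h2, h3⟩ := h
  exact ⟨R, h1, h2, fun a => (e a).trans (h3 a)⟩

theorem of_re {p : α → Prop} (h : REPred p) : Sig p := by
  obtain ⟨c, hc⟩ := Code.exists_code.1 h
  refine ⟨fun a t => (Code.evaln t c (encode a)).isSome, ?_, ?_, ?_⟩
  · have h1 : Primrec (fun q : α × ℕ => (((q.2, c), encode q.1) : (ℕ × Code) × ℕ)) :=
      (Primrec.snd.pair (Primrec.const c)).pair (Primrec.encode.comp Primrec.fst)
    have h2 : Primrec (fun q : α × ℕ => Code.evaln q.2 c (encode q.1)) :=
      Code.primrec_evaln.comp h1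
    exact Primrec.option_isSome.comp h2
  · intro a s t hst h1
    rw [Option.isSome_iff_exists] at h1 ⊢
    obtain ⟨x, hx⟩ := h1
    exact ⟨x, Code.evaln_mono hst hx⟩
  · intro a
    have h2 : p a ↔ (Code.eval c (encode a)).Dom := by
      rw [hc]
      simp [Part.assert, Part.dom_iff_mem]
    rw [h2]
    constructor
    · intro h3
      obtain ⟨x, hx⟩ := Part.dom_iff_mem.mp h3
      obtain ⟨k, hk⟩ := Code.evaln_complete.mp hx
      exact ⟨k, Option.isSome_iff_exists.mpr ⟨x, hk⟩⟩
    · rintro ⟨t, ht⟩
      obtain ⟨x, hx⟩ := Option.isSome_iff_exists.mp ht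
      exact Part.dom_iff_mem.mpr ⟨x, Code.evaln_complete.mpr ⟨t, hx⟩⟩

theorem Sig.re {p : α → Prop} (h : Sig p) : REPred p := by
  obtain ⟨R, h1, h2, h3⟩ := h
  have h4 : Partrec (fun a : α => Nat.rfind fun t => (Part.some (R a t) : Part Bool)) :=
    Partrec.rfind (h1.to_comp.partrec₂)
  refine h4.dom_re.of_eq fun a => ?_
  rw [h3 a]
  refine Iff.trans (Nat.rfind_dom (p := fun t => (Part.some (R a t) : Part Bool))) ?_
  constructor
  · rintro ⟨n, hn, -⟩
    exact ⟨n, (Part.mem_some_iff.mp hn).symm⟩
  · rintro ⟨n, hn⟩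
    exact ⟨n, Part.mem_some_iff.mpr hn.symm, fun {m} _ => trivial⟩

theorem prim_any {f : α → List β} {g : α → β → Bool} (hf : Primrec f) (hg : Primrec₂ g) :
    Primrec (fun a => (f a).any (g a)) := by
  have h := Primrec.list_foldr hf (Primrec.const false)
    (h := fun a p => g a p.1 || p.2)
    (Primrec.or.comp (hg.comp Primrec.fst (Primrec.fst.comp Primrec.snd))
      (Primrec.snd.comp Primrec.snd))
  refine h.of_eq fun a => ?_
  induction f a with
  | nil => rfl
  | cons b l ih => simp [List.foldr_cons, List.any_cons, ← ih]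

theorem prim_all {f : α → List β} {g : α → β → Bool} (hf : Primrec f) (hg : Primrec₂ g) :
    Primrec (fun a => (f a).all (g a)) := by
  have h := Primrec.list_foldr hf (Primrec.const true)
    (h := fun a p => g a p.1 && p.2)
    (Primrec.and.comp (hg.comp Primrec.fst (Primrec.fst.comp Primrec.snd))
      (Primrec.snd.comp Primrec.snd))
  refine h.of_eq fun a => ?_
  induction f a with
  | nil => rfl
  | cons b l ih => simp [List.foldr_cons, List.all_cons, ← ih]

theorem Sig.and {p q : α → Prop} (hp : Sig p) (hq : Sig q) : Sig (fun a => p a ∧ q a) := by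
  obtain ⟨R, h1, h2, h3⟩ := hp
  obtain ⟨R', h1', h2', h3'⟩ := hq
  refine ⟨fun a t => R a t && R' a t, Primrec.and.comp₂ h1 h1', ?_, ?_⟩
  · intro a s t hst h
    simp only [Bool.and_eq_true] at h ⊢
    exact ⟨h2 a s t hst h.1, h2' a s t hst h.2⟩
  · intro a
    show (p a ∧ q a) ↔ _
    rw [h3, h3']
    simp only [Bool.and_eq_true]
    constructor
    · rintro ⟨⟨s, hs⟩, t, ht⟩
      exact ⟨max s t, h2 a _ _ (le_max_left _ _) hs, h2' a _ _ (le_max_right _ _) ht⟩
    · rintro ⟨t, ht1, ht2⟩
      exact ⟨⟨t, ht1⟩, t, ht2⟩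

theorem Sig.comp {p : β → Prop} (hp : Sig p) {f : α → β} (hf : Primrec f) :
    Sig (fun a => p (f a)) := by
  obtain ⟨R, h1, h2, h3⟩ := hp
  exact ⟨fun a t => R (f a) t, h1.comp (hf.comp Primrec.fst) Primrec.snd,
    fun a s t hst h => h2 _ s t hst h, fun a => h3 _⟩

theorem Sig.prim {p : α → Prop} (hp : PrimrecPred p) : Sig p := by
  obtain ⟨d, hd⟩ := hp
  exact ⟨fun a _ => decide (p a), hd.comp Primrec.fst, fun a s t _ h => h, fun a => by simp⟩

theorem Sig.ex {p : α × β → Prop} (hp : Sig p) : Sig (fun a => ∃ b, p (a, b)) := by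
  obtain ⟨R, h1, h2, h3⟩ := hp
  refine ⟨fun a t => (List.range t).any (fun i =>
    ((decode i : Option β).map (fun b => R (a, b) t)).getD false), ?_, ?_, ?_⟩
  · refine prim_any (Primrec.list_range.comp Primrec.snd) ?_
    refine Primrec.option_getD.comp ?_ (Primrec.const false)
    refine Primrec.option_map (Primrec.decode.comp Primrec.snd) ?_
    refine h1.comp ?_ ?_
    · exact Primrec.pair (Primrec.fst.comp (Primrec.fst.comp Primrec.fst)) Primrec.snd
    · exact Primrec.snd.comp (Primrec.fst.comp Primrec.fst)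
  · intro a s t hst h
    simp only [List.any_eq_true, List.mem_range] at h ⊢
    obtain ⟨i, hi, h4⟩ := h
    refine ⟨i, by omega, ?_⟩
    rcases hd : (decode i : Option β) with _ | b
    · rw [hd] at h4; simp at h4
    · rw [hd] at h4
      simp only [Option.map_some, Option.getD_some] at h4 ⊢
      exact h2 _ _ _ hst h4
  · intro a
    constructor
    · rintro ⟨b, hb⟩
      obtain ⟨t, ht⟩ := (h3 _).mp hb
      refine ⟨max t (encode b + 1), ?_⟩
      simp only [List.any_eq_true, List.mem_range]
      refine ⟨encode b, by omega, ?_⟩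
      rw [encodek]
      simp only [Option.map_some, Option.getD_some]
      exact h2 _ _ _ (le_max_left _ _) ht
    · rintro ⟨t, ht⟩
      simp only [List.any_eq_true, List.mem_range] at ht
      obtain ⟨i, hi, h4⟩ := ht
      rcases hd : (decode i : Option β) with _ | b
      · rw [hd] at h4; simp at h4
      · rw [hd] at h4
        simp only [Option.map_some, Option.getD_some] at h4
        exact ⟨b, (h3 _).mpr ⟨t, h4⟩⟩

theorem prim_pow2 : Primrec (fun n : ℕ => 2 ^ n) := by
  have h := Primrec.nat_rec₁ (α := ℕ) (f := fun _ y => 2 * y) 1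
    (Primrec.nat_mul.comp (Primrec.const 2) Primrec.snd)
  refine h.of_eq fun n => ?_
  induction n with
  | zero => rfl
  | succ n ih => rw [pow_succ, ← ih]; show 2 * _ = _; ring

/-- all binary strings of length `L` -/
def strs : ℕ → List (List Bool)
  | 0 => [[]]
  | L + 1 => (strs L).flatMap (fun z => [false :: z, true :: z])

theorem mem_strs {L : ℕ} : ∀ {z : List Bool}, z ∈ strs L ↔ z.length = L := by
  induction L with
  | zero => intro z; simp [strs]
  | succ L ih =>
    intro z
    simp only [strs, List.mem_flatMap, List.mem_cons, List.not_mem_nil, or_false]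
    constructor
    · rintro ⟨w, hw, h | h⟩
      · rw [h, List.length_cons, ih.mp hw]
      · rw [h, List.length_cons, ih.mp hw]
    · intro h
      rcases z with _ | ⟨b, w⟩
      · simp at h
      · refine ⟨w, ih.mpr (by simpa using h), ?_⟩
        cases b
        · left; rfl
        · right; rfl

theorem prim_strs : Primrec strs := by
  have h := Primrec.nat_rec₁ (α := List (List Bool))
    (f := fun _ y => y.flatMap (fun z => [false :: z, true :: z])) [[]] ?_
  · refine h.of_eq fun n => ?_
    induction n with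
    | zero => rfl
    | succ n ih => rw [strs, ← ih]
  · refine Primrec.list_flatMap Primrec.snd ?_
    have e1 : Primrec₂ (fun (_ : ℕ × List (List Bool)) (z : List Bool) => false :: z) :=
      Primrec.list_cons.comp (Primrec.const false) Primrec.snd
    have e2 : Primrec₂ (fun (_ : ℕ × List (List Bool)) (z : List Bool) => true :: z) :=
      Primrec.list_cons.comp (Primrec.const true) Primrec.snd
    exact Primrec.list_cons.comp₂ e1 (Primrec.list_cons.comp₂ e2 (Primrec₂.const []))

end Pool.Agent.H21.RE1
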