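import Pool.Agent.H21.ProfDefs
import Pool.Agent.H21.Sig1
import Pool.Agent.H21.Prof2

/-! Computability of the search for parameters. -/

namespace Pool.Agent.H21.Prof

open Pool.Agent.H21.RE1

def str (l N : ℕ) : List Bool := (strs l).getD N []
def num (w : List Bool) : ℕ := (strs w.length).idxOf w

theorem prim_str : Primrec₂ str :=
  (Primrec.list_getD []).comp₂ (prim_strs.comp₂ Primrec₂.left) Primrec₂.right

theorem prim_num : Primrec num := by
  have h := (Primrec.list_idxOf (α := List Bool)).comp Primrec.id
    (prim_strs.comp Primrec.list_length)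
  refine h.of_eq fun w => ?_
  have e : (instBEqOfDecidableEq : BEq (List Bool)) = List.instBEq := lawful_beq_subsingleton _ _
  show @List.idxOf _ instBEqOfDecidableEq w (strs w.length) = @List.idxOf _ List.instBEq w _
  rw [e]

theorem strs_length (l : ℕ) : (strs l).length = 2 ^ l := by
  induction l with
  | zero => rfl
  | succ l ih =>
    rw [strs, List.length_flatMap]
    simp only [List.length_cons, List.length_nil]
    rw [List.map_const', List.sum_replicate, ih, pow_succ]
    rfl

theorem strs_nodup (l : ℕ) : (strs l).Nodup := by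
  induction l with
  | zero => simp [strs]
  | succ l ih =>
    rw [strs, List.nodup_flatMap]
    refine ⟨fun z _ => by simp, ih.imp ?_⟩
    intro a b hab
    simp only [Function.onFun, List.disjoint_left]
    intro w hw hw'
    simp only [List.mem_cons, List.not_mem_nil, or_false] at hw hw'
    rcases hw with rfl | rfl <;> rcases hw' with h | h <;> simp_all

theorem str_mem {l N : ℕ} (h : N < 2 ^ l) : str l N ∈ strs l := by
  unfold str
  rw [List.getD_eq_getElem _ _ (by rw [strs_length]; exact h)]
  exact List.getElem_mem _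

theorem str_length {l N : ℕ} (h : N < 2 ^ l) : (str l N).length = l := mem_strs.1 (str_mem h)

theorem num_str {l N : ℕ} (h : N < 2 ^ l) : num (str l N) = N := by
  unfold num
  rw [str_length h]
  unfold str
  rw [List.getD_eq_getElem _ _ (by rw [strs_length]; exact h)]
  exact (strs_nodup l).idxOf_getElem _ _

theorem num_lt (w : List Bool) : num w < 2 ^ w.length := by
  unfold num
  rw [← strs_length, List.idxOf_lt_length_iff]
  exact mem_strs.2 rfl

theorem str_num (w : List Bool) : str w.length (num w) = w := by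
  unfold str num
  have h : (strs w.length).idxOf w < (strs w.length).length := by
    rw [List.idxOf_lt_length_iff]; exact mem_strs.2 rfl
  rw [List.getD_eq_getElem _ _ h]
  exact List.getElem_idxOf h

theorem str_inj {l N M : ℕ} (hN : N < 2 ^ l) (hM : M < 2 ^ l) (h : str l N = str l M) : N = M := by
  rw [← num_str hN, h, num_str hM]

/-! ### computable arithmetic -/
section
variable {α : Type} [Primcodable α]

theorem c_add {f g : α → ℕ} (hf : Computable f) (hg : Computable g) :
    Computable (fun a => f a + g a) := Primrec.nat_add.to_comp.comp hf hg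
theorem c_mul {f g : α → ℕ} (hf : Computable f) (hg : Computable g) :
    Computable (fun a => f a * g a) := Primrec.nat_mul.to_comp.comp hf hg
theorem c_sub {f g : α → ℕ} (hf : Computable f) (hg : Computable g) :
    Computable (fun a => f a - g a) := Primrec.nat_sub.to_comp.comp hf hg
theorem c_div {f g : α → ℕ} (hf : Computable f) (hg : Computable g) :
    Computable (fun a => f a / g a) := Primrec.nat_div.to_comp.comp hf hg
theorem c_mod {f g : α → ℕ} (hf : Computable f) (hg : Computable g) :
    Computable (fun a => f a % g a) := Primrec.nat_mod.to_comp.comp hf hg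
theorem c_pow2 {f : α → ℕ} (hf : Computable f) : Computable (fun a => 2 ^ f a) :=
  prim_pow2.to_comp.comp hf
theorem c_str {f g : α → ℕ} (hf : Computable f) (hg : Computable g) :
    Computable (fun a => str (f a) (g a)) := prim_str.to_comp.comp hf hg
theorem c_const (n : ℕ) : Computable (fun _ : α => n) := Computable.const n
theorem c_le {f g : α → ℕ} (hf : Computable f) (hg : Computable g) :
    Computable (fun a => decide (f a ≤ g a)) :=
  (Primrec.nat_le.decide.to_comp).comp hf hg
theorem c_lt {f g : α → ℕ} (hf : Computable f) (hg : Computable g) :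
    Computable (fun a => decide (f a < g a)) :=
  (Primrec.nat_lt.decide.to_comp).comp hf hg
theorem c_eq {f g : α → ℕ} (hf : Computable f) (hg : Computable g) :
    Computable (fun a => decide (f a = g a)) :=
  (Primrec.eq.decide.to_comp).comp hf hg
theorem c_and {f g : α → Bool} (hf : Computable f) (hg : Computable g) :
    Computable (fun a => f a && g a) := Primrec.and.to_comp.comp hf hg
theorem c_not {f : α → Bool} (hf : Computable f) :
    Computable (fun a => !(f a)) := Primrec.not.to_comp.comp hf

theorem c_count {f : α → ℕ → Bool} (hf : Computable₂ f) {n : α → ℕ} (hn : Computable n) :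
    Computable (fun a => ((Finset.range (n a)).filter (fun i => f a i = true)).card) := by
  have h := Computable.nat_rec (f := n) (g := fun _ => 0)
    (h := fun a p => bif f a p.1 then p.2 + 1 else p.2) hn (Computable.const 0)
    (Computable.cond (hf.comp Computable.fst (Computable.fst.comp Computable.snd))
      (Computable.succ.comp (Computable.snd.comp Computable.snd))
      (Computable.snd.comp Computable.snd))
  refine h.of_eq fun a => ?_
  induction n a with
  | zero => rfl
  | succ k ih =>
    rw [Finset.range_add_one, Finset.filter_insert]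
    show (bif f a k then _ + 1 else _) = _
    rw [ih]
    cases h : f a k
    · simp
    · simp

end

/-- `x^64` by repeated squaring -/
def sq6 (x : ℕ) : ℕ :=
  let s : ℕ → ℕ := fun x => x * x
  s (s (s (s (s (s x)))))

theorem sq6_eq (x : ℕ) : sq6 x = x ^ 64 := by unfold sq6; ring

abbrev Inp := ℕ × List Bool × List Bool × Profile × List Bool
abbrev Par := ℕ × ℕ × ℕ × ℕ × List ℕ

def Rf (ρ : ℕ → ℕ) (q : ℕ) : ℕ := 2 ^ ρ (20 * q)
def Jf (c1 : ℕ) (ρ : ℕ → ℕ) (q : ℕ) : ℕ := sq6 (20 * q + c1 + 1) * Rf ρ q
def Xs (q a e : ℕ) : List Bool := str (8 * q) (a * 2 ^ (4 * q) + e)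

def labf (A : Inp → List Bool) (ρ : ℕ → ℕ) (q a e b f j : ℕ) : ℕ :=
  Encodable.encode (A (20 * q, Xs q a e, Xs q b f, Denumerable.ofNat Profile (j / Rf ρ q),
    str (ρ (20 * q)) (j % Rf ρ q)))

section
variable {α : Type} [Primcodable α] {A : Inp → List Bool} {ρ : ℕ → ℕ}

theorem c_Rf (hρ : Computable ρ) {q : α → ℕ} (hq : Computable q) :
    Computable (fun x => Rf ρ (q x)) := c_pow2 (hρ.comp (c_mul (c_const 20) hq))

theorem c_Jf (c1 : ℕ) (hρ : Computable ρ) {q : α → ℕ} (hq : Computable q) :
    Computable (fun x => Jf c1 ρ (q x)) := by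
  have hs : ∀ {f : α → ℕ}, Computable f → Computable (fun x => f x * f x) :=
    fun hf => c_mul hf hf
  have h0 := c_add (c_add (c_mul (c_const 20) hq) (c_const c1)) (c_const 1)
  exact c_mul (hs (hs (hs (hs (hs (hs h0)))))) (c_Rf hρ hq)

theorem c_Xs {q a e : α → ℕ} (hq : Computable q) (ha : Computable a) (he : Computable e) :
    Computable (fun x => Xs (q x) (a x) (e x)) :=
  c_str (c_mul (c_const 8) hq) (c_add (c_mul ha (c_pow2 (c_mul (c_const 4) hq))) he)

theorem c_labf (hA : Computable A) (hρ : Computable ρ) {q a e b f j : α → ℕ}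
    (hq : Computable q) (ha : Computable a) (he : Computable e) (hb : Computable b)
    (hf : Computable f) (hj : Computable j) :
    Computable (fun x => labf A ρ (q x) (a x) (e x) (b x) (f x) (j x)) := by
  refine Computable.encode.comp (hA.comp ?_)
  refine (c_mul (c_const 20) hq).pair ((c_Xs hq ha he).pair ((c_Xs hq hb hf).pair (?_ : Computable _)))
  refine Computable.pair ?_ ?_
  · exact (Primrec.ofNat Profile).to_comp.comp (c_div hj (c_Rf hρ hq))
  · exact c_str (hρ.comp (c_mul (c_const 20) hq)) (c_mod hj (c_Rf hρ hq))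

theorem c_lb (hA : Computable A) (hρ : Computable ρ) {q p s1 s2 u k : α → ℕ}
    (hq : Computable q) (hp : Computable p) (h1 : Computable s1) (h2 : Computable s2)
    (hu : Computable u) (hk : Computable k) :
    Computable (fun x => lb (p x) (labf A ρ (q x)) (s1 x) (s2 x) (u x) (k x)) := by
  have hky : Computable (fun x => ky (p x) (k x)) := c_mod hk hp
  have hka : Computable (fun x => ka (p x) (k x)) := c_mod (c_div hk hp) hp
  have hkb : Computable (fun x => kb (p x) (k x)) := c_mod (c_div (c_div hk hp) hp) hp
  have hkj : Computable (fun x => kj (p x) (k x)) := c_div (c_div (c_div hk hp) hp) hp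
  exact c_labf hA hρ hq hka (c_mod (c_add hky (c_mul hka h1)) hp) hkb
    (c_mod (c_add (c_add hky hu) (c_mul hkb h2)) hp) hkj

theorem TT_eq (p J : ℕ) (lab : ℕ → ℕ → ℕ → ℕ → ℕ → ℕ) (s1 s2 u : ℕ) (Z : List ℕ) :
    TT p J lab s1 s2 u Z =
      ((Finset.range ((p * p * p * J) * (p * p * p * J))).filter (fun i =>
        (decide (ky p (i / (p * p * p * J)) = ky p (i % (p * p * p * J))) &&
        (decide (lb p lab s1 s2 u (i / (p * p * p * J)) = lb p lab s1 s2 u (i % (p * p * p * J))) &&
        !(decide (Z.idxOf (lb p lab s1 s2 u (i / (p * p * p * J))) < Z.length)))) = true)).card := by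
  set K := p * p * p * J with hK
  unfold TT
  rw [← hK]
  refine Finset.card_nbij' (fun kk => kk.1 * K + kk.2) (fun i => (i / K, i % K)) ?_ ?_ ?_ ?_
  · rintro ⟨k, k'⟩ h
    simp only [Finset.coe_filter, Set.mem_ofPred_eq, Finset.mem_product, Finset.mem_range] at h
    obtain ⟨⟨h1, h2⟩, h3, h4, h5⟩ := h
    have hK0 : 0 < K := by omega
    have e1 : (k * K + k') / K = k := by
      rw [mul_comm, Nat.mul_add_div hK0, Nat.div_eq_of_lt h2, add_zero]
    have e2 : (k * K + k') % K = k' := by
      rw [mul_comm, Nat.mul_add_mod, Nat.mod_eq_of_lt h2]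
    simp only [Finset.coe_filter, Set.mem_ofPred_eq, Finset.mem_range, e1, e2, Bool.and_eq_true,
      decide_eq_true_eq, Bool.not_eq_true', decide_eq_false_iff_not, List.idxOf_lt_length_iff]
    refine ⟨?_, h3, h4, h5⟩
    calc k * K + k' < k * K + K := by omega
      _ = (k + 1) * K := by ring
      _ ≤ K * K := Nat.mul_le_mul_right _ h1
  · intro i h
    simp only [Finset.coe_filter, Set.mem_ofPred_eq, Finset.mem_range, Bool.and_eq_true,
      decide_eq_true_eq, Bool.not_eq_true', decide_eq_false_iff_not, List.idxOf_lt_length_iff] at h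
    obtain ⟨h1, h3, h4, h5⟩ := h
    have hK0 : 0 < K := by
      rcases Nat.eq_zero_or_pos K with h | h
      · rw [h] at h1; omega
      · exact h
    simp only [Finset.coe_filter, Set.mem_ofPred_eq, Finset.mem_product, Finset.mem_range]
    exact ⟨⟨Nat.div_lt_of_lt_mul h1, Nat.mod_lt _ hK0⟩, h3, h4, h5⟩
  · rintro ⟨k, k'⟩ h
    simp only [Finset.coe_filter, Set.mem_ofPred_eq, Finset.mem_product, Finset.mem_range] at h
    obtain ⟨⟨h1, h2⟩, h3, h4, h5⟩ := h
    have hK0 : 0 < K := by omega
    have e1 : (k * K + k') / K = k := by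
      rw [mul_comm, Nat.mul_add_div hK0, Nat.div_eq_of_lt h2, add_zero]
    have e2 : (k * K + k') % K = k' := by
      rw [mul_comm, Nat.mul_add_mod, Nat.mod_eq_of_lt h2]
    show ((k * K + k') / K, (k * K + k') % K) = (k, k')
    rw [e1, e2]
  · intro i _
    show i / K * K + i % K = i
    rw [mul_comm]
    exact Nat.div_add_mod i K

theorem c_TT (c1 : ℕ) (hA : Computable A) (hρ : Computable ρ) {q p s1 s2 u : α → ℕ}
    {Z : α → List ℕ} (hq : Computable q) (hp : Computable p) (h1 : Computable s1)
    (h2 : Computable s2) (hu : Computable u) (hZ : Computable Z) :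
    Computable (fun x => TT (p x) (Jf c1 ρ (q x)) (labf A ρ (q x)) (s1 x) (s2 x) (u x) (Z x)) := by
  have hK : Computable (fun x => p x * p x * p x * Jf c1 ρ (q x)) :=
    c_mul (c_mul (c_mul hp hp) hp) (c_Jf c1 hρ hq)
  refine (c_count (f := fun x i =>
      (decide (ky (p x) (i / (p x * p x * p x * Jf c1 ρ (q x))) =
          ky (p x) (i % (p x * p x * p x * Jf c1 ρ (q x)))) &&
        (decide (lb (p x) (labf A ρ (q x)) (s1 x) (s2 x) (u x)
            (i / (p x * p x * p x * Jf c1 ρ (q x))) =
          lb (p x) (labf A ρ (q x)) (s1 x) (s2 x) (u x)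
            (i % (p x * p x * p x * Jf c1 ρ (q x)))) &&
        !(decide ((Z x).idxOf (lb (p x) (labf A ρ (q x)) (s1 x) (s2 x) (u x)
            (i / (p x * p x * p x * Jf c1 ρ (q x)))) < (Z x).length))))) ?_
      (c_mul hK hK)).of_eq fun x => (TT_eq _ _ _ _ _ _ _).symm
  have f1 : Computable (Prod.fst : α × ℕ → α) := Computable.fst
  have hp' := hp.comp f1
  have hq' := hq.comp f1
  have h1' := h1.comp f1
  have h2' := h2.comp f1
  have hu' := hu.comp f1
  have hZ' := hZ.comp f1
  have hK' := hK.comp f1
  have hd : Computable (fun x : α × ℕ => x.2 / (p x.1 * p x.1 * p x.1 * Jf c1 ρ (q x.1))) :=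
    c_div Computable.snd hK'
  have hm : Computable (fun x : α × ℕ => x.2 % (p x.1 * p x.1 * p x.1 * Jf c1 ρ (q x.1))) :=
    c_mod Computable.snd hK'
  refine c_and (c_eq (c_mod hd hp') (c_mod hm hp')) (c_and (c_eq ?_ ?_) (c_not (c_lt ?_ ?_)))
  · exact c_lb hA hρ hq' hp' h1' h2' hu' hd
  · exact c_lb hA hρ hq' hp' h1' h2' hu' hm
  · exact (Primrec.list_idxOf (α := ℕ)).to_comp.comp (c_lb hA hρ hq' hp' h1' h2' hu' hd) hZ'
  · exact Computable.list_length.comp hZ'

end

end Pool.Agent.H21.Prof
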