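import Pool.Agent.H21.Prof3

/-! The search for parameters and upper bounds for complexities. -/

namespace Pool.Agent.H21.Prof

open Pool.Agent.H21.RE1

def check (A : Inp → List Bool) (ρ : ℕ → ℕ) (c1 : ℕ) (q : ℕ) (P : Par) : Bool :=
  decide (2 ^ (4 * q - 1) ≤ P.1) && (decide (P.1 ≤ 2 ^ (4 * q)) &&
  (decide (P.2.1 < P.1) && (decide (P.2.2.1 < P.1) && (decide (P.2.2.2.1 < P.1) &&
  (decide (P.2.2.2.2.length ≤ 2 ^ q) &&
  decide (TT P.1 (Jf c1 ρ q) (labf A ρ q) P.2.1 P.2.2.1 P.2.2.2.1 P.2.2.2.2 * 2 ^ q ≤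
    2 * (P.1 * P.1 * P.1 * P.1 * P.1) * (Jf c1 ρ q * Jf c1 ρ q)))))))

theorem Jf_pos (c1 : ℕ) (ρ : ℕ → ℕ) (q : ℕ) : 0 < Jf c1 ρ q := by
  unfold Jf Rf
  rw [sq6_eq]
  positivity

theorem exists_check (A : Inp → List Bool) (ρ : ℕ → ℕ) (c1 : ℕ) {q : ℕ} (hq : 1 ≤ q) :
    ∃ P, check A ρ c1 q P = true := by
  obtain ⟨p, hp, h1, h2⟩ := Nat.exists_prime_lt_and_le_two_mul (2 ^ (4 * q - 1)) (by positivity)
  have h3 : 2 * 2 ^ (4 * q - 1) = 2 ^ (4 * q) := by
    rw [← pow_succ']; congr 1; omega
  have h4 : 2 * 2 ^ q ≤ p := by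
    refine le_trans ?_ h1.le
    rw [← pow_succ']
    exact Nat.pow_le_pow_right (by norm_num) (by omega)
  obtain ⟨s1, s2, u, Z, e1, e2, e3, e4, e5⟩ :=
    exists_params p (Jf c1 ρ q) (2 ^ q) hp (Jf_pos _ _ _) h4 (labf A ρ q)
  refine ⟨(p, s1, s2, u, Z), ?_⟩
  simp only [check, Bool.and_eq_true, decide_eq_true_eq]
  refine ⟨h1.le, h3 ▸ h2, e1, e2, e3, e4, ?_⟩
  calc _ ≤ _ := e5
    _ = _ := by ring

section
variable {α : Type} [Primcodable α] {A : Inp → List Bool} {ρ : ℕ → ℕ}

theorem c_check (c1 : ℕ) (hA : Computable A) (hρ : Computable ρ) {q : α → ℕ} {P : α → Par}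
    (hq : Computable q) (hP : Computable P) :
    Computable (fun x => check A ρ c1 (q x) (P x)) := by
  have p1 : Computable (fun x => (P x).1) := Computable.fst.comp hP
  have p2 : Computable (fun x => (P x).2) := Computable.snd.comp hP
  have p21 : Computable (fun x => (P x).2.1) := Computable.fst.comp p2
  have p22 : Computable (fun x => (P x).2.2) := Computable.snd.comp p2
  have p221 : Computable (fun x => (P x).2.2.1) := Computable.fst.comp p22
  have p222 : Computable (fun x => (P x).2.2.2) := Computable.snd.comp p22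
  have p2221 : Computable (fun x => (P x).2.2.2.1) := Computable.fst.comp p222
  have p2222 : Computable (fun x => (P x).2.2.2.2) := Computable.snd.comp p222
  have h4q := c_mul (c_const 4) hq
  have hJ := c_Jf c1 hρ hq
  refine c_and (c_le (c_pow2 (c_sub h4q (c_const 1))) p1) (c_and (c_le p1 (c_pow2 h4q))
    (c_and (c_lt p21 p1) (c_and (c_lt p221 p1) (c_and (c_lt p2221 p1)
    (c_and (c_le (Computable.list_length.comp p2222) (c_pow2 hq)) (c_le
      (c_mul (c_TT c1 hA hρ hq p1 p21 p221 p2221 p2222) (c_pow2 hq))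
      (c_mul (c_mul (c_const 2) (c_mul (c_mul (c_mul (c_mul p1 p1) p1) p1) p1))
        (c_mul hJ hJ))))))))

/-- the parameters found by the search -/
def par (A : Inp → List Bool) (ρ : ℕ → ℕ) (c1 : ℕ) (q : ℕ) : Part Par :=
  (Nat.rfind fun N => (Part.some (check A ρ c1 q (Denumerable.ofNat Par N)) : Part Bool)).map
    (Denumerable.ofNat Par)

theorem p_par (c1 : ℕ) (hA : Computable A) (hρ : Computable ρ) {q : α → ℕ} (hq : Computable q) :
    Partrec (fun x => par A ρ c1 (q x)) := by
  have h1 : Computable (fun x : α × ℕ =>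
      check A ρ c1 (q x.1) (Denumerable.ofNat Par x.2)) :=
    c_check c1 hA hρ (hq.comp Computable.fst) ((Primrec.ofNat Par).to_comp.comp Computable.snd)
  have h2 : Partrec₂ (fun (x : α) (N : ℕ) =>
      (Part.some (check A ρ c1 (q x) (Denumerable.ofNat Par N)) : Part Bool)) := h1.partrec
  have h3 := Partrec.rfind h2
  exact h3.map (((Primrec.ofNat Par).to_comp.comp Computable.snd).to₂)

theorem par_spec (A : Inp → List Bool) (ρ : ℕ → ℕ) (c1 : ℕ) {q : ℕ} (hq : 1 ≤ q) :
    ∃ P, P ∈ par A ρ c1 q ∧ check A ρ c1 q P = true := by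
  obtain ⟨P0, hP0⟩ := exists_check A ρ c1 hq
  have hdom : (Nat.rfind fun N =>
      (Part.some (check A ρ c1 q (Denumerable.ofNat Par N)) : Part Bool)).Dom := by
    refine Nat.rfind_dom.2 ⟨Encodable.encode P0, ?_, fun _ => trivial⟩
    show true ∈ Part.some (check A ρ c1 q (Denumerable.ofNat Par (Encodable.encode P0)))
    rw [Denumerable.ofNat_encode, Part.mem_some_iff]
    exact hP0.symm
  obtain ⟨N, hN⟩ := Part.dom_iff_mem.1 hdom
  refine ⟨Denumerable.ofNat Par N, ?_, ?_⟩
  · exact Part.mem_map _ hN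
  · have := Nat.rfind_spec hN
    rw [Part.mem_some_iff] at this
    exact this.symm

/-- decoding of labels -/
def dec (N : ℕ) : List Bool := ((Encodable.decode N : Option (List Bool))).getD []

theorem dec_encode (z : List Bool) : dec (Encodable.encode z) = z := by
  unfold dec; rw [Encodable.encodek]; rfl

theorem prim_dec : Primrec dec := Primrec.option_getD.comp Primrec.decode (Primrec.const [])

def V0 (A : Inp → List Bool) (ρ : ℕ → ℕ) (c1 : ℕ) (w : List Bool) : Part (List Bool) :=
  (par A ρ c1 w.length).map fun P => dec (P.2.2.2.2.getD (num w) 0)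

def V1 (A : Inp → List Bool) (ρ : ℕ → ℕ) (c1 : ℕ) (pr : List Bool → List Bool → List Bool)
    (w : List Bool) : Part (List Bool) :=
  (par A ρ c1 (w.length / 8)).map fun P => pr w (str (4 * (w.length / 8))
    ((num w % 2 ^ (4 * (w.length / 8)) +
      num w / 2 ^ (4 * (w.length / 8)) * (P.1 - P.2.1)) % P.1))

def V2 (A : Inp → List Bool) (ρ : ℕ → ℕ) (c1 : ℕ) (pr : List Bool → List Bool → List Bool)
    (w : List Bool) : Part (List Bool) :=
  (par A ρ c1 (w.length / 8)).map fun P => pr w (str (4 * (w.length / 8))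
    ((num w % 2 ^ (4 * (w.length / 8)) +
      num w / 2 ^ (4 * (w.length / 8)) * (P.1 - P.2.2.1) + (P.1 - P.2.2.2.1)) % P.1))

theorem p_V0 (c1 : ℕ) (hA : Computable A) (hρ : Computable ρ) : Partrec (V0 A ρ c1) := by
  refine (p_par c1 hA hρ Computable.list_length).map ?_
  have hP : Computable (Prod.snd : List Bool × Par → Par) := Computable.snd
  have p2222 : Computable (fun x : List Bool × Par => x.2.2.2.2.2) :=
    Computable.snd.comp (Computable.snd.comp (Computable.snd.comp (Computable.snd.comp hP)))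
  have hn : Computable (fun x : List Bool × Par => num x.1) :=
    prim_num.to_comp.comp Computable.fst
  exact prim_dec.to_comp.comp ((Primrec.list_getD (0 : ℕ)).to_comp.comp p2222 hn)

theorem p_V1 (c1 : ℕ) (hA : Computable A) (hρ : Computable ρ)
    {pr : List Bool → List Bool → List Bool} (hpr : Computable₂ pr) :
    Partrec (V1 A ρ c1 pr) := by
  refine (p_par c1 hA hρ (c_div Computable.list_length (c_const 8))).map ?_
  have hP : Computable (Prod.snd : List Bool × Par → Par) := Computable.snd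
  have hw : Computable (Prod.fst : List Bool × Par → List Bool) := Computable.fst
  have p1 : Computable (fun x : List Bool × Par => x.2.1) := Computable.fst.comp hP
  have p2 : Computable (fun x : List Bool × Par => x.2.2.1) :=
    Computable.fst.comp (Computable.snd.comp hP)
  have hn : Computable (fun x : List Bool × Par => num x.1) := prim_num.to_comp.comp hw
  have hl : Computable (fun x : List Bool × Par => 4 * (x.1.length / 8)) :=
    c_mul (c_const 4) (c_div (Computable.list_length.comp hw) (c_const 8))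
  have hpw := c_pow2 hl
  exact hpr.comp hw (c_str hl (c_mod (c_add (c_mod hn hpw)
    (c_mul (c_div hn hpw) (c_sub p1 p2))) p1))

theorem p_V2 (c1 : ℕ) (hA : Computable A) (hρ : Computable ρ)
    {pr : List Bool → List Bool → List Bool} (hpr : Computable₂ pr) :
    Partrec (V2 A ρ c1 pr) := by
  refine (p_par c1 hA hρ (c_div Computable.list_length (c_const 8))).map ?_
  have hP : Computable (Prod.snd : List Bool × Par → Par) := Computable.snd
  have hw : Computable (Prod.fst : List Bool × Par → List Bool) := Computable.fst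
  have p1 : Computable (fun x : List Bool × Par => x.2.1) := Computable.fst.comp hP
  have p3 : Computable (fun x : List Bool × Par => x.2.2.2.1) :=
    Computable.fst.comp (Computable.snd.comp (Computable.snd.comp hP))
  have p4 : Computable (fun x : List Bool × Par => x.2.2.2.2.1) :=
    Computable.fst.comp (Computable.snd.comp (Computable.snd.comp (Computable.snd.comp hP)))
  have hn : Computable (fun x : List Bool × Par => num x.1) := prim_num.to_comp.comp hw
  have hl : Computable (fun x : List Bool × Par => 4 * (x.1.length / 8)) :=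
    c_mul (c_const 4) (c_div (Computable.list_length.comp hw) (c_const 8))
  have hpw := c_pow2 hl
  exact hpr.comp hw (c_str hl (c_mod (c_add (c_add (c_mod hn hpw)
    (c_mul (c_div hn hpw) (c_sub p1 p3))) (c_sub p1 p4)) p1))

end

/-! ### complexity -/
section
variable {U : List Bool →. List Bool}

theorem C_le (hU : Optimal U) {V : List Bool →. List Bool} (hV : Partrec V) :
    ∃ c : ℕ, ∀ w z, z ∈ V w → C U z ≤ w.length + c := by
  obtain ⟨c, hc⟩ := hU.2 V hV
  refine ⟨c, fun w z hz => ?_⟩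
  obtain ⟨w', h1, h2⟩ := hc w z hz
  have h3 : w'.length ∈ {l | ∃ w : List Bool, w.length = l ∧ z ∈ U w} := ⟨w', rfl, h2⟩
  exact (Nat.sInf_le h3).trans h1

theorem C_prog (hU : Optimal U) (z : List Bool) : ∃ w : List Bool, w.length = C U z ∧ z ∈ U w := by
  obtain ⟨c, hc⟩ := hU.2 (fun w => Part.some w) Computable.id.partrec
  obtain ⟨w', -, h2⟩ := hc z z (Part.mem_some z)
  exact Nat.sInf_mem (s := {l | ∃ w : List Bool, w.length = l ∧ z ∈ U w}) ⟨_, w', rfl, h2⟩

theorem count_C (hU : Optimal U) (S : Finset (List Bool)) (β : ℕ) (h : ∀ z ∈ S, C U z ≤ β) :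
    S.card ≤ 2 ^ (β + 1) := by
  classical
  choose w hw1 hw2 using C_prog hU
  have h1 : S.card ≤ ((Finset.range (β + 1)).biUnion fun l => (strs l).toFinset).card := by
    refine Finset.card_le_card_of_injOn w ?_ ?_
    · intro z hz
      simp only [Finset.coe_biUnion, Set.mem_iUnion, Finset.mem_coe, Finset.mem_range,
        List.mem_toFinset, mem_strs]
      exact ⟨(w z).length, by rw [hw1]; exact Nat.lt_succ_of_le (h z hz), rfl⟩
    · intro z _ z' _ he
      have h2 := hw2 z
      rw [show w z = w z' from he] at h2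
      exact Part.mem_unique h2 (hw2 z')
  refine h1.trans (Finset.card_biUnion_le.trans ?_)
  have h2 : ∀ l, (strs l).toFinset.card ≤ 2 ^ l := fun l => by
    rw [← strs_length]; exact List.toFinset_card_le _
  refine (Finset.sum_le_sum fun l _ => h2 l).trans ?_
  have : ∀ n, ∑ l ∈ Finset.range n, 2 ^ l ≤ 2 ^ n := by
    intro n
    induction n with
    | zero => simp
    | succ n ih => rw [Finset.sum_range_succ, pow_succ]; omega
  exact this _

/-- the numeric code of an instance -/
theorem C_inst (hU : Optimal U) {G : List Bool × List Bool × List Bool → List Bool}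
    (hG : Computable G) : ∃ c : ℕ, ∀ q n1 n2 n3, n1 < 2 ^ (8 * q) → n2 < 2 ^ (8 * q) →
      n3 < 2 ^ (4 * q) →
      C U (G (str (8 * q) n1, str (8 * q) n2, str (4 * q) n3)) ≤ 20 * q + c := by
  have hl : Computable (fun w : List Bool => w.length / 20) :=
    c_div Computable.list_length (c_const 20)
  have hn : Computable num := prim_num.to_comp
  have h8 := c_mul (c_const 8) hl
  have h4 := c_mul (c_const 4) hl
  have hV : Computable (fun w : List Bool => G
      (str (8 * (w.length / 20)) (num w / 2 ^ (4 * (w.length / 20)) / 2 ^ (8 * (w.length / 20))),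
       str (8 * (w.length / 20)) (num w / 2 ^ (4 * (w.length / 20)) % 2 ^ (8 * (w.length / 20))),
       str (4 * (w.length / 20)) (num w % 2 ^ (4 * (w.length / 20))))) :=
    hG.comp ((c_str h8 (c_div (c_div hn (c_pow2 h4)) (c_pow2 h8))).pair
      ((c_str h8 (c_mod (c_div hn (c_pow2 h4)) (c_pow2 h8))).pair
        (c_str h4 (c_mod hn (c_pow2 h4)))))
  obtain ⟨c, hc⟩ := C_le hU hV.partrec
  refine ⟨c, fun q n1 n2 n3 h1 h2 h3 => ?_⟩
  set N := (n1 * 2 ^ (8 * q) + n2) * 2 ^ (4 * q) + n3 with hN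
  have p4 : 0 < 2 ^ (4 * q) := by positivity
  have p8 : 0 < 2 ^ (8 * q) := by positivity
  have e1 : N / 2 ^ (4 * q) = n1 * 2 ^ (8 * q) + n2 := by
    rw [hN, mul_comm _ (2 ^ (4 * q)), Nat.mul_add_div p4, Nat.div_eq_of_lt h3, add_zero]
  have e2 : N % 2 ^ (4 * q) = n3 := by
    rw [hN, mul_comm _ (2 ^ (4 * q)), Nat.mul_add_mod, Nat.mod_eq_of_lt h3]
  have e3 : (n1 * 2 ^ (8 * q) + n2) / 2 ^ (8 * q) = n1 := by
    rw [mul_comm _ (2 ^ (8 * q)), Nat.mul_add_div p8, Nat.div_eq_of_lt h2, add_zero]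
  have e4 : (n1 * 2 ^ (8 * q) + n2) % 2 ^ (8 * q) = n2 := by
    rw [mul_comm _ (2 ^ (8 * q)), Nat.mul_add_mod, Nat.mod_eq_of_lt h2]
  have hNlt : N < 2 ^ (20 * q) := by
    have h5 : n1 * 2 ^ (8 * q) + n2 < 2 ^ (16 * q) := by
      calc n1 * 2 ^ (8 * q) + n2 < n1 * 2 ^ (8 * q) + 2 ^ (8 * q) := by omega
        _ = (n1 + 1) * 2 ^ (8 * q) := by ring
        _ ≤ 2 ^ (8 * q) * 2 ^ (8 * q) := Nat.mul_le_mul_right _ h1
        _ = 2 ^ (16 * q) := by rw [← pow_add]; congr 1; ring
    calc N < (n1 * 2 ^ (8 * q) + n2) * 2 ^ (4 * q) + 2 ^ (4 * q) := by omega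
      _ = (n1 * 2 ^ (8 * q) + n2 + 1) * 2 ^ (4 * q) := by ring
      _ ≤ 2 ^ (16 * q) * 2 ^ (4 * q) := Nat.mul_le_mul_right _ h5
      _ = 2 ^ (20 * q) := by rw [← pow_add]; congr 1; ring
  have h6 := hc (str (20 * q) N) (G (str (8 * q) n1, str (8 * q) n2, str (4 * q) n3)) (by
    have hlen := str_length hNlt
    have hnum := num_str hNlt
    have hq : (str (20 * q) N).length / 20 = q := by rw [hlen]; omega
    simp only [hq, hnum, e1, e2, e3, e4, PFun.coe_val]
    exact Part.mem_some _)
  rw [str_length hNlt] at h6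
  exact h6

end

end Pool.Agent.H21.Prof
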