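import Pool.Agent.H21.Prof1
import Pool.Agent.H21.Prof4

/-! Assembly, part 1: facts about the instances. -/

namespace Pool.Agent.H21.Prof

open Pool.Agent.H21.RE1

theorem pair_lt {a b B : ℕ} (ha : a < B) (hb : b < B) : Nat.pair a b < B * B := by
  refine (Nat.pair_lt_max_add_one_sq a b).trans_le ?_
  rw [← sq]
  exact Nat.pow_le_pow_left (by have := max_lt ha hb; omega) 2

theorem pair_chain {c1 c2 c3 c4 c5 c6 c7 B B1 B2 B3 B4 B5 : ℕ} (h1 : c1 < B) (h2 : c2 < B)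
    (h3 : c3 < B) (h4 : c4 < B) (h5 : c5 < B) (h6 : c6 < B) (h7 : c7 < B)
    (e1 : B1 = B * B) (e2 : B2 = B1 * B1) (e3 : B3 = B2 * B2) (e4 : B4 = B3 * B3)
    (e5 : B5 = B4 * B4) :
    Nat.pair c1 (Nat.pair c2 (Nat.pair c3 (Nat.pair c4 (Nat.pair c5 (Nat.pair c6 c7))))) <
      B5 * B5 := by
  have b0 : 1 ≤ B := by omega
  have b1 : 1 ≤ B1 := by rw [e1]; exact Nat.mul_pos b0 b0
  have b2 : 1 ≤ B2 := by rw [e2]; exact Nat.mul_pos b1 b1
  have b3 : 1 ≤ B3 := by rw [e3]; exact Nat.mul_pos b2 b2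
  have b4 : 1 ≤ B4 := by rw [e4]; exact Nat.mul_pos b3 b3
  have g1 : B ≤ B1 := by rw [e1]; exact Nat.le_mul_of_pos_left B b0
  have g2 : B1 ≤ B2 := by rw [e2]; exact Nat.le_mul_of_pos_left B1 b1
  have g3 : B2 ≤ B3 := by rw [e3]; exact Nat.le_mul_of_pos_left B2 b2
  have g4 : B3 ≤ B4 := by rw [e4]; exact Nat.le_mul_of_pos_left B3 b3
  have g5 : B4 ≤ B5 := by rw [e5]; exact Nat.le_mul_of_pos_left B4 b4
  have k1 : Nat.pair c6 c7 < B1 := by rw [e1]; exact pair_lt h6 h7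
  have k2 : Nat.pair c5 (Nat.pair c6 c7) < B2 := by rw [e2]; exact pair_lt (by omega) k1
  have k3 : Nat.pair c4 (Nat.pair c5 (Nat.pair c6 c7)) < B3 := by
    rw [e3]; exact pair_lt (by omega) k2
  have k4 : Nat.pair c3 (Nat.pair c4 (Nat.pair c5 (Nat.pair c6 c7))) < B4 := by
    rw [e4]; exact pair_lt (by omega) k3
  have k5 : Nat.pair c2 (Nat.pair c3 (Nat.pair c4 (Nat.pair c5 (Nat.pair c6 c7)))) < B5 := by
    rw [e5]; exact pair_lt (by omega) k4
  exact pair_lt (by omega) k5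

theorem encode_lt {c1 c2 c3 c4 c5 c6 c7 B : ℕ} (h1 : c1 < B) (h2 : c2 < B)
    (h3 : c3 < B) (h4 : c4 < B) (h5 : c5 < B) (h6 : c6 < B) (h7 : c7 < B) :
    Encodable.encode ((c1, c2, c3, c4, c5, c6, c7) : Profile) < sq6 B := by
  have h := pair_chain h1 h2 h3 h4 h5 h6 h7 rfl rfl rfl rfl rfl
  simp only [Encodable.encode_prod_val, Encodable.encode_nat, sq6]
  exact h

theorem prof_bound {U : List Bool →. List Bool} (hU : Optimal U)
    {pr : List Bool → List Bool → List Bool} (hpr : Computable₂ pr) :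
    ∃ c1 : ℕ, ∀ q n1 n2 n3, n1 < 2 ^ (8 * q) → n2 < 2 ^ (8 * q) → n3 < 2 ^ (4 * q) →
      Encodable.encode (profile U pr (str (8 * q) n1) (str (8 * q) n2) (str (4 * q) n3)) <
        sq6 (20 * q + c1 + 1) := by
  have f1 : Computable (fun x : List Bool × List Bool × List Bool => x.1) := Computable.fst
  have f2 : Computable (fun x : List Bool × List Bool × List Bool => x.2.1) :=
    Computable.fst.comp Computable.snd
  have f3 : Computable (fun x : List Bool × List Bool × List Bool => x.2.2) :=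
    Computable.snd.comp Computable.snd
  obtain ⟨a1, h1⟩ := C_inst hU f1
  obtain ⟨a2, h2⟩ := C_inst hU f2
  obtain ⟨a3, h3⟩ := C_inst hU f3
  obtain ⟨a4, h4⟩ := C_inst hU (hpr.comp f1 f2)
  obtain ⟨a5, h5⟩ := C_inst hU (hpr.comp f1 f3)
  obtain ⟨a6, h6⟩ := C_inst hU (hpr.comp f2 f3)
  obtain ⟨a7, h7⟩ := C_inst hU (hpr.comp f1 (hpr.comp f2 f3))
  refine ⟨a1 + a2 + a3 + a4 + a5 + a6 + a7, fun q n1 n2 n3 k1 k2 k3 => ?_⟩
  have g1 := h1 q n1 n2 n3 k1 k2 k3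
  have g2 := h2 q n1 n2 n3 k1 k2 k3
  have g3 := h3 q n1 n2 n3 k1 k2 k3
  have g4 := h4 q n1 n2 n3 k1 k2 k3
  have g5 := h5 q n1 n2 n3 k1 k2 k3
  have g6 := h6 q n1 n2 n3 k1 k2 k3
  have g7 := h7 q n1 n2 n3 k1 k2 k3
  dsimp only at g1 g2 g3 g4 g5 g6 g7
  exact encode_lt (by omega) (by omega) (by omega) (by omega) (by omega) (by omega) (by omega)

theorem digits {p y a b j : ℕ} (hy : y < p) (ha : a < p) (hb : b < p) :
    ky p (y + p * (a + p * (b + p * j))) = y ∧ ka p (y + p * (a + p * (b + p * j))) = a ∧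
    kb p (y + p * (a + p * (b + p * j))) = b ∧ kj p (y + p * (a + p * (b + p * j))) = j := by
  have hp : 0 < p := by omega
  have d : ∀ x m, x < p → (x + p * m) / p = m := by
    intro x m hx
    rw [Nat.add_mul_div_left _ _ hp, Nat.div_eq_of_lt hx, zero_add]
  have e : ∀ x m, x < p → (x + p * m) % p = x := by
    intro x m hx
    rw [Nat.add_mul_mod_self_left, Nat.mod_eq_of_lt hx]
  unfold ky ka kb kj
  refine ⟨e _ _ hy, ?_, ?_, ?_⟩
  · rw [d _ _ hy, e _ _ ha]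
  · rw [d _ _ hy, d _ _ ha, e _ _ hb]
  · rw [d _ _ hy, d _ _ ha, d _ _ hb]

theorem code_lt {p y a b j J : ℕ} (hy : y < p) (ha : a < p) (hb : b < p) (hj : j < J) :
    y + p * (a + p * (b + p * j)) < p * p * p * J := by
  have h1 : b + p * j < p * (j + 1) := by rw [mul_add, mul_one]; omega
  have h2 : a + p * (b + p * j) < p * (p * (j + 1)) := by
    calc a + p * (b + p * j) < p + p * (b + p * j) := by omega
      _ = p * (b + p * j + 1) := by ring
      _ ≤ p * (p * (j + 1)) := Nat.mul_le_mul_left _ h1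
  calc y + p * (a + p * (b + p * j)) < p + p * (a + p * (b + p * j)) := by omega
    _ = p * (a + p * (b + p * j) + 1) := by ring
    _ ≤ p * (p * (p * (j + 1))) := Nat.mul_le_mul_left _ h2
    _ ≤ p * (p * (p * J)) := by
      refine Nat.mul_le_mul_left _ (Nat.mul_le_mul_left _ (Nat.mul_le_mul_left _ hj))
    _ = p * p * p * J := by ring

theorem rec1 {p y a s : ℕ} (hy : y < p) (hs : s ≤ p) : ((y + a * s) % p + a * (p - s)) % p = y := by
  have h : ((y + a * s) % p + a * (p - s)) % p = (y + a * s + a * (p - s)) % p := by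
    simp [Nat.add_mod]
  rw [h]
  have : y + a * s + a * (p - s) = y + p * a := by
    obtain ⟨t, rfl⟩ := Nat.exists_eq_add_of_le hs
    rw [Nat.add_sub_cancel_left]; ring
  rw [this, Nat.add_mul_mod_self_left, Nat.mod_eq_of_lt hy]

theorem rec2 {p y b s u : ℕ} (hy : y < p) (hs : s ≤ p) (hu : u ≤ p) :
    ((y + u + b * s) % p + b * (p - s) + (p - u)) % p = y := by
  have h : ((y + u + b * s) % p + b * (p - s) + (p - u)) % p =
      (y + u + b * s + b * (p - s) + (p - u)) % p := by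
    simp [Nat.add_mod]
  rw [h]
  have : y + u + b * s + b * (p - s) + (p - u) = y + p * (b + 1) := by
    obtain ⟨t, rfl⟩ := Nat.exists_eq_add_of_le hs
    obtain ⟨v, hv⟩ := Nat.exists_eq_add_of_le hu
    rw [Nat.add_sub_cancel_left]
    have : s + t - u = v := by omega
    rw [this]
    have h2 : (s + t) * (b + 1) = b * s + b * t + (u + v) := by rw [← hv]; ring
    rw [h2]; ring
  rw [this, Nat.add_mul_mod_self_left, Nat.mod_eq_of_lt hy]

theorem Xs_code {q a e p : ℕ} (ha : a < p) (he : e < p) (hp : p ≤ 2 ^ (4 * q)) :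
    a * 2 ^ (4 * q) + e < 2 ^ (8 * q) ∧ (a * 2 ^ (4 * q) + e) % 2 ^ (4 * q) = e ∧
    (a * 2 ^ (4 * q) + e) / 2 ^ (4 * q) = a := by
  have h0 : 0 < 2 ^ (4 * q) := by positivity
  have he' : e < 2 ^ (4 * q) := by omega
  have ha' : a < 2 ^ (4 * q) := by omega
  refine ⟨?_, ?_, ?_⟩
  · calc a * 2 ^ (4 * q) + e < a * 2 ^ (4 * q) + 2 ^ (4 * q) := by omega
      _ = (a + 1) * 2 ^ (4 * q) := by ring
      _ ≤ 2 ^ (4 * q) * 2 ^ (4 * q) := Nat.mul_le_mul_right _ ha'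
      _ = 2 ^ (8 * q) := by rw [← pow_add]; congr 1; ring
  · rw [mul_comm, Nat.mul_add_mod, Nat.mod_eq_of_lt he']
  · rw [mul_comm, Nat.mul_add_div h0, Nat.div_eq_of_lt he', add_zero]

theorem Xs_inj {q a e a' e' p : ℕ} (ha : a < p) (he : e < p) (ha' : a' < p) (he' : e' < p)
    (hp : p ≤ 2 ^ (4 * q)) (h : Xs q a e = Xs q a' e') : a = a' ∧ e = e' := by
  obtain ⟨h1, h2, h3⟩ := Xs_code ha he hp
  obtain ⟨h1', h2', h3'⟩ := Xs_code ha' he' hp
  have h4 := str_inj h1 h1' h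
  rw [h4] at h2 h3
  exact ⟨h3.symm.trans h3', h2.symm.trans h2'⟩

section
variable {U : List Bool →. List Bool} {pr : List Bool → List Bool → List Bool}
  {A : Inp → List Bool} {ρ : ℕ → ℕ}

theorem C_first (hU : Optimal U) (hpr : Computable₂ pr) (c1 : ℕ) (hA : Computable A)
    (hρ : Computable ρ) : ∃ c, ∀ q P, P ∈ par A ρ c1 q → P.1 ≤ 2 ^ (4 * q) → P.2.1 < P.1 →
      ∀ y a, y < P.1 → a < P.1 →
      C U (pr (Xs q a ((y + a * P.2.1) % P.1)) (str (4 * q) y)) ≤ 8 * q + c := by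
  obtain ⟨c, hc⟩ := C_le hU (p_V1 c1 hA hρ hpr)
  refine ⟨c, fun q P hP h1 h2 y a hy ha => ?_⟩
  obtain ⟨k1, k2, k3⟩ := Xs_code (q := q) (a := a) (e := (y + a * P.2.1) % P.1) ha
    (Nat.mod_lt _ (by omega)) h1
  have hlen := str_length k1
  have := hc (Xs q a ((y + a * P.2.1) % P.1))
    (pr (Xs q a ((y + a * P.2.1) % P.1)) (str (4 * q) y)) (by
      unfold V1
      unfold Xs
      rw [hlen, num_str k1, show 8 * q / 8 = q by omega, k2, k3]
      refine (Part.mem_map_iff _).2 ⟨P, hP, ?_⟩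
      rw [rec1 hy h2.le])
  unfold Xs at this ⊢
  rw [hlen] at this
  exact this

theorem C_second (hU : Optimal U) (hpr : Computable₂ pr) (c1 : ℕ) (hA : Computable A)
    (hρ : Computable ρ) : ∃ c, ∀ q P, P ∈ par A ρ c1 q → P.1 ≤ 2 ^ (4 * q) → P.2.2.1 < P.1 →
      P.2.2.2.1 < P.1 → ∀ y b, y < P.1 → b < P.1 →
      C U (pr (Xs q b ((y + P.2.2.2.1 + b * P.2.2.1) % P.1)) (str (4 * q) y)) ≤ 8 * q + c := by
  obtain ⟨c, hc⟩ := C_le hU (p_V2 c1 hA hρ hpr)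
  refine ⟨c, fun q P hP h1 h2 h3 y b hy hb => ?_⟩
  obtain ⟨k1, k2, k3⟩ := Xs_code (q := q) (a := b) (e := (y + P.2.2.2.1 + b * P.2.2.1) % P.1) hb
    (Nat.mod_lt _ (by omega)) h1
  have hlen := str_length k1
  have := hc (Xs q b ((y + P.2.2.2.1 + b * P.2.2.1) % P.1))
    (pr (Xs q b ((y + P.2.2.2.1 + b * P.2.2.1) % P.1)) (str (4 * q) y)) (by
      unfold V2
      unfold Xs
      rw [hlen, num_str k1, show 8 * q / 8 = q by omega, k2, k3]
      refine (Part.mem_map_iff _).2 ⟨P, hP, ?_⟩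
      rw [rec2 hy h2.le h3.le])
  unfold Xs at this ⊢
  rw [hlen] at this
  exact this

theorem C_heavy (hU : Optimal U) (c1 : ℕ) (hA : Computable A)
    (hρ : Computable ρ) : ∃ c, ∀ q P, P ∈ par A ρ c1 q → P.2.2.2.2.length ≤ 2 ^ q →
      ∀ z ∈ P.2.2.2.2, C U (dec z) ≤ q + c := by
  obtain ⟨c, hc⟩ := C_le hU (p_V0 (A := A) c1 hA hρ)
  refine ⟨c, fun q P hP h1 z hz => ?_⟩
  have hi : P.2.2.2.2.idxOf z < P.2.2.2.2.length := List.idxOf_lt_length_iff.2 hz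
  have hlen := str_length (hi.trans_le h1)
  have := hc (str q (P.2.2.2.2.idxOf z)) (dec z) (by
    unfold V0
    rw [hlen, num_str (hi.trans_le h1)]
    refine (Part.mem_map_iff _).2 ⟨P, hP, ?_⟩
    rw [List.getD_eq_getElem _ _ hi, List.getElem_idxOf hi])
  rw [hlen] at this
  exact this

end

theorem near_le {c : ℝ} {n a b : ℕ} (h : Near c n a b) : a ≤ b + ⌊c * Real.log n⌋₊ := by
  unfold Near at h
  rcases Nat.le_total a b with hab | hab
  · omega
  · have h1 : ((a - b : ℕ) : ℝ) ≤ c * Real.log n := by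
      rw [Nat.cast_sub hab]
      exact (le_abs_self _).trans h
    have h2 := Nat.le_floor h1
    omega

theorem near_ge {c : ℝ} {n a b : ℕ} (h : Near c n a b) : b ≤ a + ⌊c * Real.log n⌋₊ := by
  apply near_le
  unfold Near at h ⊢
  rwa [abs_sub_comm]

/-- `2^⌊c log n⌋` is polynomially bounded -/
theorem pow_slack {c : ℝ} {n : ℕ} (hn : 1 ≤ n) :
    (2 : ℝ) ^ ⌊c * Real.log n⌋₊ ≤ (n : ℝ) ^ ⌈c⌉₊ := by
  have hl : 0 ≤ Real.log n := Real.log_natCast_nonneg n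
  rcases le_or_gt (c * Real.log n) 0 with h | h
  · rw [Nat.floor_of_nonpos h, pow_zero]
    exact one_le_pow₀ (by exact_mod_cast hn)
  · have h1 : (⌊c * Real.log n⌋₊ : ℝ) ≤ c * Real.log n := Nat.floor_le h.le
    have h2 : c * Real.log n ≤ ⌈c⌉₊ * Real.log n :=
      mul_le_mul_of_nonneg_right (Nat.le_ceil c) hl
    have h3 : (2 : ℝ) ^ ⌊c * Real.log n⌋₊ ≤ Real.exp 1 ^ ⌊c * Real.log n⌋₊ := by
      refine pow_le_pow_left₀ (by norm_num) ?_ _
      have := Real.add_one_le_exp 1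
      linarith
    refine h3.trans ?_
    rw [← Real.exp_nat_mul, mul_one]
    have hn0 : (0 : ℝ) < n := by exact_mod_cast hn
    calc Real.exp ⌊c * Real.log n⌋₊ ≤ Real.exp (⌈c⌉₊ * Real.log n) :=
          Real.exp_le_exp.2 (h1.trans h2)
      _ = (n : ℝ) ^ ⌈c⌉₊ := by rw [Real.exp_nat_mul, Real.exp_log hn0]

/-- exponentials beat polynomials -/
theorem exp_beats (a b c : ℕ) (K ε : ℝ) (hK : 0 < K) (hε : 0 < ε) (N : ℕ) :
    ∃ q : ℕ, N ≤ q ∧ 1 ≤ q ∧ K * ((20 * q + a + 1 : ℕ) : ℝ) ^ b * ((20 * q : ℕ) : ℝ) ^ c <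
      ε * 2 ^ q := by
  have ht := tendsto_pow_const_div_const_pow_of_one_lt (b + c) (r := (2 : ℝ)) (by norm_num)
  set M : ℝ := K * ((21 + a : ℕ) : ℝ) ^ b * (20 : ℝ) ^ c with hM
  have hMpos : 0 < M := by positivity
  have hev := (ht.eventually (gt_mem_nhds (div_pos hε hMpos))).and
    ((Filter.eventually_ge_atTop N).and (Filter.eventually_ge_atTop 1))
  obtain ⟨q, h1, h2, h3⟩ := hev.exists
  refine ⟨q, h2, h3, ?_⟩
  rw [div_lt_div_iff₀ (by positivity) hMpos] at h1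
  have h4 : ((20 * q + a + 1 : ℕ) : ℝ) ≤ ((21 + a : ℕ) : ℝ) * q := by
    have h5 : 20 * q + a + 1 ≤ (21 + a) * q := by nlinarith
    calc ((20 * q + a + 1 : ℕ) : ℝ) ≤ (((21 + a) * q : ℕ) : ℝ) := by exact_mod_cast h5
      _ = _ := by push_cast; ring
  calc K * ((20 * q + a + 1 : ℕ) : ℝ) ^ b * ((20 * q : ℕ) : ℝ) ^ c
      ≤ K * (((21 + a : ℕ) : ℝ) * q) ^ b * ((20 * q : ℕ) : ℝ) ^ c := by gcongr
    _ = (q : ℝ) ^ (b + c) * M := by rw [hM, mul_pow, pow_add]; push_cast; ring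
    _ < ε * 2 ^ q := h1

end Pool.Agent.H21.Prof
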