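import Pool.Agent.H21.Prof5

/-! Assembly, part 2: the contradiction. -/

namespace Pool.Agent.H21.Prof

open Finset Pool.Agent.H21.RE1

theorem main {U : List Bool →. List Bool} (hU : Optimal U)
    {pr : List Bool → List Bool → List Bool} (hpr : Computable₂ pr)
    (hinj : ∀ a b a' b', pr a b = pr a' b' → a = a' ∧ b = b')
    {A : Inp → List Bool} (hA : Computable A) {ρ : ℕ → ℕ} (hρ : Computable ρ)
    (c δ : ℝ) (hδ : 0 < δ) (N0 : ℕ)
    (H : ∀ (x1 x2 y : List Bool) (n : ℕ), n = x1.length + x2.length + y.length → N0 ≤ n →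
      ∀ S : Finset (Fin (ρ n) → Bool), (∀ r, r ∈ S ↔
        Close c n (profile U pr x1 x2 (A (n, x1, x2, profile U pr x1 x2 y, List.ofFn r)))
          (profile U pr x1 x2 y)) → δ * 2 ^ ρ n ≤ (S.card : ℝ)) : False := by
  classical
  obtain ⟨c1, hc1⟩ := prof_bound hU hpr
  obtain ⟨d1, hd1⟩ := C_first hU hpr c1 hA hρ
  obtain ⟨d2, hd2⟩ := C_second hU hpr c1 hA hρ
  obtain ⟨d0, hd0⟩ := C_heavy hU c1 hA hρ
  set c0 := d0 + d1 + d2 with hc0
  set cc := ⌈c⌉₊ with hcc
  have hε : 0 < min 1 (δ ^ 3) := lt_min one_pos (by positivity)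
  obtain ⟨q, hqN, hq1, hq⟩ := exp_beats c1 192 (2 * cc) (2048 * 4 ^ (c0 + 1)) (min 1 (δ ^ 3))
    (by positivity) hε N0
  obtain ⟨⟨p, s1, s2, u, Z⟩, hP, hcheck⟩ := par_spec A ρ c1 hq1
  simp only [check, Bool.and_eq_true, decide_eq_true_eq] at hcheck
  obtain ⟨p1, p2, hs1, hs2, hu, hZ, hT⟩ := hcheck
  set σ := ⌊c * Real.log ((20 * q : ℕ) : ℝ)⌋₊ with hσ
  have hσ2 : (2 : ℝ) ^ σ ≤ ((20 * q : ℕ) : ℝ) ^ cc := pow_slack (by omega)
  have hp0 : 0 < p := lt_of_lt_of_le (by positivity) p1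
  set J := Jf c1 ρ q with hJ
  set R := Rf ρ q with hR
  have hR0 : 0 < R := by rw [hR]; unfold Rf; positivity
  have hn1 : (1 : ℝ) ≤ ((20 * q : ℕ) : ℝ) := by exact_mod_cast (by omega : 1 ≤ 20 * q)
  have hG1 : (1 : ℝ) ≤ ((20 * q + c1 + 1 : ℕ) : ℝ) ^ 192 :=
    one_le_pow₀ (by exact_mod_cast (by omega : 1 ≤ 20 * q + c1 + 1))
  have hm2 : ((2 : ℝ) ^ σ) ^ 2 ≤ ((20 * q : ℕ) : ℝ) ^ (2 * cc) := by
    rw [mul_comm 2 cc, pow_mul]
    exact pow_le_pow_left₀ (by positivity) hσ2 2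
  have hσq : σ + c0 < q := by
    have h1 : (2 : ℝ) ^ (σ + c0) < 2 ^ q := by
      have h2 : (2 : ℝ) ^ σ ≤ ((20 * q : ℕ) : ℝ) ^ (2 * cc) :=
        hσ2.trans (pow_le_pow_right₀ hn1 (by omega))
      have h3 : (2 : ℝ) ^ c0 ≤ 2048 * 4 ^ (c0 + 1) := by
        calc (2 : ℝ) ^ c0 ≤ 4 ^ c0 := pow_le_pow_left₀ (by norm_num) (by norm_num) _
          _ ≤ 4 ^ (c0 + 1) := pow_le_pow_right₀ (by norm_num) (by omega)
          _ ≤ 2048 * 4 ^ (c0 + 1) := by
            have : (0 : ℝ) ≤ 4 ^ (c0 + 1) := by positivity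
            linarith
      calc (2 : ℝ) ^ (σ + c0) = 2 ^ c0 * 2 ^ σ := by rw [pow_add]; ring
        _ ≤ (2048 * 4 ^ (c0 + 1)) * ((20 * q : ℕ) : ℝ) ^ (2 * cc) := by gcongr
        _ ≤ (2048 * 4 ^ (c0 + 1)) * ((20 * q + c1 + 1 : ℕ) : ℝ) ^ 192 *
            ((20 * q : ℕ) : ℝ) ^ (2 * cc) := by
          refine mul_le_mul_of_nonneg_right ?_ (by positivity)
          exact le_mul_of_one_le_right (by positivity) hG1
        _ < min 1 (δ ^ 3) * 2 ^ q := hq
        _ ≤ 1 * 2 ^ q := mul_le_mul_of_nonneg_right (min_le_left _ _) (by positivity)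
        _ = 2 ^ q := one_mul _
    exact (pow_lt_pow_iff_right₀ (by norm_num)).1 h1
  -- good second components
  set Yg := (range p).filter fun y => 2 * q ≤ C U (str (4 * q) y) with hYg
  have hYc : p ≤ 2 * Yg.card := by
    have hbad : ((range p).filter fun y => ¬ 2 * q ≤ C U (str (4 * q) y)).card ≤ 2 ^ (2 * q) := by
      have h1 : (((range p).filter fun y => ¬ 2 * q ≤ C U (str (4 * q) y)).image
          (fun y => str (4 * q) y)).card =
          ((range p).filter fun y => ¬ 2 * q ≤ C U (str (4 * q) y)).card := by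
        refine card_image_of_injOn ?_
        intro a ha b hb hab
        simp only [coe_filter, Set.mem_ofPred_eq, mem_range] at ha hb
        exact str_inj (by omega) (by omega) hab
      rw [← h1]
      have h2 := count_C hU (((range p).filter fun y => ¬ 2 * q ≤ C U (str (4 * q) y)).image
          (fun y => str (4 * q) y)) (2 * q - 1) (by
        intro z hz
        obtain ⟨y, hy, rfl⟩ := mem_image.1 hz
        have := (mem_filter.1 hy).2
        omega)
      rwa [show 2 * q - 1 + 1 = 2 * q by omega] at h2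
    have hsum := card_filter_add_card_filter_not (s := range p)
      (fun y => 2 * q ≤ C U (str (4 * q) y))
    rw [card_range, ← hYg] at hsum
    have h3 : 2 * 2 ^ (2 * q) ≤ p := by
      refine le_trans ?_ p1
      rw [← pow_succ']
      exact Nat.pow_le_pow_right (by norm_num) (by omega)
    omega
  -- instances
  set x1 : ℕ → List Bool := fun k => Xs q (ka p k) ((ky p k + ka p k * s1) % p) with hx1
  set x2 : ℕ → List Bool := fun k => Xs q (kb p k) ((ky p k + u + kb p k * s2) % p) with hx2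
  set ys : ℕ → List Bool := fun k => str (4 * q) (ky p k) with hys
  set out : ℕ → List Bool := fun k => A (20 * q, x1 k, x2 k,
    Denumerable.ofNat Profile (kj p k / R), str (ρ (20 * q)) (kj p k % R)) with hout
  have hz : ∀ k, lb p (labf A ρ q) s1 s2 u k = Encodable.encode (out k) := fun k => rfl
  set K0 := p * p * p * J with hK0
  set Kg := (range K0).filter fun k => 2 * q ≤ C U (ys k) ∧
    Close c (20 * q) (profile U pr (x1 k) (x2 k) (out k)) (profile U pr (x1 k) (x2 k) (ys k))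
    with hKg
  have hlt : ∀ k, ky p k < p ∧ ka p k < p ∧ kb p k < p := fun k =>
    ⟨Nat.mod_lt _ hp0, Nat.mod_lt _ hp0, Nat.mod_lt _ hp0⟩
  have hmem : ∀ k ∈ Kg, k < K0 ∧ 2 * q ≤ C U (out k) + σ ∧
      C U (pr (x1 k) (out k)) ≤ 8 * q + c0 + σ ∧ C U (pr (x2 k) (out k)) ≤ 8 * q + c0 + σ := by
    intro k hk
    obtain ⟨h1, h2, h3⟩ := mem_filter.1 hk
    obtain ⟨-, -, n3, -, n5, n6, -⟩ := h3
    have m3 := near_ge n3
    have m5 := near_le n5
    have m6 := near_le n6
    have b1 := hd1 q _ hP p2 hs1 (ky p k) (ka p k) (hlt k).1 (hlt k).2.1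
    have b2 := hd2 q _ hP p2 hs2 hu (ky p k) (kb p k) (hlt k).1 (hlt k).2.2
    simp only [profile] at m3 m5 m6
    refine ⟨mem_range.1 h1, ?_, ?_, ?_⟩
    · exact h2.trans m3
    · refine m5.trans ?_
      have : C U (pr (x1 k) (ys k)) ≤ 8 * q + d1 := b1
      omega
    · refine m6.trans ?_
      have : C U (pr (x2 k) (ys k)) ≤ 8 * q + d2 := b2
      omega
  have hcard1 : (Kg.image fun k => (ky p k, lb p (labf A ρ q) s1 s2 u k, ka p k)).card ≤
      2 ^ (8 * q + c0 + σ + 1) := by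
    refine le_trans ?_ (count_C hU (Kg.image fun k => pr (x1 k) (out k)) (8 * q + c0 + σ) ?_)
    · refine card_le_card_of_injOn
        (fun t : ℕ × ℕ × ℕ => pr (Xs q t.2.2 ((t.1 + t.2.2 * s1) % p)) (dec t.2.1)) ?_ ?_
      · intro t ht
        obtain ⟨k, hk, rfl⟩ := mem_image.1 (mem_coe.1 ht)
        show pr (x1 k) (dec (Encodable.encode (out k))) ∈ _
        rw [dec_encode]
        exact mem_image_of_mem _ hk
      · intro t ht t' ht' he
        obtain ⟨k, hk, rfl⟩ := mem_image.1 (mem_coe.1 ht)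
        obtain ⟨k', hk', rfl⟩ := mem_image.1 (mem_coe.1 ht')
        have he' : pr (x1 k) (dec (Encodable.encode (out k))) =
          pr (x1 k') (dec (Encodable.encode (out k'))) := he
        rw [dec_encode, dec_encode] at he'
        obtain ⟨e1, e2⟩ := hinj _ _ _ _ he'
        obtain ⟨e3, e4⟩ := Xs_inj (hlt k).2.1 (Nat.mod_lt _ hp0) (hlt k').2.1 (Nat.mod_lt _ hp0)
          p2 e1
        rw [e3] at e4
        have e5 : ky p k = ky p k' :=
          Nat.ModEq.eq_of_lt_of_lt (Nat.ModEq.add_right_cancel' _ e4) (hlt k).1 (hlt k').1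
        rw [hz, hz, e2, e3, e5]
    · intro z hz
      obtain ⟨k, hk, rfl⟩ := mem_image.1 hz
      exact (hmem k hk).2.2.1
  have hcard2 : (Kg.image fun k => (ky p k, lb p (labf A ρ q) s1 s2 u k, kb p k)).card ≤
      2 ^ (8 * q + c0 + σ + 1) := by
    refine le_trans ?_ (count_C hU (Kg.image fun k => pr (x2 k) (out k)) (8 * q + c0 + σ) ?_)
    · refine card_le_card_of_injOn
        (fun t : ℕ × ℕ × ℕ => pr (Xs q t.2.2 ((t.1 + u + t.2.2 * s2) % p)) (dec t.2.1)) ?_ ?_
      · intro t ht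
        obtain ⟨k, hk, rfl⟩ := mem_image.1 (mem_coe.1 ht)
        show pr (x2 k) (dec (Encodable.encode (out k))) ∈ _
        rw [dec_encode]
        exact mem_image_of_mem _ hk
      · intro t ht t' ht' he
        obtain ⟨k, hk, rfl⟩ := mem_image.1 (mem_coe.1 ht)
        obtain ⟨k', hk', rfl⟩ := mem_image.1 (mem_coe.1 ht')
        have he' : pr (x2 k) (dec (Encodable.encode (out k))) =
          pr (x2 k') (dec (Encodable.encode (out k'))) := he
        rw [dec_encode, dec_encode] at he'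
        obtain ⟨e1, e2⟩ := hinj _ _ _ _ he'
        obtain ⟨e3, e4⟩ := Xs_inj (hlt k).2.2 (Nat.mod_lt _ hp0) (hlt k').2.2 (Nat.mod_lt _ hp0)
          p2 e1
        rw [e3] at e4
        have e5 : ky p k = ky p k' :=
          Nat.ModEq.eq_of_lt_of_lt (Nat.ModEq.add_right_cancel' _
            (Nat.ModEq.add_right_cancel' _ e4)) (hlt k).1 (hlt k').1
        rw [hz, hz, e2, e3, e5]
    · intro z hz
      obtain ⟨k, hk, rfl⟩ := mem_image.1 hz
      exact (hmem k hk).2.2.2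
  have hTT : ((Kg ×ˢ Kg).filter fun kk => ky p kk.1 = ky p kk.2 ∧
      lb p (labf A ρ q) s1 s2 u kk.1 = lb p (labf A ρ q) s1 s2 u kk.2).card ≤
      TT p J (labf A ρ q) s1 s2 u Z := by
    unfold TT
    refine card_le_card ?_
    intro kk hkk
    obtain ⟨h1, h2, h3⟩ := mem_filter.1 hkk
    obtain ⟨h4, h5⟩ := mem_product.1 h1
    refine mem_filter.2 ⟨mem_product.2 ⟨mem_range.2 (hmem _ h4).1, mem_range.2 (hmem _ h5).1⟩,
      h2, h3, ?_⟩
    intro hmemZ
    have h6 := hd0 q _ hP hZ _ hmemZ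
    rw [hz, dec_encode] at h6
    have h7 := (hmem _ h4).2.1
    omega
  have hcoll := collision_lower Kg (ky p) (ka p) (kb p) (lb p (labf A ρ q) s1 s2 u) (kj p) J
    (fun k hk => kj_lt (hmem k hk).1) (fun k _ k' _ e1 e2 e3 e4 => k_inj e1 e2 e3 e4)
    (2 ^ (8 * q + c0 + σ + 1)) hcard1 hcard2 _ hTT
  -- many good indices
  have hmany : δ * 2 ^ ρ (20 * q) * ((p : ℝ) * p) * Yg.card ≤ Kg.card := by
    set X1 : ℕ × ℕ × ℕ → List Bool := fun t => Xs q t.2.1 ((t.1 + t.2.1 * s1) % p) with hX1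
    set X2 : ℕ × ℕ × ℕ → List Bool := fun t => Xs q t.2.2 ((t.1 + u + t.2.2 * s2) % p) with hX2
    set Y : ℕ × ℕ × ℕ → List Bool := fun t => str (4 * q) t.1 with hY
    set pf : ℕ × ℕ × ℕ → Profile := fun t => profile U pr (X1 t) (X2 t) (Y t) with hpf
    set gr : ℕ × ℕ × ℕ → Finset (Fin (ρ (20 * q)) → Bool) := fun t => univ.filter fun r =>
      Close c (20 * q) (profile U pr (X1 t) (X2 t) (A (20 * q, X1 t, X2 t, pf t, List.ofFn r)))
        (pf t) with hgr
    set Dt := Yg ×ˢ (range p ×ˢ range p) with hDt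
    have hDmem : ∀ t ∈ Dt, t.1 < p ∧ t.2.1 < p ∧ t.2.2 < p ∧ 2 * q ≤ C U (Y t) := by
      intro t ht
      simp only [hDt, mem_product, hYg, mem_filter, mem_range] at ht
      exact ⟨ht.1.1, ht.2.1, ht.2.2, ht.1.2⟩
    have hgrc : ∀ t ∈ Dt, δ * 2 ^ ρ (20 * q) ≤ ((gr t).card : ℝ) := by
      intro t ht
      obtain ⟨t1, t2, t3, t4⟩ := hDmem t ht
      have l1 : (X1 t).length = 8 * q := str_length (Xs_code t2 (Nat.mod_lt _ hp0) p2).1
      have l2 : (X2 t).length = 8 * q := str_length (Xs_code t3 (Nat.mod_lt _ hp0) p2).1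
      have l3 : (Y t).length = 4 * q := str_length (by omega)
      refine H (X1 t) (X2 t) (Y t) (20 * q) (by rw [l1, l2, l3]; ring) (by omega) (gr t) ?_
      intro r
      simp only [hgr, mem_filter, mem_univ, true_and, hpf]
    have hinjD : (Dt.sigma gr).card ≤ Kg.card := by
      refine card_le_card_of_injOn (fun e : (_ : ℕ × ℕ × ℕ) × (Fin (ρ (20 * q)) → Bool) =>
        e.1.1 + p * (e.1.2.1 + p * (e.1.2.2 + p *
          (Encodable.encode (pf e.1) * R + num (List.ofFn e.2))))) ?_ ?_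
      · rintro ⟨t, r⟩ he
        simp only [coe_sigma, Set.mem_sigma_iff, mem_coe] at he
        obtain ⟨ht, hr⟩ := he
        obtain ⟨t1, t2, t3, t4⟩ := hDmem t ht
        have hnl : num (List.ofFn r) < R := by
          have := num_lt (List.ofFn r)
          rwa [List.length_ofFn] at this
        have hstr : str (ρ (20 * q)) (num (List.ofFn r)) = List.ofFn r := by
          have := str_num (List.ofFn r)
          rwa [List.length_ofFn] at this
        have henc : Encodable.encode (pf t) < sq6 (20 * q + c1 + 1) :=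
          hc1 q _ _ _ (Xs_code t2 (Nat.mod_lt _ hp0) p2).1 (Xs_code t3 (Nat.mod_lt _ hp0) p2).1
            (by omega)
        have hjJ : Encodable.encode (pf t) * R + num (List.ofFn r) < J := by
          calc Encodable.encode (pf t) * R + num (List.ofFn r)
              < Encodable.encode (pf t) * R + R := by omega
            _ = (Encodable.encode (pf t) + 1) * R := by ring
            _ ≤ sq6 (20 * q + c1 + 1) * R := Nat.mul_le_mul_right _ henc
        obtain ⟨g1, g2, g3, g4⟩ := digits (j := Encodable.encode (pf t) * R + num (List.ofFn r))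
          t1 t2 t3
        have g5 : (Encodable.encode (pf t) * R + num (List.ofFn r)) / R =
            Encodable.encode (pf t) := by
          rw [mul_comm, Nat.mul_add_div hR0, Nat.div_eq_of_lt hnl, add_zero]
        have g6 : (Encodable.encode (pf t) * R + num (List.ofFn r)) % R =
            num (List.ofFn r) := by
          rw [mul_comm, Nat.mul_add_mod, Nat.mod_eq_of_lt hnl]
        simp only [hKg, coe_filter, Set.mem_ofPred_eq, mem_range, hys, hx1, hx2, hout, g1, g2, g3,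
          g4, g5, g6, hstr, Denumerable.ofNat_encode]
        refine ⟨code_lt t1 t2 t3 hjJ, t4, ?_⟩
        simp only [hgr, mem_filter, mem_univ, true_and] at hr
        exact hr
      · rintro ⟨t, r⟩ he ⟨t', r'⟩ he' heq
        simp only [coe_sigma, Set.mem_sigma_iff, mem_coe] at he he'
        obtain ⟨ht, hr⟩ := he
        obtain ⟨ht', hr'⟩ := he'
        obtain ⟨t1, t2, t3, t4⟩ := hDmem t ht
        obtain ⟨t1', t2', t3', t4'⟩ := hDmem t' ht'
        have hnl : num (List.ofFn r) < R := by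
          have := num_lt (List.ofFn r)
          rwa [List.length_ofFn] at this
        have hnl' : num (List.ofFn r') < R := by
          have := num_lt (List.ofFn r')
          rwa [List.length_ofFn] at this
        have hstr : str (ρ (20 * q)) (num (List.ofFn r)) = List.ofFn r := by
          have := str_num (List.ofFn r)
          rwa [List.length_ofFn] at this
        have hstr' : str (ρ (20 * q)) (num (List.ofFn r')) = List.ofFn r' := by
          have := str_num (List.ofFn r')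
          rwa [List.length_ofFn] at this
        obtain ⟨g1, g2, g3, g4⟩ := digits (j := Encodable.encode (pf t) * R + num (List.ofFn r))
          t1 t2 t3
        obtain ⟨k1, k2, k3, k4⟩ := digits
          (j := Encodable.encode (pf t') * R + num (List.ofFn r')) t1' t2' t3'
        dsimp only at heq
        rw [heq] at g1 g2 g3 g4
        have q1 : t.1 = t'.1 := g1.symm.trans k1
        have q2 : t.2.1 = t'.2.1 := g2.symm.trans k2
        have q3 : t.2.2 = t'.2.2 := g3.symm.trans k3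
        have q4 := g4.symm.trans k4
        have htt : t = t' := Prod.ext q1 (Prod.ext q2 q3)
        subst htt
        have q5 : num (List.ofFn r) = num (List.ofFn r') := by
          exact Nat.add_left_cancel q4
        have q6 : List.ofFn r = List.ofFn r' := by rw [← hstr, ← hstr', q5]
        have q7 : r = r' := List.ofFn_injective q6
        subst q7
        rfl
    have h1 : ((Dt.sigma gr).card : ℝ) = ∑ t ∈ Dt, ((gr t).card : ℝ) := by
      rw [card_sigma]; push_cast; rfl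
    have h2 : ∑ t ∈ Dt, (δ * 2 ^ ρ (20 * q)) ≤ ∑ t ∈ Dt, ((gr t).card : ℝ) :=
      sum_le_sum fun t ht => hgrc t ht
    rw [sum_const, nsmul_eq_mul, ← h1, hDt, card_product, card_product, card_range] at h2
    have h3 : ((Dt.sigma gr).card : ℝ) ≤ Kg.card := by exact_mod_cast hinjD
    refine le_trans (le_of_eq ?_) (h2.trans h3)
    push_cast
    ring
  -- the numeric contradiction
  set TR : ℝ := ((TT p J (labf A ρ q) s1 s2 u Z : ℕ) : ℝ) with hTR
  have hpR : (0 : ℝ) < p := by exact_mod_cast hp0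
  have hRR : (0 : ℝ) < R := by exact_mod_cast hR0
  have hRe : (2 : ℝ) ^ ρ (20 * q) = R := by rw [hR]; unfold Rf; push_cast; rfl
  have hYR : (p : ℝ) / 2 ≤ Yg.card := by
    have : (p : ℝ) ≤ 2 * Yg.card := by exact_mod_cast hYc
    linarith
  have e0 : δ * R * p ^ 3 / 2 ≤ Kg.card := by
    refine le_trans ?_ hmany
    rw [hRe]
    calc δ * R * p ^ 3 / 2 = δ * R * ((p : ℝ) * p) * (p / 2) := by ring
      _ ≤ δ * R * ((p : ℝ) * p) * Yg.card := mul_le_mul_of_nonneg_left hYR (by positivity)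
  have e1 : (δ * R * p ^ 3 / 2) ^ 3 ≤ (Kg.card : ℝ) ^ 3 := pow_le_pow_left₀ (by positivity) e0 3
  have hJR : (J : ℝ) = ((20 * q + c1 + 1 : ℕ) : ℝ) ^ 64 * R := by
    rw [hJ]; unfold Jf; rw [sq6_eq]; push_cast; rfl
  have e3 : TR * 2 ^ q ≤ 2 * p ^ 5 * (J : ℝ) ^ 2 := by
    have : TR * 2 ^ q ≤ 2 * ((p : ℝ) * p * p * p * p) * (J * J) := by
      rw [hTR]; exact_mod_cast hT
    refine this.trans (le_of_eq (by ring))
  have e4 : (((2 ^ (8 * q + c0 + σ + 1) : ℕ) : ℕ) : ℝ) ≤ 4 * p ^ 2 * 2 ^ (c0 + 1) * 2 ^ σ := by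
    have h1 : (2 : ℝ) ^ (4 * q) ≤ 2 * p := by
      have h2 : 2 * 2 ^ (4 * q - 1) = 2 ^ (4 * q) := by
        rw [← pow_succ']; congr 1; omega
      have h3 : 2 ^ (4 * q) ≤ 2 * p := by rw [← h2]; exact Nat.mul_le_mul_left _ p1
      exact_mod_cast h3
    have h2 : (2 : ℝ) ^ (8 * q) ≤ 4 * p ^ 2 := by
      calc (2 : ℝ) ^ (8 * q) = (2 ^ (4 * q)) ^ 2 := by rw [← pow_mul]; congr 1; ring
        _ ≤ (2 * p) ^ 2 := pow_le_pow_left₀ (by positivity) h1 2
        _ = 4 * p ^ 2 := by ring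
    calc (((2 ^ (8 * q + c0 + σ + 1) : ℕ) : ℕ) : ℝ) = 2 ^ (8 * q) * (2 ^ (c0 + 1) * 2 ^ σ) := by
          push_cast; rw [← pow_add, ← pow_add]; congr 1; ring
      _ ≤ 4 * p ^ 2 * (2 ^ (c0 + 1) * 2 ^ σ) := mul_le_mul_of_nonneg_right h2 (by positivity)
      _ = _ := by ring
  set m : ℝ := 2 ^ σ with hm
  set kk : ℝ := 2 ^ (c0 + 1) with hkk
  set G : ℝ := ((20 * q + c1 + 1 : ℕ) : ℝ) ^ 64 with hG
  have hGp : 0 < G := by rw [hG]; positivity
  have hJp : (0 : ℝ) < J := by rw [hJR]; positivity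
  have hTR0 : 0 ≤ TR := Nat.cast_nonneg _
  have e5 : (δ * R * p ^ 3 / 2) ^ 3 * 2 ^ q ≤
      8 * J * (4 * p ^ 2 * kk * m) ^ 2 * (2 * p ^ 5 * (J : ℝ) ^ 2) := by
    calc (δ * R * p ^ 3 / 2) ^ 3 * 2 ^ q
        ≤ (8 * J * (((2 ^ (8 * q + c0 + σ + 1) : ℕ) : ℕ) : ℝ) ^ 2 * TR) * 2 ^ q :=
          mul_le_mul_of_nonneg_right (e1.trans hcoll) (by positivity)
      _ = 8 * J * (((2 ^ (8 * q + c0 + σ + 1) : ℕ) : ℕ) : ℝ) ^ 2 * (TR * 2 ^ q) := by ring
      _ ≤ 8 * J * (4 * p ^ 2 * kk * m) ^ 2 * (TR * 2 ^ q) := by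
          refine mul_le_mul_of_nonneg_right (mul_le_mul_of_nonneg_left
            (pow_le_pow_left₀ (Nat.cast_nonneg _) e4 2) (by positivity)) (by positivity)
      _ ≤ 8 * J * (4 * p ^ 2 * kk * m) ^ 2 * (2 * p ^ 5 * (J : ℝ) ^ 2) :=
          mul_le_mul_of_nonneg_left e3 (by positivity)
  rw [hJR] at e5
  have e6 : δ ^ 3 * 2 ^ q ≤ 2048 * G ^ 3 * kk ^ 2 * m ^ 2 := by
    have hpos : 0 < (R : ℝ) ^ 3 * p ^ 9 / 8 := by positivity
    have h1 : (R : ℝ) ^ 3 * p ^ 9 / 8 * (δ ^ 3 * 2 ^ q) ≤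
        (R : ℝ) ^ 3 * p ^ 9 / 8 * (2048 * G ^ 3 * kk ^ 2 * m ^ 2) := by
      calc (R : ℝ) ^ 3 * p ^ 9 / 8 * (δ ^ 3 * 2 ^ q) = (δ * R * p ^ 3 / 2) ^ 3 * 2 ^ q := by ring
        _ ≤ _ := e5
        _ = _ := by ring
    exact le_of_mul_le_mul_left h1 hpos
  have e7 : kk ^ 2 = 4 ^ (c0 + 1) := by
    rw [hkk, ← pow_mul, mul_comm, pow_mul]; norm_num
  have e8 : G ^ 3 = ((20 * q + c1 + 1 : ℕ) : ℝ) ^ 192 := by rw [hG, ← pow_mul]
  have e9 : 2048 * G ^ 3 * kk ^ 2 * m ^ 2 ≤ 2048 * 4 ^ (c0 + 1) *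
      ((20 * q + c1 + 1 : ℕ) : ℝ) ^ 192 * ((20 * q : ℕ) : ℝ) ^ (2 * cc) := by
    rw [e7, e8]
    calc 2048 * ((20 * q + c1 + 1 : ℕ) : ℝ) ^ 192 * 4 ^ (c0 + 1) * m ^ 2
        ≤ 2048 * ((20 * q + c1 + 1 : ℕ) : ℝ) ^ 192 * 4 ^ (c0 + 1) *
          ((20 * q : ℕ) : ℝ) ^ (2 * cc) := mul_le_mul_of_nonneg_left hm2 (by positivity)
      _ = _ := by ring
  have e10 : min 1 (δ ^ 3) * 2 ^ q ≤ δ ^ 3 * 2 ^ q :=
    mul_le_mul_of_nonneg_right (min_le_right _ _) (by positivity)
  linarith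

end Pool.Agent.H21.Prof
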