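import Mathlib

/-!
Plain Kolmogorov complexity, complexity profiles of triples, and closeness of profiles.
Definitions only.
-/

namespace Pool.Agent.H21.Prof

/-- An optimal decompressor `U`: a partial computable function such that every partial
computable `V` is simulated by `U` with a constant overhead in the program length. -/
def Optimal (U : List Bool →. List Bool) : Prop :=
  Partrec U ∧ ∀ V : List Bool →. List Bool, Partrec V →
    ∃ c : ℕ, ∀ w z : List Bool, z ∈ V w → ∃ w' : List Bool, w'.length ≤ w.length + c ∧ z ∈ U w'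

/-- Plain Kolmogorov complexity with respect to `U`: the least length of a program of `z`. -/
noncomputable def C (U : List Bool →. List Bool) (z : List Bool) : ℕ :=
  sInf {l | ∃ w : List Bool, w.length = l ∧ z ∈ U w}

/-- The profile of a triple has seven coordinates. -/
abbrev Profile := ℕ × ℕ × ℕ × ℕ × ℕ × ℕ × ℕ

/-- The complexity profile of `(x₁, x₂, y)`; `pr` is the pairing function, and triples are encoded
as `pr x₁ (pr x₂ y)`. -/
noncomputable def profile (U : List Bool →. List Bool)
    (pr : List Bool → List Bool → List Bool) (x₁ x₂ y : List Bool) : Profile :=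
  (C U x₁, C U x₂, C U y, C U (pr x₁ x₂), C U (pr x₁ y), C U (pr x₂ y), C U (pr x₁ (pr x₂ y)))

/-- `|a - b| ≤ c log n`. -/
def Near (c : ℝ) (n a b : ℕ) : Prop := |(a : ℝ) - b| ≤ c * Real.log n

/-- Two profiles agree up to `c log n` in each of the seven coordinates. -/
def Close (c : ℝ) (n : ℕ) (P Q : Profile) : Prop :=
  Near c n P.1 Q.1 ∧ Near c n P.2.1 Q.2.1 ∧ Near c n P.2.2.1 Q.2.2.1 ∧
  Near c n P.2.2.2.1 Q.2.2.2.1 ∧ Near c n P.2.2.2.2.1 Q.2.2.2.2.1 ∧
  Near c n P.2.2.2.2.2.1 Q.2.2.2.2.2.1 ∧ Near c n P.2.2.2.2.2.2 Q.2.2.2.2.2.2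

/-- The probability of the event `E` for a uniformly random bit string of length `m`. -/
noncomputable def prob (m : ℕ) (E : List Bool → Prop) : ℝ :=
  (Nat.card {r : Fin m → Bool // E (List.ofFn r)} : ℝ) / 2 ^ m

end Pool.Agent.H21.Prof
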