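import Pool.Agent.H21.RandDefs
import Pool.Agent.H21.Sig1

set_option autoImplicit false

namespace Pool.Agent.H21.Rand

open MeasureTheory Pool.Agent.H21.RE1
open scoped ENNReal NNReal

lemma pre_length (ω : ℕ → Bool) (n : ℕ) : (pre ω n).length = n := by simp [pre]

lemma pre_take (ω : ℕ → Bool) (n m : ℕ) (h : m ≤ n) : (pre ω n).take m = pre ω m := by
  unfold pre
  rw [← List.map_take, List.take_range, min_eq_left h]

lemma pre_get (ω : ℕ → Bool) (n i : ℕ) (h : i < n) :
    (pre ω n)[i]'(by rw [pre_length]; exact h) = ω i := by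
  simp [pre]

/-- cylinder -/
def cyl (x : List Bool) : Set (ℕ → Bool) := {ω | pre ω x.length = x}

lemma mem_cyl {x : List Bool} {ω : ℕ → Bool} : ω ∈ cyl x ↔ pre ω x.length = x := Iff.rfl

lemma cyl_eq_pi (x : List Bool) :
    cyl x = Set.pi (↑(Finset.range x.length) : Set ℕ) (fun i => {x.getD i false}) := by
  ext ω
  simp only [mem_cyl, Set.mem_pi, Finset.coe_range, Set.mem_Iio, Set.mem_singleton_iff]
  constructor
  · intro h i hi
    have h1 := pre_get ω x.length i hi
    rw [List.getD_eq_getElem _ _ hi, ← h1]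
    congr 1
  · intro h
    apply List.ext_getElem
    · rw [pre_length]
    · intro i h1 h2
      have h3 := pre_get ω x.length i h2
      rw [h3, h i h2, List.getD_eq_getElem _ _ h2]

lemma coin (b : Bool) : (PMF.uniformOfFintype Bool).toMeasure {b} = 2⁻¹ := by
  rw [PMF.toMeasure_apply_singleton _ _ (measurableSet_singleton b)]
  simp

lemma P_cyl (x : List Bool) : P (cyl x) = (2 ^ x.length)⁻¹ := by
  rw [cyl_eq_pi, P, Measure.infinitePi_pi _ (fun i _ => measurableSet_singleton _)]
  simp only [coin, Finset.prod_const, Finset.card_range]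
  rw [ENNReal.inv_pow]

instance : IsProbabilityMeasure P := by unfold P; infer_instance

lemma isClopen_cyl (x : List Bool) : IsClopen (cyl x) := by
  rw [cyl_eq_pi]
  constructor
  · exact isClosed_set_pi (fun i _ => isClosed_discrete _)
  · exact isOpen_set_pi (Finset.finite_toSet _) (fun i _ => isOpen_discrete _)

lemma measurable_cyl (x : List Bool) : MeasurableSet (cyl x) := by
  rw [cyl_eq_pi]
  exact MeasurableSet.pi (Finset.countable_toSet _) (fun i _ => measurableSet_singleton _)

lemma mem_cyl_pre (ω : ℕ → Bool) (n : ℕ) : ω ∈ cyl (pre ω n) := by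
  rw [mem_cyl, pre_length]

lemma op_eq (S : List Bool → Prop) : op S = ⋃ (x : List Bool) (_ : S x), cyl x := by
  ext ω
  simp only [op, Set.mem_ofPred_eq, Set.mem_iUnion, exists_prop]
  constructor
  · rintro ⟨n, hn⟩
    exact ⟨_, hn, mem_cyl_pre ω n⟩
  · rintro ⟨x, hx, h⟩
    exact ⟨x.length, by rw [mem_cyl.mp h]; exact hx⟩

lemma measurable_op (S : List Bool → Prop) : MeasurableSet (op S) := by
  rw [op_eq]
  exact MeasurableSet.iUnion (fun x => MeasurableSet.iUnion (fun _ => measurable_cyl x))

lemma isOpen_op (S : List Bool → Prop) : IsOpen (op S) := by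
  rw [op_eq]
  exact isOpen_iUnion (fun x => isOpen_iUnion (fun _ => (isClopen_cyl x).isOpen))

/-- extension of a string by zeros -/
def ext0 (x : List Bool) : ℕ → Bool := fun i => x.getD i false

lemma ext0_mem (x : List Bool) : ext0 x ∈ cyl x := by
  rw [cyl_eq_pi]
  intro i _
  rfl

lemma ext0_mem' (x z : List Bool) : ext0 (x ++ z) ∈ cyl x := by
  have h := ext0_mem (x ++ z)
  rw [mem_cyl] at h ⊢
  rw [← pre_take _ (x ++ z).length x.length (by simp), h]
  simp

/-- effective compactness: being covered is Σ₁ -/
theorem sig_cov {α : Type} [Primcodable α] {q : α × List Bool → Prop} (hq : Sig q) :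
    Sig (fun p : α × List Bool => ∀ ω ∈ cyl p.2, ∃ n, q (p.1, pre ω n)) := by
  obtain ⟨R, h1, h2, h3⟩ := hq
  refine ⟨fun p T => (strs T).all (fun z =>
    (List.range (T + 1)).any (fun j => R (p.1, (p.2 ++ z).take j) T)), ?_, ?_, ?_⟩
  · refine prim_all (prim_strs.comp Primrec.snd) ?_
    refine prim_any (Primrec.list_range.comp
      (Primrec.succ.comp (Primrec.snd.comp Primrec.fst))) ?_
    refine h1.comp (Primrec.pair ?_ ?_) ?_
    · exact Primrec.fst.comp (Primrec.fst.comp (Primrec.fst.comp Primrec.fst))
    · refine Primrec.list_take.comp Primrec.snd (Primrec.list_append.comp ?_ ?_)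
      · exact Primrec.snd.comp (Primrec.fst.comp (Primrec.fst.comp Primrec.fst))
      · exact Primrec.snd.comp Primrec.fst
    · exact Primrec.snd.comp (Primrec.fst.comp Primrec.fst)
  · intro p s t hst h
    simp only [List.all_eq_true, List.any_eq_true, List.mem_range, mem_strs] at h ⊢
    intro z hz
    obtain ⟨j, hj, h4⟩ := h (z.take s) (by rw [List.length_take]; omega)
    refine ⟨j, by omega, ?_⟩
    have h5 := h2 _ _ t hst h4
    rw [← h5]
    congr 2
    rw [List.take_append, List.take_append, List.take_take]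
    congr 2
    omega
  · intro p
    obtain ⟨a, x⟩ := p
    constructor
    · intro h
      have hc : IsCompact (cyl x) := (isClopen_cyl x).isClosed.isCompact
      let V : ℕ → Set (ℕ → Bool) := fun T => op (fun y => y.length ≤ T ∧ R (a, y) T = true)
      have hV : ∀ T, IsOpen (V T) := fun T => isOpen_op _
      have hmono : Monotone V := by
        intro s t hst ω hω
        obtain ⟨n, hn1, hn2⟩ := hω
        exact ⟨n, le_trans hn1 hst, h2 _ _ _ hst hn2⟩
      have hcov : cyl x ⊆ ⋃ T, V T := by
        intro ω hω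
        obtain ⟨n, hn⟩ := h ω hω
        obtain ⟨t, ht⟩ := (h3 _).mp hn
        refine Set.mem_iUnion.mpr ⟨max n t, n, ?_, h2 _ _ _ (le_max_right _ _) ht⟩
        show (pre ω n).length ≤ _
        rw [pre_length]; exact le_max_left _ _
      obtain ⟨T, hT⟩ := hc.elim_directed_cover V hV hcov hmono.directed_le
      refine ⟨T, ?_⟩
      simp only [List.all_eq_true, List.any_eq_true, List.mem_range, mem_strs]
      intro z hz
      obtain ⟨n, hn1, hn2⟩ := hT (ext0_mem' x z)
      have hn1' : n ≤ T := by rw [pre_length] at hn1; exact hn1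
      refine ⟨n, by omega, ?_⟩
      have h5 := ext0_mem (x ++ z)
      rw [mem_cyl] at h5
      have h6 : (x ++ z).take n = pre (ext0 (x ++ z)) n := by
        rw [← pre_take _ (x ++ z).length n (by rw [List.length_append]; omega), h5]
      rw [h6]; exact hn2
    · rintro ⟨T, hT⟩ ω hω
      simp only [List.all_eq_true, List.any_eq_true, List.mem_range, mem_strs] at hT
      have h4 : pre ω (x.length + T) = x ++ (pre ω (x.length + T)).drop x.length := by
        conv_lhs => rw [← List.take_append_drop x.length (pre ω (x.length + T))]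
        rw [pre_take _ _ _ (by omega)]
        rw [mem_cyl] at hω
        rw [hω]
      obtain ⟨j, hj, h5⟩ := hT ((pre ω (x.length + T)).drop x.length) (by
        rw [List.length_drop, pre_length]; omega)
      rw [← h4, pre_take _ _ _ (by omega)] at h5
      exact ⟨j, (h3 _).mpr ⟨T, h5⟩⟩

end Pool.Agent.H21.Rand
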