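import Pool.Agent.H21.Rand1

set_option autoImplicit false

namespace Pool.Agent.H21.Rand

open MeasureTheory Pool.Agent.H21.RE1
open scoped ENNReal NNReal

/-- the test attached to a family of sets of strings -/
noncomputable def fW (W : ℕ → List Bool → Prop) (ω : ℕ → Bool) : ℝ≥0∞ :=
  ⨆ (u : ℕ) (_ : ω ∈ op (W u)), (2 : ℝ≥0∞) ^ u

lemma le_fW {W : ℕ → List Bool → Prop} {ω : ℕ → Bool} {u : ℕ} (h : ω ∈ op (W u)) :
    (2 : ℝ≥0∞) ^ u ≤ fW W ω := by
  unfold fW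
  exact le_iSup₂_of_le u h le_rfl

lemma frac_lt (a b u : ℕ) : (a : ℝ≥0∞) / (b + 1) < 2 ^ u ↔ a < 2 ^ u * (b + 1) := by
  rw [ENNReal.div_lt_iff (Or.inl (by positivity)) (Or.inl (by finiteness))]
  norm_cast

lemma LSC_fW {W : ℕ → List Bool → Prop} (hW : Sig (fun p : ℕ × List Bool => W p.1 p.2)) :
    LSC (fW W) := by
  refine ⟨fun p => ∃ u : ℕ, W u p.1 ∧ p.2.1 < 2 ^ u * (p.2.2 + 1), ?_, ?_⟩
  · apply Sig.re
    have h1 : Sig (fun p : (List Bool × ℕ × ℕ) × ℕ =>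
        W p.2 p.1.1 ∧ p.1.2.1 < 2 ^ p.2 * (p.1.2.2 + 1)) := by
      refine Sig.and ?_ ?_
      · exact hW.comp (f := fun p : (List Bool × ℕ × ℕ) × ℕ => (p.2, p.1.1))
          (Primrec.pair Primrec.snd (Primrec.fst.comp Primrec.fst))
      · apply Sig.prim
        refine Primrec.nat_lt.comp ?_ ?_
        · exact Primrec.fst.comp (Primrec.snd.comp Primrec.fst)
        · refine Primrec.nat_mul.comp (prim_pow2.comp Primrec.snd) (Primrec.succ.comp ?_)
          exact Primrec.snd.comp (Primrec.snd.comp Primrec.fst)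
    exact h1.ex
  · intro ω a b
    unfold fW
    simp only [lt_iSup_iff]
    constructor
    · rintro ⟨u, ⟨n, hn⟩, h⟩
      exact ⟨n, u, hn, (frac_lt a b u).mp h⟩
    · rintro ⟨n, u, hn, h⟩
      exact ⟨u, ⟨n, hn⟩, (frac_lt a b u).mpr h⟩

lemma lintegral_fW (W : ℕ → List Bool → Prop) :
    ∫⁻ ω, fW W ω ∂P ≤ ∑' u : ℕ, 2 ^ u * P (op (W u)) := by
  have h1 : ∀ ω, fW W ω ≤ ∑' u : ℕ, (op (W u)).indicator (fun _ => (2 : ℝ≥0∞) ^ u) ω := by
    intro ω
    unfold fW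
    refine iSup₂_le fun u hu => ?_
    refine le_trans ?_ (ENNReal.le_tsum u)
    rw [Set.indicator_of_mem hu]
  refine (lintegral_mono h1).trans ?_
  rw [lintegral_tsum]
  · refine ENNReal.tsum_le_tsum fun u => ?_
    rw [lintegral_indicator (measurable_op _), lintegral_const, Measure.restrict_apply
      MeasurableSet.univ, Set.univ_inter]
  · intro u
    exact (measurable_const.indicator (measurable_op _)).aemeasurable

lemma exists_pow_ge (C : ℝ≥0) : ∃ d : ℕ, (C : ℝ≥0∞) ≤ 2 ^ d := by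
  obtain ⟨d, hd⟩ := exists_nat_gt C
  refine ⟨d, ?_⟩
  have h1 : (d : ℝ≥0) ≤ 2 ^ d := by exact_mod_cast Nat.lt_two_pow_self.le
  exact_mod_cast hd.le.trans h1

theorem Emax {t : (ℕ → Bool) → ℝ≥0∞} (ht : UniversalE t) {W : ℕ → List Bool → Prop}
    (hW : Sig (fun p : ℕ × List Bool => W p.1 p.2))
    (hs : ∑' u : ℕ, 2 ^ u * P (op (W u)) < ∞) :
    ∃ d : ℕ, ∀ (u : ℕ) (ω : ℕ → Bool), ω ∈ op (W u) → (2 : ℝ≥0∞) ^ u ≤ 2 ^ d * t ω := by
  obtain ⟨C, hC⟩ := ht.2 (fW W) ⟨LSC_fW hW, (lintegral_fW W).trans_lt hs⟩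
  obtain ⟨d, hd⟩ := exists_pow_ge C
  refine ⟨d, fun u ω h => ((le_fW h).trans (hC ω)).trans ?_⟩
  gcongr

lemma ptest_fW {W : ℕ → List Bool → Prop}
    (hW : Sig (fun p : ℕ × List Bool => W p.1 p.2))
    (hs : ∀ v : ℕ, P (⋃ (u : ℕ) (_ : v ≤ u), op (W u)) ≤ (2 ^ v)⁻¹) : PTest (fW W) := by
  refine ⟨LSC_fW hW, fun c hc => ?_⟩
  rcases le_or_gt c 1 with h1 | h1
  · refine le_trans prob_le_one ?_
    rw [ENNReal.le_div_iff_mul_le (Or.inl (by positivity)) (Or.inl (by finiteness)), one_mul]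
    exact_mod_cast h1
  · have hex : ∃ v : ℕ, c ≤ 2 ^ v := by
      obtain ⟨d, hd⟩ := exists_pow_ge c
      exact ⟨d, by exact_mod_cast hd⟩
    classical
    set v := Nat.find hex with hv
    have hv1 : c ≤ 2 ^ v := Nat.find_spec hex
    have hv0 : v ≠ 0 := by
      intro h0
      rw [h0] at hv1
      simp only [pow_zero] at hv1
      exact absurd h1 (not_lt.mpr hv1)
    have hv2 : (2 : ℝ≥0) ^ (v - 1) < c := by
      have := Nat.find_min hex (m := v - 1) (by omega)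
      exact not_le.mp this
    have hsub : {ω | (c : ℝ≥0∞) ≤ fW W ω} ⊆ ⋃ (u : ℕ) (_ : v ≤ u), op (W u) := by
      intro ω hω
      by_contra hcon
      simp only [Set.mem_iUnion, not_exists] at hcon
      have h3 : fW W ω ≤ 2 ^ (v - 1) := by
        unfold fW
        refine iSup₂_le fun u hu => ?_
        have : u < v := by
          by_contra h4
          exact hcon u (not_lt.mp h4) hu
        exact pow_le_pow_right₀ (by norm_num) (by omega)
      have h5 : (c : ℝ≥0∞) ≤ 2 ^ (v - 1) := le_trans hω h3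
      have h6 : c ≤ 2 ^ (v - 1) := by exact_mod_cast h5
      exact absurd hv2 (not_lt.mpr h6)
    refine (measure_mono hsub).trans ((hs v).trans ?_)
    rw [one_div]
    refine ENNReal.inv_le_inv.mpr ?_
    exact_mod_cast hv1

theorem Pmax {t : (ℕ → Bool) → ℝ≥0∞} (ht : UniversalP t) {W : ℕ → List Bool → Prop}
    (hW : Sig (fun p : ℕ × List Bool => W p.1 p.2))
    (hs : ∀ v : ℕ, P (⋃ (u : ℕ) (_ : v ≤ u), op (W u)) ≤ (2 ^ v)⁻¹) :
    ∃ d : ℕ, ∀ (u : ℕ) (ω : ℕ → Bool), ω ∈ op (W u) → (2 : ℝ≥0∞) ^ u ≤ 2 ^ d * t ω := by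
  obtain ⟨C, hC⟩ := ht.2 (fW W) (ptest_fW hW hs)
  obtain ⟨d, hd⟩ := exists_pow_ge C
  refine ⟨d, fun u ω h => ((le_fW h).trans (hC ω)).trans ?_⟩
  gcongr

/-- weights of a test given by an indexed family of cylinders -/
lemma sum_bound {ι : Type} [Countable ι] (A : ι → Prop) (u : ι → ℕ) (x : ι → List Bool)
    (W : ℕ → List Bool → Prop) (hW : ∀ v y, W v y → ∃ i, A i ∧ v = u i ∧ y = x i) :
    ∑' v : ℕ, 2 ^ v * P (op (W v)) ≤
      ∑' i : ι, (Set.indicator {i | A i} (fun i => 2 ^ (u i) * ((2 : ℝ≥0∞) ^ (x i).length)⁻¹) i) := by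
  classical
  have h1 : ∀ v : ℕ, 2 ^ v * P (op (W v)) ≤ ∑' i : ι,
      (if A i ∧ v = u i then 2 ^ (u i) * ((2 : ℝ≥0∞) ^ (x i).length)⁻¹ else 0) := by
    intro v
    have h2 : op (W v) ⊆ ⋃ i : ι, (if A i ∧ v = u i then cyl (x i) else ∅) := by
      intro ω hω
      obtain ⟨n, hn⟩ := hω
      obtain ⟨i, h3, h4, h5⟩ := hW _ _ hn
      refine Set.mem_iUnion.mpr ⟨i, ?_⟩
      rw [if_pos ⟨h3, h4⟩, ← h5]
      exact mem_cyl_pre ω n
    calc 2 ^ v * P (op (W v)) ≤ 2 ^ v * ∑' i : ι, P (if A i ∧ v = u i then cyl (x i) else ∅) := by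
          gcongr
          exact (measure_mono h2).trans (measure_iUnion_le _)
      _ = ∑' i : ι, 2 ^ v * P (if A i ∧ v = u i then cyl (x i) else ∅) := by
          rw [ENNReal.tsum_mul_left]
      _ ≤ _ := by
          refine ENNReal.tsum_le_tsum fun i => ?_
          split_ifs with h
          · rw [P_cyl, h.2]
          · simp
  refine (ENNReal.tsum_le_tsum h1).trans ?_
  rw [ENNReal.tsum_comm]
  refine ENNReal.tsum_le_tsum fun i => ?_
  by_cases hA : A i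
  · rw [Set.indicator_of_mem (show i ∈ {i | A i} from hA)]
    have : ∀ v : ℕ, (if A i ∧ v = u i then 2 ^ (u i) * ((2 : ℝ≥0∞) ^ (x i).length)⁻¹ else 0) =
        (if v = u i then 2 ^ (u i) * ((2 : ℝ≥0∞) ^ (x i).length)⁻¹ else 0) := by
      intro v; simp [hA]
    simp_rw [this]
    rw [tsum_ite_eq]
  · simp [hA]

/-- finiteness of `t` implies Martin-Löf randomness (expectation-bounded) -/
theorem ml_of_E {t : (ℕ → Bool) → ℝ≥0∞} (ht : UniversalE t) {ω : ℕ → Bool} (h : t ω < ∞) :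
    MLRandom ω := by
  intro U hU
  by_contra hcon
  push Not at hcon
  have hS : Sig (fun p : ℕ × List Bool => U (2 * p.1) p.2) :=
    (of_re hU.1).comp (f := fun p : ℕ × List Bool => (2 * p.1, p.2))
      (Primrec.pair (Primrec.nat_mul.comp (Primrec.const 2) Primrec.fst) Primrec.snd)
  obtain ⟨d, hd⟩ := Emax ht (W := fun u y => U (2 * u) y) hS (by
    refine lt_of_le_of_lt (b := ∑' u : ℕ, (2⁻¹ : ℝ≥0∞) ^ u) ?_ ?_
    · refine ENNReal.tsum_le_tsum fun u => ?_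
      calc (2 : ℝ≥0∞) ^ u * P (op (fun y => U (2 * u) y)) ≤ 2 ^ u * (2 ^ (2 * u))⁻¹ := by
            gcongr; exact hU.2 (2 * u)
        _ = (2⁻¹ : ℝ≥0∞) ^ u := by
            rw [two_mul, pow_add, ENNReal.mul_inv (Or.inl (by positivity))
              (Or.inl (by finiteness)), ← mul_assoc,
              ENNReal.mul_inv_cancel (by positivity) (by finiteness), one_mul, ENNReal.inv_pow]
    · rw [ENNReal.tsum_geometric]
      norm_num)
  have h2 : ∀ u : ℕ, (2 : ℝ≥0∞) ^ u ≤ 2 ^ d * t ω := fun u => hd u ω (hcon (2 * u))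
  have h3 : (2 : ℝ≥0∞) ^ d * t ω < ∞ := ENNReal.mul_lt_top (by finiteness) h
  obtain ⟨d', hd'⟩ := exists_pow_ge ((2 ^ d * t ω).toNNReal + 1)
  have h4 := h2 d'
  rw [ENNReal.coe_add, ENNReal.coe_toNNReal h3.ne] at hd'
  have h5 : 2 ^ d * t ω + 1 ≤ 2 ^ d * t ω := hd'.trans h4
  exact absurd (ENNReal.lt_add_right h3.ne one_ne_zero) (not_lt.mpr h5)

/-- finiteness of `t` implies Martin-Löf randomness (probability-bounded) -/
theorem ml_of_P {t : (ℕ → Bool) → ℝ≥0∞} (ht : UniversalP t) {ω : ℕ → Bool} (h : t ω < ∞) :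
    MLRandom ω := by
  intro U hU
  by_contra hcon
  push Not at hcon
  have hS : Sig (fun p : ℕ × List Bool => U (p.1 + 1) p.2) :=
    (of_re hU.1).comp (f := fun p : ℕ × List Bool => (p.1 + 1, p.2))
      (Primrec.pair (Primrec.succ.comp Primrec.fst) Primrec.snd)
  obtain ⟨d, hd⟩ := Pmax ht (W := fun u y => U (u + 1) y) hS (by
    intro v
    have h1 : (⋃ (u : ℕ) (_ : v ≤ u), op (fun y => U (u + 1) y)) ⊆
        ⋃ (i : ℕ), op (fun y => U (v + i + 1) y) := by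
      intro ω' hω'
      simp only [Set.mem_iUnion, exists_prop] at hω' ⊢
      obtain ⟨u, hu, h2⟩ := hω'
      refine ⟨u - v, ?_⟩
      rw [show v + (u - v) = u by omega]
      exact h2
    refine (measure_mono h1).trans ((measure_iUnion_le _).trans ?_)
    calc ∑' i : ℕ, P (op (fun y => U (v + i + 1) y)) ≤ ∑' i : ℕ, (2 ^ v)⁻¹ * (2⁻¹ : ℝ≥0∞) ^ (i + 1) := by
          refine ENNReal.tsum_le_tsum fun i => (hU.2 _).trans ?_
          rw [add_assoc, pow_add, ENNReal.mul_inv (Or.inl (by positivity))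
              (Or.inl (by finiteness)), ENNReal.inv_pow, ENNReal.inv_pow]
      _ = (2 ^ v)⁻¹ := by
          rw [ENNReal.tsum_mul_left, ENNReal.tsum_geometric_add_one]
          have : (1 - 2⁻¹ : ℝ≥0∞) = 2⁻¹ := ENNReal.one_sub_inv_two
          rw [this, inv_inv, ENNReal.inv_mul_cancel (by norm_num) (by norm_num), mul_one])
  have h2 : ∀ u : ℕ, (2 : ℝ≥0∞) ^ u ≤ 2 ^ d * t ω := fun u => hd u ω (hcon (u + 1))
  have h3 : (2 : ℝ≥0∞) ^ d * t ω < ∞ := ENNReal.mul_lt_top (by finiteness) h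
  obtain ⟨d', hd'⟩ := exists_pow_ge ((2 ^ d * t ω).toNNReal + 1)
  have h4 := h2 d'
  rw [ENNReal.coe_add, ENNReal.coe_toNNReal h3.ne] at hd'
  have h5 : 2 ^ d * t ω + 1 ≤ 2 ^ d * t ω := hd'.trans h4
  exact absurd (ENNReal.lt_add_right h3.ne one_ne_zero) (not_lt.mpr h5)

/-- threshold sets of lower semicomputable functions -/
lemma sig_thr {t : (ℕ → Bool) → ℝ≥0∞} (ht : LSC t) : ∃ q : (ℕ × ℕ) × List Bool → Prop, Sig q ∧
    ∀ (n k : ℕ) (ω : ℕ → Bool), (2 : ℝ≥0∞) ^ n < 2 ^ k * t ω ↔ ∃ j, q ((n, k), pre ω j) := by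
  obtain ⟨R, hR, h⟩ := ht
  refine ⟨fun p => R (p.2, 2 ^ p.1.1, 2 ^ p.1.2 - 1), ?_, ?_⟩
  · refine (of_re hR).comp (f := fun p : (ℕ × ℕ) × List Bool =>
      (p.2, 2 ^ p.1.1, 2 ^ p.1.2 - 1)) ?_
    refine Primrec.pair Primrec.snd (Primrec.pair ?_ ?_)
    · exact prim_pow2.comp (Primrec.fst.comp Primrec.fst)
    · exact Primrec.nat_sub.comp (prim_pow2.comp (Primrec.snd.comp Primrec.fst))
        (Primrec.const 1)
  · intro n k ω
    rw [← h ω (2 ^ n) (2 ^ k - 1)]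
    have h1 : ((2 ^ k - 1 : ℕ) : ℝ≥0∞) + 1 = 2 ^ k := by
      have : (2 ^ k - 1) + 1 = 2 ^ k := Nat.sub_add_cancel Nat.one_le_two_pow
      exact_mod_cast this
    rw [h1, ENNReal.div_lt_iff (Or.inl (by positivity)) (Or.inl (by finiteness))]
    push_cast
    rw [mul_comm]

/-- Martin-Löf random sequences have finite `t` (expectation-bounded) -/
theorem fin_of_ml_E {t : (ℕ → Bool) → ℝ≥0∞} (ht : ETest t) {ω : ℕ → Bool} (h : MLRandom ω) :
    t ω < ∞ := by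
  obtain ⟨q, hq, hq'⟩ := sig_thr ht.1
  obtain ⟨d, hd⟩ := exists_pow_ge (∫⁻ ω, t ω ∂P).toNNReal
  rw [ENNReal.coe_toNNReal ht.2.ne] at hd
  have hU : MLTest (fun n y => q ((n + d, 0), y)) := by
    refine ⟨(hq.comp (f := fun p : ℕ × List Bool => ((p.1 + d, 0), p.2))
      (Primrec.pair (Primrec.pair (Primrec.nat_add.comp Primrec.fst (Primrec.const d))
        (Primrec.const 0)) Primrec.snd)).re, fun n => ?_⟩
    have h1 : op (fun y => q ((n + d, 0), y)) ⊆ {ω | (2 : ℝ≥0∞) ^ (n + d) ≤ t ω} := by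
      intro ω' hω'
      have := (hq' (n + d) 0 ω').mpr hω'
      rw [pow_zero, one_mul] at this
      exact this.le
    have h2 : (2 : ℝ≥0∞) ^ (n + d) * P (op (fun y => q ((n + d, 0), y))) ≤ 2 ^ d := by
      calc (2 : ℝ≥0∞) ^ (n + d) * P (op (fun y => q ((n + d, 0), y)))
          = ∫⁻ ω in op (fun y => q ((n + d, 0), y)), (2 : ℝ≥0∞) ^ (n + d) ∂P := by
            rw [setLIntegral_const]
        _ ≤ ∫⁻ ω in op (fun y => q ((n + d, 0), y)), t ω ∂P := by
            exact setLIntegral_mono' (measurable_op _) (fun ω' hω' => h1 hω')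
        _ ≤ ∫⁻ ω, t ω ∂P := setLIntegral_le_lintegral _ _
        _ ≤ 2 ^ d := hd
    rw [pow_add, mul_comm (2 ^ n), mul_assoc] at h2
    have h3 : (2 : ℝ≥0∞) ^ n * P (op (fun y => q ((n + d, 0), y))) ≤ 1 := by
      have h4 : (2 : ℝ≥0∞) ^ d * (2 ^ n * P (op (fun y => q ((n + d, 0), y)))) ≤ 2 ^ d * 1 := by
        rw [mul_one]; exact h2
      exact (ENNReal.mul_le_mul_iff_right (by positivity) (by finiteness)).mp h4
    rw [ENNReal.le_inv_iff_mul_le, mul_comm]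
    exact h3
  obtain ⟨n, hn⟩ := h _ hU
  by_contra hcon
  rw [not_lt, top_le_iff] at hcon
  apply hn
  have := (hq' (n + d) 0 ω).mp (by rw [hcon, pow_zero, one_mul]; finiteness)
  exact this

/-- Martin-Löf random sequences have finite `t` (probability-bounded) -/
theorem fin_of_ml_P {t : (ℕ → Bool) → ℝ≥0∞} (ht : PTest t) {ω : ℕ → Bool} (h : MLRandom ω) :
    t ω < ∞ := by
  obtain ⟨q, hq, hq'⟩ := sig_thr ht.1
  have hU : MLTest (fun n y => q ((n, 0), y)) := by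
    refine ⟨(hq.comp (f := fun p : ℕ × List Bool => ((p.1, 0), p.2))
      (Primrec.pair (Primrec.pair Primrec.fst (Primrec.const 0)) Primrec.snd)).re, fun n => ?_⟩
    have h1 : op (fun y => q ((n, 0), y)) ⊆ {ω | ((2 ^ n : ℝ≥0) : ℝ≥0∞) ≤ t ω} := by
      intro ω' hω'
      have := (hq' n 0 ω').mpr hω'
      rw [pow_zero, one_mul] at this
      push_cast
      exact this.le
    refine (measure_mono h1).trans ((ht.2 (2 ^ n) (by positivity)).trans ?_)
    rw [one_div]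
    push_cast
    exact le_rfl
  obtain ⟨n, hn⟩ := h _ hU
  by_contra hcon
  rw [not_lt, top_le_iff] at hcon
  apply hn
  have := (hq' n 0 ω).mp (by rw [hcon, pow_zero, one_mul]; finiteness)
  exact this

end Pool.Agent.H21.Rand
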