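import Pool.Agent.H21.Rand2

set_option autoImplicit false

namespace Pool.Agent.H21.Rand

open MeasureTheory Pool.Agent.H21.RE1
open scoped ENNReal NNReal

/-! ### An enumerability lemma -/

theorem prim_count {α β : Type} [Primcodable α] [Primcodable β] {f : α → List β}
    {g : α → β → Bool} (hf : Primrec f) (hg : Primrec₂ g) :
    Primrec (fun a => ((f a).filter (g a)).length) := by
  have h := Primrec.list_foldr hf (Primrec.const 0)
    (h := fun a p => bif g a p.1 then p.2 + 1 else p.2)
    (Primrec.cond (hg.comp Primrec.fst (Primrec.fst.comp Primrec.snd))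
      (Primrec.succ.comp (Primrec.snd.comp Primrec.snd))
      (Primrec.snd.comp Primrec.snd))
  refine h.of_eq fun a => ?_
  induction f a with
  | nil => rfl
  | cons b l ih =>
    simp only [List.foldr_cons, List.filter_cons, ih]
    cases g a b <;> simp

/-- If `K → ∞` and `K n` always belongs to a uniformly r.e. set of bounded size, then some
computable `g` satisfies `K (g h) > 2 h` for all `h`. -/
theorem enum_contra (K : ℕ → ℕ) (W : ℕ → ℕ → Prop)
    (hW : Sig (fun p : ℕ × ℕ => W p.1 p.2)) (N n0 : ℕ)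
    (hN : ∀ (n : ℕ) (F : Finset ℕ), (∀ k ∈ F, W n k) → F.card ≤ N)
    (hK : ∀ n ≥ n0, W n (K n)) (hinf : ∀ B : ℕ, ∃ n1, ∀ n ≥ n1, B < K n)
    (hB : ∀ g : ℕ → ℕ, Computable g → ∃ h, K (g h) ≤ 2 * h) : False := by
  classical
  obtain ⟨R, h1, h2, h3⟩ := hW
  let big : ℕ → ℕ → ℕ → Prop := fun B n r => ∃ F : Finset ℕ, F.card = r ∧ ∀ k ∈ F, B < k ∧ W n k
  have hex : ∃ r : ℕ, ∃ B n1 : ℕ, ∀ n ≥ n1, ¬ big B n (r + 1) := by
    refine ⟨N, 0, 0, fun n _ hb => ?_⟩
    obtain ⟨F, hF1, hF2⟩ := hb
    have := hN n F (fun k hk => (hF2 k hk).2)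
    omega
  obtain ⟨B, n1, hBn⟩ := Nat.find_spec hex
  set r := Nat.find hex with hr
  have hmany : ∀ B' n' : ℕ, ∃ n ≥ n', big B' n r := by
    intro B' n'
    rcases Nat.eq_zero_or_pos r with h0 | hpos
    · rw [h0]; exact ⟨n', le_rfl, ∅, rfl, by simp⟩
    · by_contra hcon
      push Not at hcon
      refine Nat.find_min hex (m := r - 1) (by omega) ⟨B', n', fun n hn => ?_⟩
      rw [Nat.sub_add_cancel hpos]
      exact hcon n hn
  obtain ⟨n3, hn3⟩ := hinf B
  set n2 := max n0 (max n1 n3) with hn2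
  have hlarge : ∀ n ≥ n2, ∀ M ≥ B, big M n r → M < K n := by
    intro n hn M hM ⟨F, hF1, hF2⟩
    have e1 : n0 ≤ n := le_trans (le_max_left _ _) hn
    have e2 : n1 ≤ n := le_trans (le_trans (le_max_left _ _) (le_max_right _ _)) hn
    have e3 : n3 ≤ n := le_trans (le_trans (le_max_right _ _) (le_max_right _ _)) hn
    by_cases hmem : K n ∈ F
    · exact (hF2 _ hmem).1
    · exfalso
      refine hBn n e2 ⟨insert (K n) F, ?_, ?_⟩
      · rw [Finset.card_insert_of_notMem hmem, hF1]
      · intro k hk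
        rcases Finset.mem_insert.mp hk with h | h
        · rw [h]; exact ⟨hn3 n e3, hK n e1⟩
        · exact ⟨lt_of_le_of_lt hM (hF2 k h).1, (hF2 k h).2⟩
  -- the search
  let f : ℕ → ℕ → Bool := fun h t => decide (n2 ≤ t.unpair.1) && decide (r ≤
    ((List.range t.unpair.2).filter
      (fun k => decide (B + 2 * h < k) && R (t.unpair.1, k) t.unpair.2)).length)
  have hf : Primrec₂ f := by
    have hu1 : Primrec (fun p : ℕ × ℕ => p.2.unpair.1) :=
      Primrec.fst.comp (Primrec.unpair.comp Primrec.snd)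
    have hu2 : Primrec (fun p : ℕ × ℕ => p.2.unpair.2) :=
      Primrec.snd.comp (Primrec.unpair.comp Primrec.snd)
    have e1 : Primrec (fun p : ℕ × ℕ => decide (n2 ≤ p.2.unpair.1)) :=
      (Primrec.nat_le.comp (Primrec.const n2) hu1).decide
    have e2 : Primrec (fun p : ℕ × ℕ => ((List.range p.2.unpair.2).filter
      (fun k => decide (B + 2 * p.1 < k) && R (p.2.unpair.1, k) p.2.unpair.2)).length) := by
      refine prim_count (g := fun (p : ℕ × ℕ) (k : ℕ) =>
        decide (B + 2 * p.1 < k) && R (p.2.unpair.1, k) p.2.unpair.2)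
        (Primrec.list_range.comp hu2) ?_
      refine Primrec.and.comp₂ ?_ ?_
      · refine (Primrec.nat_lt.comp ?_ Primrec.snd).decide
        refine Primrec.nat_add.comp (Primrec.const B) (Primrec.nat_mul.comp (Primrec.const 2) ?_)
        exact Primrec.fst.comp Primrec.fst
      · refine h1.comp ?_ (hu2.comp Primrec.fst)
        exact Primrec.pair (hu1.comp Primrec.fst) Primrec.snd
    have e3 : Primrec (fun p : ℕ × ℕ => decide (r ≤ ((List.range p.2.unpair.2).filter
      (fun k => decide (B + 2 * p.1 < k) && R (p.2.unpair.1, k) p.2.unpair.2)).length)) :=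
      (Primrec.nat_le.comp (Primrec.const r) e2).decide
    exact Primrec.and.comp e1 e3
  have hfind : ∀ h, ∃ t, f h t = true := by
    intro h
    obtain ⟨n, hn, F, hF1, hF2⟩ := hmany (B + 2 * h) n2
    have hT : ∀ k ∈ F, ∃ T, R (n, k) T = true := fun k hk => (h3 (n, k)).mp (hF2 k hk).2
    choose! T hT using hT
    let T0 := F.sup (fun k => max (T k) (k + 1))
    have hT0 : ∀ k ∈ F, T k ≤ T0 ∧ k < T0 := by
      intro k hk
      have : max (T k) (k + 1) ≤ T0 := Finset.le_sup (f := fun k => max (T k) (k + 1)) hk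
      omega
    refine ⟨Nat.pair n T0, ?_⟩
    simp only [f, Nat.unpair_pair, Bool.and_eq_true, decide_eq_true_eq]
    refine ⟨hn, ?_⟩
    rw [← hF1]
    have hnd : ((List.range T0).filter
      (fun k => decide (B + 2 * h < k) && R (n, k) T0)).Nodup := List.nodup_range.filter _
    rw [← List.toFinset_card_of_nodup hnd]
    refine Finset.card_le_card fun k hk => ?_
    simp only [List.mem_toFinset, List.mem_filter, List.mem_range, Bool.and_eq_true,
      decide_eq_true_eq]
    exact ⟨(hT0 k hk).2, (hF2 k hk).1, h2 _ _ _ (hT0 k hk).1 (hT k hk)⟩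
  have hcomp : Computable (fun h => Nat.find (hfind h)) := by
    refine Computable.find (P := fun h t => f h t = true) ?_ hfind
    have : PrimrecPred (fun p : ℕ × ℕ => f p.1 p.2 = true) :=
      Primrec.eq.comp hf (Primrec.const true)
    exact this.computablePred
  obtain ⟨G, hG, hGs⟩ : ∃ G : ℕ → ℕ, Computable G ∧ ∀ h, f h (G h) = true :=
    ⟨_, hcomp, fun h => Nat.find_spec (hfind h)⟩
  have hg : Computable (fun h => (G h).unpair.1) :=
    (Primrec.fst.comp Primrec.unpair).to_comp.comp hG
  obtain ⟨h, hh⟩ := hB _ hg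
  have hs := hGs h
  simp only [f, Bool.and_eq_true, decide_eq_true_eq] at hs
  obtain ⟨hs1, hs2⟩ := hs
  generalize (G h).unpair.1 = n at hh hs1 hs2
  generalize (G h).unpair.2 = T at hs2
  have hbig : big (B + 2 * h) n r := by
    have hnd : ((List.range T).filter
      (fun k => decide (B + 2 * h < k) && R (n, k) T)).Nodup := List.nodup_range.filter _
    rw [← List.toFinset_card_of_nodup hnd] at hs2
    obtain ⟨F, hF1, hF2⟩ := Finset.exists_subset_card_eq hs2
    refine ⟨F, hF2, fun k hk => ?_⟩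
    have := hF1 hk
    simp only [List.mem_toFinset, List.mem_filter, List.mem_range, Bool.and_eq_true,
      decide_eq_true_eq] at this
    exact ⟨this.2.1, (h3 (n, k)).mpr ⟨T, this.2.2⟩⟩
  have := hlarge n hs1 (B + 2 * h) (by omega) hbig
  omega

end Pool.Agent.H21.Rand
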