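import Pool.Agent.H21.Rand3

set_option autoImplicit false

namespace Pool.Agent.H21.Rand

open MeasureTheory Pool.Agent.H21.RE1
open scoped ENNReal NNReal

def zs (k : ℕ) : List Bool := (List.range k).map (fun _ => false)

lemma zs_length (k : ℕ) : (zs k).length = k := by simp [zs]

lemma zs_get (k i : ℕ) (h : i < k) : (zs k)[i]'(by rw [zs_length]; exact h) = false := by
  simp [zs]

def zo (n : ℕ) : List Bool := zs n ++ [true]

def tt (n k C : ℕ) : List Bool := zs k ++ true :: zs (n + 2 * C - k)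

lemma zo_length (n : ℕ) : (zo n).length = n + 1 := by simp [zo, zs_length]

lemma tt_length (n k C : ℕ) (h : k ≤ n + 2 * C) : (tt n k C).length = n + 2 * C + 1 := by
  simp only [tt, List.length_append, List.length_cons, zs_length]; omega

lemma prim_zs : Primrec zs := by
  unfold zs
  exact Primrec.list_map Primrec.list_range (Primrec₂.const false)

lemma prim_zo : Primrec zo := by
  unfold zo
  exact Primrec.list_append.comp prim_zs (Primrec.const [true])

lemma cyl_append {x y : List Bool} {ω : ℕ → Bool} (h : ω ∈ cyl (x ++ y)) : ω ∈ cyl x := by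
  rw [mem_cyl] at h ⊢
  rw [← pre_take _ (x ++ y).length x.length (by simp), h]
  simp

/-- in a cylinder `0^k 1 ...` the first `true` is at position `k` -/
lemma first_true {k : ℕ} {y : List Bool} {ω : ℕ → Bool} (h : ω ∈ cyl (zs k ++ true :: y)) :
    ω k = true ∧ ∀ i < k, ω i = false := by
  rw [cyl_eq_pi] at h
  constructor
  · have h1 := h k (by simp [zs_length])
    simp only [Set.mem_singleton_iff] at h1
    rw [h1, List.getD_append_right _ _ _ _ (by rw [zs_length])]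
    simp [zs_length]
  · intro i hi
    have h1 := h i (by simp [zs_length]; omega)
    simp only [Set.mem_singleton_iff] at h1
    rw [h1, List.getD_append _ _ _ _ (by rw [zs_length]; exact hi), List.getD_eq_getElem _ _
      (by rw [zs_length]; exact hi), zs_get _ _ hi]

lemma first_unique {k l : ℕ} {y y' : List Bool} {ω : ℕ → Bool}
    (h : ω ∈ cyl (zs k ++ true :: y)) (h' : ω ∈ cyl (zs l ++ true :: y')) : k = l := by
  obtain ⟨h1, h2⟩ := first_true h
  obtain ⟨h3, h4⟩ := first_true h'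
  by_contra hne
  rcases Nat.lt_or_gt_of_ne hne with h5 | h5
  · rw [h4 k h5] at h1; simp at h1
  · rw [h2 l h5] at h3; simp at h3

lemma zo_eq (n : ℕ) : zo n = zs n ++ true :: [] := rfl

/-! ### cancellation helpers -/

lemma lt_of_pow {x : ℝ≥0∞} {n k : ℕ} (h : (2 : ℝ≥0∞) ^ n ≤ 2 ^ k * x) :
    (2 : ℝ≥0∞) ^ n < 2 ^ (k + 1) * x := by
  rcases eq_or_ne x ∞ with rfl | hx
  · rw [ENNReal.mul_top (by positivity)]; finiteness
  · have hx0 : 2 ^ k * x ≠ 0 := by
      intro h0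
      rw [h0] at h
      exact absurd h (not_le.mpr (by positivity))
    have hfin : 2 ^ k * x ≠ ∞ := ENNReal.mul_ne_top (by finiteness) hx
    calc (2 : ℝ≥0∞) ^ n ≤ 2 ^ k * x := h
      _ < 2 ^ k * x + 2 ^ k * x := ENNReal.lt_add_right hfin hx0
      _ = 2 ^ (k + 1) * x := by rw [pow_succ]; ring

section main

variable {tE tP : (ℕ → Bool) → ℝ≥0∞}

lemma one_le_E (hE : UniversalE tE) : ∃ e : ℕ, ∀ ω, (1 : ℝ≥0∞) ≤ 2 ^ e * tE ω := by
  have hS : Sig (fun p : ℕ × List Bool => p.1 = 0 ∧ p.2 = []) := by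
    apply Sig.prim
    exact (Primrec.eq.comp Primrec.fst (Primrec.const 0)).and
      (Primrec.eq.comp Primrec.snd (Primrec.const []))
  obtain ⟨d, hd⟩ := Emax hE (W := fun u y => u = 0 ∧ y = []) hS (by
    refine lt_of_le_of_lt (sum_bound (ι := Unit) (fun _ => True) (fun _ => 0) (fun _ => [])
      _ (fun v y h => ⟨(), trivial, h.1, h.2⟩)) ?_
    rw [tsum_fintype]
    simp)
  refine ⟨d, fun ω => ?_⟩
  have := hd 0 ω ⟨0, rfl, by simp [pre]⟩
  simpa using this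

/-- the basic Σ₁ predicate -/
def A (tE : (ℕ → Bool) → ℝ≥0∞) (n k : ℕ) : Prop := ∀ ω ∈ cyl (zo n), (2 : ℝ≥0∞) ^ n < 2 ^ k * tE ω

lemma A_mono {n k l : ℕ} (hkl : k ≤ l) (h : A tE n k) : A tE n l := by
  intro ω hω
  refine lt_of_lt_of_le (h ω hω) ?_
  have : (2 : ℝ≥0∞) ^ k ≤ 2 ^ l := pow_le_pow_right₀ (by norm_num) hkl
  gcongr

lemma A_of_le {n k : ℕ} (h : ∀ ω ∈ cyl (zo n), (2 : ℝ≥0∞) ^ n ≤ 2 ^ k * tE ω) :
    A tE n (k + 1) := fun ω hω => lt_of_pow (h ω hω)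

lemma A_top {e : ℕ} (he : ∀ ω, (1 : ℝ≥0∞) ≤ 2 ^ e * tE ω) (n : ℕ) : A tE n (n + e + 1) := by
  apply A_of_le
  intro ω _
  rw [pow_add, mul_assoc]
  calc (2 : ℝ≥0∞) ^ n = 2 ^ n * 1 := (mul_one _).symm
    _ ≤ 2 ^ n * (2 ^ e * tE ω) := by gcongr; exact he ω

lemma sig_A (hE : LSC tE) : Sig (fun p : ℕ × ℕ => A tE p.1 p.2) := by
  obtain ⟨q, hq, hq'⟩ := sig_thr hE
  have h1 := (sig_cov hq).comp (f := fun p : ℕ × ℕ => ((p, zo p.1) : (ℕ × ℕ) × List Bool))
    (Primrec.pair Primrec.id (prim_zo.comp Primrec.fst))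
  refine h1.of_iff fun p => ?_
  unfold A
  refine forall₂_congr fun ω _ => ?_
  exact hq' p.1 p.2 ω

lemma sum_zo (tE : (ℕ → Bool) → ℝ≥0∞) :
    ∑' n : ℕ, ∫⁻ ω in cyl (zo n), tE ω ∂P ≤ ∫⁻ ω, tE ω ∂P := by
  rw [← lintegral_iUnion (fun n => measurable_cyl _) (fun i j hij => by
    refine Set.disjoint_left.mpr fun ω h1 h2 => hij ?_
    exact first_unique (y := []) (y' := []) h1 h2)]
  exact setLIntegral_le_lintegral _ _

lemma pow_K_le {n k : ℕ} (h : A tE n k) :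
    ((2 : ℝ≥0∞) ^ k)⁻¹ ≤ 2 * ∫⁻ ω in cyl (zo n), tE ω ∂P := by
  have h1 : (2 : ℝ≥0∞) ^ n * P (cyl (zo n)) ≤ 2 ^ k * ∫⁻ ω in cyl (zo n), tE ω ∂P := by
    rw [← setLIntegral_const, ← lintegral_const_mul' _ _ (by finiteness)]
    exact setLIntegral_mono' (measurable_cyl _) (fun ω hω => (h ω hω).le)
  rw [P_cyl, zo_length, pow_succ, ENNReal.mul_inv (Or.inl (by positivity))
    (Or.inl (by finiteness)), ← mul_assoc, ENNReal.mul_inv_cancel (by positivity) (by finiteness),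
    one_mul] at h1
  rw [ENNReal.inv_le_iff_le_mul (by simp) (by simp)]
  calc (1 : ℝ≥0∞) = 2 * 2⁻¹ := (ENNReal.mul_inv_cancel (by norm_num) (by norm_num)).symm
    _ ≤ 2 * (2 ^ k * ∫⁻ ω in cyl (zo n), tE ω ∂P) := by gcongr
    _ = 2 ^ k * (2 * ∫⁻ ω in cyl (zo n), tE ω ∂P) := by ring

end main

end Pool.Agent.H21.Rand
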