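import Pool.Agent.H21.Rand4

set_option autoImplicit false

namespace Pool.Agent.H21.Rand

open MeasureTheory Pool.Agent.H21.RE1
open scoped ENNReal NNReal

section main

variable {tE tP : (ℕ → Bool) → ℝ≥0∞}

lemma weight' (u l : ℕ) : (2 : ℝ≥0∞) ^ u * (2 ^ (u + l))⁻¹ = (2 ^ l)⁻¹ := by
  rw [pow_add, ENNReal.mul_inv (Or.inl (by positivity)) (Or.inl (by finiteness)), ← mul_assoc,
    ENNReal.mul_inv_cancel (by positivity) (by finiteness), one_mul]

lemma geo1 : ∑' h : ℕ, ((2 : ℝ≥0∞) ^ (h + 1))⁻¹ = 1 := by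
  simp_rw [ENNReal.inv_pow]
  rw [ENNReal.tsum_geometric_add_one, ENNReal.one_sub_inv_two, inv_inv,
    ENNReal.inv_mul_cancel (by norm_num) (by norm_num)]

lemma geo0 : ∑' h : ℕ, ((2 : ℝ≥0∞) ^ h)⁻¹ = 2 := by
  simp_rw [ENNReal.inv_pow]
  rw [ENNReal.tsum_geometric, ENNReal.one_sub_inv_two, inv_inv]

lemma sig_graph {α : Type} [Primcodable α] {Q : α × ℕ → Prop} (hQ : PrimrecPred Q) {G : α → ℕ}
    (hG : Computable G) : Sig (fun a => Q (a, G a)) := by
  obtain ⟨d, hd⟩ := hQ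
  exact of_re (ComputablePred.to_re ⟨fun a => d (a, G a), hd.to_comp.comp (Computable.id.pair hG)⟩)

/-- Berry-type argument -/
theorem berry (hE : UniversalE tE) {e : ℕ} (he : ∀ ω, (1 : ℝ≥0∞) ≤ 2 ^ e * tE ω) (K : ℕ → ℕ)
    (hK : ∀ n k, A tE n k → K n ≤ k) (g : ℕ → ℕ) (hg : Computable g) : ∃ h, K (g h) ≤ 2 * h := by
  let W : ℕ → List Bool → Prop := fun u y => ∃ h : ℕ, (h ≤ g h ∧ u = g h - h) ∧ y = zo (g h)
  have hS : Sig (fun p : ℕ × List Bool => W p.1 p.2) := by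
    have h1 : Sig (fun p : (ℕ × List Bool) × ℕ =>
        (p.2 ≤ g p.2 ∧ p.1.1 = g p.2 - p.2) ∧ p.1.2 = zo (g p.2)) := by
      have hP : PrimrecPred (fun q : ((ℕ × List Bool) × ℕ) × ℕ =>
          (q.1.2 ≤ q.2 ∧ q.1.1.1 = q.2 - q.1.2) ∧ q.1.1.2 = zo q.2) := by
        refine PrimrecPred.and (PrimrecPred.and ?_ ?_) ?_
        · exact Primrec.nat_le.comp (Primrec.snd.comp Primrec.fst) Primrec.snd
        · refine Primrec.eq.comp ?_ ?_
          · exact Primrec.fst.comp (Primrec.fst.comp Primrec.fst)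
          · exact Primrec.nat_sub.comp Primrec.snd (Primrec.snd.comp Primrec.fst)
        · refine Primrec.eq.comp ?_ ?_
          · exact Primrec.snd.comp (Primrec.fst.comp Primrec.fst)
          · exact prim_zo.comp Primrec.snd
      exact sig_graph hP (G := fun p : (ℕ × List Bool) × ℕ => g p.2) (hg.comp Computable.snd)
    exact h1.ex
  obtain ⟨d, hd⟩ := Emax hE (W := W) hS (by
    refine lt_of_le_of_lt (sum_bound (ι := ℕ) (fun h => h ≤ g h) (fun h => g h - h)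
      (fun h => zo (g h)) _ (fun v y hh => ?_)) ?_
    · obtain ⟨h, h1, h2⟩ := hh
      exact ⟨h, h1.1, h1.2, h2⟩
    · refine lt_of_le_of_lt (b := ∑' h : ℕ, ((2 : ℝ≥0∞) ^ (h + 1))⁻¹) ?_ (by rw [geo1]; finiteness)
      refine ENNReal.tsum_le_tsum fun h => ?_
      by_cases hh : h ≤ g h
      · rw [Set.indicator_of_mem (by exact hh), zo_length,
          show g h + 1 = (g h - h) + (h + 1) by omega, weight']
      · rw [Set.indicator_of_notMem (by exact hh)]; exact zero_le)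
  obtain ⟨h, hh⟩ : ∃ h, h = d + e + 2 := ⟨_, rfl⟩
  refine ⟨h, ?_⟩
  by_cases hle : h ≤ g h
  · have h1 : A tE (g h) (h + d + 1) := by
      apply A_of_le
      intro ω hω
      have h2 := hd (g h - h) ω ⟨(zo (g h)).length, h, ⟨hle, rfl⟩, mem_cyl.mp hω⟩
      calc (2 : ℝ≥0∞) ^ (g h) = 2 ^ h * 2 ^ (g h - h) := by rw [← pow_add]; congr 1; omega
        _ ≤ 2 ^ h * (2 ^ d * tE ω) := by gcongr
        _ = 2 ^ (h + d) * tE ω := by rw [pow_add 2 h d, mul_assoc]
    have := hK _ _ h1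
    omega
  · have := hK _ _ (A_top he (g h))
    omega

/-- the first test: value `2^(n+C-k)` on `tt n k C` when `A n k` -/
theorem first_test (hE : UniversalE tE) (K : ℕ → ℕ) (hK : ∀ n k, A tE n k ↔ K n ≤ k)
    (hsum : ∑' n : ℕ, ((2 : ℝ≥0∞) ^ (K n))⁻¹ < ∞) :
    ∃ e1 : ℕ, ∀ n k C : ℕ, A tE n k → k ≤ n + C → ∀ ω ∈ cyl (tt n k C),
      (2 : ℝ≥0∞) ^ (n + C - k) ≤ 2 ^ e1 * tE ω := by
  let W : ℕ → List Bool → Prop := fun u y => ∃ i : ℕ × ℕ × ℕ,
    (A tE i.1 i.2.1 ∧ i.2.1 ≤ i.1 + i.2.2 ∧ u = i.1 + i.2.2 - i.2.1) ∧ y = tt i.1 i.2.1 i.2.2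
  have hS : Sig (fun p : ℕ × List Bool => W p.1 p.2) := by
    have h1 : Sig (fun p : (ℕ × List Bool) × (ℕ × ℕ × ℕ) =>
        (A tE p.2.1 p.2.2.1 ∧ p.2.2.1 ≤ p.2.1 + p.2.2.2 ∧ p.1.1 = p.2.1 + p.2.2.2 - p.2.2.1) ∧
        p.1.2 = tt p.2.1 p.2.2.1 p.2.2.2) := by
      have hn : Primrec (fun p : (ℕ × List Bool) × (ℕ × ℕ × ℕ) => p.2.1) :=
        Primrec.fst.comp Primrec.snd
      have hk : Primrec (fun p : (ℕ × List Bool) × (ℕ × ℕ × ℕ) => p.2.2.1) :=
        Primrec.fst.comp (Primrec.snd.comp Primrec.snd)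
      have hC : Primrec (fun p : (ℕ × List Bool) × (ℕ × ℕ × ℕ) => p.2.2.2) :=
        Primrec.snd.comp (Primrec.snd.comp Primrec.snd)
      refine Sig.and (Sig.and ?_ ?_) ?_
      · exact (sig_A hE.1.1).comp (f := fun p : (ℕ × List Bool) × (ℕ × ℕ × ℕ) =>
          (p.2.1, p.2.2.1)) (Primrec.pair hn hk)
      · apply Sig.prim
        refine PrimrecPred.and ?_ ?_
        · exact Primrec.nat_le.comp hk (Primrec.nat_add.comp hn hC)
        · exact Primrec.eq.comp (Primrec.fst.comp Primrec.fst)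
            (Primrec.nat_sub.comp (Primrec.nat_add.comp hn hC) hk)
      · apply Sig.prim
        refine Primrec.eq.comp (Primrec.snd.comp Primrec.fst) ?_
        unfold tt
        refine Primrec.list_append.comp (prim_zs.comp hk) ?_
        refine Primrec.list_cons.comp (Primrec.const true) (prim_zs.comp ?_)
        refine Primrec.nat_sub.comp (Primrec.nat_add.comp hn ?_) hk
        exact Primrec.nat_mul.comp (Primrec.const 2) hC
    exact h1.ex
  obtain ⟨d, hd⟩ := Emax hE (W := W) hS (by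
    refine lt_of_le_of_lt (sum_bound (ι := ℕ × ℕ × ℕ)
      (fun i => K i.1 + i.2.1 ≤ i.1 + i.2.2) (fun i => i.1 + i.2.2 - (K i.1 + i.2.1))
      (fun i => tt i.1 (K i.1 + i.2.1) i.2.2) _ (fun v y hh => ?_)) ?_
    · obtain ⟨⟨n, k, C⟩, ⟨h1, h2, h3⟩, h4⟩ := hh
      simp only at h1 h2 h3 h4
      have h5 := (hK n k).mp h1
      refine ⟨(n, k - K n, C), ?_, ?_, ?_⟩
      · simp only; omega
      · simp only; rw [show K n + (k - K n) = k by omega]; exact h3
      · simp only; rw [show K n + (k - K n) = k by omega]; exact h4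
    · refine lt_of_le_of_lt (b := ∑' i : ℕ × ℕ × ℕ, ((2 : ℝ≥0∞) ^ (K i.1))⁻¹ *
        (((2 : ℝ≥0∞) ^ i.2.1)⁻¹ * ((2 : ℝ≥0∞) ^ (i.2.2 + 1))⁻¹)) ?_ ?_
      · refine ENNReal.tsum_le_tsum fun i => ?_
        obtain ⟨n, j, C⟩ := i
        by_cases hh : K n + j ≤ n + C
        · rw [Set.indicator_of_mem (by exact hh)]
          simp only
          rw [tt_length _ _ _ (by omega),
            show n + 2 * C + 1 = (n + C - (K n + j)) + (K n + (j + (C + 1))) by omega, weight',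
            pow_add 2 (K n), ENNReal.mul_inv (Or.inl (by positivity)) (Or.inl (by finiteness)),
            pow_add 2 j, ENNReal.mul_inv (Or.inl (by positivity)) (Or.inl (by finiteness))]
        · rw [Set.indicator_of_notMem (by exact hh)]; exact zero_le
      · rw [ENNReal.tsum_prod (f := fun (n : ℕ) (i : ℕ × ℕ) => ((2 : ℝ≥0∞) ^ (K n))⁻¹ *
          (((2 : ℝ≥0∞) ^ i.1)⁻¹ * ((2 : ℝ≥0∞) ^ (i.2 + 1))⁻¹))]
        simp_rw [ENNReal.tsum_mul_left]
        rw [ENNReal.tsum_mul_right]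
        refine ENNReal.mul_lt_top hsum ?_
        rw [ENNReal.tsum_prod (f := fun (j C : ℕ) =>
          ((2 : ℝ≥0∞) ^ j)⁻¹ * ((2 : ℝ≥0∞) ^ (C + 1))⁻¹)]
        simp_rw [ENNReal.tsum_mul_left, geo1, mul_one, geo0]
        finiteness)
  refine ⟨d, fun n k C h1 h2 ω hω => ?_⟩
  exact hd (n + C - k) ω ⟨(tt n k C).length, (n, k, C), ⟨h1, h2, rfl⟩, mem_cyl.mp hω⟩

/-- the probability-bounded test `2^n` on `0^n` -/
theorem zero_test (hP : UniversalP tP) : ∃ b : ℕ, ∀ (n : ℕ) (ω : ℕ → Bool), ω ∈ cyl (zs n) →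
    (2 : ℝ≥0∞) ^ n ≤ 2 ^ b * tP ω := by
  have hS : Sig (fun p : ℕ × List Bool => p.2 = zs p.1) := by
    apply Sig.prim
    exact Primrec.eq.comp Primrec.snd (prim_zs.comp Primrec.fst)
  obtain ⟨d, hd⟩ := Pmax hP (W := fun u y => y = zs u) hS (by
    intro v
    have h1 : (⋃ (u : ℕ) (_ : v ≤ u), op (fun y => y = zs u)) ⊆ cyl (zs v) := by
      intro ω hω
      simp only [Set.mem_iUnion, exists_prop] at hω
      obtain ⟨u, hu, n, hn⟩ := hω
      have h2 : n = u := by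
        have := congrArg List.length hn
        rw [pre_length, zs_length] at this
        exact this
      subst h2
      have h3 : ω ∈ cyl (zs n) := by rw [mem_cyl, zs_length]; exact hn
      have h4 : zs n = zs v ++ (zs n).drop v := by
        conv_lhs => rw [← List.take_append_drop v (zs n)]
        congr 1
        unfold zs
        rw [← List.map_take, List.take_range, min_eq_left hu]
      rw [h4] at h3
      exact cyl_append h3
    refine (measure_mono h1).trans ?_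
    rw [P_cyl, zs_length])
  exact ⟨d, fun n ω hω => hd n ω ⟨(zs n).length, mem_cyl.mp hω⟩⟩

lemma tt_disj {n C k l : ℕ} {ω : ℕ → Bool} (h : ω ∈ cyl (tt n k C)) (h' : ω ∈ cyl (tt n l C)) :
    k = l := first_unique h h'

/-- the counting bound -/
theorem count (hP : PTest tP) (n C B : ℕ) (F : Finset ℕ)
    (hF : ∀ k ∈ F, k ≤ n + 2 * C ∧ ∀ ω ∈ cyl (tt n k C), (2 : ℝ≥0∞) ^ n < 2 ^ B * tP ω) :
    F.card ≤ 2 ^ (B + 2 * C + 1) := by
  have h1 : P (⋃ k ∈ F, cyl (tt n k C)) = F.card * ((2 : ℝ≥0∞) ^ (n + 2 * C + 1))⁻¹ := by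
    rw [measure_biUnion_finset]
    · rw [Finset.sum_congr rfl (g := fun _ => ((2 : ℝ≥0∞) ^ (n + 2 * C + 1))⁻¹)]
      · rw [Finset.sum_const, nsmul_eq_mul]
      · intro k hk
        rw [P_cyl, tt_length _ _ _ (hF k hk).1]
    · intro k _ l _ hkl
      exact Set.disjoint_left.mpr fun ω h2 h3 => hkl (tt_disj h2 h3)
    · intro k _
      exact measurable_cyl _
  have h2 : (⋃ k ∈ F, cyl (tt n k C)) ⊆ {ω | ((2 ^ n / 2 ^ B : ℝ≥0) : ℝ≥0∞) ≤ tP ω} := by
    intro ω hω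
    simp only [Set.mem_iUnion, exists_prop] at hω
    obtain ⟨k, hk, hω⟩ := hω
    have h3 := ((hF k hk).2 ω hω).le
    show ((2 ^ n / 2 ^ B : ℝ≥0) : ℝ≥0∞) ≤ tP ω
    rw [ENNReal.coe_div (by positivity)]
    push_cast
    rw [ENNReal.div_le_iff_le_mul (Or.inl (by positivity)) (Or.inl (by finiteness)), mul_comm]
    exact h3
  have h3 := (measure_mono h2).trans (hP.2 (2 ^ n / 2 ^ B) (by positivity))
  rw [h1, ENNReal.coe_div (by positivity)] at h3
  push_cast at h3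
  rw [one_div, ENNReal.inv_div (Or.inl (by finiteness)) (Or.inl (by positivity)),
    ← div_eq_mul_inv, ENNReal.div_le_iff_le_mul (Or.inl (by positivity)) (Or.inl (by finiteness)),
    mul_comm, ← mul_div_assoc] at h3
  rw [show n + 2 * C + 1 = n + (2 * C + 1) by ring, pow_add 2 n, mul_assoc, mul_comm (2 ^ n),
    ENNReal.mul_div_cancel_right (by positivity) (by finiteness), ← pow_add] at h3
  have h4 : (F.card : ℝ≥0∞) ≤ ((2 ^ (2 * C + 1 + B) : ℕ) : ℝ≥0∞) := by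
    push_cast; exact h3
  have h5 : F.card ≤ 2 ^ (2 * C + 1 + B) := by exact_mod_cast h4
  rw [show B + 2 * C + 1 = 2 * C + 1 + B by ring]
  exact h5

end main

end Pool.Agent.H21.Rand
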