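import Pool.Agent.H21.Rand5

set_option autoImplicit false

namespace Pool.Agent.H21.Rand

open MeasureTheory Pool.Agent.H21.RE1
open scoped ENNReal NNReal

theorem main {tE tP : (ℕ → Bool) → ℝ≥0∞} (hE : UniversalE tE) (hP : UniversalP tP) (c : ℕ) :
    ∃ ω₁ ω₂ : ℕ → Bool, MLRandom ω₁ ∧ MLRandom ω₂ ∧
      (2 : ℝ≥0∞) ^ c * tE ω₂ ≤ tE ω₁ ∧ (2 : ℝ≥0∞) ^ c * tP ω₁ ≤ tP ω₂ := by
  classical
  by_contra hcon
  push Not at hcon
  obtain ⟨e0, he0⟩ := one_le_E hE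
  have hex : ∀ n, ∃ k, A tE n k := fun n => ⟨_, A_top he0 n⟩
  let K : ℕ → ℕ := fun n => Nat.find (hex n)
  have hK : ∀ n k, A tE n k ↔ K n ≤ k := by
    intro n k
    constructor
    · intro h; exact Nat.find_min' (hex n) h
    · intro h; exact A_mono h (Nat.find_spec (hex n))
  have hsum : ∑' n : ℕ, ((2 : ℝ≥0∞) ^ (K n))⁻¹ < ∞ := by
    calc ∑' n : ℕ, ((2 : ℝ≥0∞) ^ (K n))⁻¹ ≤ ∑' n : ℕ, 2 * ∫⁻ ω in cyl (zo n), tE ω ∂P :=
          ENNReal.tsum_le_tsum fun n => pow_K_le ((hK n (K n)).mpr le_rfl)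
      _ = 2 * ∑' n : ℕ, ∫⁻ ω in cyl (zo n), tE ω ∂P := ENNReal.tsum_mul_left
      _ ≤ 2 * ∫⁻ ω, tE ω ∂P := by gcongr; exact sum_zo tE
      _ < ∞ := ENNReal.mul_lt_top (by finiteness) hE.1.2
  have hinf : ∀ B : ℕ, ∃ n1, ∀ n ≥ n1, B < K n := by
    intro B
    have ht := ENNReal.tendsto_atTop_zero_of_tsum_ne_top hsum.ne
    have h1 : ∀ᶠ n in Filter.atTop, ((2 : ℝ≥0∞) ^ (K n))⁻¹ < (2 ^ B)⁻¹ :=
      ht.eventually_lt_const (ENNReal.inv_pos.mpr (by finiteness))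
    obtain ⟨n1, hn1⟩ := Filter.eventually_atTop.mp h1
    refine ⟨n1, fun n hn => ?_⟩
    have h2 := hn1 n hn
    rw [ENNReal.inv_lt_inv] at h2
    by_contra h3
    have h4 : (2 : ℝ≥0∞) ^ (K n) ≤ 2 ^ B := pow_le_pow_right₀ (by norm_num) (not_lt.mp h3)
    exact absurd h2 (not_lt.mpr h4)
  obtain ⟨e1, he1⟩ := first_test hE K hK hsum
  obtain ⟨b, hb⟩ := zero_test hP
  obtain ⟨C, hC⟩ : ∃ C, C = c + e1 + e0 + 1 := ⟨_, rfl⟩
  let W : ℕ → ℕ → Prop := fun n k =>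
    k ≤ n + 2 * C ∧ ∀ ω ∈ cyl (tt n k C), (2 : ℝ≥0∞) ^ n < 2 ^ (b + c) * tP ω
  have hW : Sig (fun p : ℕ × ℕ => W p.1 p.2) := by
    refine Sig.and ?_ ?_
    · apply Sig.prim
      exact Primrec.nat_le.comp Primrec.snd (Primrec.nat_add.comp Primrec.fst (Primrec.const _))
    · obtain ⟨q, hq, hq'⟩ := sig_thr hP.1.1
      have h1 := (sig_cov hq).comp (f := fun p : ℕ × ℕ =>
        (((p.1, b + c), tt p.1 p.2 C) : (ℕ × ℕ) × List Bool)) (by
        refine Primrec.pair (Primrec.pair Primrec.fst (Primrec.const _)) ?_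
        unfold tt
        refine Primrec.list_append.comp (prim_zs.comp Primrec.snd) ?_
        refine Primrec.list_cons.comp (Primrec.const true) (prim_zs.comp ?_)
        exact Primrec.nat_sub.comp (Primrec.nat_add.comp Primrec.fst (Primrec.const _))
          Primrec.snd)
      refine h1.of_iff fun p => ?_
      refine forall₂_congr fun ω _ => ?_
      exact hq' p.1 (b + c) ω
  obtain ⟨n0, hn0⟩ := hinf 0
  refine enum_contra K W hW (2 ^ (b + c + 2 * C + 1)) n0 ?_ ?_ hinf ?_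
  · intro n F hF
    exact count hP.1 n C (b + c) F hF
  · intro n hn
    have hk1 : 1 ≤ K n := hn0 n hn
    have hkn : K n ≤ n + e0 + 1 := (hK n _).mp (A_top he0 n)
    refine ⟨by omega, fun ω₁ hω₁ => ?_⟩
    rcases eq_or_ne (tP ω₁) ∞ with htop | hfin
    · rw [htop, ENNReal.mul_top (by positivity)]; finiteness
    have hml1 : MLRandom ω₁ := ml_of_P hP (lt_top_iff_ne_top.mpr hfin)
    -- the second sequence
    have hnot : ¬ A tE n (K n - 1) := by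
      rw [hK]; omega
    unfold A at hnot
    push Not at hnot
    obtain ⟨ω₂, hω₂, h2⟩ := hnot
    have hfin2 : tE ω₂ < ∞ := by
      rw [lt_top_iff_ne_top]
      intro h3
      rw [h3, ENNReal.mul_top (by positivity)] at h2
      exact absurd h2 (not_le.mpr (by finiteness))
    have hml2 : MLRandom ω₂ := ml_of_E hE hfin2
    have h3 := he1 n (K n) C ((hK n _).mpr le_rfl) (by omega) ω₁ hω₁
    have h4 : (2 : ℝ≥0∞) ^ c * tE ω₂ ≤ tE ω₁ := by
      have h5 : (2 : ℝ≥0∞) ^ (K n - 1 + e1) * (2 ^ c * tE ω₂) ≤ 2 ^ (K n - 1 + e1) * tE ω₁ := by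
        calc (2 : ℝ≥0∞) ^ (K n - 1 + e1) * (2 ^ c * tE ω₂)
            = 2 ^ (e1 + c) * (2 ^ (K n - 1) * tE ω₂) := by
              rw [pow_add, pow_add]; ring
          _ ≤ 2 ^ (e1 + c) * 2 ^ n := by gcongr
          _ = 2 ^ (e1 + c + n) := by rw [← pow_add]
          _ ≤ 2 ^ (K n - 1 + (n + C - K n)) := pow_le_pow_right₀ (by norm_num) (by omega)
          _ = 2 ^ (K n - 1) * 2 ^ (n + C - K n) := by rw [← pow_add]
          _ ≤ 2 ^ (K n - 1) * (2 ^ e1 * tE ω₁) := by gcongr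
          _ = 2 ^ (K n - 1 + e1) * tE ω₁ := by rw [pow_add, mul_assoc]
      exact (ENNReal.mul_le_mul_iff_right (by positivity) (by finiteness)).mp h5
    have h6 := hcon ω₁ ω₂ hml1 hml2 h4
    have h7 : (2 : ℝ≥0∞) ^ n ≤ 2 ^ b * tP ω₂ := hb n ω₂ (cyl_append hω₂)
    calc (2 : ℝ≥0∞) ^ n ≤ 2 ^ b * tP ω₂ := h7
      _ < 2 ^ b * (2 ^ c * tP ω₁) := by
          exact (ENNReal.mul_lt_mul_iff_right (by positivity) (by finiteness)).mpr h6
      _ = 2 ^ (b + c) * tP ω₁ := by rw [pow_add, mul_assoc]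
  · intro g hg
    exact berry hE he0 K (fun n k h => (hK n k).mp h) g hg

end Pool.Agent.H21.Rand
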