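import Mathlib

set_option autoImplicit false

/-! Basic definitions: randomness tests for the uniform Bernoulli measure. -/

namespace Pool.Agent.H21.Rand

open MeasureTheory
open scoped ENNReal NNReal

/-- The prefix of length `n` of an infinite binary sequence. -/
def pre (ω : ℕ → Bool) (n : ℕ) : List Bool := (List.range n).map ω

/-- The uniform Bernoulli measure on `ℕ → Bool` (fair coin tossing). -/
noncomputable def P : Measure (ℕ → Bool) :=
  Measure.infinitePi (fun _ => (PMF.uniformOfFintype Bool).toMeasure)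

/-- The open set generated by a set `S` of strings: all sequences with a prefix in `S`. -/
def op (S : List Bool → Prop) : Set (ℕ → Bool) := {ω | ∃ n, S (pre ω n)}

/-- `f` is lower semicomputable: the sets `{ω | f ω > a / (b+1)}` are effectively open,
uniformly in the rational number `a / (b+1)`. -/
def LSC (f : (ℕ → Bool) → ℝ≥0∞) : Prop :=
  ∃ R : List Bool × ℕ × ℕ → Prop, REPred R ∧
    ∀ (ω : ℕ → Bool) (a b : ℕ), (a : ℝ≥0∞) / (b + 1) < f ω ↔ ∃ n, R (pre ω n, a, b)

/-- Expectation-bounded test. -/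
def ETest (f : (ℕ → Bool) → ℝ≥0∞) : Prop := LSC f ∧ ∫⁻ ω, f ω ∂P < ∞

/-- Probability-bounded test. -/
def PTest (f : (ℕ → Bool) → ℝ≥0∞) : Prop :=
  LSC f ∧ ∀ c : ℝ≥0, 0 < c → P {ω | (c : ℝ≥0∞) ≤ f ω} ≤ 1 / (c : ℝ≥0∞)

/-- Universal expectation-bounded test: maximal up to a constant factor. -/
def UniversalE (t : (ℕ → Bool) → ℝ≥0∞) : Prop :=
  ETest t ∧ ∀ f, ETest f → ∃ C : ℝ≥0, ∀ ω, f ω ≤ C * t ω

/-- Universal probability-bounded test: maximal up to a constant factor. -/
def UniversalP (t : (ℕ → Bool) → ℝ≥0∞) : Prop :=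
  PTest t ∧ ∀ f, PTest f → ∃ C : ℝ≥0, ∀ ω, f ω ≤ C * t ω

/-- Martin-Löf test: a uniformly r.e. sequence of open sets with `P (U n) ≤ 2^(-n)`. -/
def MLTest (U : ℕ → List Bool → Prop) : Prop :=
  REPred (fun p : ℕ × List Bool => U p.1 p.2) ∧ ∀ n, P (op (U n)) ≤ (2 ^ n)⁻¹

/-- Martin-Löf random sequences. -/
def MLRandom (ω : ℕ → Bool) : Prop := ∀ U, MLTest U → ∃ n, ω ∉ op (U n)

/-- The deficiency `log₂ t(ω)` attached to a test `t` (used where `0 < t ω < ∞`). -/
noncomputable def deficiency (t : (ℕ → Bool) → ℝ≥0∞) (ω : ℕ → Bool) : ℝ :=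
  Real.logb 2 (t ω).toReal

end Pool.Agent.H21.Rand
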