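import Pool.Agent.H21.CFGGen

set_option autoImplicit false

namespace Pool.Agent.H21.Rat

open Pool.Agent.H21.CFG

inductive Lt | a | c | d | e | f
  deriving DecidableEq

instance : Fintype Lt := ⟨{Lt.a, Lt.c, Lt.d, Lt.e, Lt.f}, by intro x; cases x <;> simp⟩

inductive NT | S | T | B | Z | W | E (y : Lt)
  deriving DecidableEq

open Lt NT Symbol

def rep (n : ℕ) : List Lt := List.replicate n a

lemma rep_zero : rep 0 = [] := rfl

lemma rep_add (m n : ℕ) : rep m ++ rep n = rep (m + n) := by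
  unfold rep; exact List.replicate_append_replicate

lemma a_rep (n : ℕ) : a :: rep n = rep (n + 1) := rfl

lemma rep_length (n : ℕ) : (rep n).length = n := by unfold rep; simp

/-- `w` is empty or begins with a letter different from `a` -/
def NA (w : List Lt) : Prop := ∀ y w', w = y :: w' → y ≠ a

def Up (x y : Lt) : Prop := (x = c ∨ x = d) ∧ (y = c ∨ y = f)
def Dn (x y : Lt) : Prop := (x = e ∨ x = f) ∧ (y = d ∨ y = e)

/-- words with a level mismatch between two consecutive tokens -/
def Err (w : List Lt) : Prop :=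
  ∃ (α : List Lt) (x : Lt) (i : ℕ) (y : Lt) (j : ℕ) (β : List Lt),
    w = α ++ x :: (rep i ++ y :: (rep j ++ β)) ∧ NA β ∧
      ((Up x y ∧ j ≠ i + 1) ∨ (Dn x y ∧ i ≠ j + 1))

inductive Tree
  | leaf (k : ℕ) : Tree
  | node (i : ℕ) (l : Tree) (j : ℕ) (r : Tree) (m : ℕ) : Tree

def tw : Tree → List Lt
  | .leaf k => f :: rep k
  | .node i l j r m => c :: (rep i ++ (tw l ++ d :: (rep j ++ (tw r ++ e :: rep m))))

def Good (w : List Lt) : Prop := ∃ t, w = tw t

def rulesList : List (ContextFreeRule Lt NT) :=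
  [⟨S, [nonterminal T]⟩,
   ⟨T, [terminal c, nonterminal B, nonterminal T, terminal d, nonterminal B, nonterminal T,
        terminal e, nonterminal B]⟩,
   ⟨T, [terminal f, nonterminal B]⟩,
   ⟨B, []⟩, ⟨B, [terminal a, nonterminal B]⟩, ⟨Z, []⟩, ⟨W, []⟩] ++
  [a, c, d, e, f].map (fun x => ⟨Z, [terminal x, nonterminal Z]⟩) ++
  [c, d, e, f].map (fun x => ⟨W, [terminal x, nonterminal Z]⟩) ++
  [c, d, e, f].map (fun y => ⟨E y, [terminal a, nonterminal (E y), terminal a]⟩) ++
  [c, d, e, f].map (fun y => ⟨E y, [terminal y]⟩) ++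
  [(c, c), (c, f), (d, c), (d, f)].map (fun p =>
    ⟨S, [nonterminal Z, terminal p.1, nonterminal (E p.2), terminal a, terminal a,
      nonterminal B, nonterminal W]⟩) ++
  [(c, c), (c, f), (d, c), (d, f)].map (fun p =>
    ⟨S, [nonterminal Z, terminal p.1, nonterminal B, nonterminal (E p.2), nonterminal W]⟩) ++
  [(e, d), (e, e), (f, d), (f, e)].map (fun p =>
    ⟨S, [nonterminal Z, terminal p.1, terminal a, terminal a, nonterminal B,
      nonterminal (E p.2), nonterminal W]⟩) ++
  [(e, d), (e, e), (f, d), (f, e)].map (fun p =>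
    ⟨S, [nonterminal Z, terminal p.1, nonterminal (E p.2), nonterminal B, nonterminal W]⟩)

def G : ContextFreeGrammar Lt where
  NT := NT
  initial := S
  rules := rulesList.toFinset

def sem : NT → List Lt → Prop
  | S, w => Err w ∨ Good w
  | T, w => Good w
  | B, w => ∃ n, w = rep n
  | Z, _ => True
  | W, w => NA w
  | E y, w => ∃ i, w = rep i ++ y :: rep i

lemma upPair (x y : Lt) : (x, y) ∈ [(c, c), (c, f), (d, c), (d, f)] ↔ Up x y := by
  cases x <;> cases y <;> simp [Up]

lemma dnPair (x y : Lt) : (x, y) ∈ [(e, d), (e, e), (f, d), (f, e)] ↔ Dn x y := by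
  cases x <;> cases y <;> simp [Dn]

lemma sem_sound' (r : ContextFreeRule Lt NT) (hr' : r ∈ rulesList) (u : List Lt)
    (hu : semL sem r.output u) : sem r.input u := by
  simp only [rulesList, List.mem_append, List.mem_map] at hr'
  rcases hr' with (((((((hr' | ⟨x, hx, rfl⟩) | ⟨x, hx, rfl⟩) | ⟨y, hy, rfl⟩) | ⟨y, hy, rfl⟩) |
    ⟨p, hp, rfl⟩) | ⟨p, hp, rfl⟩) | ⟨p, hp, rfl⟩) | ⟨p, hp, rfl⟩
  · simp only [List.mem_cons, List.not_mem_nil, or_false] at hr'
    rcases hr' with rfl | rfl | rfl | rfl | rfl | rfl | rfl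
    · obtain ⟨u1, v1, rfl, h1, rfl⟩ := hu
      simp only [List.append_nil]
      exact Or.inr h1
    · obtain ⟨w1, rfl, u2, w2, rfl, ⟨i, rfl⟩, u3, w3, rfl, ⟨t1, rfl⟩, w4, rfl, u5, w5, rfl,
        ⟨j, rfl⟩, u6, w6, rfl, ⟨t2, rfl⟩, w7, rfl, u8, w8, rfl, ⟨m, rfl⟩, rfl⟩ := hu
      refine ⟨Tree.node i t1 j t2 m, ?_⟩
      simp [tw]
    · obtain ⟨w1, rfl, u2, w2, rfl, ⟨i, rfl⟩, rfl⟩ := hu
      exact ⟨Tree.leaf i, by simp [tw]⟩
    · obtain rfl := hu
      exact ⟨0, rfl⟩
    · obtain ⟨w1, rfl, u2, w2, rfl, ⟨i, rfl⟩, rfl⟩ := hu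
      exact ⟨i + 1, by rw [List.append_nil, a_rep]⟩
    · trivial
    · obtain rfl := hu
      intro y w' h; cases h
  · trivial
  · obtain ⟨w1, rfl, _⟩ := hu
    intro y w' h
    injection h with h1 h2
    subst h1
    intro h3
    subst h3
    simp at hx
  · obtain ⟨w1, rfl, u2, w2, rfl, ⟨i, rfl⟩, w3, rfl, rfl⟩ := hu
    refine ⟨i + 1, ?_⟩
    have : rep (i + 1) = rep i ++ [a] := by rw [← rep_add]; rfl
    calc a :: ((rep i ++ y :: rep i) ++ [a]) = (a :: rep i) ++ y :: (rep i ++ [a]) := by simp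
      _ = rep (i + 1) ++ y :: rep (i + 1) := by rw [a_rep, ← this]
  · obtain ⟨w1, rfl, rfl⟩ := hu
    exact ⟨0, rfl⟩
  · obtain ⟨x, y⟩ := p
    obtain ⟨u1, w1, rfl, _, w2, rfl, u3, w3, rfl, ⟨i, rfl⟩, w4, rfl, w5, rfl, u6, w6, rfl,
      ⟨k, rfl⟩, u7, w7, rfl, h7, rfl⟩ := hu
    refine Or.inl ⟨u1, x, i, y, i + 2 + k, u7, ?_, h7, Or.inl ⟨(upPair x y).mp hp, by omega⟩⟩
    have h8 : rep (i + 2 + k) = rep i ++ (a :: a :: rep k) := by
      rw [← rep_add, ← rep_add, List.append_assoc]; rfl
    rw [h8]; simp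
  · obtain ⟨x, y⟩ := p
    obtain ⟨u1, w1, rfl, _, w2, rfl, u3, w3, rfl, ⟨k, rfl⟩, u6, w6, rfl,
      ⟨i, rfl⟩, u7, w7, rfl, h7, rfl⟩ := hu
    refine Or.inl ⟨u1, x, k + i, y, i, u7, ?_, h7, Or.inl ⟨(upPair x y).mp hp, by omega⟩⟩
    rw [← rep_add]; simp
  · obtain ⟨x, y⟩ := p
    obtain ⟨u1, w1, rfl, _, w2, rfl, w4, rfl, w5, rfl, u3, w3, rfl, ⟨k, rfl⟩, u6, w6, rfl,
      ⟨i, rfl⟩, u7, w7, rfl, h7, rfl⟩ := hu
    refine Or.inl ⟨u1, x, k + i + 2, y, i, u7, ?_, h7, Or.inr ⟨(dnPair x y).mp hp, by omega⟩⟩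
    have h8 : rep (k + i + 2) = a :: a :: (rep k ++ rep i) := by
      rw [rep_add]; rfl
    rw [h8]; simp
  · obtain ⟨x, y⟩ := p
    obtain ⟨u1, w1, rfl, _, w2, rfl, u3, w3, rfl, ⟨i, rfl⟩, u6, w6, rfl,
      ⟨k, rfl⟩, u7, w7, rfl, h7, rfl⟩ := hu
    refine Or.inl ⟨u1, x, i, y, i + k, u7, ?_, h7, Or.inr ⟨(dnPair x y).mp hp, by omega⟩⟩
    rw [← rep_add]; simp

lemma sem_sound : ∀ r ∈ G.rules, ∀ u, semL sem r.output u → sem r.input u := by
  intro r hr u hu
  have hr1 : r ∈ rulesList.toFinset := hr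
  exact sem_sound' r (List.mem_toFinset.mp hr1) u hu

lemma consT (t : Lt) {s : List (Symbol Lt G.NT)} {w : List Lt} (h : GenL G s w) :
    GenL G (terminal t :: s) (t :: w) := GenL.term t s w h

lemma consN (X : NT) {s : List (Symbol Lt G.NT)} {u w : List Lt}
    (h1 : GenL G [nonterminal X] u) (h2 : GenL G s w) : GenL G (nonterminal X :: s) (u ++ w) :=
  h1.append h2

lemma ruleI (X : NT) (o : List (Symbol Lt NT)) (hm : (⟨X, o⟩ : ContextFreeRule Lt NT) ∈ rulesList)
    {u : List Lt} (h : GenL G o u) : GenL G [nonterminal X] u := by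
  have hm' : (⟨X, o⟩ : ContextFreeRule Lt NT) ∈ rulesList.toFinset := List.mem_toFinset.mpr hm
  exact GenL.rule (g := G) ⟨X, o⟩ hm' h

lemma genB (n : ℕ) : GenL G [nonterminal B] (rep n) := by
  induction n with
  | zero => exact ruleI B [] (by simp [rulesList]) GenL.nil
  | succ n ih =>
    exact ruleI B [terminal a, nonterminal B] (by simp [rulesList]) (consT a ih)

lemma genZ (w : List Lt) : GenL G [nonterminal Z] w := by
  induction w with
  | nil => exact ruleI Z [] (by simp [rulesList]) GenL.nil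
  | cons x w ih =>
    exact ruleI Z [terminal x, nonterminal Z] (by cases x <;> simp [rulesList]) (consT x ih)

lemma genW (w : List Lt) (hw : NA w) : GenL G [nonterminal W] w := by
  cases w with
  | nil => exact ruleI W [] (by simp [rulesList]) GenL.nil
  | cons x w =>
    have := hw x w rfl
    exact ruleI W [terminal x, nonterminal Z] (by cases x <;> simp [rulesList] at this ⊢)
      (consT x (genZ w))

lemma genE (y : Lt) (hy : y ≠ a) (i : ℕ) :
    GenL G [nonterminal (E y)] (rep i ++ y :: rep i) := by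
  induction i with
  | zero =>
    exact ruleI (E y) [terminal y] (by cases y <;> simp [rulesList] at hy ⊢) (consT y GenL.nil)
  | succ i ih =>
    have h1 : rep (i + 1) ++ y :: rep (i + 1) = a :: ((rep i ++ y :: rep i) ++ [a]) := by
      have : rep (i + 1) = rep i ++ [a] := by rw [← rep_add]; rfl
      conv_lhs => rw [← a_rep i]
      simp only [List.cons_append, List.append_assoc]
      rw [a_rep, this]
    rw [h1]
    exact ruleI (E y) [terminal a, nonterminal (E y), terminal a]
      (by cases y <;> simp [rulesList] at hy ⊢) (consT a (consN (E y) ih (consT a GenL.nil)))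

lemma genT (t : Tree) : GenL G [nonterminal T] (tw t) := by
  induction t with
  | leaf k =>
    have := ruleI T [terminal f, nonterminal B] (by simp [rulesList]) (consT f (genB k))
    exact this
  | node i l j r m ihl ihr =>
    have := ruleI T [terminal c, nonterminal B, nonterminal T, terminal d, nonterminal B,
      nonterminal T, terminal e, nonterminal B] (by simp [rulesList])
      (consT c (consN B (genB i) (consN T ihl (consT d (consN B (genB j) (consN T ihr
        (consT e (genB m))))))))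
    exact this

lemma up_ne {x y : Lt} (h : Up x y) : y ≠ a := by
  rcases h.2 with rfl | rfl <;> simp

lemma dn_ne {x y : Lt} (h : Dn x y) : y ≠ a := by
  rcases h.2 with rfl | rfl <;> simp

lemma genS {w : List Lt} (hw : Err w ∨ Good w) : GenL G [nonterminal S] w := by
  rcases hw with ⟨α, x, i, y, j, β, rfl, hβ, ⟨hxy, hij⟩ | ⟨hxy, hij⟩⟩ | ⟨t, rfl⟩
  · have hm := (upPair x y).mpr hxy
    have hy := up_ne hxy
    rcases Nat.lt_or_ge j (i + 1) with h | h
    · obtain ⟨k, rfl⟩ : ∃ k, i = k + j := ⟨i - j, by omega⟩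
      have := ruleI S [nonterminal Z, terminal x, nonterminal B, nonterminal (E y), nonterminal W]
        (by simp only [rulesList, List.mem_append, List.mem_map]
            exact Or.inl (Or.inl (Or.inr ⟨(x, y), hm, rfl⟩)))
        (consN Z (genZ α) (consT x (consN B (genB k) (consN (E y) (genE y hy j) (genW β hβ)))))
      rw [← rep_add]
      simpa using this
    · obtain ⟨k, rfl⟩ : ∃ k, j = i + 2 + k := ⟨j - i - 2, by omega⟩
      have := ruleI S [nonterminal Z, terminal x, nonterminal (E y), terminal a, terminal a,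
        nonterminal B, nonterminal W]
        (by simp only [rulesList, List.mem_append, List.mem_map]
            exact Or.inl (Or.inl (Or.inl (Or.inr ⟨(x, y), hm, rfl⟩))))
        (consN Z (genZ α) (consT x (consN (E y) (genE y hy i) (consT a (consT a
          (consN B (genB k) (genW β hβ)))))))
      have h8 : rep (i + 2 + k) = rep i ++ (a :: a :: rep k) := by
        rw [← rep_add, ← rep_add, List.append_assoc]; rfl
      rw [h8]
      simpa using this
  · have hm := (dnPair x y).mpr hxy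
    have hy := dn_ne hxy
    rcases Nat.lt_or_ge i (j + 1) with h | h
    · obtain ⟨k, rfl⟩ : ∃ k, j = i + k := ⟨j - i, by omega⟩
      have := ruleI S [nonterminal Z, terminal x, nonterminal (E y), nonterminal B, nonterminal W]
        (by simp only [rulesList, List.mem_append, List.mem_map]
            exact Or.inr ⟨(x, y), hm, rfl⟩)
        (consN Z (genZ α) (consT x (consN (E y) (genE y hy i) (consN B (genB k) (genW β hβ)))))
      rw [← rep_add]
      simpa using this
    · obtain ⟨k, rfl⟩ : ∃ k, i = k + j + 2 := ⟨i - j - 2, by omega⟩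
      have := ruleI S [nonterminal Z, terminal x, terminal a, terminal a, nonterminal B,
        nonterminal (E y), nonterminal W]
        (by simp only [rulesList, List.mem_append, List.mem_map]
            exact Or.inl (Or.inr ⟨(x, y), hm, rfl⟩))
        (consN Z (genZ α) (consT x (consT a (consT a (consN B (genB k)
          (consN (E y) (genE y hy j) (genW β hβ)))))))
      have h8 : rep (k + j + 2) = a :: a :: (rep k ++ rep j) := by
        rw [rep_add]; rfl
      rw [h8]
      simpa using this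
  · have := ruleI S [nonterminal T] (by simp [rulesList]) (genT t)
    exact this

theorem mem_iff (w : List Lt) : w ∈ G.language ↔ Err w ∨ Good w := by
  rw [CFG.mem_language_iff]
  constructor
  · intro h
    obtain ⟨u, v, rfl, h1, rfl⟩ := sound sem sem_sound h
    rw [List.append_nil]; exact h1
  · intro h; exact genS h

end Pool.Agent.H21.Rat
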