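import Pool.Agent.H21.RatUp

set_option autoImplicit false

namespace Pool.Agent.H21.Rat

open Lt

abbrev St := ℕ × ℕ × Bool

/-- transition relation of the level-checking automaton -/
def R (h : ℕ) (s : St) (x : Lt) (s' : St) : Prop :=
  match x with
  | a => s'.1 = s.1 ∧ s'.2.1 = s.2.1 + 1 ∧ s'.2.2 = s.2.2 ∧ s.2.1 < s.1
  | c => s.2.2 = true ∧ s.2.1 = s.1 ∧ s'.1 = s.1 + 1 ∧ s'.2.1 = 0 ∧ s'.2.2 = true ∧ s.1 + 1 < h
  | f => s.2.2 = true ∧ s.2.1 = s.1 ∧ s'.1 = s.1 + 1 ∧ s'.2.1 = 0 ∧ s'.2.2 = false ∧ s.1 + 1 = h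
  | d => s.2.2 = false ∧ s.2.1 = s.1 ∧ s.1 = s'.1 + 1 ∧ s'.2.1 = 0 ∧ s'.2.2 = true ∧ 1 ≤ s'.1
  | e => s.2.2 = false ∧ s.2.1 = s.1 ∧ s.1 = s'.1 + 1 ∧ s'.2.1 = 0 ∧ s'.2.2 = false ∧ 1 ≤ s'.1

def NI (h : ℕ) : NFA Lt St where
  step s x := {s' | R h s x s'}
  start := {(0, 0, true)}
  accept := {(1, 1, false)}

abbrev FSt (h : ℕ) := Fin (h + 1) × Fin (h + 1) × Bool

def val {h : ℕ} (s : FSt h) : St := (s.1, s.2.1, s.2.2)

def NF (h : ℕ) : NFA Lt (FSt h) where
  step s x := {s' | R h (val s) x (val s')}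
  start := {s | val s = (0, 0, true)}
  accept := {s | val s = (1, 1, false)}

lemma path_val {h : ℕ} {s s' : FSt h} {w : List Lt} (hp : Path (NF h) s w s') :
    Path (NI h) (val s) w (val s') := by
  induction hp with
  | nil s => exact Path.nil _
  | cons s x t w u h1 h2 ih => exact Path.cons _ _ _ _ _ h1 ih

lemma path_lift {h : ℕ} {s s' : St} {w : List Lt} (hp : Path (NI h) s w s') :
    ∀ t : FSt h, val t = s → ∃ t' : FSt h, val t' = s' ∧ Path (NF h) t w t' := by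
  induction hp with
  | nil s => intro t ht; exact ⟨t, ht, Path.nil _⟩
  | cons s x s1 w u h1 h2 ih =>
    intro t ht
    have hb : s1.1 ≤ h ∧ s1.2.1 ≤ h := by
      have h3 : R h s x s1 := h1
      have h4 : s.1 ≤ h := by rw [← ht]; exact Nat.lt_succ_iff.mp t.1.2
      cases x <;> simp only [R] at h3 <;> omega
    obtain ⟨t', e1, e2⟩ := ih (⟨s1.1, by omega⟩, ⟨s1.2.1, by omega⟩, s1.2.2) rfl
    refine ⟨t', e1, Path.cons t x _ w t' ?_ e2⟩
    show R h (val t) x _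
    rw [ht]; exact h1

lemma path_rep {h : ℕ} (i : ℕ) : ∀ {s s' : St}, Path (NI h) s (rep i) s' →
    s'.1 = s.1 ∧ s'.2.1 = s.2.1 + i ∧ s'.2.2 = s.2.2 := by
  induction i with
  | zero => intro s s' hp; cases hp; simp
  | succ i ih =>
    intro s s' hp
    obtain ⟨r, h1, h2⟩ := path_cons.mp (show Path (NI h) s (a :: rep i) s' from hp)
    have h3 : R h s a r := h1
    simp only [R] at h3
    obtain ⟨e1, e2, e3⟩ := ih h2
    refine ⟨by omega, by omega, by rw [e3]; exact h3.2.2.1⟩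

lemma rep_path {h : ℕ} (i : ℕ) : ∀ (l o : ℕ) (b : Bool), o + i ≤ l →
    Path (NI h) (l, o, b) (rep i) (l, o + i, b) := by
  induction i with
  | zero => intro l o b _; exact Path.nil _
  | succ i ih =>
    intro l o b hle
    have h1 := ih l (o + 1) b (by omega)
    have e1 : o + 1 + i = o + (i + 1) := by omega
    rw [e1] at h1
    exact Path.cons (l, o, b) a (l, o + 1, b) (rep i) _ ⟨rfl, rfl, rfl, by
      show o < l
      omega⟩ h1

lemma no_err {h : ℕ} (w : List Lt) (hE : Err w) : w ∉ (NI h).accepts := by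
  intro hacc
  obtain ⟨α, x, i, y, j, β, rfl, hβ, hmis⟩ := hE
  obtain ⟨p0, hp0, q, hq, hpath⟩ := (mem_accepts_iff _ _).mp hacc
  obtain ⟨p1, hα, hpath⟩ := path_append.mp hpath
  obtain ⟨p2, hx, hpath⟩ := path_cons.mp hpath
  obtain ⟨p3, hi, hpath⟩ := path_append.mp hpath
  obtain ⟨p4, hy, hpath⟩ := path_cons.mp hpath
  obtain ⟨p5, hj, hpath⟩ := path_append.mp hpath
  have hx' : R h p1 x p2 := hx
  have hy' : R h p3 y p4 := hy
  obtain ⟨i1, i2, i3⟩ := path_rep i hi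
  obtain ⟨j1, j2, j3⟩ := path_rep j hj
  have hyne : y ≠ a := by
    rcases hmis with ⟨h1, _⟩ | ⟨h1, _⟩
    · exact up_ne h1
    · exact dn_ne h1
  have hxne : x ≠ a := by
    rcases hmis with ⟨⟨h1 | h1, _⟩, _⟩ | ⟨⟨h1 | h1, _⟩, _⟩ <;> rw [h1] <;> simp
  have h2 : p2.2.1 = 0 := by
    cases x <;> simp only [R] at hx' <;> first | exact absurd rfl hxne | omega
  have h3 : p3.2.1 = p3.1 := by
    cases y <;> simp only [R] at hy' <;> first | exact absurd rfl hyne | omega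
  have h4 : p4.2.1 = 0 := by
    cases y <;> simp only [R] at hy' <;> first | exact absurd rfl hyne | omega
  have h5 : p5.2.1 = p5.1 := by
    cases β with
    | nil =>
      have h6 : p5 = q := by cases hpath; rfl
      have h7 : q = (1, 1, false) := hq
      rw [h6, h7]
    | cons z β =>
      obtain ⟨p6, hz, _⟩ := path_cons.mp hpath
      have hz' : R h p5 z p6 := hz
      have hzne := hβ z β rfl
      cases z <;> simp only [R] at hz' <;> first | exact absurd rfl hzne | omega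
  rcases hmis with ⟨⟨_, h6 | h6⟩, h7⟩ | ⟨⟨_, h6 | h6⟩, h7⟩ <;> subst h6 <;>
    simp only [R] at hy' <;> omega

lemma tree_long {h : ℕ} (t : Tree) : ∀ {s s' : St}, Path (NI h) s (tw t) s' →
    s.2.2 = true ∧ s.2.1 = s.1 ∧ s.1 < h ∧ s'.1 = s.1 + 1 ∧ s'.2.2 = false ∧
      2 ^ (h - s.1 - 1) ≤ (tw t).length := by
  induction t with
  | leaf k =>
    intro s s' hp
    obtain ⟨p1, h1, h2⟩ := path_cons.mp hp
    have h1' : R h s f p1 := h1
    simp only [R] at h1'
    obtain ⟨e1, e2, e3⟩ := path_rep k h2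
    obtain ⟨g1, g2, g3, g4, g5, g6⟩ := h1'
    refine ⟨g1, g2, by omega, by omega, by rw [e3]; exact g5, ?_⟩
    have : h - s.1 - 1 = 0 := by omega
    rw [this]
    simp [tw]
  | node i l j r m ihl ihr =>
    intro s s' hp
    obtain ⟨p1, h1, hp⟩ := path_cons.mp hp
    obtain ⟨p2, h2, hp⟩ := path_append.mp hp
    obtain ⟨p3, h3, hp⟩ := path_append.mp hp
    obtain ⟨p4, h4, hp⟩ := path_cons.mp hp
    obtain ⟨p5, h5, hp⟩ := path_append.mp hp
    obtain ⟨p6, h6, hp⟩ := path_append.mp hp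
    obtain ⟨p7, h7, hp⟩ := path_cons.mp hp
    have h1' : R h s c p1 := h1
    have h4' : R h p3 d p4 := h4
    have h7' : R h p6 e p7 := h7
    simp only [R] at h1' h4' h7'
    obtain ⟨a1, a2, a3⟩ := path_rep i h2
    obtain ⟨b1, b2, b3, b4, b5, b6⟩ := ihl h3
    obtain ⟨c1, c2, c3⟩ := path_rep j h5
    obtain ⟨d1, d2, d3, d4, d5, d6⟩ := ihr h6
    obtain ⟨f1, f2, f3⟩ := path_rep m hp
    obtain ⟨g1, g2, g3, g4, g5, g6⟩ := h1'
    obtain ⟨k1, k2, k3, k4, k5, k6⟩ := h4'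
    obtain ⟨n1, n2, n3, n4, n5, n6⟩ := h7'
    refine ⟨g1, g2, by omega, by omega, by rw [f3]; exact n5, ?_⟩
    have e1 : h - s.1 - 1 = (h - p2.1 - 1) + 1 := by omega
    have e2 : h - p5.1 - 1 = h - p2.1 - 1 := by omega
    rw [e2] at d6
    rw [e1, pow_succ]
    simp only [tw, List.length_cons, List.length_append, rep_length]
    omega

def ct : ℕ → ℕ → Tree
  | 0, l => .leaf l
  | (n + 1), l => .node l (ct n (l + 1)) l (ct n (l + 1)) l

lemma ct_path {h : ℕ} (n : ℕ) : ∀ l : ℕ, n + (l + 1) = h →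
    Path (NI h) (l, l, true) (tw (ct n (l + 1))) (l + 1, l + 1, false) := by
  induction n with
  | zero =>
    intro l hl
    have := rep_path (h := h) (l + 1) (l + 1) 0 false (by omega)
    rw [Nat.zero_add] at this
    exact Path.cons (l, l, true) f (l + 1, 0, false) (rep (l + 1)) _
      ⟨rfl, rfl, rfl, rfl, rfl, by show l + 1 = h; omega⟩ this
  | succ n ih =>
    intro l hl
    have ih' := ih (l + 1) (by omega)
    have r1 := rep_path (h := h) (l + 1) (l + 1) 0 true (by omega)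
    have r2 := rep_path (h := h) (l + 1) (l + 1) 0 false (by omega)
    rw [Nat.zero_add] at r1 r2
    show Path (NI h) (l, l, true) (c :: (rep (l + 1) ++ (tw (ct n (l + 1 + 1)) ++
      d :: (rep (l + 1) ++ (tw (ct n (l + 1 + 1)) ++ e :: rep (l + 1)))))) _
    refine path_cons.mpr ⟨(l + 1, 0, true), ⟨rfl, rfl, rfl, rfl, rfl, by
      show l + 1 < h; omega⟩, path_append.mpr ⟨_, r1, path_append.mpr ⟨_, ih', path_cons.mpr
        ⟨(l + 1, 0, true), ⟨rfl, rfl, rfl, rfl, rfl, by show 1 ≤ l + 1; omega⟩,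
          path_append.mpr ⟨_, r1, path_append.mpr ⟨_, ih', path_cons.mpr
            ⟨(l + 1, 0, false), ⟨rfl, rfl, rfl, rfl, rfl, by show 1 ≤ l + 1; omega⟩, r2⟩⟩⟩⟩⟩⟩⟩

/-- for `h ≥ 1` the automaton with `2 (h+1)^2` states accepts a word of the language, and all
such words have length at least `2 ^ (h - 1)` -/
theorem low (h : ℕ) (hh : 1 ≤ h) :
    (∃ w, (Err w ∨ Good w) ∧ w ∈ (NF h).accepts) ∧
    ∀ w, (Err w ∨ Good w) → w ∈ (NF h).accepts → 2 ^ (h - 1) ≤ w.length := by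
  have hsub : ∀ w, w ∈ (NF h).accepts → w ∈ (NI h).accepts := by
    intro w hw
    obtain ⟨p, hp, q, hq, hpath⟩ := (mem_accepts_iff _ _).mp hw
    exact (mem_accepts_iff _ _).mpr ⟨val p, hp, val q, hq, path_val hpath⟩
  constructor
  · refine ⟨tw (ct (h - 1) 1), Or.inr ⟨_, rfl⟩, ?_⟩
    have h1 := ct_path (h := h) (h - 1) 0 (by omega)
    obtain ⟨t', ht', hp⟩ := path_lift h1 (⟨0, by omega⟩, ⟨0, by omega⟩, true) rfl
    exact (mem_accepts_iff _ _).mpr ⟨_, rfl, t', ht', hp⟩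
  · intro w hw hacc
    have hacc' := hsub w hacc
    rcases hw with hw | ⟨t, rfl⟩
    · exact absurd hacc' (no_err w hw)
    · obtain ⟨p, hp, q, hq, hpath⟩ := (mem_accepts_iff _ _).mp hacc'
      obtain ⟨_, _, _, _, _, h6⟩ := tree_long t hpath
      have : p = (0, 0, true) := hp
      rw [this] at h6
      simpa using h6

end Pool.Agent.H21.Rat
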