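import Pool.Agent.H21.RatLang

set_option autoImplicit false

namespace Pool.Agent.H21.Rat

open Lt

section paths

variable {α σ : Type*}

inductive Path (M : NFA α σ) : σ → List α → σ → Prop
  | nil (s : σ) : Path M s [] s
  | cons (s : σ) (x : α) (t : σ) (w : List α) (u : σ) (h : t ∈ M.step s x) (h' : Path M t w u) :
      Path M s (x :: w) u

theorem mem_evalFrom (M : NFA α σ) (w : List α) : ∀ (S : Set σ) (q : σ),
    q ∈ M.evalFrom S w ↔ ∃ p ∈ S, Path M p w q := by
  induction w with
  | nil =>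
    intro S q
    constructor
    · intro h; exact ⟨q, h, Path.nil q⟩
    · rintro ⟨p, hp, h⟩; cases h; exact hp
  | cons x w ih =>
    intro S q
    have : M.evalFrom S (x :: w) = M.evalFrom (M.stepSet S x) w := rfl
    rw [this, ih]
    constructor
    · rintro ⟨p, hp, h⟩
      rw [NFA.mem_stepSet] at hp
      obtain ⟨t, ht, htp⟩ := hp
      exact ⟨t, ht, Path.cons t x p w q htp h⟩
    · rintro ⟨p, hp, h⟩
      cases h with
      | cons s x t w u h1 h2 =>
        exact ⟨t, by rw [NFA.mem_stepSet]; exact ⟨p, hp, h1⟩, h2⟩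

theorem mem_accepts_iff (M : NFA α σ) (w : List α) :
    w ∈ M.accepts ↔ ∃ p ∈ M.start, ∃ q ∈ M.accept, Path M p w q := by
  constructor
  · rintro ⟨q, hq, h⟩
    obtain ⟨p, hp, h⟩ := (mem_evalFrom M w _ _).mp h
    exact ⟨p, hp, q, hq, h⟩
  · rintro ⟨p, hp, q, hq, h⟩
    exact ⟨q, hq, (mem_evalFrom M w _ _).mpr ⟨p, hp, h⟩⟩

theorem path_append {M : NFA α σ} {u v : List α} : ∀ {p q : σ}, Path M p (u ++ v) q ↔
    ∃ r, Path M p u r ∧ Path M r v q := by
  induction u with
  | nil =>
    intro p q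
    constructor
    · intro h; exact ⟨p, Path.nil p, h⟩
    · rintro ⟨r, h1, h2⟩; cases h1; exact h2
  | cons x u ih =>
    intro p q
    constructor
    · intro h
      cases h with
      | cons s x t w u' h1 h2 =>
        obtain ⟨r, h3, h4⟩ := ih.mp h2
        exact ⟨r, Path.cons _ _ _ _ _ h1 h3, h4⟩
    · rintro ⟨r, h1, h2⟩
      cases h1 with
      | cons s x t w u' h1 h3 =>
        exact Path.cons _ _ _ _ _ h1 (ih.mpr ⟨r, h3, h2⟩)

theorem path_cons {M : NFA α σ} {x : α} {u : List α} {p q : σ} : Path M p (x :: u) q ↔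
    ∃ r, r ∈ M.step p x ∧ Path M r u q := by
  constructor
  · intro h
    cases h with
    | cons s x t w u' h1 h2 => exact ⟨t, h1, h2⟩
  · rintro ⟨r, h1, h2⟩; exact Path.cons _ _ _ _ _ h1 h2

theorem cut_path [Fintype σ] {M : NFA α σ} {w : List α} {p q : σ} (h : Path M p w q)
    (hw : Fintype.card σ ≤ w.length) :
    ∃ u1 u2 u3, w = u1 ++ u2 ++ u3 ∧ u2 ≠ [] ∧ u2.length ≤ Fintype.card σ ∧
      Path M p (u1 ++ u3) q := by
  classical
  have h1 : ∀ i : ℕ, ∃ r, Path M p (w.take i) r ∧ Path M r (w.drop i) q := by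
    intro i
    apply path_append.mp
    rwa [List.take_append_drop]
  choose g hg1 hg2 using h1
  obtain ⟨i, j, hij, he⟩ := Fintype.exists_ne_map_eq_of_card_lt
    (fun i : Fin (Fintype.card σ + 1) => g i) (by simp)
  wlog hlt : i < j generalizing i j with H
  · exact H j i hij.symm he.symm (lt_of_le_of_ne (not_lt.mp hlt) hij.symm)
  have hi := i.2
  have hj := j.2
  have hlt' : (i : ℕ) < j := hlt
  refine ⟨w.take i, (w.take j).drop i, w.drop j, ?_, ?_, ?_, ?_⟩
  · have h2 : w.take i = (w.take j).take i := by rw [List.take_take, min_eq_left hlt'.le]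
    rw [h2, List.take_append_drop, List.take_append_drop]
  · intro h0
    have := congrArg List.length h0
    simp only [List.length_drop, List.length_take, List.length_nil] at this
    omega
  · simp only [List.length_drop, List.length_take]
    omega
  · apply path_append.mpr
    refine ⟨g i, hg1 i, ?_⟩
    have he' : g i = g j := he
    rw [he']; exact hg2 j

end paths

theorem cut_rep {σ : Type*} [Fintype σ] {M : NFA Lt σ} {i : ℕ} {p q : σ}
    (h : Path M p (rep i) q) (hi : Fintype.card σ ≤ i) :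
    ∃ δ, 1 ≤ δ ∧ δ ≤ Fintype.card σ ∧ δ ≤ i ∧ Path M p (rep (i - δ)) q := by
  obtain ⟨u1, u2, u3, h1, h2, h3, h4⟩ := cut_path h (by rw [rep_length]; exact hi)
  have hlen := congrArg List.length h1
  simp only [rep_length, List.length_append] at hlen
  have hu2 : 0 < u2.length := List.length_pos_of_ne_nil h2
  refine ⟨u2.length, hu2, h3, by omega, ?_⟩
  have h5 : u1 ++ u3 = rep (i - u2.length) := by
    unfold rep
    rw [List.eq_replicate_iff]
    refine ⟨by simp only [List.length_append]; omega, ?_⟩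
    intro b hb
    have hb' : b ∈ rep i := by
      rw [h1]
      simp only [List.mem_append] at hb ⊢
      tauto
    exact List.eq_of_mem_replicate hb'
  rw [← h5]; exact h4

def Mis (x y : Lt) (i j : ℕ) : Prop := (Up x y ∧ j ≠ i + 1) ∨ (Dn x y ∧ i ≠ j + 1)

theorem mis_form {x y : Lt} {i j : ℕ} (h : Mis x y i j) : ∃ s t, s ≤ 1 ∧ t ≤ 1 ∧ i + s ≠ j + t ∧
    ∀ i' j', i' + s ≠ j' + t → Mis x y i' j' := by
  rcases h with ⟨h1, h2⟩ | ⟨h1, h2⟩
  · exact ⟨1, 0, by omega, by omega, by omega, fun i' j' h => Or.inl ⟨h1, by omega⟩⟩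
  · exact ⟨0, 1, by omega, by omega, by omega, fun i' j' h => Or.inr ⟨h1, by omega⟩⟩

/-- short accepted mismatch word -/
theorem short_err {σ : Type*} [Fintype σ] (M : NFA Lt σ)
    (h : ∃ w, Err w ∧ w ∈ M.accepts) :
    ∃ w, Err w ∧ w ∈ M.accepts ∧ w.length ≤ 6 * Fintype.card σ + 3 := by
  classical
  have hex : ∃ n : ℕ, ∃ w, Err w ∧ w ∈ M.accepts ∧ w.length = n := by
    obtain ⟨w, h1, h2⟩ := h
    exact ⟨_, w, h1, h2, rfl⟩
  obtain ⟨w, hE, hacc, hn⟩ := Nat.find_spec hex
  have hmin : ∀ w', Err w' → w' ∈ M.accepts → w.length ≤ w'.length := by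
    intro w' h1 h2
    rw [hn]; exact Nat.find_min' hex ⟨w', h1, h2, rfl⟩
  refine ⟨w, hE, hacc, ?_⟩
  obtain ⟨α, x, i, y, j, β, rfl, hβ, hmis⟩ := hE
  obtain ⟨p0, hp0, q, hq, hpath⟩ := (mem_accepts_iff M _).mp hacc
  obtain ⟨p1, hα, hpath⟩ := path_append.mp hpath
  obtain ⟨p2, hx, hpath⟩ := path_cons.mp hpath
  obtain ⟨p3, hi, hpath⟩ := path_append.mp hpath
  obtain ⟨p4, hy, hpath⟩ := path_cons.mp hpath
  obtain ⟨p5, hj, hpath⟩ := path_append.mp hpath
  have hcard : 1 ≤ Fintype.card σ := Fintype.card_pos_iff.mpr ⟨p0⟩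
  set n := Fintype.card σ with hndef
  have mk : ∀ (α' : List Lt) (i' j' : ℕ) (β' : List Lt), Path M p0 α' p1 →
      Path M p2 (rep i') p3 → Path M p4 (rep j') p5 → Path M p5 β' q → NA β' → Mis x y i' j' →
      α.length + i + j + β.length ≤ α'.length + i' + j' + β'.length := by
    intro α' i' j' β' h1 h2 h3 h4 h5 h6
    have := hmin (α' ++ x :: (rep i' ++ y :: (rep j' ++ β'))) ⟨α', x, i', y, j', β', rfl, h5, h6⟩
      ((mem_accepts_iff M _).mpr ⟨p0, hp0, q, hq, path_append.mpr ⟨p1, h1, path_cons.mpr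
        ⟨p2, hx, path_append.mpr ⟨p3, h2, path_cons.mpr ⟨p4, hy, path_append.mpr
          ⟨p5, h3, h4⟩⟩⟩⟩⟩⟩)
    simp only [List.length_append, List.length_cons, rep_length] at this
    omega
  have hmis' : Mis x y i j := hmis
  have hαl : α.length < n := by
    by_contra hcon
    obtain ⟨u1, u2, u3, h1, h2, h3, h4⟩ := cut_path hα (by omega)
    have := mk (u1 ++ u3) i j β h4 hi hj hpath hβ hmis'
    have hu2 : 0 < u2.length := List.length_pos_of_ne_nil h2
    have hlen := congrArg List.length h1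
    simp only [List.length_append] at hlen this
    omega
  have hβl : β.length ≤ n := by
    by_contra hcon
    cases β with
    | nil => simp at hcon
    | cons z β =>
      obtain ⟨p6, hz, hpath'⟩ := path_cons.mp hpath
      rw [List.length_cons] at hcon
      obtain ⟨u1, u2, u3, h1, h2, h3, h4⟩ := cut_path hpath' (by omega)
      have := mk α i j (z :: (u1 ++ u3)) hα hi hj (path_cons.mpr ⟨p6, hz, h4⟩)
        (by intro y' w' h; injection h with h5 h6; subst h5; exact hβ _ _ rfl) hmis'
      have hu2 : 0 < u2.length := List.length_pos_of_ne_nil h2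
      have hlen := congrArg List.length h1
      simp only [List.length_append, List.length_cons] at hlen this
      omega
  obtain ⟨s, t, hs, ht, hne, hall⟩ := mis_form hmis'
  have hij : i + j ≤ 3 * n := by
    rcases Nat.lt_or_gt_of_ne hne with hlt | hgt
    · have h1 : i < n := by
        by_contra hcon
        obtain ⟨δ, g1, g2, g3, g4⟩ := cut_rep hi (by omega)
        have := mk α (i - δ) j β hα g4 hj hpath hβ (hall _ _ (by omega))
        omega
      have h2 : j ≤ 2 * n := by
        by_contra hcon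
        obtain ⟨δ, g1, g2, g3, g4⟩ := cut_rep hj (by omega)
        have := mk α i (j - δ) β hα hi g4 hpath hβ (hall _ _ (by omega))
        omega
      omega
    · have h1 : j < n := by
        by_contra hcon
        obtain ⟨δ, g1, g2, g3, g4⟩ := cut_rep hj (by omega)
        have := mk α i (j - δ) β hα hi g4 hpath hβ (hall _ _ (by omega))
        omega
      have h2 : i ≤ 2 * n := by
        by_contra hcon
        obtain ⟨δ, g1, g2, g3, g4⟩ := cut_rep hi (by omega)
        have := mk α (i - δ) j β hα g4 hj hpath hβ (hall _ _ (by omega))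
        omega
      omega
  simp only [List.length_append, List.length_cons, rep_length]
  omega

def lev : Tree → ℕ
  | .leaf k => k
  | .node i _ _ _ _ => i

def depth : Tree → ℕ
  | .leaf _ => 0
  | .node _ l _ r _ => max (depth l) (depth r) + 1

def Cons : Tree → Prop
  | .leaf _ => True
  | .node i l j r m => lev l = i + 1 ∧ lev r = i + 1 ∧ j = i ∧ m = i ∧ Cons l ∧ Cons r

lemma NA_cons {y : Lt} (hy : y ≠ a) (w : List Lt) : NA (y :: w) := by
  intro z w' h; injection h with h1 h2; subst h1; exact hy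

lemma NA_append {u v : List Lt} (hu : NA u) (hv : NA v) : NA (u ++ v) := by
  cases u with
  | nil => exact hv
  | cons y u => exact NA_cons (hu y u rfl) _

/-- first token of a tree word -/
lemma tw_head (t : Tree) : ∃ (y : Lt) (rest : List Lt), tw t = y :: (rep (lev t) ++ rest) ∧
    (y = c ∨ y = f) ∧ NA rest := by
  cases t with
  | leaf k => exact ⟨f, [], by simp [tw, lev], Or.inr rfl, by intro y w h; cases h⟩
  | node i l j r m =>
    refine ⟨c, tw l ++ d :: (rep j ++ (tw r ++ e :: rep m)), by simp [tw, lev], Or.inl rfl, ?_⟩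
    have : NA (tw l) := by cases l <;> exact NA_cons (by simp) _
    exact NA_append this (NA_cons (by simp) _)

lemma tw_last (t : Tree) (h : Cons t) : ∃ (pre : List Lt) (z : Lt),
    tw t = pre ++ z :: rep (lev t) ∧ (z = e ∨ z = f) := by
  cases t with
  | leaf k => exact ⟨[], f, by simp [tw, lev], Or.inr rfl⟩
  | node i l j r m =>
    obtain ⟨_, _, _, hm, _, _⟩ := h
    refine ⟨c :: (rep i ++ (tw l ++ d :: (rep j ++ tw r))), e, ?_, Or.inl rfl⟩
    simp [tw, lev, hm]

theorem cons_of_not_err (t : Tree) : ∀ (U V : List Lt), NA V → ¬ Err (U ++ (tw t ++ V)) →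
    Cons t := by
  induction t with
  | leaf k => intro _ _ _ _; trivial
  | node i l j r m ihl ihr =>
    intro U V hV hE
    obtain ⟨y1, rest1, e1, hy1, hr1⟩ := tw_head l
    obtain ⟨y2, rest2, e2, hy2, hr2⟩ := tw_head r
    have hd : ∀ w, NA (d :: w) := NA_cons (by simp)
    have he : ∀ w, NA (e :: w) := NA_cons (by simp)
    have hl1 : lev l = i + 1 := by
      by_contra hne
      apply hE
      refine ⟨U, c, i, y1, lev l, rest1 ++ (d :: (rep j ++ (tw r ++ e :: rep m))) ++ V, ?_, ?_,
        Or.inl ⟨⟨Or.inl rfl, hy1⟩, hne⟩⟩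
      · simp [tw, e1]
      · exact NA_append (NA_append hr1 (hd _)) hV
    have hcl : Cons l := by
      apply ihl (U ++ c :: rep i) (d :: (rep j ++ (tw r ++ e :: rep m)) ++ V)
        (NA_append (hd _) hV)
      intro h; apply hE
      convert h using 1
      simp [tw]
    obtain ⟨pre1, z1, e3, hz1⟩ := tw_last l hcl
    have hj : j = i := by
      by_contra hne
      apply hE
      refine ⟨U ++ c :: (rep i ++ pre1), z1, lev l, d, j, (tw r ++ e :: rep m) ++ V, ?_, ?_,
        Or.inr ⟨⟨hz1, Or.inl rfl⟩, by omega⟩⟩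
      · simp [tw, e3]
      · refine NA_append ?_ hV
        rw [e2]; exact NA_cons (by rcases hy2 with rfl | rfl <;> simp) _
    have hr3 : lev r = i + 1 := by
      by_contra hne
      apply hE
      refine ⟨U ++ c :: (rep i ++ tw l), d, j, y2, lev r, rest2 ++ (e :: rep m) ++ V, ?_, ?_,
        Or.inl ⟨⟨Or.inr rfl, hy2⟩, by omega⟩⟩
      · simp [tw, e2]
      · exact NA_append (NA_append hr2 (he _)) hV
    have hcr : Cons r := by
      apply ihr (U ++ c :: (rep i ++ (tw l ++ d :: rep j))) (e :: rep m ++ V)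
        (NA_append (he _) hV)
      intro h; apply hE
      convert h using 1
      simp [tw]
    obtain ⟨pre2, z2, e4, hz2⟩ := tw_last r hcr
    have hm : m = i := by
      by_contra hne
      apply hE
      refine ⟨U ++ c :: (rep i ++ (tw l ++ d :: (rep j ++ pre2))), z2, lev r, e, m, V, ?_, hV,
        Or.inr ⟨⟨hz2, Or.inr rfl⟩, by omega⟩⟩
      simp [tw, e4]
    exact ⟨hl1, hr3, hj, hm, hcl, hcr⟩

def Occ (w : List Lt) (k : ℕ) : Prop := ∃ (P : List Lt) (x y : Lt) (Q : List Lt),
  (x = c ∨ x = d) ∧ (y = c ∨ y = f) ∧ NA Q ∧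
  w = P ++ x :: (rep k ++ c :: (rep (k + 1) ++ y :: (rep (k + 2) ++ Q)))

theorem spine (t : Tree) : ∀ (U V : List Lt) (x : Lt) (k : ℕ), Cons t → NA V → (x = c ∨ x = d) →
    lev t = k + 1 → ∀ s < depth t, Occ (U ++ x :: (rep k ++ (tw t ++ V))) (k + s) := by
  induction t with
  | leaf k => intro _ _ _ _ _ _ _ _ s hs; exact absurd hs (Nat.not_lt_zero s)
  | node i l j r m ihl ihr =>
    intro U V x k hC hV hx hlev s hs
    obtain ⟨h1, h2, h3, h4, h5, h6⟩ := hC
    have hi : i = k + 1 := hlev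
    have hd : ∀ w, NA (d :: w) := NA_cons (by simp)
    have he : ∀ w, NA (e :: w) := NA_cons (by simp)
    cases s with
    | zero =>
      obtain ⟨y1, rest1, e1, hy1, hr1⟩ := tw_head l
      refine ⟨U, x, y1, rest1 ++ (d :: (rep j ++ (tw r ++ e :: rep m))) ++ V, hx, hy1,
        NA_append (NA_append hr1 (hd _)) hV, ?_⟩
      rw [h1] at e1
      subst hi
      simp [tw, e1]
    | succ s =>
      have hs' : s < depth l ∨ s < depth r := by
        simp only [depth] at hs
        rw [← lt_max_iff]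
        omega
      rcases hs' with hs' | hs'
      · have := ihl (U ++ x :: rep k) (d :: (rep j ++ (tw r ++ e :: rep m)) ++ V) c i h5
          (NA_append (hd _) hV) (Or.inl rfl) h1 s hs'
        have e5 : k + (s + 1) = i + s := by omega
        rw [e5]
        convert this using 1
        simp [tw]
      · have := ihr (U ++ x :: (rep k ++ c :: (rep i ++ tw l))) (e :: rep m ++ V) d i h6
          (NA_append (he _) hV) (Or.inr rfl) h2 s hs'
        have e5 : k + (s + 1) = i + s := by omega
        rw [e5]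
        convert this using 1
        simp [tw, h3]

theorem occ_root (t : Tree) (hC : Cons t) (s : ℕ) (hs : s + 1 < depth t) :
    Occ (tw t) (lev t + s) := by
  cases t with
  | leaf k => exact absurd hs (Nat.not_lt_zero _)
  | node i l j r m =>
    obtain ⟨h1, h2, h3, h4, h5, h6⟩ := hC
    have hs' : s < depth l ∨ s < depth r := by
      simp only [depth] at hs
      rw [← lt_max_iff]
      omega
    rcases hs' with hs' | hs'
    · have := spine l [] (d :: (rep j ++ (tw r ++ e :: rep m))) c i h5 (NA_cons (by simp) _)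
        (Or.inl rfl) h1 s hs'
      simpa [tw, lev] using this
    · have := spine r (c :: (rep i ++ tw l)) (e :: rep m) d i h6 (NA_cons (by simp) _)
        (Or.inr rfl) h2 s hs'
      simpa [tw, lev, h3] using this

/-- an automaton that accepts no mismatch word and accepts a deep tree has many states -/
theorem many_states {σ : Type*} [Fintype σ] (M : NFA Lt σ)
    (hno : ∀ w, Err w → w ∉ M.accepts) (t : Tree) (hacc : tw t ∈ M.accepts) (m : ℕ)
    (hm : 2 * m < depth t) : m * m ≤ Fintype.card σ := by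
  classical
  have hC : Cons t := by
    apply cons_of_not_err t [] [] (by intro y w h; cases h)
    intro h
    apply hno _ h
    simpa using hacc
  have key : ∀ z : Fin m × Fin m, ∃ (st : σ) (P : List Lt) (x y : Lt) (Q : List Lt) (p0 q : σ),
      (x = c ∨ x = d) ∧ (y = c ∨ y = f) ∧ NA Q ∧ p0 ∈ M.start ∧ q ∈ M.accept ∧
      Path M p0 (P ++ x :: (rep (lev t + m + z.1 - 1) ++ c :: rep z.2)) st ∧
      Path M st (rep (lev t + m + z.1 - z.2) ++ y :: (rep (lev t + m + z.1 + 1) ++ Q)) q := by
    intro z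
    have hz1 := z.1.2
    have hz2 := z.2.2
    obtain ⟨P, x, y, Q, hx, hy, hQ, hw⟩ := occ_root t hC (m + z.1 - 1) (by omega)
    obtain ⟨p0, hp0, q, hq, hpath⟩ := (mem_accepts_iff M _).mp hacc
    have e1 : lev t + (m + z.1 - 1) = lev t + m + z.1 - 1 := by omega
    have e2 : rep (lev t + (m + z.1 - 1) + 1) = rep z.2 ++ rep (lev t + m + z.1 - z.2) := by
      rw [rep_add]; congr 1; omega
    have e3 : lev t + m + z.1 - 1 + 2 = lev t + m + z.1 + 1 := by omega
    rw [hw, e2, e1, e3] at hpath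
    have e4 : P ++ x :: (rep (lev t + m + z.1 - 1) ++ c :: (rep z.2 ++
        rep (lev t + m + z.1 - z.2) ++ y :: (rep (lev t + m + z.1 + 1) ++ Q)))
        = (P ++ x :: (rep (lev t + m + z.1 - 1) ++ c :: rep z.2)) ++
          (rep (lev t + m + z.1 - z.2) ++ y :: (rep (lev t + m + z.1 + 1) ++ Q)) := by simp
    rw [e4] at hpath
    obtain ⟨st, h1, h2⟩ := path_append.mp hpath
    exact ⟨st, P, x, y, Q, p0, q, hx, hy, hQ, hp0, hq, h1, h2⟩
  choose st P x y Q p0 q hx hy hQ hp0 hq h1 h2 using key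
  have hinj : Function.Injective st := by
    intro z z' hzz
    have hz1 := z.1.2
    have hz2 := z.2.2
    have hz1' := z'.1.2
    have hz2' := z'.2.2
    have hp := path_append.mpr ⟨st z, h1 z, (by rw [hzz]; exact h2 z')⟩
    have hacc' : ((P z ++ x z :: (rep (lev t + m + z.1 - 1) ++ c :: rep z.2)) ++
        (rep (lev t + m + z'.1 - z'.2) ++ y z' :: (rep (lev t + m + z'.1 + 1) ++ Q z')))
        ∈ M.accepts := (mem_accepts_iff M _).mpr ⟨p0 z, hp0 z, q z', hq z', hp⟩
    have ha1 : (z.2 : ℕ) + (lev t + m + z'.1 - z'.2) = (lev t + m + z.1 - 1) + 1 := by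
      by_contra hne
      refine hno _ ⟨P z, x z, lev t + m + z.1 - 1, c, z.2 + (lev t + m + z'.1 - z'.2),
        y z' :: (rep (lev t + m + z'.1 + 1) ++ Q z'), ?_, ?_,
        Or.inl ⟨⟨hx z, Or.inl rfl⟩, hne⟩⟩ hacc'
      · rw [← rep_add (z.2 : ℕ) (lev t + m + z'.1 - z'.2)]; simp
      · exact NA_cons (by rcases hy z' with h | h <;> rw [h] <;> simp) _
    have ha2 : lev t + m + z'.1 + 1 = (z.2 : ℕ) + (lev t + m + z'.1 - z'.2) + 1 := by
      by_contra hne
      refine hno _ ⟨P z ++ x z :: rep (lev t + m + z.1 - 1), c,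
        z.2 + (lev t + m + z'.1 - z'.2), y z', lev t + m + z'.1 + 1, Q z', ?_, hQ z',
        Or.inl ⟨⟨Or.inl rfl, hy z'⟩, hne⟩⟩ hacc'
      rw [← rep_add (z.2 : ℕ) (lev t + m + z'.1 - z'.2)]; simp
    have hb1 : (z.1 : ℕ) = z'.1 := by omega
    have hb2 : (z.2 : ℕ) = z'.2 := by omega
    exact Prod.ext (Fin.ext hb1) (Fin.ext hb2)
  have := Fintype.card_le_of_injective st hinj
  simpa using this

theorem tw_length (t : Tree) : ∀ M, Cons t → lev t + depth t + 1 ≤ M →
    (tw t).length + 3 * M ≤ 4 * 2 ^ depth t * M := by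
  induction t with
  | leaf k =>
    intro M _ hM
    simp only [tw, lev, depth, List.length_cons, rep_length] at hM ⊢
    omega
  | node i l j r m ihl ihr =>
    intro M hC hM
    obtain ⟨h1, h2, h3, h4, h5, h6⟩ := hC
    simp only [lev, depth] at hM
    have hl := ihl M h5 (by have := le_max_left (depth l) (depth r); omega)
    have hr := ihr M h6 (by have := le_max_right (depth l) (depth r); omega)
    have hl2 : 4 * 2 ^ depth l * M ≤ 4 * 2 ^ (max (depth l) (depth r)) * M := by
      apply Nat.mul_le_mul_right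
      apply Nat.mul_le_mul_left
      exact Nat.pow_le_pow_right (by norm_num) (le_max_left _ _)
    have hr2 : 4 * 2 ^ depth r * M ≤ 4 * 2 ^ (max (depth l) (depth r)) * M := by
      apply Nat.mul_le_mul_right
      apply Nat.mul_le_mul_left
      exact Nat.pow_le_pow_right (by norm_num) (le_max_right _ _)
    simp only [tw, depth, List.length_cons, List.length_append, rep_length]
    have e1 : 4 * 2 ^ (max (depth l) (depth r) + 1) * M
        = 2 * (4 * 2 ^ (max (depth l) (depth r)) * M) := by ring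
    rw [e1]
    subst h3 h4
    omega

theorem short_good {σ : Type*} [Fintype σ] (M : NFA Lt σ)
    (hno : ∀ w, Err w → w ∉ M.accepts) (h : ∃ w, Good w ∧ w ∈ M.accepts) :
    ∃ w, Good w ∧ w ∈ M.accepts ∧
      w.length ≤ 4 * 2 ^ (2 * Nat.sqrt (Fintype.card σ) + 2) *
        (Fintype.card σ + 2 * Nat.sqrt (Fintype.card σ) + 3) := by
  classical
  have hex : ∃ n : ℕ, ∃ w, Good w ∧ w ∈ M.accepts ∧ w.length = n := by
    obtain ⟨w, h1, h2⟩ := h
    exact ⟨_, w, h1, h2, rfl⟩
  obtain ⟨w, hG, hacc, hn⟩ := Nat.find_spec hex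
  have hmin : ∀ w', Good w' → w' ∈ M.accepts → w.length ≤ w'.length := by
    intro w' h1 h2
    rw [hn]; exact Nat.find_min' hex ⟨w', h1, h2, rfl⟩
  refine ⟨w, hG, hacc, ?_⟩
  obtain ⟨t, rfl⟩ := hG
  have hC : Cons t := by
    apply cons_of_not_err t [] [] (by intro y w h; cases h)
    intro h
    apply hno _ h
    simpa using hacc
  set n := Fintype.card σ with hndef
  have hlev : lev t < n := by
    by_contra hcon
    obtain ⟨p0, hp0, q, hq, hpath⟩ := (mem_accepts_iff M _).mp hacc
    cases t with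
    | leaf k =>
      obtain ⟨p1, g1, g2⟩ := path_cons.mp hpath
      obtain ⟨δ, k1, k2, k3, k4⟩ := cut_rep g2 (by simpa [lev] using hcon)
      have := hmin (f :: rep (k - δ)) ⟨Tree.leaf (k - δ), rfl⟩
        ((mem_accepts_iff M _).mpr ⟨p0, hp0, q, hq, path_cons.mpr ⟨p1, g1, k4⟩⟩)
      simp only [tw, List.length_cons, rep_length] at this
      omega
    | node i l j r m =>
      obtain ⟨h1, h2, h3, h4, h5, h6⟩ := hC
      obtain ⟨p1, g1, g2⟩ := path_cons.mp hpath
      obtain ⟨p2, g3, g4⟩ := path_append.mp g2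
      obtain ⟨δ, k1, k2, k3, k4⟩ := cut_rep g3 (by simpa [lev] using hcon)
      obtain ⟨y1, rest1, e1, hy1, hr1⟩ := tw_head l
      refine hno (c :: (rep (i - δ) ++ (tw l ++ d :: (rep j ++ (tw r ++ e :: rep m))))) ?_
        ((mem_accepts_iff M _).mpr ⟨p0, hp0, q, hq, path_cons.mpr ⟨p1, g1,
          path_append.mpr ⟨p2, k4, g4⟩⟩⟩)
      refine ⟨[], c, i - δ, y1, lev l, rest1 ++ (d :: (rep j ++ (tw r ++ e :: rep m))), ?_,
        NA_append hr1 (NA_cons (by simp) _), Or.inl ⟨⟨Or.inl rfl, hy1⟩, by omega⟩⟩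
      simp [e1]
  have hdep : depth t ≤ 2 * Nat.sqrt n + 2 := by
    by_contra hcon
    have h1 := many_states M hno t hacc (Nat.sqrt n + 1) (by omega)
    have h2 := Nat.lt_succ_sqrt n
    have h3 : (Nat.sqrt n).succ = Nat.sqrt n + 1 := rfl
    rw [h3] at h2
    omega
  have h1 := tw_length t (n + 2 * Nat.sqrt n + 3) hC (by omega)
  have h2 : 4 * 2 ^ depth t * (n + 2 * Nat.sqrt n + 3)
      ≤ 4 * 2 ^ (2 * Nat.sqrt n + 2) * (n + 2 * Nat.sqrt n + 3) := by
    apply Nat.mul_le_mul_right
    apply Nat.mul_le_mul_left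
    exact Nat.pow_le_pow_right (by norm_num) hdep
  omega

end Pool.Agent.H21.Rat
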