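import Mathlib

set_option autoImplicit false

namespace Pool.Agent.H21.STS

variable {α : Type*}

abbrev Rule (α : Type*) := List α × List α

def Step (S : Finset (Rule α)) (w w' : List α) : Prop :=
  ∃ x y : List α, ∃ p ∈ S, w = x ++ p.1 ++ y ∧ w' = x ++ p.2 ++ y

inductive Valid (S : Finset (Rule α)) : List α → List (ℕ × Rule α) → Prop
  | nil (w : List α) : Valid S w []
  | cons (x y : List α) (p : Rule α) (st : List (ℕ × Rule α)) (hp : p ∈ S)
      (h : Valid S (x ++ p.2 ++ y) st) : Valid S (x ++ p.1 ++ y) ((x.length, p) :: st)

def cs (b : ℕ) (st : List (ℕ × Rule α)) : List (Rule α × ℕ) :=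
  st.filterMap (fun s => if s.1 < b ∧ b < s.1 + s.2.1.length then some (s.2, b - s.1) else none)

lemma cs_nil (b : ℕ) : cs b ([] : List (ℕ × Rule α)) = [] := rfl

lemma cs_cons_pos (b i : ℕ) (p : Rule α) (st : List (ℕ × Rule α))
    (h : i < b ∧ b < i + p.1.length) : cs b ((i, p) :: st) = (p, b - i) :: cs b st := by
  unfold cs
  rw [List.filterMap_cons]
  simp only [h, and_self, if_true]

lemma cs_cons_neg (b i : ℕ) (p : Rule α) (st : List (ℕ × Rule α))
    (h : ¬ (i < b ∧ b < i + p.1.length)) : cs b ((i, p) :: st) = cs b st := by
  unfold cs
  rw [List.filterMap_cons]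
  simp only [h, if_false]

lemma cs_cons_length (b i : ℕ) (p : Rule α) (st : List (ℕ × Rule α)) :
    (cs b ((i, p) :: st)).length
      = (cs b st).length + if i < b ∧ b < i + p.1.length then 1 else 0 := by
  by_cases h : i < b ∧ b < i + p.1.length
  · rw [cs_cons_pos b i p st h, if_pos h]; rfl
  · rw [cs_cons_neg b i p st h, if_neg h]; rfl

inductive LRun (S : Finset (Rule α)) (q : ℕ) : List (Rule α × ℕ) → ℕ → List α → Prop
  | nil (x : List α) : LRun S q [] 0 x
  | int (x1 x2 : List α) (p : Rule α) (c : List (Rule α × ℕ)) (N : ℕ) (hp : p ∈ S)
      (h : LRun S q c N (x1 ++ p.2 ++ x2)) :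
      LRun S q c (N + if x1.length < q ∧ q < x1.length + p.1.length then 1 else 0)
        (x1 ++ p.1 ++ x2)
  | ev (x1 : List α) (p : Rule α) (u1 u2 v1 v2 : List α) (c : List (Rule α × ℕ)) (N : ℕ)
      (hp : p ∈ S) (hu : p.1 = u1 ++ u2) (hv : p.2 = v1 ++ v2) (hl : u1.length = v1.length)
      (h1 : u1 ≠ []) (h2 : u2 ≠ [])
      (h : LRun S q c N (x1 ++ v1)) :
      LRun S q ((p, u1.length) :: c) (N + if x1.length < q then 1 else 0) (x1 ++ u1)

inductive RRun (S : Finset (Rule α)) (q : ℕ) : List (Rule α × ℕ) → ℕ → List α → Prop
  | nil (y : List α) : RRun S q [] 0 y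
  | int (y1 y2 : List α) (p : Rule α) (c : List (Rule α × ℕ)) (N : ℕ) (hp : p ∈ S)
      (h : RRun S q c N (y1 ++ p.2 ++ y2)) :
      RRun S q c (N + if y1.length < q ∧ q < y1.length + p.1.length then 1 else 0)
        (y1 ++ p.1 ++ y2)
  | ev (y2 : List α) (p : Rule α) (u1 u2 v1 v2 : List α) (c : List (Rule α × ℕ)) (N : ℕ)
      (hp : p ∈ S) (hu : p.1 = u1 ++ u2) (hv : p.2 = v1 ++ v2) (hl : u1.length = v1.length)
      (h1 : u1 ≠ []) (h2 : u2 ≠ [])
      (h : RRun S q c N (v2 ++ y2)) :
      RRun S q ((p, u1.length) :: c) (N + if q < u2.length then 1 else 0) (u2 ++ y2)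

def LP (S : Finset (Rule α)) : Prop := ∀ p ∈ S, p.1.length = p.2.length

theorem splitL (S : Finset (Rule α)) (hS : LP S) {w : List α} {st : List (ℕ × Rule α)}
    (hv : Valid S w st) : ∀ b ≤ w.length, ∀ q ≤ b,
      LRun S q (cs b st) ((cs q st).length) (w.take b) := by
  induction hv with
  | nil w => intro b _ q _; exact LRun.nil _
  | cons x y p st hp h ih =>
    intro b hb q hq
    have hlen := hS p hp
    have hb' : b ≤ (x ++ p.2 ++ y).length := by
      simp only [List.length_append] at hb ⊢; omega
    have ih' := ih b hb' q hq
    rcases Nat.lt_or_ge x.length b with hxb | hxb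
    · rcases Nat.lt_or_ge b (x.length + p.1.length) with hbu | hbu
      · -- crossing event
        have hcs : cs b ((x.length, p) :: st) = (p, b - x.length) :: cs b st :=
          cs_cons_pos _ _ _ _ ⟨hxb, hbu⟩
        have e1 : (x ++ p.1 ++ y).take b = x ++ p.1.take (b - x.length) := by
          rw [List.append_assoc, List.take_append, List.take_of_length_le (by omega),
            List.take_append_of_le_length (by omega)]
        have e2 : (x ++ p.2 ++ y).take b = x ++ p.2.take (b - x.length) := by
          rw [List.append_assoc, List.take_append, List.take_of_length_le (by omega),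
            List.take_append_of_le_length (by omega)]
        rw [e2] at ih'
        rw [hcs, e1, cs_cons_length]
        have hl1 : (p.1.take (b - x.length)).length = b - x.length := by
          rw [List.length_take]; omega
        have hl2 : (p.2.take (b - x.length)).length = b - x.length := by
          rw [List.length_take]; omega
        have key := LRun.ev (S := S) (q := q) x p (p.1.take (b - x.length)) (p.1.drop (b - x.length))
          (p.2.take (b - x.length)) (p.2.drop (b - x.length)) (cs b st) ((cs q st).length) hp
          (List.take_append_drop _ _).symm (List.take_append_drop _ _).symm (by rw [hl1, hl2])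
          (by intro h0; rw [h0] at hl1; simp at hl1; omega)
          (by intro h0; have := congrArg List.length h0; simp at this; omega) ih'
        rw [hl1] at key
        convert key using 2
        by_cases h : x.length < q
        · rw [if_pos h, if_pos ⟨h, by omega⟩]
        · rw [if_neg h, if_neg (fun h' => h h'.1)]
      · -- internal
        have hcs : cs b ((x.length, p) :: st) = cs b st :=
          cs_cons_neg _ _ _ _ (by omega)
        have e1 : (x ++ p.1 ++ y).take b = x ++ p.1 ++ y.take (b - (x.length + p.1.length)) := by
          rw [List.take_append, List.take_of_length_le (by simp only [List.length_append]; omega)]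
          simp only [List.length_append]
        have e2 : (x ++ p.2 ++ y).take b = x ++ p.2 ++ y.take (b - (x.length + p.1.length)) := by
          rw [List.take_append, List.take_of_length_le (by simp only [List.length_append]; omega)]
          simp only [List.length_append, hlen]
        rw [e2] at ih'
        rw [hcs, e1, cs_cons_length]
        exact LRun.int x _ p _ _ hp ih'
    · -- entirely right
      have hcs : cs b ((x.length, p) :: st) = cs b st := cs_cons_neg _ _ _ _ (by omega)
      have e1 : (x ++ p.1 ++ y).take b = x.take b := by
        rw [List.append_assoc, List.take_append_of_le_length hxb]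
      have e2 : (x ++ p.2 ++ y).take b = x.take b := by
        rw [List.append_assoc, List.take_append_of_le_length hxb]
      rw [e2] at ih'
      rw [hcs, e1, cs_cons_length, if_neg (by omega)]
      exact ih'

theorem splitR (S : Finset (Rule α)) (hS : LP S) {w : List α} {st : List (ℕ × Rule α)}
    (hv : Valid S w st) : ∀ b ≤ w.length, ∀ q : ℕ,
      RRun S q (cs b st) ((cs (b + q) st).length) (w.drop b) := by
  induction hv with
  | nil w => intro b _ q; exact RRun.nil _
  | cons x y p st hp h ih =>
    intro b hb q
    have hlen := hS p hp
    have hb' : b ≤ (x ++ p.2 ++ y).length := by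
      simp only [List.length_append] at hb ⊢; omega
    have ih' := ih b hb' q
    rcases Nat.lt_or_ge x.length b with hxb | hxb
    · rcases Nat.lt_or_ge b (x.length + p.1.length) with hbu | hbu
      · -- crossing event
        have hcs : cs b ((x.length, p) :: st) = (p, b - x.length) :: cs b st :=
          cs_cons_pos _ _ _ _ ⟨hxb, hbu⟩
        have e1 : (x ++ p.1 ++ y).drop b = p.1.drop (b - x.length) ++ y := by
          rw [List.append_assoc, List.drop_append, List.drop_of_length_le (by omega),
            List.drop_append_of_le_length (by omega)]
          rfl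
        have e2 : (x ++ p.2 ++ y).drop b = p.2.drop (b - x.length) ++ y := by
          rw [List.append_assoc, List.drop_append, List.drop_of_length_le (by omega),
            List.drop_append_of_le_length (by omega)]
          rfl
        rw [e2] at ih'
        rw [hcs, e1, cs_cons_length]
        have hl1 : (p.1.take (b - x.length)).length = b - x.length := by
          rw [List.length_take]; omega
        have hl2 : (p.2.take (b - x.length)).length = b - x.length := by
          rw [List.length_take]; omega
        have key := RRun.ev (S := S) (q := q) y p (p.1.take (b - x.length)) (p.1.drop (b - x.length))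
          (p.2.take (b - x.length)) (p.2.drop (b - x.length)) (cs b st) ((cs (b + q) st).length) hp
          (List.take_append_drop _ _).symm (List.take_append_drop _ _).symm (by rw [hl1, hl2])
          (by intro h0; rw [h0] at hl1; simp at hl1; omega)
          (by intro h0; have := congrArg List.length h0; simp at this; omega) ih'
        rw [hl1] at key
        convert key using 2
        have hd : (p.1.drop (b - x.length)).length = p.1.length - (b - x.length) := by simp
        rw [hd]
        by_cases h : q < p.1.length - (b - x.length)
        · rw [if_pos h, if_pos ⟨by omega, by omega⟩]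
        · rw [if_neg h, if_neg (by omega)]
      · -- entirely left
        have hcs : cs b ((x.length, p) :: st) = cs b st :=
          cs_cons_neg _ _ _ _ (by omega)
        have e1 : (x ++ p.1 ++ y).drop b = y.drop (b - (x.length + p.1.length)) := by
          rw [List.drop_append, List.drop_of_length_le (by simp only [List.length_append]; omega)]
          simp only [List.length_append, List.nil_append]
        have e2 : (x ++ p.2 ++ y).drop b = y.drop (b - (x.length + p.1.length)) := by
          rw [List.drop_append, List.drop_of_length_le (by simp only [List.length_append]; omega)]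
          simp only [List.length_append, List.nil_append, hlen]
        rw [e2] at ih'
        rw [hcs, e1, cs_cons_length, if_neg (by omega)]
        exact ih'
    · -- internal
      have hcs : cs b ((x.length, p) :: st) = cs b st := cs_cons_neg _ _ _ _ (by omega)
      have e1 : (x ++ p.1 ++ y).drop b = x.drop b ++ p.1 ++ y := by
        rw [List.append_assoc, List.drop_append_of_le_length hxb, List.append_assoc]
      have e2 : (x ++ p.2 ++ y).drop b = x.drop b ++ p.2 ++ y := by
        rw [List.append_assoc, List.drop_append_of_le_length hxb, List.append_assoc]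
      rw [e2] at ih'
      rw [hcs, e1, cs_cons_length]
      have key := RRun.int (S := S) (q := q) _ _ p _ _ hp ih'
      convert key using 2
      have hd : (x.drop b).length = x.length - b := by simp
      rw [hd]
      by_cases h : x.length - b < q ∧ q < x.length - b + p.1.length
      · rw [if_pos h, if_pos ⟨by omega, by omega⟩]
      · rw [if_neg h, if_neg (by omega)]

theorem merge (S : Finset (Rule α)) (hS : LP S) (q1 q2 : ℕ) {c : List (Rule α × ℕ)} {N1 : ℕ}
    {x : List α} (hL : LRun S q1 c N1 x) : q1 ≤ x.length → ∀ {N2 : ℕ} {y : List α},
      RRun S q2 c N2 y → ∃ st, Valid S (x ++ y) st ∧ (cs q1 st).length = N1 ∧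
        (cs (x.length + q2) st).length = N2 := by
  induction hL with
  | nil x =>
    intro hq N2 y hR
    generalize hc : ([] : List (Rule α × ℕ)) = c at hR
    induction hR with
    | nil y => exact ⟨[], Valid.nil _, rfl, rfl⟩
    | int y1 y2 p c N hp h ih =>
      obtain ⟨st, h1, h2, h3⟩ := ih hc
      refine ⟨((x ++ y1).length, p) :: st, ?_, ?_, ?_⟩
      · have := Valid.cons (S := S) (x ++ y1) y2 p st hp (by simpa [List.append_assoc] using h1)
        simpa [List.append_assoc] using this
      · rw [cs_cons_length, if_neg (by simp only [List.length_append]; omega), h2]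
      · rw [cs_cons_length, h3]
        congr 1
        simp only [List.length_append]
        by_cases h : y1.length < q2 ∧ q2 < y1.length + p.1.length
        · rw [if_pos h, if_pos (by omega)]
        · rw [if_neg h, if_neg (by omega)]
    | ev y2 p u1 u2 v1 v2 c N hp hu hv hl h1 h2 h ih => cases hc
  | int x1 x2 p c N hp h ih =>
    intro hq N2 y hR
    have hlen := hS p hp
    obtain ⟨st, h1, h2, h3⟩ := ih (by simp only [List.length_append] at hq ⊢; omega) hR
    refine ⟨(x1.length, p) :: st, ?_, ?_, ?_⟩
    · have := Valid.cons (S := S) x1 (x2 ++ y) p st hp (by simpa [List.append_assoc] using h1)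
      simpa [List.append_assoc] using this
    · rw [cs_cons_length, h2]
    · rw [cs_cons_length, if_neg (by simp only [List.length_append]; omega), Nat.add_zero, ← h3]
      simp only [List.length_append, hlen]
  | ev x1 p u1 u2 v1 v2 c N hp hu hv hl h1 h2 h ih =>
    intro hq N2 y hR
    generalize hc : (p, u1.length) :: c = c' at hR
    have hu2 : 0 < u2.length := List.length_pos_of_ne_nil h2
    have hu1 : 0 < u1.length := List.length_pos_of_ne_nil h1
    induction hR with
    | nil y => cases hc
    | int y1 y2 p' c' N' hp' h' ih' =>
      obtain ⟨st, g1, g2, g3⟩ := ih' hc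
      refine ⟨((x1 ++ u1 ++ y1).length, p') :: st, ?_, ?_, ?_⟩
      · have := Valid.cons (S := S) (x1 ++ u1 ++ y1) y2 p' st hp'
          (by simpa [List.append_assoc] using g1)
        simpa [List.append_assoc] using this
      · rw [cs_cons_length, if_neg (by simp only [List.length_append] at hq ⊢; omega), g2,
          Nat.add_zero]
      · rw [cs_cons_length, g3]
        congr 1
        simp only [List.length_append]
        by_cases h : y1.length < q2 ∧ q2 < y1.length + p'.1.length
        · rw [if_pos h, if_pos (by omega)]
        · rw [if_neg h, if_neg (by omega)]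
    | ev y2 p' u1' u2' v1' v2' c' N' hp' hu' hv' hl' h1' h2' h' ih' =>
      simp only [List.cons.injEq, Prod.mk.injEq] at hc
      obtain ⟨⟨rfl, hlu⟩, rfl⟩ := hc
      obtain ⟨st, g1, g2, g3⟩ := ih (by simp only [List.length_append] at hq ⊢; omega) h'
      have ha : u1 = u1' ∧ u2 = u2' := by
        have : u1 ++ u2 = u1' ++ u2' := by rw [← hu, ← hu']
        exact List.append_inj this hlu
      have hb : v1 = v1' ∧ v2 = v2' := by
        have : v1 ++ v2 = v1' ++ v2' := by rw [← hv, ← hv']
        exact List.append_inj this (by omega)
      obtain ⟨rfl, rfl⟩ := ha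
      obtain ⟨rfl, rfl⟩ := hb
      refine ⟨(x1.length, p) :: st, ?_, ?_, ?_⟩
      · have := Valid.cons (S := S) x1 y2 p st hp
          (by rw [hv]; simpa [List.append_assoc] using g1)
        rw [hu] at this
        simpa [List.append_assoc] using this
      · rw [cs_cons_length, g2]
        congr 1
        simp only [List.length_append] at hq
        have : p.1.length = u1.length + u2.length := by rw [hu]; simp
        by_cases h : x1.length < q1
        · rw [if_pos h, if_pos (by omega)]
        · rw [if_neg h, if_neg (by omega)]
      · rw [cs_cons_length]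
        have e : (x1 ++ u1).length + q2 = (x1 ++ v1).length + q2 := by
          simp only [List.length_append]; omega
        rw [e, g3]
        congr 1
        simp only [List.length_append]
        have : p.1.length = u1.length + u2.length := by rw [hu]; simp
        by_cases h : q2 < u2.length
        · rw [if_pos h, if_pos (by omega)]
        · rw [if_neg h, if_neg (by omega)]

/-- cut out the segment between two boundaries with equal crossing sequences -/
theorem cut (S : Finset (Rule α)) (hS : LP S) {w : List α} {st : List (ℕ × Rule α)}
    (hv : Valid S w st) (b b' p : ℕ) (hbb : b < b') (hb' : b' ≤ w.length)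
    (heq : cs b st = cs b' st) (hp : p ≤ b ∨ b' ≤ p) :
    ∃ w' st' p', w'.length < w.length ∧ Valid S w' st' ∧
      (cs p' st').length = (cs p st).length := by
  rcases hp with hp | hp
  · have hL := splitL S hS hv b (by omega) p hp
    have hR := splitR S hS hv b' hb' 0
    rw [← heq] at hR
    have hlt : (w.take b).length = b := by rw [List.length_take]; omega
    obtain ⟨st', h1, h2, h3⟩ := merge S hS p 0 hL (by omega) hR
    refine ⟨_, st', p, ?_, h1, h2⟩
    rw [List.length_append, List.length_take, List.length_drop]; omega
  · have hL := splitL S hS hv b (by omega) 0 (Nat.zero_le _)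
    have hR := splitR S hS hv b' hb' (p - b')
    rw [← heq] at hR
    obtain ⟨st', h1, h2, h3⟩ := merge S hS 0 (p - b') hL (by omega) hR
    refine ⟨_, st', (w.take b).length + (p - b'), ?_, h1, ?_⟩
    · rw [List.length_append, List.length_take, List.length_drop]; omega
    · rw [h3]
      congr 2
      omega

end Pool.Agent.H21.STS
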