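import Pool.Agent.H21.STS

set_option autoImplicit false

namespace Pool.Agent.H21.STS

variable {α : Type*}

/-- from a chain to a step list -/
theorem chain_to_list (S : Finset (Rule α)) : ∀ (m : ℕ) (f : ℕ → List α),
    (∀ i < m, Step S (f i) (f (i + 1))) → ∃ st, Valid S (f 0) st ∧ st.length = m := by
  intro m
  induction m with
  | zero => intro f _; exact ⟨[], Valid.nil _, rfl⟩
  | succ m ih =>
    intro f hf
    obtain ⟨st, h1, h2⟩ := ih (fun i => f (i + 1)) (fun i hi => hf (i + 1) (by omega))
    obtain ⟨x, y, p, hp, e1, e2⟩ := hf 0 (by omega)
    refine ⟨(x.length, p) :: st, ?_, by simp [h2]⟩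
    rw [e1]
    apply Valid.cons x y p st hp
    rw [← e2]; exact h1

theorem list_to_chain (S : Finset (Rule α)) {w : List α} {st : List (ℕ × Rule α)}
    (hv : Valid S w st) : ∃ f : ℕ → List α, f 0 = w ∧
      ∀ i < st.length, Step S (f i) (f (i + 1)) := by
  induction hv with
  | nil w => exact ⟨fun _ => w, rfl, fun i hi => by simp at hi⟩
  | cons x y p st hp h ih =>
    obtain ⟨f, h0, hf⟩ := ih
    refine ⟨fun i => match i with
      | 0 => x ++ p.1 ++ y
      | (j + 1) => f j, rfl, ?_⟩
    intro i hi
    cases i with
    | zero => exact ⟨x, y, p, hp, rfl, h0⟩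
    | succ j => exact hf j (by simpa using hi)

def Term (S : Finset (Rule α)) : Prop :=
  ¬ ∃ f : ℕ → List α, ∀ i : ℕ, Step S (f i) (f (i + 1))

theorem term_wf (S : Finset (Rule α)) (hT : Term S) :
    WellFounded (fun a b : List α => Step S b a) := by
  rw [wellFounded_iff_isEmpty_descending_chain]
  refine ⟨fun f => hT ⟨f.1, fun i => f.2 i⟩⟩

/-- total rank weight -/
theorem single_rank [Fintype α] (S : Finset (Rule α)) (hT : Term S) :
    ∃ ρ : α → ℕ, (∀ a, ρ a ≤ Fintype.card α) ∧
      ∀ p ∈ S, p.1.length = 1 → p.2.length = 1 → (p.2.map ρ).sum < (p.1.map ρ).sum := by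
  classical
  let r : α → α → Prop := fun a b => Step S [b] [a]
  have hwf : WellFounded r := InvImage.wf (fun a : α => [a]) (term_wf S hT)
  have htr : WellFounded (Relation.TransGen r) := hwf.transGen
  refine ⟨fun a => (Finset.univ.filter (fun c => Relation.TransGen r c a)).card, ?_, ?_⟩
  · intro a
    exact (Finset.card_le_card (Finset.subset_univ _)).trans (by rw [Finset.card_univ])
  · intro p hp h1 h2
    obtain ⟨a, ha⟩ := List.length_eq_one_iff.mp h1
    obtain ⟨b, hb⟩ := List.length_eq_one_iff.mp h2
    rw [ha, hb]
    simp only [List.map_cons, List.map_nil, List.sum_cons, List.sum_nil, Nat.add_zero]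
    have hab : r b a := ⟨[], [], p, hp, by simp [ha], by simp [hb]⟩
    apply Finset.card_lt_card
    rw [Finset.ssubset_iff_of_subset]
    · refine ⟨b, ?_, ?_⟩
      · simp only [Finset.mem_filter, Finset.mem_univ, true_and]
        exact Relation.TransGen.single hab
      · simp only [Finset.mem_filter, Finset.mem_univ, true_and]
        intro h
        exact htr.irrefl.irrefl b h
    · intro c hc
      simp only [Finset.mem_filter, Finset.mem_univ, true_and] at hc ⊢
      exact hc.tail hab

/-- number of boundaries crossed summed over boundaries -/
theorem sum_cs_le (S : Finset (Rule α)) (L : ℕ) (hL : ∀ p ∈ S, p.1.length ≤ L)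
    {w : List α} {st : List (ℕ × Rule α)} (hv : Valid S w st) (n : ℕ) :
    ∑ b ∈ Finset.range n, (cs b st).length ≤ L * st.length := by
  induction hv with
  | nil w => simp [cs_nil]
  | cons x y p st hp h ih =>
    have h1 : ∑ b ∈ Finset.range n, (cs b ((x.length, p) :: st)).length
        = ∑ b ∈ Finset.range n, (cs b st).length
          + ∑ b ∈ Finset.range n, (if x.length < b ∧ b < x.length + p.1.length then 1 else 0) := by
      rw [← Finset.sum_add_distrib]
      exact Finset.sum_congr rfl (fun b _ => cs_cons_length _ _ _ _)
    have h2 : ∑ b ∈ Finset.range n, (if x.length < b ∧ b < x.length + p.1.length then 1 else 0)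
        ≤ L := by
      rw [Finset.sum_boole]
      have : (Finset.range n).filter (fun b => x.length < b ∧ b < x.length + p.1.length)
          ⊆ Finset.Ioo x.length (x.length + p.1.length) := by
        intro b hb
        simp only [Finset.mem_filter, Finset.mem_range, Finset.mem_Ioo] at hb ⊢
        exact hb.2
      have h3 := Finset.card_le_card this
      rw [Nat.card_Ioo] at h3
      have := hL p hp
      simp only [Nat.cast_id]
      omega
    rw [h1, List.length_cons]
    calc _ ≤ L * st.length + L := Nat.add_le_add ih h2
      _ = L * (st.length + 1) := by ring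

/-- every step with a rule of length `≥ 2` crosses a boundary; potential argument -/
theorem length_le [Fintype α] (S : Finset (Rule α)) (hS : LP S) (hT : Term S) (L : ℕ)
    (hL : ∀ p ∈ S, p.1.length ≤ L) :
    ∃ C : ℕ, ∀ (w : List α) (st : List (ℕ × Rule α)), Valid S w st →
      st.length ≤ C * w.length
        + C * ∑ b ∈ Finset.range w.length, (cs b st).length := by
  obtain ⟨ρ, hρ1, hρ2⟩ := single_rank S hT
  have hempty : ∀ p ∈ S, p.1 ≠ [] := by
    intro p hp h0
    apply hT
    refine ⟨fun _ => [], fun i => ⟨[], [], p, hp, by simp [h0], ?_⟩⟩
    have := hS p hp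
    rw [h0] at this
    have h2 : p.2 = [] := List.length_eq_zero_iff.mp this.symm
    simp [h2]
  have hsum : ∀ l : List α, (l.map ρ).sum ≤ l.length * Fintype.card α := by
    intro l
    induction l with
    | nil => simp
    | cons a l ih =>
      simp only [List.map_cons, List.sum_cons, List.length_cons]
      have := hρ1 a
      nlinarith
  -- potential inequality
  have key : ∀ (w : List α) (st : List (ℕ × Rule α)), Valid S w st →
      st.length ≤ (w.map ρ).sum + (1 + L * Fintype.card α) *
        ∑ b ∈ Finset.range w.length, (cs b st).length := by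
    intro w st hv
    induction hv with
    | nil w => simp
    | cons x y p st hp h ih =>
      have hlen := hS p hp
      have hwl : (x ++ p.1 ++ y).length = (x ++ p.2 ++ y).length := by
        simp only [List.length_append, hlen]
      have h1 : ∑ b ∈ Finset.range (x ++ p.1 ++ y).length, (cs b ((x.length, p) :: st)).length
          = ∑ b ∈ Finset.range (x ++ p.1 ++ y).length, (cs b st).length
            + ∑ b ∈ Finset.range (x ++ p.1 ++ y).length,
              (if x.length < b ∧ b < x.length + p.1.length then 1 else 0) := by
        rw [← Finset.sum_add_distrib]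
        exact Finset.sum_congr rfl (fun b _ => cs_cons_length _ _ _ _)
      rw [h1, hwl]
      have hp0 : 0 < p.1.length := List.length_pos_of_ne_nil (hempty p hp)
      simp only [List.map_append, List.sum_append] at ih ⊢
      set T := ∑ b ∈ Finset.range (x ++ p.2 ++ y).length, (cs b st).length with hTdef
      rw [List.length_cons]
      rcases Nat.lt_or_ge 1 p.1.length with h2 | h2
      · -- crosses a boundary
        have h3 : 1 ≤ ∑ b ∈ Finset.range (x ++ p.2 ++ y).length,
              (if x.length < b ∧ b < x.length + p.1.length then 1 else 0) := by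
          have hm : x.length + 1 ∈ Finset.range (x ++ p.2 ++ y).length := by
            simp only [Finset.mem_range, List.length_append]; omega
          calc 1 = (if x.length < x.length + 1 ∧ x.length + 1 < x.length + p.1.length
                then 1 else 0) := by rw [if_pos ⟨by omega, by omega⟩]
            _ ≤ _ := Finset.single_le_sum
              (f := fun b => if x.length < b ∧ b < x.length + p.1.length then 1 else 0)
              (fun i _ => Nat.zero_le _) hm
        have h4 : (p.2.map ρ).sum ≤ L * Fintype.card α :=
          (hsum p.2).trans (Nat.mul_le_mul_right _ (hlen ▸ hL p hp))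
        have h5 : (1 + L * Fintype.card α) * 1 ≤ (1 + L * Fintype.card α) *
            ∑ b ∈ Finset.range (x ++ p.2 ++ y).length,
              (if x.length < b ∧ b < x.length + p.1.length then 1 else 0) :=
          Nat.mul_le_mul_left _ h3
        rw [Nat.mul_add]
        omega
      · have h3 : p.1.length = 1 := by omega
        have h4 := hρ2 p hp h3 (by omega)
        rw [Nat.mul_add]
        have := Nat.zero_le ((1 + L * Fintype.card α) * ∑ b ∈ Finset.range (x ++ p.2 ++ y).length,
              (if x.length < b ∧ b < x.length + p.1.length then 1 else 0))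
        omega
  refine ⟨1 + L * Fintype.card α + Fintype.card α, ?_⟩
  intro w st hv
  have h1 := key w st hv
  have h2 := hsum w
  calc st.length ≤ (w.map ρ).sum + (1 + L * Fintype.card α) *
        ∑ b ∈ Finset.range w.length, (cs b st).length := h1
    _ ≤ _ := by
      apply Nat.add_le_add
      · refine h2.trans ?_
        rw [Nat.mul_comm]
        exact Nat.mul_le_mul_right _ (by omega)
      · exact Nat.mul_le_mul_right _ (by omega)

/-- chains of bounded start length have bounded length -/
theorem bdd [Fintype α] (S : Finset (Rule α)) (hS : LP S) (hT : Term S) (n : ℕ) :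
    ∃ B : ℕ, ∀ (w : List α) (st : List (ℕ × Rule α)), Valid S w st → w.length ≤ n →
      st.length ≤ B := by
  classical
  have hwf := term_wf S hT
  have htr : WellFounded (Relation.TransGen (fun a b : List α => Step S b a)) := hwf.transGen
  have hfin : Set.Finite {w : List α | w.length ≤ n} := List.finite_length_le α n
  refine ⟨hfin.toFinset.card, ?_⟩
  intro w st hv hw
  obtain ⟨f, h0, hf⟩ := list_to_chain S hv
  have hlen : ∀ i ≤ st.length, (f i).length = w.length := by
    intro i
    induction i with
    | zero => intro _; rw [h0]
    | succ i ih =>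
      intro hi
      obtain ⟨x, y, p, hp, e1, e2⟩ := hf i (by omega)
      rw [← ih (by omega), e1, e2]
      simp only [List.length_append, hS p hp]
  have htrans : ∀ i j, i < j → j ≤ st.length →
      Relation.TransGen (fun a b : List α => Step S b a) (f j) (f i) := by
    intro i j hij
    induction j with
    | zero => omega
    | succ j ih =>
      intro hj
      rcases Nat.lt_or_ge i j with h | h
      · exact Relation.TransGen.head (hf j (by omega)) (ih h (by omega))
      · have : i = j := by omega
        subst this
        exact Relation.TransGen.single (hf i (by omega))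
  have hinj : Set.InjOn f (Finset.range st.length : Set ℕ) := by
    intro i hi j hj hij
    simp only [Finset.coe_range, Set.mem_Iio] at hi hj
    by_contra hne
    rcases Nat.lt_or_gt_of_ne hne with h | h
    · have := htrans i j h (by omega)
      rw [hij] at this
      exact htr.irrefl.irrefl _ this
    · have := htrans j i h (by omega)
      rw [hij] at this
      exact htr.irrefl.irrefl _ this
  have hmaps : ∀ i ∈ Finset.range st.length, f i ∈ hfin.toFinset := by
    intro i hi
    rw [Finset.mem_range] at hi
    rw [Set.Finite.mem_toFinset, Set.mem_setOf_eq, hlen i (by omega)]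
    exact hw
  have := Finset.card_le_card_of_injOn f hmaps hinj
  rwa [Finset.card_range] at this

end Pool.Agent.H21.STS
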