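import Pool.Agent.H21.STS2

set_option autoImplicit false

namespace Pool.Agent.H21.STS

variable {α : Type*}

theorem count_short {β : Type*} [DecidableEq β] (B : Finset ℕ) (g : ℕ → List β) (Ev : Finset β)
    (hg : ∀ b ∈ B, ∀ e ∈ g b, e ∈ Ev) (hinj : Set.InjOn g (B : Set ℕ)) (l : ℕ) :
    (B.filter (fun b => (g b).length ≤ l)).card ≤ (Ev.card + 1) ^ l := by
  classical
  let T : Finset (Fin l → Option β) :=
    Fintype.piFinset (fun _ => insert none (Ev.image some))
  have hT : T.card ≤ (Ev.card + 1) ^ l := by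
    show (Fintype.piFinset (fun _ : Fin l => insert none (Ev.image some))).card ≤ _
    rw [Fintype.card_piFinset_const]
    apply Nat.pow_le_pow_left
    calc (insert none (Ev.image some)).card ≤ (Ev.image some).card + 1 := Finset.card_insert_le _ _
      _ ≤ Ev.card + 1 := Nat.add_le_add_right Finset.card_image_le _
  refine le_trans ?_ hT
  apply Finset.card_le_card_of_injOn (fun b => fun i : Fin l => (g b)[(i : ℕ)]?)
  · intro b hb
    simp only [Finset.coe_filter, Set.mem_ofPred_eq] at hb
    simp only [T, Finset.mem_coe, Fintype.mem_piFinset]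
    intro i
    rw [Finset.mem_insert]
    rcases h : (g b)[(i : ℕ)]? with _ | e
    · left; rfl
    · right
      rw [Finset.mem_image]
      exact ⟨e, hg b hb.1 e (List.mem_of_getElem? h), rfl⟩
  · intro b hb b' hb' h
    simp only [Finset.coe_filter, Set.mem_ofPred_eq] at hb hb'
    apply hinj hb.1 hb'.1
    apply List.ext_getElem?
    intro i
    rcases Nat.lt_or_ge i l with hi | hi
    · exact congrFun h ⟨i, hi⟩
    · rw [List.getElem?_eq_none (by omega), List.getElem?_eq_none (by omega)]

theorem count_sum {β : Type*} [DecidableEq β] (B : Finset ℕ) (g : ℕ → List β) (Ev : Finset β)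
    (hg : ∀ b ∈ B, ∀ e ∈ g b, e ∈ Ev) (hinj : Set.InjOn g (B : Set ℕ)) (l : ℕ) :
    (B.card - (Ev.card + 1) ^ l) * (l + 1) ≤ ∑ b ∈ B, (g b).length := by
  have h1 := count_short B g Ev hg hinj l
  have h2 := Finset.card_filter_add_card_filter_not (s := B) (fun b => (g b).length ≤ l)
  calc (B.card - (Ev.card + 1) ^ l) * (l + 1)
      ≤ (B.filter (fun b => ¬ (g b).length ≤ l)).card * (l + 1) :=
        Nat.mul_le_mul_right _ (by omega)
    _ ≤ ∑ b ∈ B.filter (fun b => ¬ (g b).length ≤ l), (g b).length := by
        rw [← smul_eq_mul]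
        apply Finset.card_nsmul_le_sum
        intro b hb
        rw [Finset.mem_filter] at hb
        omega
    _ ≤ ∑ b ∈ B, (g b).length :=
        Finset.sum_le_sum_of_subset (Finset.filter_subset _ _)

theorem cs_mem (S : Finset (Rule α)) (L : ℕ) (hL : ∀ p ∈ S, p.1.length ≤ L)
    {w : List α} {st : List (ℕ × Rule α)} (hv : Valid S w st) (b : ℕ) :
    ∀ e ∈ cs b st, e ∈ S ×ˢ Finset.range (L + 1) := by
  induction hv with
  | nil w => intro e he; simp [cs_nil] at he
  | cons x y p st hp h ih =>
    intro e he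
    by_cases hc : x.length < b ∧ b < x.length + p.1.length
    · rw [cs_cons_pos _ _ _ _ hc] at he
      rcases List.mem_cons.mp he with rfl | he
      · have := hL p hp
        simp only [Finset.mem_product, Finset.mem_range]
        exact ⟨hp, by omega⟩
      · exact ih e he
    · rw [cs_cons_neg _ _ _ _ hc] at he
      exact ih e he

theorem cs_eq_nil (S : Finset (Rule α)) (hS : LP S)
    {w : List α} {st : List (ℕ × Rule α)} (hv : Valid S w st) (b : ℕ) (hb : w.length ≤ b) :
    cs b st = [] := by
  induction hv with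
  | nil w => rfl
  | cons x y p st hp h ih =>
    simp only [List.length_append] at hb
    rw [cs_cons_neg _ _ _ _ (by omega)]
    apply ih
    simp only [List.length_append]
    have := hS p hp
    omega

theorem unb [DecidableEq α] [Fintype α] (S : Finset (Rule α)) (hS : LP S) (hT : Term S) (L : ℕ)
    (hL : ∀ p ∈ S, p.1.length ≤ L)
    (hunb : ∀ K : ℕ, ∃ (w : List α) (st : List (ℕ × Rule α)) (p : ℕ),
      Valid S w st ∧ K ≤ (cs p st).length) (n0 : ℕ) :
    ∃ (w : List α) (st : List (ℕ × Rule α)), Valid S w st ∧ n0 ≤ w.length ∧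
      ∀ l : ℕ, (w.length / 2 - ((S ×ˢ Finset.range (L + 1)).card + 1) ^ l) * (l + 1)
        ≤ L * st.length := by
  classical
  obtain ⟨B0, hB0⟩ := bdd S hS hT n0
  set K := L * (B0 + 1) + B0 + 1 with hK
  have hex : ∃ n : ℕ, ∃ (w : List α) (st : List (ℕ × Rule α)) (p : ℕ),
      Valid S w st ∧ K ≤ (cs p st).length ∧ w.length = n := by
    obtain ⟨w, st, p, h1, h2⟩ := hunb K
    exact ⟨_, w, st, p, h1, h2, rfl⟩
  obtain ⟨w, st, p, hv, hKp, hn⟩ := Nat.find_spec hex
  have hmin : ∀ (w' : List α) (st' : List (ℕ × Rule α)) (p' : ℕ), Valid S w' st' →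
      K ≤ (cs p' st').length → w.length ≤ w'.length := by
    intro w' st' p' h1 h2
    rw [hn]
    exact Nat.find_min' hex ⟨w', st', p', h1, h2, rfl⟩
  have hpw : p < w.length := by
    by_contra hcon
    rw [cs_eq_nil S hS hv p (by omega), List.length_nil] at hKp
    omega
  refine ⟨w, st, hv, ?_, ?_⟩
  · by_contra hcon
    have h1 := hB0 w st hv (by omega)
    have h2 : (cs p st).length ≤ st.length := by
      unfold cs; exact List.length_filterMap_le _ _
    omega
  · intro l
    have hinjL : ∀ b b' : ℕ, b < b' → b' ≤ w.length → (p ≤ b ∨ b' ≤ p) → cs b st ≠ cs b' st := by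
      intro b b' hbb hb' hp heq
      obtain ⟨w', st', p', h1, h2, h3⟩ := cut S hS hv b b' p hbb hb' heq hp
      have := hmin w' st' p' h2 (by omega)
      omega
    obtain ⟨B, hB1, hB2, hB3⟩ : ∃ B : Finset ℕ, B ⊆ Finset.range (w.length + 1) ∧
        Set.InjOn (fun b => cs b st) (B : Set ℕ) ∧ w.length / 2 ≤ B.card := by
      rcases Nat.lt_or_ge (2 * p) w.length with h | h
      · refine ⟨Finset.Icc p w.length, ?_, ?_, ?_⟩
        · intro b hb
          rw [Finset.mem_Icc] at hb
          rw [Finset.mem_range]; omega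
        · intro b hb b' hb' hbb
          simp only [Finset.coe_Icc, Set.mem_Icc] at hb hb'
          by_contra hne
          rcases Nat.lt_or_gt_of_ne hne with h1 | h1
          · exact hinjL b b' h1 hb'.2 (Or.inl hb.1) hbb
          · exact hinjL b' b h1 hb.2 (Or.inl hb'.1) hbb.symm
        · rw [Nat.card_Icc]; omega
      · refine ⟨Finset.Icc 0 p, ?_, ?_, ?_⟩
        · intro b hb
          rw [Finset.mem_Icc] at hb
          rw [Finset.mem_range]; omega
        · intro b hb b' hb' hbb
          simp only [Finset.coe_Icc, Set.mem_Icc] at hb hb'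
          by_contra hne
          rcases Nat.lt_or_gt_of_ne hne with h1 | h1
          · exact hinjL b b' h1 (by omega) (Or.inr hb'.2) hbb
          · exact hinjL b' b h1 (by omega) (Or.inr hb.2) hbb.symm
        · rw [Nat.card_Icc]; omega
    have h1 := count_sum B (fun b => cs b st) (S ×ˢ Finset.range (L + 1))
      (fun b _ => cs_mem S L hL hv b) hB2 l
    have h2 : ∑ b ∈ B, (cs b st).length ≤ L * st.length :=
      (Finset.sum_le_sum_of_subset hB1).trans (sum_cs_le S L hL hv _)
    refine le_trans ?_ (h1.trans h2)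
    apply Nat.mul_le_mul_right
    omega

theorem power_chain (S : Finset (Rule α)) (p : Rule α) (hp : p ∈ S) :
    ∀ (q : ℕ) (x : List α), ∃ st, Valid S (x ++ (List.replicate q p.1).flatten) st ∧
      st.length = q := by
  intro q
  induction q with
  | zero => intro x; exact ⟨[], Valid.nil _, rfl⟩
  | succ q ih =>
    intro x
    obtain ⟨st, h1, h2⟩ := ih (x ++ p.2)
    refine ⟨(x.length, p) :: st, ?_, by simp [h2]⟩
    rw [List.replicate_succ, List.flatten_cons, ← List.append_assoc]
    exact Valid.cons x _ p st hp h1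

end Pool.Agent.H21.STS
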