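import Mathlib

set_option autoImplicit false
set_option linter.unusedSectionVars false

/-! A nonstationary-type ideal on a regular uncountable well-order. -/

namespace Pool.Agent.H21.Stat

open Cardinal Set

section
variable {J : Type} [LinearOrder J] [WellFoundedLT J]

/-- the nonstationary ideal, described by regressive functions with bounded fibres -/
def Small (Z : Set J) : Prop :=
  ∃ (f : J → J) (c : J), (∀ z ∈ Z, c < z → f z < z) ∧ ∀ γ, ∃ b, ∀ z ∈ Z, f z = γ → z ≤ b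

theorem Small.mono {Z Y : Set J} (h : Small Z) (hY : Y ⊆ Z) : Small Y := by
  obtain ⟨f, c, h1, h2⟩ := h
  refine ⟨f, c, fun z hz => h1 z (hY hz), fun γ => ?_⟩
  obtain ⟨b, hb⟩ := h2 γ
  exact ⟨b, fun z hz => hb z (hY hz)⟩

theorem small_bdd {Z : Set J} (c : J) (h : ∀ z ∈ Z, z ≤ c) : Small Z :=
  ⟨id, c, fun z hz hc => absurd (h z hz) (not_le.2 hc), fun _ => ⟨c, fun z hz _ => h z hz⟩⟩

variable (hb : ∀ S : Set J, #S < #J → ∃ b, ∀ s ∈ S, s < b) (hI : ∀ a : J, #(Iio a) < #J)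
  (hω : ℵ₀ < #J)
include hb

theorem bdd_range {ι : Type} (g : ι → J) (hι : #ι < #J) : ∃ b, ∀ i, g i < b := by
  obtain ⟨b, h⟩ := hb (range g) (mk_range_le.trans_lt hι)
  exact ⟨b, fun i => h _ ⟨i, rfl⟩⟩

include hω

theorem bdd_nat (g : ℕ → J) : ∃ b, ∀ i, g i < b :=
  bdd_range hb g (by rw [mk_nat]; exact hω)

theorem small_iUnion (Z : ℕ → Set J) (h : ∀ n, Small (Z n)) : Small (⋃ n, Z n) := by
  classical
  choose f c h1 h2 using h
  choose b h2 using h2
  obtain ⟨C, hC⟩ := bdd_nat hb hω c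
  have hex : ∀ z ∈ ⋃ n, Z n, ∃ n, z ∈ Z n := fun z hz => mem_iUnion.1 hz
  let k : J → ℕ := fun z => if hz : ∃ n, z ∈ Z n then hz.choose else 0
  have hk : ∀ z ∈ ⋃ n, Z n, z ∈ Z (k z) := by
    intro z hz
    have h := hex z hz
    simp only [k, dif_pos h]
    exact h.choose_spec
  refine ⟨fun z => f (k z) z, C, ?_, ?_⟩
  · intro z hz hcz
    exact h1 (k z) z (hk z hz) ((hC _).trans hcz)
  · intro γ
    obtain ⟨B, hB⟩ := bdd_nat hb hω (fun n => b n γ)
    exact ⟨B, fun z hz hf => (h2 (k z) γ z (hk z hz) hf).trans (hB _).le⟩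

theorem small_union {Z Y : Set J} (hZ : Small Z) (hY : Small Y) : Small (Z ∪ Y) := by
  refine (small_iUnion hb hω (fun n => if n = 0 then Z else Y) ?_).mono ?_
  · intro n
    by_cases h : n = 0
    · simp only [h, if_true]; exact hZ
    · simp only [if_neg h]; exact hY
  · rintro z (hz | hz)
    · exact mem_iUnion.2 ⟨0, by simpa using hz⟩
    · exact mem_iUnion.2 ⟨1, by simpa using hz⟩

include hI

theorem mk_Iic_lt (a : J) : #(Iic a) < #J := by
  obtain ⟨b, hab⟩ := hb {a} (by rw [mk_singleton]; exact one_lt_aleph0.trans hω)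
  exact (mk_le_mk_of_subset fun x hx => lt_of_le_of_lt hx (hab a rfl)).trans_lt (hI b)

/-- points which are limits of `ω`-sequences -/
def E : Set J := {α | ∃ a : ℕ → J, (∀ n, a n < α) ∧ ∀ β < α, ∃ n, β < a n}

theorem not_small_E : ¬ Small (E : Set J) := by
  rintro ⟨f, c, h1, h2⟩
  choose b h2 using h2
  have hstep : ∀ d : J, ∃ d', d < d' ∧ ∀ γ ≤ d, b γ < d' := by
    intro d
    obtain ⟨d1, hd1⟩ := bdd_range hb (fun γ : Iic d => b γ) (mk_Iic_lt hb hI hω d)
    obtain ⟨d2, hd2⟩ := hb {d} (by rw [mk_singleton]; exact one_lt_aleph0.trans hω)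
    refine ⟨max d1 d2, lt_max_of_lt_right (hd2 d rfl), fun γ hγ => ?_⟩
    exact lt_max_of_lt_left (hd1 ⟨γ, hγ⟩)
  choose nx hn1 hn2 using hstep
  let a : ℕ → J := fun n => Nat.rec (nx c) (fun _ x => nx x) n
  have ha : ∀ n, a (n + 1) = nx (a n) := fun _ => rfl
  obtain ⟨B, hB⟩ := bdd_nat hb hω a
  obtain ⟨δ, hδ, hmin⟩ := WellFounded.has_min (wellFounded_lt (α := J)) {x | ∀ n, a n ≤ x}
    ⟨B, fun n => (hB n).le⟩
  have hlt : ∀ n, a n < δ := fun n => lt_of_lt_of_le (hn1 (a n)) (hδ (n + 1))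
  have hcof : ∀ β < δ, ∃ n, β < a n := by
    intro β hβ
    by_contra hc
    push Not at hc
    exact hmin β hc hβ
  have hE : δ ∈ (E : Set J) := ⟨a, hlt, hcof⟩
  have hcδ : c < δ := lt_of_lt_of_le (hn1 c) (hδ 0)
  have hf := h1 δ hE hcδ
  obtain ⟨n, hn⟩ := hcof _ hf
  have h3 := h2 (f δ) δ hE rfl
  have h4 := hn2 (a n) (f δ) hn.le
  exact absurd (h3.trans_lt h4) (not_lt.2 (hδ (n + 1)))

/-- normality -/
theorem normal (A : Set J) (f : J → J) (hf : ∀ z ∈ A, f z < z)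
    (h : ∀ γ, Small {z | z ∈ A ∧ f z = γ}) : Small A := by
  classical
  choose g c h1 h2 using h
  choose b h2 using h2
  obtain ⟨α0⟩ : Nonempty J := by
    rw [← mk_ne_zero_iff]; exact (pos_of_gt hω).ne'
  refine ⟨fun z => if c (f z) < z then max (f z) (g (f z) z) else f z, α0, ?_, ?_⟩
  · intro z hz _
    have hm : z ∈ {z' | z' ∈ A ∧ f z' = f z} := ⟨hz, rfl⟩
    dsimp only
    by_cases hc : c (f z) < z
    · rw [if_pos hc]
      exact max_lt (hf z hz) (h1 (f z) z hm hc)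
    · rw [if_neg hc]; exact hf z hz
  · intro δ
    have hcard := mk_Iic_lt hb hI hω δ
    have hB : ∀ γ, ∃ B, ∀ δ' ≤ δ, b γ δ' < B := by
      intro γ
      obtain ⟨B, hB⟩ := bdd_range hb (fun δ' : Iic δ => b γ δ') hcard
      exact ⟨B, fun δ' h => hB ⟨δ', h⟩⟩
    choose B hB using hB
    obtain ⟨D1, hD1⟩ := bdd_range hb (fun γ : Iic δ => B γ) hcard
    obtain ⟨D2, hD2⟩ := bdd_range hb (fun γ : Iic δ => c γ) hcard
    refine ⟨max D1 D2, fun z hz he => ?_⟩
    have hm : z ∈ {z' | z' ∈ A ∧ f z' = f z} := ⟨hz, rfl⟩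
    by_cases hc : c (f z) < z
    · dsimp only at he
      rw [if_pos hc] at he
      have h3 : f z ≤ δ := by rw [← he]; exact le_max_left _ _
      have h4 : g (f z) z ≤ δ := by rw [← he]; exact le_max_right _ _
      have h5 := h2 (f z) (g (f z) z) z hm rfl
      exact (h5.trans (hB (f z) _ h4).le).trans ((hD1 ⟨f z, h3⟩).le.trans (le_max_left _ _))
    · dsimp only at he
      rw [if_neg hc] at he
      have h3 : f z ≤ δ := he.le
      exact (not_lt.1 hc).trans ((hD2 ⟨f z, h3⟩).le.trans (le_max_right _ _))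

/-- splitting: a function on `E` with many positive fibres -/
theorem splitting : ∃ (f : J → J) (Γ : Set J), #Γ = #J ∧
    ∀ γ ∈ Γ, ¬ Small {z | z ∈ (E : Set J) ∧ f z = γ} := by
  classical
  obtain ⟨α0⟩ : Nonempty J := by
    rw [← mk_ne_zero_iff]; exact (pos_of_gt hω).ne'
  have hex : ∀ α : J, ∃ a : ℕ → J, α ∈ (E : Set J) → (∀ n, a n < α) ∧ ∀ β < α, ∃ n, β < a n := by
    intro α
    by_cases h : α ∈ (E : Set J)
    · obtain ⟨a, ha⟩ := h
      exact ⟨a, fun _ => ha⟩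
    · exact ⟨fun _ => α0, fun h' => absurd h' h⟩
  choose a ha using hex
  have key : ∃ n, ∀ η, ¬ Small {α | α ∈ (E : Set J) ∧ η ≤ a α n} := by
    by_contra hc
    push Not at hc
    choose η hη using hc
    obtain ⟨H, hH⟩ := bdd_nat hb hω η
    apply not_small_E hb hI hω
    refine (small_union hb hω (small_iUnion hb hω _ hη) (small_bdd (Z := Iic H) H
      fun z hz => hz)).mono ?_
    intro α hα
    by_cases h : α ≤ H
    · exact Or.inr h
    · left
      obtain ⟨n, hn⟩ := (ha α hα).2 H (not_le.1 h)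
      exact mem_iUnion.2 ⟨n, hα, ((hH n).trans hn).le⟩
  obtain ⟨n, hn⟩ := key
  refine ⟨fun α => a α n, {γ | ¬ Small {z | z ∈ (E : Set J) ∧ a z n = γ}}, ?_, fun γ hγ => hγ⟩
  refine le_antisymm (mk_set_le _) ?_
  by_contra hlt
  obtain ⟨η, hη⟩ := hb _ (not_le.1 hlt)
  apply hn η
  refine normal hb hI hω _ (fun α => a α n) (fun z hz => (ha z hz.1).1 n) ?_
  intro γ
  by_cases hγ : η ≤ γ
  · have : ¬ (γ ∈ {γ | ¬ Small {z | z ∈ (E : Set J) ∧ a z n = γ}}) := fun h =>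
      absurd (hη γ h) (not_lt.2 hγ)
    simp only [mem_ofPred_eq, not_not] at this
    exact this.mono fun z hz => ⟨hz.1.1, hz.2⟩
  · refine small_bdd γ ?_
    rintro z ⟨⟨_, hz⟩, he⟩
    exact absurd (he ▸ hz) hγ

end

end Pool.Agent.H21.Stat
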