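import Pool.Agent.H21.Stat1

set_option autoImplicit false

/-! The σ-algebra on `[0,1]`. -/

namespace Pool.Agent.H21.Stat

open Cardinal Set

abbrev I01 := Set.Icc (0 : ℝ) 1

/-- the index set: a well-order of type `cof 𝔠` -/
noncomputable def kap : Cardinal.{0} := (𝔠).ord.cof

theorem kap_regular : kap.IsRegular :=
  isRegular_cof (isSuccLimit_ord aleph0_le_continuum)

theorem aleph0_lt_kap : ℵ₀ < kap := by
  have := lt_cof_ord_power (a := ℵ₀) (b := 2) le_rfl (by norm_num)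
  rwa [two_power_aleph0] at this

theorem kap_le : kap ≤ 𝔠 := by
  unfold kap
  exact Ordinal.cof_ord_le 𝔠

theorem cont_lt : 𝔠 < 2 ^ kap := by
  have h := lt_power_cof_ord aleph0_le_continuum
  have h2 : (𝔠 : Cardinal) ^ kap = 2 ^ kap := by
    rw [← two_power_aleph0, ← power_mul, aleph0_mul_eq aleph0_lt_kap.le]
  rw [← h2]
  exact h

abbrev JJ : Type := kap.ord.ToType

theorem mk_JJ : #JJ = kap := by
  rw [mk_toType, card_ord]

theorem JJ_b (S : Set JJ) (hS : #S < #JJ) : ∃ b, ∀ s ∈ S, s < b := by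
  rw [← not_isCofinal_iff]
  intro h
  have h1 := Order.cof_le h
  rw [Ordinal.cof_toType, kap_regular.cof_ord, ← mk_JJ] at h1
  exact absurd hS (not_lt.2 h1)

theorem JJ_I (a : JJ) : #(Iio a) < #JJ := by
  rw [mk_JJ]
  simpa using mk_Iio_lt a

theorem JJ_ω : ℵ₀ < #JJ := by rw [mk_JJ]; exact aleph0_lt_kap

theorem exists_emb : ∃ e : JJ → I01, Function.Injective e := by
  have h : #JJ ≤ #I01 := by
    rw [mk_JJ, mk_Icc_real (by norm_num)]
    exact kap_le
  obtain ⟨e⟩ := h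
  exact ⟨fun j => e j, e.injective⟩

/-- the σ-algebra of sets which are Borel modulo a nonstationary subset of the image of `e` -/
def NN (e : JJ → I01) : Set (Set I01) :=
  {A | ∃ B : Set I01, MeasurableSet B ∧ Small {j | ¬ (e j ∈ A ↔ e j ∈ B)}}

theorem small_empty : Small (∅ : Set JJ) := by
  obtain ⟨α0⟩ : Nonempty JJ := by
    rw [← mk_ne_zero_iff]; exact (pos_of_gt JJ_ω).ne'
  exact small_bdd α0 (fun z hz => absurd hz (by simp))

theorem NN_meas (e : JJ → I01) {A : Set I01} (h : MeasurableSet A) : A ∈ NN e := by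
  refine ⟨A, h, small_empty.mono ?_⟩
  intro j hj
  exact absurd Iff.rfl hj

theorem NN_compl (e : JJ → I01) : ∀ s ∈ NN e, sᶜ ∈ NN e := by
  rintro s ⟨B, hB, hS⟩
  refine ⟨Bᶜ, hB.compl, hS.mono ?_⟩
  intro j hj h
  exact hj (not_congr h)

theorem NN_union (e : JJ → I01) : ∀ f : ℕ → Set I01, (∀ n, f n ∈ NN e) → (⋃ n, f n) ∈ NN e := by
  intro f hf
  choose B hB hS using hf
  refine ⟨⋃ n, B n, MeasurableSet.iUnion hB, (small_iUnion JJ_b JJ_ω _ hS).mono ?_⟩
  intro j hj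
  by_contra hc
  apply hj
  simp only [mem_iUnion, mem_ofPred_eq, not_exists, not_not] at hc
  constructor
  · intro h
    obtain ⟨n, hn⟩ := mem_iUnion.1 h
    exact mem_iUnion.2 ⟨n, (hc n).1 hn⟩
  · intro h
    obtain ⟨n, hn⟩ := mem_iUnion.1 h
    exact mem_iUnion.2 ⟨n, (hc n).2 hn⟩

theorem NN_selector (e : JJ → I01) (he : Function.Injective e) (P : Set (Set I01))
    (hP : P.PairwiseDisjoint id) (h2 : ∀ p ∈ P, ∃ x ∈ p, ∃ y ∈ p, x ≠ y) :
    ∃ S ∈ NN e, ∀ p ∈ P, ∃! x, x ∈ p ∧ x ∈ S := by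
  classical
  have hsel : ∀ p ∈ P, ∃ x ∈ p, (∀ j, e j = x → ∃ i < j, e i ∈ p) := by
    intro p hp
    by_cases h : ∃ x ∈ p, x ∉ range e
    · obtain ⟨x, hx, hxe⟩ := h
      exact ⟨x, hx, fun j hj => absurd ⟨j, hj⟩ hxe⟩
    · push Not at h
      obtain ⟨x, hx, y, hy, hxy⟩ := h2 p hp
      obtain ⟨i, rfl⟩ := h x hx
      obtain ⟨j, rfl⟩ := h y hy
      have hij : i ≠ j := fun h => hxy (by rw [h])
      rcases lt_or_gt_of_ne hij with hlt | hlt
      · exact ⟨e j, hy, fun k hk => ⟨i, by rw [he hk]; exact hlt, hx⟩⟩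
      · exact ⟨e i, hx, fun k hk => ⟨j, by rw [he hk]; exact hlt, hy⟩⟩
  choose! s hs1 hs2 using hsel
  have huniq : ∀ p ∈ P, ∀ q ∈ P, ∀ x, x ∈ p → x ∈ q → p = q := by
    intro p hp q hq x hx hx'
    by_contra hne
    exact Set.disjoint_left.1 (hP hp hq hne) hx hx'
  refine ⟨s '' P, ⟨∅, MeasurableSet.empty, ?_⟩, ?_⟩
  · -- the trace of the selector is small
    obtain ⟨α0⟩ : Nonempty JJ := by
      rw [← mk_ne_zero_iff]; exact (pos_of_gt JJ_ω).ne'
    have hex : ∀ j : JJ, ∃ i : JJ, e j ∈ s '' P → i < j ∧ ∃ p ∈ P, e j ∈ p ∧ e i ∈ p ∧ s p = e j := by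
      intro j
      by_cases h : e j ∈ s '' P
      · obtain ⟨p, hp, hpe⟩ := h
        obtain ⟨i, hij, hi⟩ := hs2 p hp j hpe.symm
        exact ⟨i, fun _ => ⟨hij, p, hp, by rw [← hpe]; exact hs1 p hp, hi, hpe⟩⟩
      · exact ⟨α0, fun h' => absurd h' h⟩
    choose f hf using hex
    have hmem : ∀ j ∈ {j | ¬ (e j ∈ s '' P ↔ e j ∈ (∅ : Set I01))}, e j ∈ s '' P := by
      intro j hj
      by_contra hc
      exact hj ⟨fun h => absurd h hc, fun h => absurd h (by simp)⟩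
    refine ⟨f, α0, fun j hj _ => (hf j (hmem j hj)).1, fun γ => ?_⟩
    by_cases hne : ∃ j ∈ {j | ¬ (e j ∈ s '' P ↔ e j ∈ (∅ : Set I01))}, f j = γ
    · obtain ⟨j0, hj0, hj0γ⟩ := hne
      refine ⟨j0, fun j hj hjγ => ?_⟩
      obtain ⟨-, p, hp, h1, h3, h4⟩ := hf j (hmem j hj)
      obtain ⟨-, q, hq, h5, h6, h7⟩ := hf j0 (hmem j0 hj0)
      rw [hjγ] at h3
      rw [hj0γ] at h6
      have hpq := huniq p hp q hq _ h3 h6
      rw [hpq, h7] at h4
      exact (he h4).ge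
    · exact ⟨α0, fun j hj hjγ => absurd ⟨j, hj, hjγ⟩ hne⟩
  · intro p hp
    refine ⟨s p, ⟨hs1 p hp, p, hp, rfl⟩, ?_⟩
    rintro x ⟨hx, q, hq, rfl⟩
    rw [huniq p hp q hq _ hx (hs1 q hq)]

theorem NN_ne (e : JJ → I01) (he : Function.Injective e) : NN e ≠ Set.univ := by
  classical
  intro hN
  obtain ⟨f, Γ, hΓ, hpos⟩ := splitting (J := JJ) JJ_b JJ_I JJ_ω
  have hex : ∀ X : Set Γ, ∃ B : Set I01, MeasurableSet B ∧
      Small {j | ¬ (e j ∈ e '' {z | z ∈ (E : Set JJ) ∧ ∃ γ ∈ X, f z = γ} ↔ e j ∈ B)} := by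
    intro X
    have : e '' {z | z ∈ (E : Set JJ) ∧ ∃ γ ∈ X, f z = γ} ∈ NN e := by rw [hN]; trivial
    exact this
  choose B hB hS using hex
  have hinj : Function.Injective (fun X : Set Γ => (⟨B X, hB X⟩ : {t : Set I01 | MeasurableSet t})) := by
    intro X Y hXY
    have hBe : B X = B Y := congrArg Subtype.val hXY
    by_contra hne
    obtain ⟨γ, hγ⟩ : ∃ γ : Γ, ¬ (γ ∈ X ↔ γ ∈ Y) := by
      by_contra hc
      push Not at hc
      exact hne (Set.ext hc)
    apply hpos γ γ.2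
    refine (small_union JJ_b JJ_ω (hS X) (hS Y)).mono ?_
    rintro z ⟨hz, hfz⟩
    have hX : (e z ∈ e '' {z | z ∈ (E : Set JJ) ∧ ∃ γ ∈ X, f z = γ}) ↔ γ ∈ X := by
      rw [he.mem_set_image]
      constructor
      · rintro ⟨_, γ', hγ', h⟩
        have : γ = γ' := Subtype.ext (hfz.symm.trans h)
        rw [this]; exact hγ'
      · intro h; exact ⟨hz, γ, h, hfz⟩
    have hY : (e z ∈ e '' {z | z ∈ (E : Set JJ) ∧ ∃ γ ∈ Y, f z = γ}) ↔ γ ∈ Y := by
      rw [he.mem_set_image]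
      constructor
      · rintro ⟨_, γ', hγ', h⟩
        have : γ = γ' := Subtype.ext (hfz.symm.trans h)
        rw [this]; exact hγ'
      · intro h; exact ⟨hz, γ, h, hfz⟩
    by_contra hc
    simp only [mem_union, mem_ofPred_eq, not_or, not_not] at hc
    obtain ⟨c1, c2⟩ := hc
    apply hγ
    rw [← hX, ← hY, c1, c2, hBe]
  have h1 : #(Set Γ) ≤ #{t : Set I01 | MeasurableSet t} := mk_le_of_injective hinj
  have h2 : #{t : Set I01 | MeasurableSet t} ≤ 𝔠 := by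
    have hg := MeasurableSpace.cardinal_measurableSet_le_continuum
      (s := MeasurableSpace.countableGeneratingSet I01)
      ((MeasurableSpace.countable_countableGeneratingSet.le_aleph0).trans aleph0_le_continuum)
    rwa [MeasurableSpace.generateFrom_countableGeneratingSet] at hg
  rw [mk_set, hΓ, mk_JJ] at h1
  exact absurd cont_lt (not_lt.2 (h1.trans h2))

end Pool.Agent.H21.Stat
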