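import Pool.Agent.H21.CFGGen

set_option autoImplicit false

/-! The complement of the set of prefixes of the Thue-Morse word. -/

namespace Pool.Agent.H21.TM

open Pool.Agent.H21.CFG

/-- the Thue-Morse sequence -/
def tm (n : ℕ) : Bool :=
  if h : n = 0 then false else xor (tm (n / 2)) (decide (n % 2 = 1))
termination_by n
decreasing_by omega

theorem tm_zero : tm 0 = false := by rw [tm]; rfl

theorem tm_even (i : ℕ) : tm (2 * i) = tm i := by
  rcases Nat.eq_zero_or_pos i with h | h
  · subst h; rfl
  · rw [tm, dif_neg (by omega), show 2 * i / 2 = i by omega, show 2 * i % 2 = 0 by omega]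
    simp

theorem tm_odd (i : ℕ) : tm (2 * i + 1) = !tm i := by
  rw [tm, dif_neg (by omega), show (2 * i + 1) / 2 = i by omega,
    show (2 * i + 1) % 2 = 1 by omega]
  simp

theorem no_pow : ∀ l : ℕ, 1 ≤ l → ∀ m : ℕ,
    ¬ (∀ j, m ≤ j → j + l < m + 6 * l → tm j = tm (j + l)) := by
  intro l
  induction l using Nat.strong_induction_on with
  | _ l ih =>
    intro hl m H
    rcases Nat.even_or_odd' l with ⟨h, rfl | rfl⟩
    · refine ih h (by omega) (by omega) ((m + 1) / 2) ?_
      intro i h1 h2
      have h3 := H (2 * i) (by omega) (by omega)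
      rw [← mul_add, tm_even, tm_even] at h3
      exact h3
    · set x := m + (2 * h + 1) with hx
      set i := (x + 2) / 4 with hi
      set j := 4 * i + 1 with hj
      have e1 : tm j = tm (j + 1) := by
        rw [hj, show 4 * i + 1 = 2 * (2 * i) + 1 by ring, tm_odd, tm_even,
          show 2 * (2 * i) + 1 + 1 = 2 * (2 * i + 1) by ring, tm_even, tm_odd]
      have h3 := H (j - (2 * h + 1)) (by omega) (by omega)
      have h4 := H (j - (2 * h + 1) + 1) (by omega) (by omega)
      rw [show j - (2 * h + 1) + (2 * h + 1) = j by omega] at h3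
      rw [show j - (2 * h + 1) + 1 + (2 * h + 1) = j + 1 by omega] at h4
      obtain ⟨e, he⟩ : ∃ e, j - (2 * h + 1) = 2 * e := ⟨2 * i - h, by omega⟩
      rw [he, tm_even] at h3
      rw [he, tm_odd] at h4
      rw [← h3, ← h4] at e1
      cases h5 : tm e <;> rw [h5] at e1 <;> simp at e1

/-- the prefix of length `n` -/
def pt (n : ℕ) : List Bool := (List.range n).map tm

theorem pt_length (n : ℕ) : (pt n).length = n := by simp [pt]

theorem pt_get (n i : ℕ) (h : i < n) : (pt n)[i]? = some (tm i) := by
  simp [pt, h]

/-- the language: words that are not prefixes of the Thue-Morse word -/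
def L : Language Bool := {w | w ≠ pt w.length}

theorem mem_L {w : List Bool} : w ∈ L ↔ w ≠ pt w.length := Iff.rfl

theorem get_of_not {w : List Bool} (h : w = pt w.length) {i : ℕ} (hi : i < w.length) :
    w[i]? = some (tm i) := by
  rw [h]; exact pt_get _ _ hi

/-- words containing a sixth power are in the language -/
theorem pow_mem {a u b : List Bool} (hu : u ≠ []) :
    a ++ (List.replicate 6 u).flatten ++ b ∈ L := by
  rw [mem_L]
  intro h
  set F5 := (List.replicate 5 u).flatten with hF5
  set F6 := (List.replicate 6 u).flatten with hF6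
  have e1 : F6 = u ++ F5 := by rw [hF6, hF5, List.replicate_succ, List.flatten_cons]
  have e2 : F6 = F5 ++ u := by
    rw [hF6, hF5, List.replicate_succ', List.flatten_append]; simp
  have l5 : F5.length = 5 * u.length := by
    rw [hF5, List.length_flatten, List.map_replicate, List.sum_replicate]; rfl
  have l6 : F6.length = 6 * u.length := by rw [e2, List.length_append, l5]; ring
  have hl : 1 ≤ u.length := List.length_pos_iff.2 hu
  refine no_pow u.length hl a.length ?_
  intro j h1 h2
  obtain ⟨i, rfl⟩ := Nat.exists_eq_add_of_le h1
  have hi : i < F5.length := by rw [l5]; omega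
  have hlen : (a ++ F6 ++ b).length = a.length + 6 * u.length + b.length := by
    rw [List.length_append, List.length_append, l6]
  have g1 := get_of_not h (i := a.length + i) (by rw [hlen]; omega)
  have g2 := get_of_not h (i := a.length + i + u.length) (by rw [hlen]; omega)
  have k1 : (a ++ F6 ++ b)[a.length + i]? = F5[i]? := by
    rw [List.append_assoc, List.getElem?_append_right (by omega), Nat.add_sub_cancel_left,
      List.getElem?_append_left (by omega), e2, List.getElem?_append_left hi]
  have k2 : (a ++ F6 ++ b)[a.length + i + u.length]? = F5[i]? := by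
    rw [List.append_assoc, List.getElem?_append_right (by omega),
      List.getElem?_append_left (by omega), e1, List.getElem?_append_right (by omega)]
    congr 1
    omega
  rw [k1] at g1
  rw [k2, g1] at g2
  exact Option.some.inj g2

/-! ### the grammar -/

inductive NT | S | R | A (b : Bool)
  deriving DecidableEq

open NT Symbol

def rulesList : List (ContextFreeRule Bool NT) :=
  [⟨S, [terminal true, nonterminal R]⟩, ⟨R, []⟩] ++
  [false, true].map (fun x => ⟨R, [terminal x, nonterminal R]⟩) ++
  [false, true].map (fun a => ⟨A a, [terminal a]⟩) ++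
  [(false, false, false), (false, false, true), (false, true, false), (false, true, true),
    (true, false, false), (true, false, true), (true, true, false), (true, true, true)].map
    (fun p => ⟨A p.1, [terminal p.2.1, nonterminal (A p.1), terminal p.2.2]⟩) ++
  [false, true].map (fun a => ⟨S, [nonterminal (A a), terminal a, nonterminal R]⟩) ++
  [(false, false), (false, true), (true, false), (true, true)].map
    (fun p => ⟨S, [terminal p.1, nonterminal (A p.2), terminal (!p.2), nonterminal R]⟩)

def G : ContextFreeGrammar Bool where
  NT := NT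
  initial := S
  rules := rulesList.toFinset

def semA (a : Bool) (w : List Bool) : Prop :=
  ∃ p s, p.length = s.length ∧ w = p ++ a :: s

def semS (w : List Bool) : Prop :=
  (∃ r, w = true :: r) ∨ (∃ a u r, semA a u ∧ w = u ++ a :: r) ∨
  (∃ x a u r, semA a u ∧ w = x :: (u ++ (!a) :: r))

def sem : NT → List Bool → Prop
  | S, w => semS w
  | R, _ => True
  | A a, w => semA a w

theorem mem_rules {r : ContextFreeRule Bool NT} : r ∈ G.rules ↔ r ∈ rulesList :=
  List.mem_toFinset

theorem m1 : (⟨S, [terminal true, nonterminal R]⟩ : ContextFreeRule Bool NT) ∈ rulesList := by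
  decide
theorem m2 : (⟨R, []⟩ : ContextFreeRule Bool NT) ∈ rulesList := by decide
theorem m3 : ∀ x, (⟨R, [terminal x, nonterminal R]⟩ : ContextFreeRule Bool NT) ∈ rulesList := by
  decide
theorem m4 : ∀ a, (⟨A a, [terminal a]⟩ : ContextFreeRule Bool NT) ∈ rulesList := by decide
theorem m5 : ∀ a x y, (⟨A a, [terminal x, nonterminal (A a), terminal y]⟩ :
    ContextFreeRule Bool NT) ∈ rulesList := by decide
theorem m6 : ∀ a, (⟨S, [nonterminal (A a), terminal a, nonterminal R]⟩ :
    ContextFreeRule Bool NT) ∈ rulesList := by decide
theorem m7 : ∀ x a, (⟨S, [terminal x, nonterminal (A a), terminal (!a), nonterminal R]⟩ :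
    ContextFreeRule Bool NT) ∈ rulesList := by decide

theorem sem_sound' (r : ContextFreeRule Bool NT) (hr' : r ∈ rulesList) (u : List Bool)
    (hu : semL sem r.output u) : sem r.input u := by
  simp only [rulesList, List.mem_append, List.mem_cons, List.not_mem_nil, or_false,
    List.mem_map, Prod.exists] at hr'
  rcases hr' with (((((rfl | rfl) | ⟨x, -, rfl⟩) | ⟨a, -, rfl⟩) | ⟨a, x, y, -, rfl⟩) |
    ⟨a, -, rfl⟩) | ⟨x, a, -, rfl⟩
  · obtain ⟨w', rfl, -⟩ := hu
    exact Or.inl ⟨_, rfl⟩
  · trivial
  · trivial
  · obtain ⟨w', rfl, rfl⟩ := hu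
    exact ⟨[], [], rfl, rfl⟩
  · obtain ⟨w', rfl, v, t, rfl, ⟨p, s, hps, rfl⟩, w'', rfl, rfl⟩ := hu
    refine ⟨x :: p, s ++ [y], by simp [hps], by simp⟩
  · obtain ⟨v, t, rfl, hv, w', rfl, t', t'', rfl, -, rfl⟩ := hu
    exact Or.inr (Or.inl ⟨a, v, t', hv, by simp⟩)
  · obtain ⟨w0, rfl, v, t, rfl, hv, w', rfl, t', t'', rfl, -, rfl⟩ := hu
    exact Or.inr (Or.inr ⟨x, a, v, t', hv, by simp⟩)

theorem sem_sound : ∀ r ∈ G.rules, ∀ u, semL sem r.output u → sem r.input u :=
  fun r hr u hu => sem_sound' r (mem_rules.1 hr) u hu

theorem genR (w : List Bool) : GenL G [nonterminal R] w := by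
  induction w with
  | nil =>
    exact GenL.rule (g := G) ⟨R, []⟩ (mem_rules.2 m2) GenL.nil
  | cons x w ih =>
    exact GenL.rule (g := G) ⟨R, [terminal x, nonterminal R]⟩ (mem_rules.2 (m3 x))
      (GenL.term x _ _ ih)

theorem genA (a : Bool) : ∀ (n : ℕ) (p s : List Bool), p.length = n → s.length = n →
    GenL G [nonterminal (A a)] (p ++ a :: s) := by
  intro n
  induction n with
  | zero =>
    intro p s hp hs
    rw [List.length_eq_zero_iff.1 hp, List.length_eq_zero_iff.1 hs]
    exact GenL.rule (g := G) ⟨A a, [terminal a]⟩ (mem_rules.2 (m4 a)) (GenL.term a _ _ GenL.nil)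
  | succ n ih =>
    intro p s hp hs
    obtain ⟨x, p', rfl⟩ : ∃ x p', p = x :: p' := by
      cases p with
      | nil => simp at hp
      | cons x p' => exact ⟨x, p', rfl⟩
    obtain ⟨s', y, rfl⟩ : ∃ s' y, s = s' ++ [y] := by
      rcases List.eq_nil_or_concat s with h | ⟨s', y, h⟩
      · rw [h] at hs; simp at hs
      · exact ⟨s', y, by rw [h, List.concat_eq_append]⟩
    have h1 := ih p' s' (by simpa using hp) (by simpa using hs)
    have h2 : GenL G [terminal x, nonterminal (A a), terminal y]
        (x :: ((p' ++ a :: s') ++ [y])) :=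
      GenL.term x _ _ (h1.append (s2 := [terminal y]) (GenL.term y _ _ GenL.nil))
    have h3 := GenL.rule (g := G) ⟨A a, [terminal x, nonterminal (A a), terminal y]⟩
      (mem_rules.2 (m5 a x y)) h2
    have e : x :: p' ++ a :: (s' ++ [y]) = x :: ((p' ++ a :: s') ++ [y]) := by simp
    rw [e]
    exact h3

theorem genS {w : List Bool} (h : semS w) : GenL G [nonterminal S] w := by
  rcases h with ⟨r, rfl⟩ | ⟨a, u, r, ⟨p, s, hps, rfl⟩, rfl⟩ | ⟨x, a, u, r, ⟨p, s, hps, rfl⟩, rfl⟩
  · exact GenL.rule (g := G) ⟨S, [terminal true, nonterminal R]⟩ (mem_rules.2 m1)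
      (GenL.term _ _ _ (genR r))
  · have t : GenL G [terminal a, nonterminal R] (a :: r) := GenL.term a _ _ (genR r)
    have h2 : GenL G [nonterminal (A a), terminal a, nonterminal R] ((p ++ a :: s) ++ (a :: r)) :=
      (genA a _ p s rfl hps.symm).append t
    exact GenL.rule (g := G) ⟨S, [nonterminal (A a), terminal a, nonterminal R]⟩
      (mem_rules.2 (m6 a)) h2
  · have t : GenL G [terminal (!a), nonterminal R] ((!a) :: r) := GenL.term (!a) _ _ (genR r)
    have h1 : GenL G [nonterminal (A a), terminal (!a), nonterminal R]
        ((p ++ a :: s) ++ ((!a) :: r)) := (genA a _ p s rfl hps.symm).append t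
    have h2 : GenL G [terminal x, nonterminal (A a), terminal (!a), nonterminal R]
        (x :: ((p ++ a :: s) ++ ((!a) :: r))) := GenL.term x _ _ h1
    exact GenL.rule (g := G) ⟨S, [terminal x, nonterminal (A a), terminal (!a), nonterminal R]⟩
      (mem_rules.2 (m7 x a)) h2

theorem sem_iff (w : List Bool) : semS w ↔ w ∈ L := by
  rw [mem_L]
  constructor
  · intro h he
    rcases h with ⟨r, rfl⟩ | ⟨a, u, r, ⟨p, s, hps, rfl⟩, rfl⟩ | ⟨x, a, u, r, ⟨p, s, hps, rfl⟩, rfl⟩
    · have := get_of_not he (i := 0) (by simp)
      rw [tm_zero] at this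
      simp at this
    · have g1 := get_of_not he (i := p.length) (by
        simp only [List.length_append, List.length_cons]; omega)
      have g2 := get_of_not he (i := 2 * p.length + 1) (by
        simp only [List.length_append, List.length_cons]; omega)
      have k1 : ((p ++ a :: s) ++ a :: r)[p.length]? = some a := by
        rw [List.append_assoc, List.getElem?_append_right le_rfl]; simp
      have k2 : ((p ++ a :: s) ++ a :: r)[2 * p.length + 1]? = some a := by
        have hl : (p ++ a :: s).length = 2 * p.length + 1 := by simp; omega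
        rw [List.getElem?_append_right (by omega), hl]; simp
      rw [k1] at g1
      rw [k2, tm_odd, ← Option.some.inj g1] at g2
      have := Option.some.inj g2
      cases a <;> simp at this
    · have g1 := get_of_not he (i := p.length + 1) (by
        simp only [List.length_append, List.length_cons]; omega)
      have g2 := get_of_not he (i := 2 * (p.length + 1)) (by
        simp only [List.length_append, List.length_cons]; omega)
      have k1 : (x :: ((p ++ a :: s) ++ (!a) :: r))[p.length + 1]? = some a := by
        rw [List.getElem?_cons_succ, List.append_assoc, List.getElem?_append_right le_rfl]; simp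
      have k2 : (x :: ((p ++ a :: s) ++ (!a) :: r))[2 * (p.length + 1)]? = some (!a) := by
        have hl : (p ++ a :: s).length = 2 * p.length + 1 := by simp; omega
        rw [show 2 * (p.length + 1) = (2 * p.length + 1) + 1 by ring, List.getElem?_cons_succ,
          List.getElem?_append_right (by omega), hl]
        simp
      rw [k1] at g1
      rw [k2, tm_even, ← Option.some.inj g1] at g2
      have := Option.some.inj g2
      cases a <;> simp at this
  · intro hne
    have hex : ∃ i, i < w.length ∧ w[i]? ≠ some (tm i) := by
      by_contra hcon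
      push Not at hcon
      apply hne
      apply List.ext_getElem?
      intro i
      by_cases hi : i < w.length
      · rw [hcon i hi, pt_get _ _ hi]
      · rw [List.getElem?_eq_none (by omega), List.getElem?_eq_none (by rw [pt_length]; omega)]
    classical
    set i := Nat.find hex with hi
    obtain ⟨h1, h2⟩ := Nat.find_spec hex
    rw [← hi] at h1 h2
    have hmin : ∀ j < i, w[j]? = some (tm j) := by
      intro j hj
      by_contra hc
      exact Nat.find_min hex hj ⟨by omega, hc⟩
    have hget : w[i]? = some (!tm i) := by
      rw [List.getElem?_eq_getElem h1] at h2 ⊢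
      congr 1
      have h3 : w[i] ≠ tm i := fun h => h2 (by rw [h])
      cases h4 : tm i <;> cases h5 : w[i] <;> simp_all
    have hsplit : ∀ j, j < i → w = w.take j ++ tm j :: ((w.drop (j + 1)).take (i - j - 1) ++
        (!tm i) :: w.drop (i + 1)) := by
      intro j hj
      have hj' : j < w.length := by omega
      have e1 : w[j]'hj' = tm j := by
        have := hmin j hj
        rw [List.getElem?_eq_getElem hj'] at this
        exact Option.some.inj this
      have e2 : w[i]'h1 = !tm i := by
        rw [List.getElem?_eq_getElem h1] at hget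
        exact Option.some.inj hget
      have s1 : w = w.take j ++ w[j]'hj' :: w.drop (j + 1) := by
        rw [List.getElem_cons_drop, List.take_append_drop]
      have s2 : w.drop (j + 1) = (w.drop (j + 1)).take (i - j - 1) ++
          w[i]'h1 :: w.drop (i + 1) := by
        have h3 := (List.take_append_drop (i - j - 1) (w.drop (j + 1))).symm
        rw [List.drop_drop, show j + 1 + (i - j - 1) = i by omega] at h3
        rw [List.getElem_cons_drop]
        exact h3
      rw [e1] at s1
      rw [e2] at s2
      rw [← s2]
      exact s1
    rcases Nat.eq_zero_or_pos i with h0 | h0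
    · left
      rw [h0] at hget h1
      obtain ⟨x, r, rfl⟩ : ∃ x r, w = x :: r := by
        cases w with
        | nil => simp at h1
        | cons x r => exact ⟨x, r, rfl⟩
      rw [tm_zero] at hget
      simp only [List.getElem?_cons_zero, Option.some.injEq] at hget
      exact ⟨r, by rw [hget]; rfl⟩
    · rcases Nat.even_or_odd' i with ⟨j, hj | hj⟩
      · right; right
        have hs := hsplit j (by omega)
        obtain ⟨x, p, hxp⟩ : ∃ x p, w.take j = x :: p := by
          cases hw : w.take j with
          | nil =>
            have := congrArg List.length hw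
            rw [List.length_take] at this
            simp only [List.length_nil] at this
            omega
          | cons x r => exact ⟨x, r, rfl⟩
        have hpl : p.length + 1 = j := by
          have := congrArg List.length hxp
          rw [List.length_take, List.length_cons] at this
          omega
        refine ⟨x, tm j, p ++ tm j :: (w.drop (j + 1)).take (i - j - 1), w.drop (i + 1),
          ⟨p, _, ?_, rfl⟩, ?_⟩
        · rw [List.length_take, List.length_drop]; omega
        · rw [hxp] at hs
          have ht : tm i = tm j := by rw [hj, tm_even]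
          rw [ht] at hs
          conv_lhs => rw [hs]
          simp
      · right; left
        have hs := hsplit j (by omega)
        refine ⟨tm j, w.take j ++ tm j :: (w.drop (j + 1)).take (i - j - 1), w.drop (i + 1),
          ⟨w.take j, _, ?_, rfl⟩, ?_⟩
        · rw [List.length_take, List.length_take, List.length_drop]; omega
        · have ht : (!tm i) = tm j := by rw [hj, tm_odd, Bool.not_not]
          rw [ht] at hs
          conv_lhs => rw [hs]
          simp

theorem L_cf : L.IsContextFree := by
  refine ⟨G, ?_⟩
  ext w
  rw [mem_language_iff, ← sem_iff]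
  constructor
  · intro h
    have := sound (g := G) sem sem_sound h
    obtain ⟨u, v, rfl, hu, hv⟩ := this
    rw [show v = [] from hv, List.append_nil]
    exact hu
  · exact genS

theorem L_not_regular : ¬ L.IsRegular := by
  intro h
  have hc := h.compl
  obtain ⟨σ, hσ, M, hM⟩ := hc
  have hmem : ∀ w : List Bool, w ∈ M.accepts ↔ w = pt w.length := by
    intro w
    rw [hM]
    show ¬ (w ≠ pt w.length) ↔ _
    exact not_not
  have h1 : pt (Fintype.card σ) ∈ M.accepts := by
    rw [hmem, pt_length]
  obtain ⟨a, b, c, e, -, hb, hsub⟩ := M.pumping_lemma h1 (by rw [pt_length])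
  have h2 : a ++ (List.replicate 6 b).flatten ++ c ∈ M.accepts := by
    apply hsub
    refine Language.append_mem_mul (Language.append_mem_mul rfl ?_) rfl
    exact Language.mem_kstar.2 ⟨List.replicate 6 b, rfl, fun y hy => List.eq_of_mem_replicate hy⟩
  rw [hmem] at h2
  exact (mem_L.1 (pow_mem hb)) h2

end Pool.Agent.H21.TM
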